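import Mathlib
import Pool.Agent.H568R2.Defs

/-!
Randomized circuits and CNF formulas given by their clause matrices.
-/

namespace SmallDepth

open DomAC0

/-- A randomized circuit: a probability distribution on finitely many circuits. (Random input
bits are the special case of the uniform distribution on the circuits obtained by fixing them.) -/
structure RandCircuit (J : Type) where
  Ω : Type
  fin : Fintype Ω
  prob : Ω → ℝ
  nonneg : ∀ ω, 0 ≤ prob ω
  total : ∑ ω, prob ω = 1
  circ : Ω → Circuit J

/-- All circuits in the support of the distribution have depth at most `d` and at most `S`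
gates. -/
def RandCircuit.Bounded {J : Type} (R : RandCircuit J) (d S : ℕ) : Prop :=
  ∀ ω, (R.circ ω).depth ≤ d ∧ (R.circ ω).size ≤ S

open Classical in
/-- On the input `x` the randomized circuit outputs the truth value of `p` with probability at
least `2 / 3`. -/
noncomputable def RandCircuit.Correct {J : Type} (R : RandCircuit J) (x : J → Bool) (p : Prop) :
    Prop :=
  letI := R.fin
  (2 : ℝ) / 3 ≤ ∑ ω, if (R.circ ω).eval x = decide p then R.prob ω else 0

/-- A CNF formula with `M` clauses over `n` variables is given by the bits `x (c, v, b)`: the
clause `c` contains the literal of the variable `v` that is true when `v` has the value `b`.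
`Models x α` says that the assignment `α` satisfies all clauses. -/
def Models {n M : ℕ} (x : Fin M × Fin n × Bool → Bool) (α : Fin n → Bool) : Prop :=
  ∀ c : Fin M, ∃ v : Fin n, x (c, v, α v) = true

/-- Every clause has at most `w` literals. -/
def WidthLe {n M : ℕ} (x : Fin M × Fin n × Bool → Bool) (w : ℕ) : Prop :=
  ∀ c : Fin M, (Finset.univ.filter (fun l : Fin n × Bool => x (c, l) = true)).card ≤ w

end SmallDepth
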