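import Mathlib
import Pool.Agent.H592R3.Defs

/-!
Interactive proofs with public coins whose verifier is a circuit of small depth.
-/

namespace SmallDepth

open DomAC0

/-- A public-coin interactive proof (Arthur-Merlin game) about an input `x : J → Bool`, as the
tree of its possible conversations. At a node `merlin k next` the prover sends `k` bits. At a node
`arthur N p next` the verifier sends the public outcome `i < N` of a random experiment with
probabilities `p i`. At a leaf `verify C` the conversation is over and the verifier accepts the
input `x` when `C.eval x = true`; the circuit may depend on the whole conversation. -/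
inductive Game (J : Type) where
  | verify (C : Circuit J) : Game J
  | merlin (k : ℕ) (next : Fin (2 ^ k) → Game J) : Game J
  | arthur (N : ℕ) (p : Fin N → ℝ) (next : Fin N → Game J) : Game J

/-- The probability that the verifier accepts the input `x` when the prover plays optimally. -/
noncomputable def Game.value {J : Type} : Game J → (J → Bool) → ℝ
  | .verify C, x => if C.eval x = true then 1 else 0
  | .merlin _ next, x => ⨆ z, (next z).value x
  | .arthur _ p next, x => ∑ i, p i * (next i).value x

/-- In every conversation the prover sends at most `g` bits altogether and the final circuit has
depth at most `d` and at most `S` gates. (The number of rounds is not bounded.) -/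
def Game.Bounded {J : Type} (d S : ℕ) : Game J → ℕ → Prop
  | .verify C, _ => C.depth ≤ d ∧ C.size ≤ S
  | .merlin k next, g => k ≤ g ∧ ∀ z, (next z).Bounded d S (g - k)
  | .arthur _ p next, g => (∀ i, 0 ≤ p i) ∧ ∑ i, p i = 1 ∧ ∀ i, (next i).Bounded d S g

end SmallDepth
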