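import Mathlib
import Pool.Agent.H568R2.Switch

/-!
Decision trees: functions of small decision-tree depth, certificates, densities, and the
variables seen by a tree on a subcube.
-/

namespace H592R3

open Finset H568R2

section Basic
variable {I : Type*} [DecidableEq I]

/-- `f` has decision-tree depth at most `h`. -/
def DT : ℕ → ((I → Bool) → Bool) → Prop
  | 0, f => ∃ b, ∀ x, f x = b
  | h + 1, f => (∃ b, ∀ x, f x = b) ∨
      ∃ i : I, ∀ b : Bool, DT h (fun x => f (Function.update x i b))

lemma DT.of_const {h : ℕ} {f : (I → Bool) → Bool} (hf : ∃ b, ∀ x, f x = b) : DT h f := by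
  cases h with
  | zero => exact hf
  | succ h => exact Or.inl hf

lemma DT.succ : ∀ {h : ℕ} {f : (I → Bool) → Bool}, DT h f → DT (h + 1) f
  | 0, f, hf => Or.inl hf
  | h + 1, f, hf => by
      rcases hf with hc | ⟨i, hi⟩
      · exact Or.inl hc
      · exact Or.inr ⟨i, fun b => (hi b).succ⟩

lemma DT.mono {h h' : ℕ} {f : (I → Bool) → Bool} (hf : DT h f) (hh : h ≤ h') : DT h' f := by
  induction hh with
  | refl => exact hf
  | step _ ih => exact ih.succ

lemma DT.cert (b : Bool) : ∀ {h : ℕ} {f : (I → Bool) → Bool}, DT h f → Cert h b f
  | 0, f, hf => by
      obtain ⟨c, hc⟩ := hf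
      intro x hx
      exact ⟨∅, by simp, fun y _ => by rw [hc, ← hc x, hx]⟩
  | h + 1, f, hf => by
      rcases hf with ⟨c, hc⟩ | ⟨i, hi⟩
      · intro x hx
        exact ⟨∅, by simp, fun y _ => by rw [hc, ← hc x, hx]⟩
      · intro x hx
        obtain ⟨A, hA, hy⟩ := (hi (x i)).cert b x (by
          show f (Function.update x i (x i)) = b
          rw [Function.update_eq_self]; exact hx)
        refine ⟨insert i A, (Finset.card_insert_le _ _).trans (by omega), fun y hxy => ?_⟩
        have h1 := hy y (fun j hj => hxy j (Finset.mem_insert_of_mem hj))
        have h2 : Function.update y i (x i) = y := by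
          rw [← hxy i (Finset.mem_insert_self i A), Function.update_eq_self]
        change f (Function.update y i (x i)) = b at h1
        rw [h2] at h1
        exact h1

lemma DT.of_junta_one {f : (I → Bool) → Bool} (hf : Junta 1 f) {h : ℕ} (hh : 1 ≤ h) :
    DT h f := by
  obtain ⟨A, hA, hd⟩ := hf
  apply DT.mono (h := 1) _ hh
  rcases Nat.eq_zero_or_pos A.card with h0 | h0
  · have hA0 : A = ∅ := Finset.card_eq_zero.1 h0
    subst hA0
    exact Or.inl ⟨f (fun _ => true), fun x => hd _ _ (by simp)⟩
  · obtain ⟨i, hi⟩ := Finset.card_eq_one.1 (by omega : A.card = 1)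
    subst hi
    refine Or.inr ⟨i, fun b => ⟨f (fun _ => b), fun x => hd _ _ ?_⟩⟩
    intro j hj
    rw [Finset.mem_singleton] at hj
    subst hj
    simp

/-- Querying a set of stars. -/
lemma DT.of_stars (F : (I → Bool) → Bool) {h : ℕ} (A : Finset I) :
    ∀ (ρ : Restr I), (∀ i ∈ A, ρ i = none) →
    (∀ π : I → Bool, DT h (rs F (setOn ρ A π))) → DT (A.card + h) (rs F ρ) := by
  induction A using Finset.induction_on with
  | empty =>
    intro ρ _ hD
    have h1 := hD (fun _ => true)
    have h2 : setOn ρ ∅ (fun _ => true) = ρ := by
      funext i; unfold setOn; simp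
    rw [h2] at h1
    simpa using h1
  | insert i A hi ih =>
    intro ρ hs hD
    rw [Finset.card_insert_of_notMem hi]
    have he : A.card + 1 + h = (A.card + h) + 1 := by ring
    rw [he]
    refine Or.inr ⟨i, fun b => ?_⟩
    have hf : (fun x => rs F ρ (Function.update x i b)) = rs F (setOn ρ {i} (fun _ => b)) := by
      funext x
      unfold rs
      congr 1
      funext j
      unfold ov setOn
      by_cases hj : j = i
      · subst hj
        rw [hs j (Finset.mem_insert_self j A)]
        simp
      · simp [hj]
    rw [hf]
    apply ih
    · intro j hj
      have hne : j ≠ i := fun h => hi (h ▸ hj)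
      unfold setOn
      rw [if_neg (by simpa using hne)]
      exact hs j (Finset.mem_insert_of_mem hj)
    · intro π
      have h3 : setOn (setOn ρ {i} (fun _ => b)) A π =
          setOn ρ (insert i A) (fun j => if j = i then b else π j) := by
        funext j
        unfold setOn
        by_cases hj : j = i
        · subst hj
          rw [if_neg hi]
          simp
        · by_cases hjA : j ∈ A
          · simp [hj, hjA]
          · simp [hj, hjA]
      rw [h3]
      exact hD _

end Basic

section Density
variable {I : Type*} [Fintype I] [DecidableEq I]

/-- number of satisfying assignments -/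
def cnt (f : (I → Bool) → Bool) : ℕ := (univ.filter (fun x : I → Bool => f x = true)).card

lemma cnt_update (f : (I → Bool) → Bool) (i : I) (b : Bool) :
    cnt (fun x => f (Function.update x i b)) =
      2 * (univ.filter (fun x : I → Bool => f x = true ∧ x i = b)).card := by
  classical
  unfold cnt
  have hsplit : (univ.filter (fun x : I → Bool => f (Function.update x i b) = true)) =
      (univ.filter (fun x : I → Bool => f x = true ∧ x i = b)) ∪
      (univ.filter (fun x : I → Bool => f x = true ∧ x i = b)).image
        (fun x => Function.update x i (!b)) := by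
    ext x
    simp only [Finset.mem_filter, Finset.mem_univ, true_and, Finset.mem_union, Finset.mem_image]
    constructor
    · intro hx
      by_cases hxi : x i = b
      · left
        rw [← hxi, Function.update_eq_self] at hx
        exact ⟨hx, hxi⟩
      · right
        refine ⟨Function.update x i b, ⟨hx, by simp⟩, ?_⟩
        funext j
        by_cases hj : j = i
        · subst hj
          simp only [Function.update_self]
          cases hb : x j <;> cases b <;> simp_all
        · simp [hj]
    · rintro (⟨h1, h2⟩ | ⟨y, ⟨h1, h2⟩, rfl⟩)
      · rw [← h2, Function.update_eq_self]; exact h1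
      · have : Function.update (Function.update y i (!b)) i b = y := by
          rw [Function.update_idem, ← h2, Function.update_eq_self]
        rw [this]; exact h1
  rw [hsplit, Finset.card_union_of_disjoint, Finset.card_image_of_injOn]
  · ring
  · intro x hx y hy hxy
    have hx2 : x i = b := (Finset.mem_filter.1 hx).2.2
    have hy2 : y i = b := (Finset.mem_filter.1 hy).2.2
    funext j
    by_cases hj : j = i
    · subst hj; rw [hx2, hy2]
    · have := congrFun hxy j
      simpa [hj] using this
  · rw [Finset.disjoint_left]
    intro x hx hx'
    obtain ⟨y, hy, rfl⟩ := Finset.mem_image.1 hx'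
    have := (Finset.mem_filter.1 hx).2.2
    simp at this

lemma cnt_split (f : (I → Bool) → Bool) (i : I) :
    cnt (fun x => f (Function.update x i false)) + cnt (fun x => f (Function.update x i true)) =
      2 * cnt f := by
  classical
  rw [cnt_update, cnt_update, ← mul_add]
  congr 1
  unfold cnt
  rw [← Finset.card_union_of_disjoint]
  · congr 1
    ext x
    simp only [Finset.mem_filter, Finset.mem_univ, true_and, Finset.mem_union]
    constructor
    · rintro (⟨h, _⟩ | ⟨h, _⟩) <;> exact h
    · intro h
      cases hx : x i
      · left; exact ⟨h, rfl⟩
      · right; exact ⟨h, rfl⟩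
  · rw [Finset.disjoint_left]
    intro x hx hx'
    have h1 := (Finset.mem_filter.1 hx).2.2
    have h2 := (Finset.mem_filter.1 hx').2.2
    rw [h1] at h2
    cases h2

/-- The density of a function of decision-tree depth `h` is a multiple of `2⁻ʰ`. -/
lemma DT.density : ∀ {h : ℕ} {f : (I → Bool) → Bool}, DT h f →
    ∃ k ≤ 2 ^ h, 2 ^ h * cnt f = k * 2 ^ (Fintype.card I)
  | 0, f, hf => by
      obtain ⟨b, hb⟩ := hf
      cases b with
      | true =>
        refine ⟨1, by simp, ?_⟩
        have : cnt f = 2 ^ Fintype.card I := by
          unfold cnt
          rw [Finset.filter_true_of_mem (fun x _ => hb x), Finset.card_univ]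
          simp
        rw [this]; simp
      | false =>
        refine ⟨0, by simp, ?_⟩
        have : cnt f = 0 := by
          unfold cnt
          rw [Finset.filter_false_of_mem (fun x _ => by rw [hb x]; simp)]
          rfl
        rw [this]; simp
  | h + 1, f, hf => by
      rcases hf with hc | ⟨i, hi⟩
      · obtain ⟨k, hk, h1⟩ := DT.density (h := h) (f := f) (DT.of_const hc)
        refine ⟨2 * k, by rw [pow_succ]; omega, ?_⟩
        rw [pow_succ, mul_comm (2 ^ h) 2, mul_assoc, h1, mul_assoc]
      · obtain ⟨k0, hk0, e0⟩ := DT.density (hi false)
        obtain ⟨k1, hk1, e1⟩ := DT.density (hi true)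
        refine ⟨k0 + k1, by rw [pow_succ]; omega, ?_⟩
        rw [pow_succ, mul_assoc, ← cnt_split f i, mul_add, e0, e1, add_mul]

/-- An increasing chain of functions of decision-tree depth at most `h` changes at most `2 ^ h`
times. -/
lemma chain_changes {h : ℕ} (F : ℕ → (I → Bool) → Bool) (hF : ∀ i, DT h (F i))
    (hmono : ∀ i x, F i x = true → F (i + 1) x = true) (N : ℕ) :
    ((Finset.range N).filter (fun i => F i ≠ F (i + 1))).card ≤ 2 ^ h := by
  classical
  choose k hk he using fun i => (hF i).density
  have hpos : 0 < 2 ^ Fintype.card I := by positivity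
  have hle : ∀ i, k i ≤ k (i + 1) := by
    intro i
    have h1 : cnt (F i) ≤ cnt (F (i + 1)) := by
      unfold cnt
      apply Finset.card_le_card
      intro x hx
      rw [Finset.mem_filter] at hx ⊢
      exact ⟨hx.1, hmono i x hx.2⟩
    have h2 := Nat.mul_le_mul_left (2 ^ h) h1
    rw [he i, he (i + 1)] at h2
    exact Nat.le_of_mul_le_mul_right h2 hpos
  have hlt : ∀ i, F i ≠ F (i + 1) → k i < k (i + 1) := by
    intro i hne
    have h1 : cnt (F i) < cnt (F (i + 1)) := by
      unfold cnt
      apply Finset.card_lt_card
      rw [Finset.ssubset_iff_subset_ne]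
      refine ⟨fun x hx => ?_, ?_⟩
      · rw [Finset.mem_filter] at hx ⊢
        exact ⟨hx.1, hmono i x hx.2⟩
      · intro heq
        apply hne
        funext x
        have : x ∈ univ.filter (fun x : I → Bool => F i x = true) ↔
          x ∈ univ.filter (fun x : I → Bool => F (i + 1) x = true) := by rw [heq]
        simp only [Finset.mem_filter, Finset.mem_univ, true_and] at this
        exact Bool.eq_iff_iff.2 this
    have h2 := (Nat.mul_lt_mul_left (by positivity : 0 < 2 ^ h)).2 h1
    rw [he i, he (i + 1)] at h2
    exact Nat.lt_of_mul_lt_mul_right h2
  have key : ∀ N, ((Finset.range N).filter (fun i => F i ≠ F (i + 1))).card + k 0 ≤ k N := by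
    intro N
    induction N with
    | zero => simp
    | succ N ih =>
      rw [Finset.range_add_one, Finset.filter_insert]
      by_cases hN : F N ≠ F (N + 1)
      · rw [if_pos hN, Finset.card_insert_of_notMem (by simp)]
        have := hlt N hN
        omega
      · rw [if_neg hN]
        have := hle N
        omega
  have h1 := key N
  have h2 := hk N
  omega

end Density

section Trees
variable {I : Type*} [DecidableEq I]

/-- Decision trees. -/
inductive DTree (I : Type*) where
  | leaf : Bool → DTree I
  | node : I → DTree I → DTree I → DTree I

def DTree.eval : DTree I → (I → Bool) → Bool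
  | .leaf b, _ => b
  | .node i t0 t1, x => if x i then t1.eval x else t0.eval x

def DTree.depth : DTree I → ℕ
  | .leaf _ => 0
  | .node _ t0 t1 => max t0.depth t1.depth + 1

lemma DT.tree : ∀ {h : ℕ} {f : (I → Bool) → Bool}, DT h f →
    ∃ t : DTree I, t.depth ≤ h ∧ ∀ x, t.eval x = f x
  | 0, f, hf => by
      obtain ⟨b, hb⟩ := hf
      exact ⟨.leaf b, le_refl _, fun x => (hb x).symm⟩
  | h + 1, f, hf => by
      rcases hf with ⟨b, hb⟩ | ⟨i, hi⟩
      · exact ⟨.leaf b, Nat.zero_le _, fun x => (hb x).symm⟩
      · obtain ⟨t0, d0, e0⟩ := (hi false).tree
        obtain ⟨t1, d1, e1⟩ := (hi true).tree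
        refine ⟨.node i t0 t1, by simp [DTree.depth, d0, d1], fun x => ?_⟩
        show (if x i then t1.eval x else t0.eval x) = f x
        cases hx : x i
        · simp only [Bool.false_eq_true, if_false]
          rw [e0]
          show f (Function.update x i false) = f x
          rw [← hx, Function.update_eq_self]
        · simp only [if_true]
          rw [e1]
          show f (Function.update x i true) = f x
          rw [← hx, Function.update_eq_self]

/-- The variables queried on the subcube where the variables of `U` are free and the others are
set by `D`. -/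
def DTree.qs : DTree I → (I → Bool) → Finset I → Finset I
  | .leaf _, _, _ => ∅
  | .node i t0 t1, D, U => insert i (if i ∈ U then
      t0.qs (Function.update D i false) (U.erase i) ∪ t1.qs (Function.update D i true) (U.erase i)
      else (if D i then t1.qs D U else t0.qs D U))

lemma DTree.card_qs : ∀ (t : DTree I) (D : I → Bool) (U : Finset I),
    (t.qs D U).card ≤ t.depth * 2 ^ U.card
  | .leaf _, D, U => by simp [DTree.qs]
  | .node i t0 t1, D, U => by
      unfold DTree.qs DTree.depth
      refine (Finset.card_insert_le _ _).trans ?_
      rw [add_mul, one_mul]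
      have hU1 : 1 ≤ 2 ^ U.card := Nat.one_le_two_pow
      refine Nat.add_le_add ?_ hU1
      by_cases hi : i ∈ U
      · rw [if_pos hi]
        refine (Finset.card_union_le _ _).trans ?_
        have h0 := DTree.card_qs t0 (Function.update D i false) (U.erase i)
        have h1 := DTree.card_qs t1 (Function.update D i true) (U.erase i)
        have hc : U.card = (U.erase i).card + 1 := by
          rw [Finset.card_erase_of_mem hi]
          have := Finset.card_pos.2 ⟨i, hi⟩
          omega
        rw [hc, pow_succ]
        have m0 : t0.depth ≤ max t0.depth t1.depth := le_max_left _ _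
        have m1 : t1.depth ≤ max t0.depth t1.depth := le_max_right _ _
        have n0 := Nat.mul_le_mul_right (2 ^ (U.erase i).card) m0
        have n1 := Nat.mul_le_mul_right (2 ^ (U.erase i).card) m1
        calc _ ≤ max t0.depth t1.depth * 2 ^ (U.erase i).card +
              max t0.depth t1.depth * 2 ^ (U.erase i).card :=
              Nat.add_le_add (h0.trans n0) (h1.trans n1)
          _ = _ := by ring
      · rw [if_neg hi]
        by_cases hD : D i = true
        · rw [if_pos hD]
          exact (DTree.card_qs t1 D U).trans (Nat.mul_le_mul_right _ (le_max_right _ _))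
        · rw [if_neg hD]
          exact (DTree.card_qs t0 D U).trans (Nat.mul_le_mul_right _ (le_max_left _ _))

lemma DTree.eval_eq_of_qs : ∀ (t : DTree I) (D : I → Bool) (U : Finset I) (x x' : I → Bool),
    (∀ j ∈ t.qs D U, x j = x' j) → (∀ j ∉ U, x' j = D j) → t.eval x = t.eval x'
  | .leaf _, D, U, x, x', _, _ => rfl
  | .node i t0 t1, D, U, x, x', h1, h2 => by
      unfold DTree.qs at h1
      have hi : x i = x' i := h1 i (Finset.mem_insert_self _ _)
      show (if x i then t1.eval x else t0.eval x) = (if x' i then t1.eval x' else t0.eval x')
      rw [hi]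
      by_cases hU : i ∈ U
      · rw [if_pos hU] at h1
        cases hb : x' i
        · simp only [Bool.false_eq_true, if_false]
          apply DTree.eval_eq_of_qs t0 (Function.update D i false) (U.erase i)
          · intro j hj
            exact h1 j (Finset.mem_insert_of_mem (Finset.mem_union_left _ hj))
          · intro j hj
            by_cases hji : j = i
            · subst hji; simp [hb]
            · rw [Function.update_of_ne hji]
              apply h2
              intro hjU
              exact hj (Finset.mem_erase.2 ⟨hji, hjU⟩)
        · simp only [if_true]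
          apply DTree.eval_eq_of_qs t1 (Function.update D i true) (U.erase i)
          · intro j hj
            exact h1 j (Finset.mem_insert_of_mem (Finset.mem_union_right _ hj))
          · intro j hj
            by_cases hji : j = i
            · subst hji; simp [hb]
            · rw [Function.update_of_ne hji]
              apply h2
              intro hjU
              exact hj (Finset.mem_erase.2 ⟨hji, hjU⟩)
      · rw [if_neg hU] at h1
        have hDi := h2 i hU
        cases hb : x' i
        · simp only [Bool.false_eq_true, if_false]
          rw [hb] at hDi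
          rw [← hDi] at h1
          simp only [Bool.false_eq_true, if_false] at h1
          apply DTree.eval_eq_of_qs t0 D U
          · intro j hj
            exact h1 j (Finset.mem_insert_of_mem hj)
          · exact h2
        · simp only [if_true]
          rw [hb] at hDi
          rw [← hDi] at h1
          simp only [if_true] at h1
          apply DTree.eval_eq_of_qs t1 D U
          · intro j hj
            exact h1 j (Finset.mem_insert_of_mem hj)
          · exact h2

end Trees

end H592R3
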