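import Mathlib
import Pool.Agent.H568R2.Sens
import Pool.Agent.H592R3.Tree

/-!
Comparison of the planted sensitivity with the restricted function.
-/

namespace H592R3

open Finset DomAC0 H568R2

section Plant
variable {I : Type*} [Fintype I] [DecidableEq I] {M : Type*} [Fintype M] [DecidableEq M]

/-- The assignment equal to `D` outside `V` and to the indicator of `U` on `V`. -/
def blend (D : I → Bool) (V U : Finset I) : I → Bool :=
  fun i => if i ∈ V then decide (i ∈ U) else D i

/-- On the subcube through `D` in which the variables of `V` are free, `F` depends on all of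
them. -/
def FD (F : (I → Bool) → Bool) (D : I → Bool) (V : Finset I) : Prop :=
  ∀ v ∈ V, ∃ U ⊆ V, F (blend D V U) ≠ F (blend D V (insert v U))

omit [Fintype I] [Fintype M] [DecidableEq M] in
lemma point_eq (f : (I → Bool) → Bool) (vr : M → I) (H : Finset M)
    (Y : I → Bool) (ρ : Restr I) (D : I → Bool)
    (hG : ∀ i ∈ H.image vr, Y i = true ∧ ρ i = none) (h' : Finset M) (hh' : h' ⊆ H) :
    f (plant vr h' (zeroOn (H.image vr) (fun i => Y i && (ρ i).getD (D i)))) =
      rs (fun x => f (mask Y x)) ρ (blend D (H.image vr) (h'.image vr)) := by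
  unfold rs
  show _ = f (mask Y (ov ρ _))
  congr 1
  funext i
  unfold mask ov blend plant zeroOn
  by_cases hi : i ∈ H.image vr
  · rw [(hG i hi).1, (hG i hi).2]
    simp only [hi, if_true, Option.getD_none, Bool.true_and, Bool.or_false]
    have : (∃ j ∈ h', vr j = i) ↔ i ∈ h'.image vr := by
      rw [Finset.mem_image]
    simp only [this]
  · simp only [hi, if_false]
    have h3 : ¬ ∃ j' ∈ h', vr j' = i := by
      rintro ⟨j', hj', rfl⟩
      exact hi (Finset.mem_image_of_mem vr (hh' hj'))
    simp only [h3, decide_false, Bool.false_or]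

/-- The joint event for a pair of functions. -/
def Ev (f' f : (I → Bool) → Bool) (vr : M → I) (H : Finset M) (Y : I → Bool) (ρ : Restr I)
    (D : I → Bool) : Prop :=
  FD (rs (fun x => f (mask Y x)) ρ) D (H.image vr) ∧
    rs (fun x => f' (mask Y x)) ρ ≠ rs (fun x => f (mask Y x)) ρ

lemma sens_pair (f' f : (I → Bool) → Bool) (vr : M → I) (H : Finset M) (X : I → Bool)
    (h1 : sens f vr X = H) (h2 : (sens f' vr X).card < H.card) :
    Bad' f vr H X ∧ ¬ Bad' f' vr H X := by
  have hb := sens_bad f vr X
  rw [h1] at hb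
  refine ⟨hb, fun hcon => ?_⟩
  have hz : zeroOn (H.image vr) X = X := by
    funext i
    unfold zeroOn
    split_ifs with hi
    · rw [Finset.mem_image] at hi
      obtain ⟨j, hj, rfl⟩ := hi
      by_contra hne
      have hX : X (vr j) = true := by
        cases hx : X (vr j) with
        | true => rfl
        | false => exact absurd hx.symm hne
      rw [← h1] at hj
      obtain ⟨h, hh⟩ := mem_sens.1 hj
      apply hh
      congr 1
      funext i
      unfold plant
      by_cases hi : i = vr j
      · subst hi; simp [hX]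
      · have : (∃ j' ∈ insert j h, vr j' = i) ↔ (∃ j' ∈ h, vr j' = i) := by
          constructor
          · rintro ⟨j', hj', h2⟩
            rcases Finset.mem_insert.1 hj' with h3 | h3
            · subst h3; exact absurd h2.symm hi
            · exact ⟨j', h3, h2⟩
          · rintro ⟨j', hj', h2⟩
            exact ⟨j', Finset.mem_insert_of_mem hj', h2⟩
        simp only [this]
    · rfl
  have hsub : H ⊆ sens f' vr X := by
    intro j hj
    obtain ⟨h, _, hh⟩ := hcon j hj
    rw [hz] at hh
    exact mem_sens.2 ⟨h, hh⟩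
  have := Finset.card_le_card hsub
  omega

omit [Fintype I] [Fintype M] in
lemma bad_fd (f : (I → Bool) → Bool) (vr : M → I) (H : Finset M)
    (Y : I → Bool) (ρ : Restr I) (D : I → Bool)
    (hG : ∀ i ∈ H.image vr, Y i = true ∧ ρ i = none) :
    Bad' f vr H (fun i => Y i && (ρ i).getD (D i)) ↔
      FD (rs (fun x => f (mask Y x)) ρ) D (H.image vr) := by
  constructor
  · intro hB v hv
    obtain ⟨j, hj, rfl⟩ := Finset.mem_image.1 hv
    obtain ⟨h, hh, hne⟩ := hB j hj
    refine ⟨h.image vr, Finset.image_subset_image hh, ?_⟩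
    rw [point_eq f vr H Y ρ D hG h hh,
      point_eq f vr H Y ρ D hG (insert j h) (Finset.insert_subset hj hh),
      Finset.image_insert] at hne
    exact hne
  · intro hF j hj
    obtain ⟨U, hU, hne⟩ := hF (vr j) (Finset.mem_image_of_mem vr hj)
    refine ⟨H.filter (fun j => vr j ∈ U), Finset.filter_subset _ _, ?_⟩
    have hUi : (H.filter (fun j => vr j ∈ U)).image vr = U := by
      ext i
      rw [Finset.mem_image]
      constructor
      · rintro ⟨j', hj', rfl⟩
        exact (Finset.mem_filter.1 hj').2
      · intro hi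
        obtain ⟨j', hj', rfl⟩ := Finset.mem_image.1 (hU hi)
        exact ⟨j', Finset.mem_filter.2 ⟨hj', hi⟩, rfl⟩
    rw [point_eq f vr H Y ρ D hG _ (Finset.filter_subset _ _),
      point_eq f vr H Y ρ D hG _ (Finset.insert_subset hj (Finset.filter_subset _ _)),
      Finset.image_insert, hUi]
    exact hne

open Classical in
/-- The key comparison. -/
theorem sens_prob (f' f : (I → Bool) → Bool) (vr : M → I) (hvr : Function.Injective vr)
    (H : Finset M) {y q : ℝ} (hy0 : 0 ≤ y) (hy1 : y ≤ 1) (hq0 : 0 ≤ q) (hq1 : q ≤ 1) :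
    (y * q) ^ H.card * Ex (vp (y / 2)) (fun X : I → Bool =>
      if sens f vr X = H ∧ (sens f' vr X).card < H.card then (1 : ℝ) else 0) ≤
    Ex (vp y) (fun Y : I → Bool => Ex (wq q) (fun ρ : Restr I =>
      Ex (vp (1 / 2)) (fun D : I → Bool => if Ev f' f vr H Y ρ D then (1 : ℝ) else 0))) := by
  set φ : (I → Bool) → ℝ := fun X => if Bad' f vr H X ∧ ¬ Bad' f' vr H X then (1 : ℝ) else 0
    with hφ
  have h1 : Ex (vp (y / 2)) (fun X : I → Bool =>
      if sens f vr X = H ∧ (sens f' vr X).card < H.card then (1 : ℝ) else 0) ≤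
      Ex (vp (y / 2)) φ := by
    apply Ex_mono (vp_nonneg (by linarith) (by linarith))
    intro X
    show _ ≤ (if Bad' f vr H X ∧ ¬ Bad' f' vr H X then (1 : ℝ) else 0)
    by_cases h : sens f vr X = H ∧ (sens f' vr X).card < H.card
    · have := sens_pair f' f vr H X h.1 h.2
      rw [if_pos h, if_pos this]
    · rw [if_neg h]
      split_ifs <;> norm_num
  -- the joint space
  set W : Bool × (Option Bool × Bool) → ℝ :=
    fun c => vp y c.1 * (fun e : Option Bool × Bool => wq q e.1 * vp (1 / 2) e.2) c.2 with hW
  set hm : Bool × (Option Bool × Bool) → Bool := fun c => c.1 && c.2.1.getD c.2.2 with hhm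
  have hpush := Ex_push (I := I) hm W (vp (y / 2)) (by
    intro b
    rw [Finset.sum_filter, Fintype.sum_prod_type]
    simp only [Fintype.sum_prod_type, Fintype.sum_option, Fintype.sum_bool, hW, hhm]
    rcases b with _ | _ <;> simp [wq, vp] <;> ring) φ
  have hWsum : ∑ a, W a = 1 := by
    simp only [Fintype.sum_prod_type, Fintype.sum_option, Fintype.sum_bool, hW]
    simp [wq, vp]
    ring
  have hWnn : ∀ a, 0 ≤ W a := by
    intro a
    rw [hW]
    exact mul_nonneg (vp_nonneg hy0 hy1 _) (mul_nonneg (wq_nonneg hq0 hq1 _)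
      (vp_nonneg (by norm_num) (by norm_num) _))
  have hind := Ex_indep (I := I) hWsum (fun c : Bool × (Option Bool × Bool) =>
      c.1 = true ∧ c.2.1 = none) (H.image vr) (fun ω => φ (fun i => hm (ω i))) (by
    intro i hi ω a
    have hzz : zeroOn (H.image vr) (fun j => hm (Function.update ω i a j)) =
        zeroOn (H.image vr) (fun j => hm (ω j)) := by
      funext j
      unfold zeroOn
      by_cases hj : j ∈ H.image vr
      · rw [if_pos hj, if_pos hj]
      · rw [if_neg hj, if_neg hj]
        have : j ≠ i := fun h => hj (h ▸ hi)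
        show hm (Function.update ω i a j) = hm (ω j)
        rw [Function.update_of_ne this]
    have hiff : ∀ g : (I → Bool) → Bool, Bad' g vr H (fun j => hm (Function.update ω i a j)) ↔
        Bad' g vr H (fun j => hm (ω j)) := by
      intro g
      unfold Bad'
      rw [hzz]
    show (if Bad' f vr H (fun j => hm (Function.update ω i a j)) ∧
        ¬ Bad' f' vr H (fun j => hm (Function.update ω i a j)) then (1 : ℝ) else 0) =
      (if Bad' f vr H (fun j => hm (ω j)) ∧ ¬ Bad' f' vr H (fun j => hm (ω j))
        then (1 : ℝ) else 0)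
    simp only [hiff])
  have hGsum : ∑ a ∈ univ.filter (fun c : Bool × (Option Bool × Bool) =>
      c.1 = true ∧ c.2.1 = none), W a = y * q := by
    rw [Finset.sum_filter]
    simp only [Fintype.sum_prod_type, Fintype.sum_option, Fintype.sum_bool, hW]
    simp [wq, vp]
    ring
  rw [hGsum, Finset.card_image_of_injective _ hvr] at hind
  calc (y * q) ^ H.card * Ex (vp (y / 2)) (fun X : I → Bool =>
        if sens f vr X = H ∧ (sens f' vr X).card < H.card then (1 : ℝ) else 0)
      ≤ (y * q) ^ H.card * Ex (vp (y / 2)) φ :=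
        mul_le_mul_of_nonneg_left h1 (by positivity)
    _ = (y * q) ^ H.card * Ex W (fun ω => φ (fun i => hm (ω i))) := by rw [hpush]
    _ = Ex W (fun ω => φ (fun i => hm (ω i)) *
        (if ∀ i ∈ H.image vr, (ω i).1 = true ∧ (ω i).2.1 = none then 1 else 0)) := by
        rw [hind]
    _ ≤ Ex W (fun ω => if Ev f' f vr H (fun i => (ω i).1) (fun i => (ω i).2.1)
          (fun i => (ω i).2.2) then (1 : ℝ) else 0) := by
        apply Ex_mono hWnn
        intro ω
        by_cases hG : ∀ i ∈ H.image vr, (ω i).1 = true ∧ (ω i).2.1 = none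
        · have e1 := bad_fd f vr H (fun i => (ω i).1) (fun i => (ω i).2.1)
              (fun i => (ω i).2.2) hG
          have e2 := bad_fd f' vr H (fun i => (ω i).1) (fun i => (ω i).2.1)
              (fun i => (ω i).2.2) hG
          by_cases hB : Bad' f vr H (fun i => hm (ω i)) ∧ ¬ Bad' f' vr H (fun i => hm (ω i))
          · have hEv : Ev f' f vr H (fun i => (ω i).1) (fun i => (ω i).2.1)
              (fun i => (ω i).2.2) := by
              refine ⟨e1.1 hB.1, fun hcon => hB.2 ?_⟩
              apply e2.2
              rw [hcon]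
              exact e1.1 hB.1
            show (if Bad' f vr H (fun i => hm (ω i)) ∧ ¬ Bad' f' vr H (fun i => hm (ω i))
              then (1 : ℝ) else 0) * _ ≤ _
            rw [if_pos hB, if_pos hG, if_pos hEv, mul_one]
          · show (if Bad' f vr H (fun i => hm (ω i)) ∧ ¬ Bad' f' vr H (fun i => hm (ω i))
              then (1 : ℝ) else 0) * _ ≤ _
            rw [if_neg hB, zero_mul]
            split_ifs <;> norm_num
        · rw [if_neg hG, mul_zero]
          split_ifs <;> norm_num
    _ = _ := by
        refine (Ex_prod (I := I) (vp y)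
          (fun e : Option Bool × Bool => wq q e.1 * vp (1 / 2) e.2) _).trans ?_
        congr 1
        funext Y
        exact Ex_prod (I := I) (wq q) (vp (1 / 2)) _

end Plant

end H592R3
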