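import Mathlib
import Pool.Agent.H568R2.Count
import Pool.Agent.H592R3.Sens

/-!
Counting the planted assignments on whose variables a shallow decision tree can depend.
-/

namespace H592R3

open Finset DomAC0 H568R2

section Fam
variable {I : Type*} [DecidableEq I]

/-- The sets of variables that can be reached one at a time. -/
def fam (t : DTree I) (D : I → Bool) : ℕ → Finset (Finset I)
  | 0 => {∅}
  | k + 1 => (fam t D k).biUnion (fun U => (t.qs D U).image (fun v => insert v U))

lemma fam_card_le (t : DTree I) (D : I → Bool) : ∀ k : ℕ, ∀ U ∈ fam t D k, U.card ≤ k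
  | 0, U, hU => by
      rw [fam, Finset.mem_singleton] at hU
      rw [hU]; simp
  | k + 1, U, hU => by
      rw [fam, Finset.mem_biUnion] at hU
      obtain ⟨U', hU', h⟩ := hU
      obtain ⟨v, _, rfl⟩ := Finset.mem_image.1 h
      have := fam_card_le t D k U' hU'
      exact (Finset.card_insert_le _ _).trans (by omega)

lemma card_fam (t : DTree I) (D : I → Bool) {h : ℕ} (ht : t.depth ≤ h) :
    ∀ k : ℕ, (fam t D k).card ≤ (h * 2 ^ k) ^ k
  | 0 => by simp [fam]
  | k + 1 => by
      rw [fam]
      refine Finset.card_biUnion_le.trans ?_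
      have h1 : ∀ U ∈ fam t D k, ((t.qs D U).image (fun v => insert v U)).card ≤ h * 2 ^ k := by
        intro U hU
        refine Finset.card_image_le.trans ((t.card_qs D U).trans ?_)
        exact Nat.mul_le_mul ht (Nat.pow_le_pow_right (by norm_num) (fam_card_le t D k U hU))
      refine (Finset.sum_le_card_nsmul _ _ _ h1).trans ?_
      rw [smul_eq_mul]
      calc (fam t D k).card * (h * 2 ^ k) ≤ (h * 2 ^ k) ^ k * (h * 2 ^ k) :=
            Nat.mul_le_mul_right _ (card_fam t D ht k)
        _ = (h * 2 ^ k) ^ (k + 1) := by rw [pow_succ]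
        _ ≤ (h * 2 ^ (k + 1)) ^ (k + 1) := by
          apply Nat.pow_le_pow_left
          apply Nat.mul_le_mul_left
          exact Nat.pow_le_pow_right (by norm_num) (by omega)

lemma fd_fam (t : DTree I) (F : (I → Bool) → Bool) (hF : ∀ x, t.eval x = F x) (D : I → Bool)
    (V : Finset I) (hV : FD F D V) : ∀ k ≤ V.card, ∃ U ∈ fam t D k, U ⊆ V ∧ U.card = k := by
  intro k
  induction k with
  | zero =>
    intro _
    exact ⟨∅, by simp [fam], by simp, by simp⟩
  | succ k ih =>
    intro hk
    obtain ⟨U, hU, hUV, hUk⟩ := ih (by omega)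
    by_cases hex : ∃ v ∈ t.qs D U, v ∈ V ∧ v ∉ U
    · obtain ⟨v, hvq, hvV, hvU⟩ := hex
      refine ⟨insert v U, ?_, Finset.insert_subset hvV hUV, ?_⟩
      · rw [fam, Finset.mem_biUnion]
        exact ⟨U, hU, Finset.mem_image_of_mem _ hvq⟩
      · rw [Finset.card_insert_of_notMem hvU, hUk]
    · exfalso
      push Not at hex
      have hW : ∀ W : Finset I, F (blend D V W) = F (blend D U W) := by
        intro W
        rw [← hF, ← hF]
        apply t.eval_eq_of_qs D U
        · intro j hj
          unfold blend
          by_cases hjV : j ∈ V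
          · have hjU := hex j hj hjV
            rw [if_pos hjV, if_pos hjU]
          · have hjU : j ∉ U := fun h => hjV (hUV h)
            rw [if_neg hjV, if_neg hjU]
        · intro j hj
          unfold blend
          rw [if_neg hj]
      obtain ⟨v, hvV, hvU⟩ : ∃ v ∈ V, v ∉ U := by
        by_contra hcon
        push Not at hcon
        have := Finset.card_le_card (show V ⊆ U from hcon)
        omega
      obtain ⟨W, _, hne⟩ := hV v hvV
      apply hne
      rw [hW, hW]
      congr 1
      funext i
      unfold blend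
      by_cases hi : i ∈ U
      · rw [if_pos hi, if_pos hi]
        have hne : i ≠ v := fun h => hvU (h ▸ hi)
        simp [hne]
      · rw [if_neg hi, if_neg hi]

lemma fd_mem_fam (t : DTree I) (F : (I → Bool) → Bool) (hF : ∀ x, t.eval x = F x) (D : I → Bool)
    (V : Finset I) (hV : FD F D V) : V ∈ fam t D V.card := by
  obtain ⟨U, hU, hUV, hc⟩ := fd_fam t F hF D V hV V.card (le_refl _)
  rw [Finset.eq_of_subset_of_card_le hUV hc.ge] at hU
  exact hU

end Fam

section Cnt
variable {m n r : ℕ}

open Classical in
lemma count_fd (s : Fin m → Fin r → Fin m) (H : Finset (Fin m)) {h : ℕ}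
    (F : ((Fin m × (Fin r → Fin n)) → Bool) → Bool) (hF : DT h F)
    (D : (Fin m × (Fin r → Fin n)) → Bool) :
    (univ.filter (fun a : Fin m → Fin n => FD F D (H.image (vr s a)))).card ≤
      (h * 2 ^ H.card) ^ H.card * (H.card ^ H.card * n ^ (m - (touched s H).card)) := by
  obtain ⟨t, ht, he⟩ := hF.tree
  have hsub : (univ.filter (fun a : Fin m → Fin n => FD F D (H.image (vr s a)))) ⊆
      (fam t D H.card).biUnion (fun V =>
        univ.filter (fun a : Fin m → Fin n => ∀ j ∈ H, vr s a j ∈ V)) := by
    intro a ha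
    have hfd := (Finset.mem_filter.1 ha).2
    have h1 := fd_mem_fam t F he D _ hfd
    rw [Finset.card_image_of_injective _ (vr_inj s a)] at h1
    rw [Finset.mem_biUnion]
    refine ⟨_, h1, ?_⟩
    rw [Finset.mem_filter]
    exact ⟨Finset.mem_univ _, fun j hj => Finset.mem_image_of_mem _ hj⟩
  refine (Finset.card_le_card hsub).trans (Finset.card_biUnion_le.trans ?_)
  have h2 : ∀ V ∈ fam t D H.card,
      (univ.filter (fun a : Fin m → Fin n => ∀ j ∈ H, vr s a j ∈ V)).card ≤
      H.card ^ H.card * n ^ (m - (touched s H).card) := by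
    intro V hV
    refine le_trans ?_ ((count_le (n := n) s H V).trans ?_)
    · apply Finset.card_le_card
      intro a ha
      rw [Finset.mem_filter] at ha ⊢
      exact ha
    · exact Nat.mul_le_mul_right _ (Nat.pow_le_pow_left (fam_card_le t D _ V hV) _)
  refine (Finset.sum_le_card_nsmul _ _ _ h2).trans ?_
  rw [smul_eq_mul]
  exact Nat.mul_le_mul_right _ (card_fam t D ht _)

end Cnt

end H592R3
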