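import Mathlib
import Pool.Agent.H592R3.Tree

/-!
A switching lemma: a function with certificates of size `w` has, under a random restriction with
star probability `q`, decision-tree depth more than `h` with probability at most
`(12 q w) ^ (h + 1)`.
-/

namespace H592R3

open Finset H568R2

section Sw
variable {I : Type*} [Fintype I] [DecidableEq I]

/-- Encodings of a restriction by an extension, `s` stars being set. -/
inductive EncP (L : List (Term I)) : ℕ → Restr I → Restr I → Prop
  | zero (ρ : Restr I) : EncP L 0 ρ ρ
  | step (ρ ρ'' : Restr I) (T : Term I) (A : Finset I) (π : I → Bool) (s : ℕ)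
      (hT : L.find? (nonfals ρ) = some T) (hA : A ⊆ stars ρ T) (hne : A.Nonempty)
      (hs : A = stars ρ T ∨ s = 0) (hE : EncP L s (setOn ρ A π) ρ'') :
      EncP L (s + A.card) ρ (setOn ρ'' A T.2)

omit [Fintype I] [DecidableEq I] in
lemma stars_none {ρ : Restr I} {T : Term I} {i : I} (hi : i ∈ stars ρ T) : ρ i = none :=
  (Finset.mem_filter.1 hi).2

lemma EncP.ext {L : List (Term I)} {s : ℕ} {ρ ρ' : Restr I} (h : EncP L s ρ ρ') :
    ∀ i b, ρ i = some b → ρ' i = some b := by
  induction h with
  | zero ρ => intro i b hi; exact hi
  | step ρ ρ'' T A π s hT hA hne hs hE ih =>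
    intro i b hi
    have hiA : i ∉ A := by
      intro hiA
      have := stars_none (hA hiA)
      rw [hi] at this
      cases this
    have h1 : setOn ρ A π i = some b := by
      unfold setOn; rw [if_neg hiA]; exact hi
    have h2 := ih i b h1
    unfold setOn
    rw [if_neg hiA]
    exact h2

lemma prod_setOn_le' {q : ℝ} (h0 : 0 ≤ q) (h1 : q ≤ 1 / 3) (ρ : Restr I) (A : Finset I)
    (hs : ∀ i ∈ A, ρ i = none) (π : I → Bool) :
    ∏ i, wq q (ρ i) ≤ (3 * q) ^ A.card * ∏ i, wq q (setOn ρ A π i) := by
  have hc : (3 * q) ^ A.card = ∏ i : I, (if i ∈ A then 3 * q else 1) := by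
    rw [Finset.prod_ite]
    simp
  rw [hc, ← Finset.prod_mul_distrib]
  apply Finset.prod_le_prod
  · intro i _
    exact wq_nonneg h0 (by linarith) _
  · intro i _
    unfold setOn
    by_cases hi : i ∈ A
    · rw [if_pos hi, if_pos hi, hs i hi]
      show q ≤ 3 * q * ((1 - q) / 2)
      nlinarith
    · rw [if_neg hi, if_neg hi, one_mul]

lemma EncP.weight {q : ℝ} (h0 : 0 ≤ q) (h1 : q ≤ 1 / 3) {L : List (Term I)} {s : ℕ}
    {ρ ρ' : Restr I} (h : EncP L s ρ ρ') :
    ∏ i, wq q (ρ i) ≤ (3 * q) ^ s * ∏ i, wq q (ρ' i) := by
  induction h with
  | zero ρ => simp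
  | step ρ ρ'' T A π s hT hA hne hs hE ih =>
    have hst : ∀ i ∈ A, ρ i = none := fun i hi => stars_none (hA hi)
    have a1 := prod_setOn_le' h0 h1 ρ A hst π
    have a3 : ∏ i, wq q (setOn ρ'' A T.2 i) = ∏ i, wq q (ρ'' i) := by
      refine Finset.prod_congr rfl fun i _ => ?_
      unfold setOn
      by_cases hi : i ∈ A
      · rw [if_pos hi]
        have : ρ'' i = some (π i) := hE.ext i (π i) (by unfold setOn; rw [if_pos hi])
        rw [this]; rfl
      · rw [if_neg hi]
    rw [a3]
    calc ∏ i, wq q (ρ i) ≤ (3 * q) ^ A.card * ∏ i, wq q (setOn ρ A π i) := a1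
      _ ≤ (3 * q) ^ A.card * ((3 * q) ^ s * ∏ i, wq q (ρ'' i)) :=
        mul_le_mul_of_nonneg_left ih (by positivity)
      _ = (3 * q) ^ (s + A.card) * ∏ i, wq q (ρ'' i) := by rw [pow_add]; ring

lemma EncP.inv {L : List (Term I)} {s : ℕ} {ρ ρ' : Restr I} (h : EncP L s ρ ρ') (hs : 0 < s) :
    ∃ (ρ'' : Restr I) (T : Term I) (A : Finset I) (π : I → Bool),
      L.find? (nonfals ρ) = some T ∧ A ⊆ stars ρ T ∧ A.Nonempty ∧ A.card ≤ s ∧
      (A = stars ρ T ∨ s - A.card = 0) ∧ EncP L (s - A.card) (setOn ρ A π) ρ'' ∧
      ρ' = setOn ρ'' A T.2 := by
  cases h with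
  | zero => omega
  | step _ ρ'' T A π s hT hA hne hs' hE =>
    refine ⟨ρ'', T, A, π, hT, hA, hne, by omega, ?_, ?_, rfl⟩
    · rwa [Nat.add_sub_cancel]
    · rwa [Nat.add_sub_cancel]

lemma geo_sum (w : ℕ) : ∀ s : ℕ,
    ∑ j ∈ Finset.Icc 1 s, (2 * w) ^ j * (4 * w) ^ (s - j) ≤ (4 * w) ^ s
  | 0 => by simp
  | s + 1 => by
      have h1 : ∑ j ∈ Finset.Icc 1 (s + 1), (2 * w) ^ j * (4 * w) ^ (s + 1 - j) =
          2 * w * (4 * w) ^ s + 2 * w * ∑ j ∈ Finset.Icc 1 s, (2 * w) ^ j * (4 * w) ^ (s - j) := by
        rw [Finset.mul_sum, ← Finset.sum_Ioc_add_eq_sum_Icc (by omega : 1 ≤ s + 1)]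
        rw [add_comm]
        congr 1
        · simp
        · rw [show Finset.Ioc 1 (s + 1) = (Finset.Icc 1 s).image (fun j => j + 1) by
            ext j
            simp only [Finset.mem_Ioc, Finset.mem_image, Finset.mem_Icc]
            constructor
            · rintro ⟨h1, h2⟩
              exact ⟨j - 1, ⟨by omega, by omega⟩, by omega⟩
            · rintro ⟨i, ⟨h1, h2⟩, rfl⟩
              omega]
          rw [Finset.sum_image (by intro a _ b _ h; simpa using h)]
          refine Finset.sum_congr rfl fun j _ => ?_
          rw [Nat.add_sub_add_right]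
          ring
      rw [h1]
      have := geo_sum w s
      calc 2 * w * (4 * w) ^ s + 2 * w * ∑ j ∈ Finset.Icc 1 s, (2 * w) ^ j * (4 * w) ^ (s - j)
          ≤ 2 * w * (4 * w) ^ s + 2 * w * (4 * w) ^ s :=
            Nat.add_le_add_left (Nat.mul_le_mul_left _ this) _
        _ = (4 * w) ^ (s + 1) := by ring

open Classical in
lemma EncP.count {L : List (Term I)} {w : ℕ} (hL : ∀ T ∈ L, T.1.card ≤ w) :
    ∀ (s : ℕ) (ρ' : Restr I), (univ.filter (fun ρ : Restr I => EncP L s ρ ρ')).card ≤ (4 * w) ^ s
  | 0, ρ' => by
      have : (univ.filter (fun ρ : Restr I => EncP L 0 ρ ρ')) ⊆ {ρ'} := by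
        intro ρ hρ
        have h : EncP L 0 ρ ρ' := (Finset.mem_filter.1 hρ).2
        rw [Finset.mem_singleton]
        generalize hz : (0 : ℕ) = z at h
        cases h with
        | zero => rfl
        | step _ ρ'' T A π s hT hA hne hs' hE =>
          have := Finset.card_pos.2 hne
          omega
      simpa using Finset.card_le_card this
  | s + 1, ρ' => by
      cases hT : L.find? (nonfals ρ') with
      | none =>
        have : (univ.filter (fun ρ : Restr I => EncP L (s + 1) ρ ρ')) = ∅ := by
          rw [Finset.filter_eq_empty_iff]
          rintro ρ - h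
          have hext := h.ext
          obtain ⟨ρ'', T, A, π, hf, hA, hne, hc, hs, hE, rfl⟩ := h.inv (Nat.succ_pos s)
          have hmem := List.mem_of_find?_eq_some hf
          have hnf := List.find?_some hf
          rw [List.find?_eq_none] at hT
          apply hT T hmem
          rw [nonfals, decide_eq_true_eq] at hnf ⊢
          intro i hi
          by_cases hiA : i ∈ A
          · right; unfold setOn; rw [if_pos hiA]
          · rcases hnf i hi with h | h
            · rcases hs with hs | hs
              · exact absurd (hs ▸ Finset.mem_filter.2 ⟨hi, h⟩) hiA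
              · rw [hs] at hE
                left
                unfold setOn
                rw [if_neg hiA]
                generalize hz : (0 : ℕ) = z at hE
                generalize hρ : setOn ρ A π = ρ₁ at hE
                cases hE with
                | zero =>
                  rw [← hρ]
                  unfold setOn
                  rw [if_neg hiA]
                  exact h
                | step _ ρ'' T A π s hT hA hne hs' hE =>
                  have := Finset.card_pos.2 hne
                  omega
            · right; exact hext i _ h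
        rw [this]
        simp
      | some T =>
        have hTmem := List.mem_of_find?_eq_some hT
        have hsub : (univ.filter (fun ρ : Restr I => EncP L (s + 1) ρ ρ')) ⊆
            ((Finset.Icc 1 (s + 1)).biUnion (fun j => T.1.powersetCard j)).biUnion (fun A =>
              A.powerset.biUnion (fun P =>
              (univ.filter (fun ρ : Restr I =>
                EncP L (s + 1 - A.card) ρ (setOn ρ' A (fun i => decide (i ∈ P))))).image
                (fun ρ => unset ρ A))) := by
          intro ρ hρ
          have h : EncP L (s + 1) ρ ρ' := (Finset.mem_filter.1 hρ).2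
          have hext := h.ext
          obtain ⟨ρ'', T', A, π, hf, hA, hne, hc, hs, hE, hρ'⟩ := h.inv (Nat.succ_pos s)
          have hnf := List.find?_some hf
          have hTT : T' = T := by
            have := find_eq L (nonfals ρ) (nonfals ρ') T' hf (by
              intro S hS
              rw [nonfals, decide_eq_true_eq] at hS ⊢
              intro i hi
              cases hρi : ρ i with
              | none => left; rfl
              | some b =>
                right
                have := hext i b hρi
                rcases hS i hi with h | h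
                · rw [this] at h; cases h
                · rw [this] at h; exact h) (by
              rw [nonfals, decide_eq_true_eq] at hnf ⊢
              intro i hi
              by_cases hiA : i ∈ A
              · right; rw [hρ']; unfold setOn; rw [if_pos hiA]
              · rcases hnf i hi with h | h
                · rcases hs with hs | hs
                  · exact absurd (hs ▸ Finset.mem_filter.2 ⟨hi, h⟩) hiA
                  · rw [hs] at hE
                    left
                    rw [hρ']
                    unfold setOn
                    rw [if_neg hiA]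
                    generalize hz : (0 : ℕ) = z at hE
                    generalize hρ1 : setOn ρ A π = ρ₁ at hE
                    cases hE with
                    | zero =>
                      rw [← hρ1]
                      unfold setOn
                      rw [if_neg hiA]
                      exact h
                    | step _ ρ'' T A π s hT hA hne hs' hE =>
                      have := Finset.card_pos.2 hne
                      omega
                · right; exact hext i _ h)
            rw [hT] at this
            exact (Option.some.inj this).symm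
          subst hTT
          rw [Finset.mem_biUnion]
          refine ⟨A, ?_, ?_⟩
          · rw [Finset.mem_biUnion]
            refine ⟨A.card, ?_, ?_⟩
            · rw [Finset.mem_Icc]
              exact ⟨Finset.card_pos.2 hne, hc⟩
            · rw [Finset.mem_powersetCard]
              exact ⟨hA.trans (Finset.filter_subset _ _), rfl⟩
          · rw [Finset.mem_biUnion]
            refine ⟨A.filter (fun i => π i = true), ?_, ?_⟩
            · rw [Finset.mem_powerset]
              exact Finset.filter_subset _ _
            · rw [Finset.mem_image]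
              refine ⟨setOn ρ A π, ?_, ?_⟩
              · rw [Finset.mem_filter]
                refine ⟨Finset.mem_univ _, ?_⟩
                convert hE using 1
                funext i
                unfold setOn
                by_cases hiA : i ∈ A
                · rw [if_pos hiA]
                  have : ρ'' i = some (π i) :=
                    hE.ext i (π i) (by unfold setOn; rw [if_pos hiA])
                  rw [this]
                  simp [hiA]
                · rw [if_neg hiA, hρ']
                  unfold setOn
                  rw [if_neg hiA]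
              · funext i
                unfold unset setOn
                by_cases hiA : i ∈ A
                · simp only [hiA, if_true]
                  exact (stars_none (hA hiA)).symm
                · simp only [hiA, if_false]
        refine (Finset.card_le_card hsub).trans ?_
        refine Finset.card_biUnion_le.trans ?_
        have hA : ∀ A ∈ ((Finset.Icc 1 (s + 1)).biUnion (fun j => T.1.powersetCard j)),
            (A.powerset.biUnion (fun P =>
              (univ.filter (fun ρ : Restr I =>
                EncP L (s + 1 - A.card) ρ (setOn ρ' A (fun i => decide (i ∈ P))))).image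
                (fun ρ => unset ρ A))).card ≤ 2 ^ A.card * (4 * w) ^ (s + 1 - A.card) := by
          intro A hA
          have hA1 : 1 ≤ A.card := by
            obtain ⟨j, hj, hAj⟩ := Finset.mem_biUnion.1 hA
            rw [Finset.mem_powersetCard] at hAj
            rw [Finset.mem_Icc] at hj
            omega
          refine Finset.card_biUnion_le.trans ?_
          have hb : ∀ P ∈ A.powerset,
              ((univ.filter (fun ρ : Restr I =>
                EncP L (s + 1 - A.card) ρ (setOn ρ' A (fun i => decide (i ∈ P))))).image
                (fun ρ => unset ρ A)).card ≤ (4 * w) ^ (s + 1 - A.card) := by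
            intro P _
            have hlt : s + 1 - A.card < s + 1 := by omega
            exact Finset.card_image_le.trans (EncP.count hL (s + 1 - A.card) _)
          refine (Finset.sum_le_card_nsmul _ _ _ hb).trans ?_
          rw [Finset.card_powerset, smul_eq_mul]
        refine (Finset.sum_le_sum hA).trans ?_
        rw [Finset.sum_biUnion (fun i _ j _ hij => Finset.pairwise_disjoint_powersetCard T.1 hij)]
        refine le_trans ?_ (geo_sum w (s + 1))
        apply Finset.sum_le_sum
        intro j hj
        have hb : ∀ A ∈ T.1.powersetCard j, 2 ^ A.card * (4 * w) ^ (s + 1 - A.card) ≤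
            2 ^ j * (4 * w) ^ (s + 1 - j) := by
          intro A hA
          rw [(Finset.mem_powersetCard.1 hA).2]
        refine (Finset.sum_le_card_nsmul _ _ _ hb).trans ?_
        rw [Finset.card_powersetCard, smul_eq_mul, mul_pow 2 w j, mul_comm (2 ^ j) (w ^ j),
          mul_assoc]
        apply Nat.mul_le_mul_right
        exact (Nat.choose_le_pow _ _).trans (Nat.pow_le_pow_left (hL T hTmem) _)
termination_by s => s
decreasing_by exact hlt

lemma EncP.exists {L : List (Term I)} : ∀ (s : ℕ) (ρ : Restr I),
    ¬ DT s (rs (dnf L) ρ) → ∃ ρ', EncP L (s + 1) ρ ρ' := by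
  intro s
  induction s using Nat.strong_induction_on with
  | _ s ih =>
    intro ρ h
    cases hT : L.find? (nonfals ρ) with
    | none =>
      exfalso
      apply h
      apply DT.of_const
      refine ⟨false, fun x => ?_⟩
      rw [List.find?_eq_none] at hT
      simp only [rs, dnf, decide_eq_false_iff_not, not_exists, not_and]
      intro T hTL hx
      apply hT T hTL
      rw [nonfals, decide_eq_true_eq]
      intro i hi
      have := hx i hi
      unfold ov at this
      cases hρ : ρ i with
      | none => left; rfl
      | some b => rw [hρ] at this; right; simp at this; rw [this]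
    | some T =>
      have hTmem := List.mem_of_find?_eq_some hT
      have hnf := List.find?_some hT
      rw [nonfals, decide_eq_true_eq] at hnf
      by_cases hne : (stars ρ T).Nonempty
      · have hst : ∀ i ∈ stars ρ T, ρ i = none := fun i hi => stars_none hi
        by_cases hc : s + 1 ≤ (stars ρ T).card
        · obtain ⟨A, hA, hAc⟩ := Finset.exists_subset_card_eq hc
          refine ⟨setOn (setOn ρ A T.2) A T.2, ?_⟩
          have := EncP.step (L := L) ρ (setOn ρ A T.2) T A T.2 0 hT hA
            (Finset.card_pos.1 (by omega)) (Or.inr rfl) (EncP.zero _)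
          rw [hAc, zero_add] at this
          exact this
        · have hlt : s - (stars ρ T).card < s := by
            have := Finset.card_pos.2 hne
            omega
          obtain ⟨π, hπ⟩ : ∃ π : I → Bool,
              ¬ DT (s - (stars ρ T).card) (rs (dnf L) (setOn ρ (stars ρ T) π)) := by
            by_contra hcon
            push Not at hcon
            apply h
            have h2 := DT.of_stars (dnf L) (stars ρ T) ρ hst hcon
            rwa [show (stars ρ T).card + (s - (stars ρ T).card) = s by omega] at h2
          obtain ⟨ρ'', hE⟩ := ih _ hlt _ hπ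
          refine ⟨setOn ρ'' (stars ρ T) T.2, ?_⟩
          have := EncP.step (L := L) ρ ρ'' T (stars ρ T) π _ hT (Finset.Subset.refl _) hne
            (Or.inl rfl) hE
          rwa [show s - (stars ρ T).card + 1 + (stars ρ T).card = s + 1 by omega] at this
      · exfalso
        apply h
        apply DT.of_const
        refine ⟨true, fun x => ?_⟩
        simp only [rs, dnf, decide_eq_true_eq]
        refine ⟨T, hTmem, ?_⟩
        intro i hi
        rcases hnf i hi with h | h
        · exact absurd ⟨i, Finset.mem_filter.2 ⟨hi, h⟩⟩ hne
        · unfold ov; rw [h]; rfl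

omit [Fintype I] in
lemma DT.not : ∀ {h : ℕ} {f : (I → Bool) → Bool}, DT h f → DT h (fun x => !f x)
  | 0, f, hf => by
      obtain ⟨b, hb⟩ := hf
      exact ⟨!b, fun x => by simp only [hb x]⟩
  | h + 1, f, hf => by
      rcases hf with ⟨b, hb⟩ | ⟨i, hi⟩
      · exact Or.inl ⟨!b, fun x => by simp only [hb x]⟩
      · exact Or.inr ⟨i, fun b => (hi b).not⟩

open Classical in
/-- The switching lemma. -/
theorem switching {w h : ℕ} {q : ℝ} (h0 : 0 ≤ q) (h1 : q ≤ 1 / 3) {b : Bool}
    {f : (I → Bool) → Bool} (hf : Cert w b f) :
    Ex (wq q) (fun ρ : Restr I => if ¬ DT h (rs f ρ) then (1 : ℝ) else 0) ≤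
      (12 * w * q) ^ (h + 1) := by
  wlog hb : b = true generalizing b f
  · have hb' : b = false := by simpa using hb
    subst hb'
    have hf' : Cert w true (fun x => !f x) := by
      intro x hx
      obtain ⟨A, hA, hy⟩ := hf x (by simpa using hx)
      exact ⟨A, hA, fun y h => by simp [hy y h]⟩
    have := this hf' rfl
    refine le_trans (Ex_mono (wq_nonneg h0 (by linarith)) fun ρ => ?_) this
    by_cases hJ : DT h (rs f ρ)
    · simp only [hJ, not_true, if_false]
      split_ifs <;> norm_num
    · have hJ' : ¬ DT h (rs (fun x => !f x) ρ) := by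
        intro h
        apply hJ
        have h2 := h.not
        have : (fun x => !(rs (fun x => !f x) ρ x)) = rs f ρ := by
          funext x; simp [rs]
        rwa [this] at h2
      simp only [hJ, hJ', not_false_iff, if_true, le_refl]
  subst hb
  obtain ⟨L, hL, rfl⟩ := cert_dnf hf
  have hstep : ∀ ρ : Restr I, (∏ i, wq q (ρ i)) *
      (if ¬ DT h (rs (dnf L) ρ) then (1 : ℝ) else 0) ≤
      ∑ ρ' : Restr I, if EncP L (h + 1) ρ ρ' then
        (3 * q) ^ (h + 1) * ∏ i, wq q (ρ' i) else 0 := by
    intro ρ
    have hnn : ∀ ρ' : Restr I, 0 ≤ (if EncP L (h + 1) ρ ρ' then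
        (3 * q) ^ (h + 1) * ∏ i, wq q (ρ' i) else 0) := by
      intro ρ'
      split_ifs
      · exact mul_nonneg (by positivity)
          (Finset.prod_nonneg fun i _ => wq_nonneg h0 (by linarith) _)
      · exact le_refl _
    by_cases hJ : DT h (rs (dnf L) ρ)
    · simp only [hJ, not_true, if_false, mul_zero]
      exact Finset.sum_nonneg fun ρ' _ => hnn ρ'
    · obtain ⟨ρ', hE⟩ := EncP.exists (L := L) h ρ hJ
      simp only [hJ, not_false_iff, if_true, mul_one]
      refine (hE.weight h0 h1).trans ?_
      have := Finset.single_le_sum (fun ρ' _ => hnn ρ') (Finset.mem_univ ρ')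
      rw [if_pos hE] at this
      exact this
  unfold Ex
  refine (Finset.sum_le_sum fun ρ _ => hstep ρ).trans ?_
  rw [Finset.sum_comm]
  have hin : ∀ ρ' : Restr I, ∑ ρ : Restr I,
      (if EncP L (h + 1) ρ ρ' then (3 * q) ^ (h + 1) * ∏ i, wq q (ρ' i) else 0) ≤
      (12 * w * q) ^ (h + 1) * ∏ i, wq q (ρ' i) := by
    intro ρ'
    rw [← Finset.sum_filter, Finset.sum_const, nsmul_eq_mul]
    have hc := EncP.count hL (h + 1) ρ'
    have hc' : ((univ.filter (fun ρ : Restr I => EncP L (h + 1) ρ ρ')).card : ℝ) ≤
        (4 * (w : ℝ)) ^ (h + 1) := by
      exact_mod_cast hc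
    have hp : 0 ≤ (3 * q) ^ (h + 1) * ∏ i, wq q (ρ' i) := mul_nonneg (by positivity)
          (Finset.prod_nonneg fun i _ => wq_nonneg h0 (by linarith) _)
    calc _ ≤ (4 * (w : ℝ)) ^ (h + 1) * ((3 * q) ^ (h + 1) * ∏ i, wq q (ρ' i)) :=
          mul_le_mul_of_nonneg_right hc' hp
      _ = (12 * w * q) ^ (h + 1) * ∏ i, wq q (ρ' i) := by
          rw [← mul_assoc, ← mul_pow]; congr 2; ring
  refine (Finset.sum_le_sum fun ρ' _ => hin ρ').trans ?_
  rw [← Finset.mul_sum]
  have hs : ∑ ρ' : Restr I, ∏ i, wq q (ρ' i) = 1 := by
    have := Ex_const (I := I) (wq_sum q) (1 : ℝ)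
    unfold Ex at this
    simpa using this
  rw [hs, mul_one]

end Sw

end H592R3
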