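import Mathlib
import Pool.Agent.H568R2.Collapse
import Pool.Agent.H592R3.Switch

/-!
Under a random restriction all initial parts of all gates of bounded depth become shallow decision
trees.
-/

namespace H592R3

open Finset DomAC0 H568R2

section Coll
variable {I : Type*} [Fintype I] [DecidableEq I] {J : Type}

/-- all functions of depth at most `j` are shallow decision trees under `ρ` -/
def Good (C : Circuit J) (σ : (I → Bool) → (J → Bool)) (h j : ℕ) (ρ : Restr I) : Prop :=
  ∀ g : Fin C.size, C.gateDepth g ≤ j → ∀ i : ℕ,
    DT h (rs (fun x => gfun C g (σ x) ((pl C g).take i)) ρ)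

omit [Fintype I] in
lemma node_cert (C : Circuit J) (σ : (I → Bool) → (J → Bool))
    (hσ : ∀ j, Junta 1 (fun x => σ x j)) {h j : ℕ} (hh : 1 ≤ h) {ρ : Restr I}
    (hG : Good C σ h j ρ) (v : J ⊕ Fin C.size) (hv : C.nodeDepth v ≤ j) (b : Bool) :
    Cert h b (rs (fun x => C.nodeVal (σ x) v) ρ) := by
  cases v with
  | inl i =>
    exact ((((hσ i).rs ρ).mono hh).cert b)
  | inr g =>
    have := hG g hv (pl C g).length
    rw [List.take_length] at this
    have h2 : (fun x => C.nodeVal (σ x) (Sum.inr g)) = fun x => gfun C g (σ x) (pl C g) := by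
      funext x
      exact gateVal_eq C (σ x) g
    rw [h2]
    exact this.cert b

omit [Fintype I] [DecidableEq I] in
lemma gate_cert (C : Circuit J) (σ : (I → Bool) → (J → Bool)) {K : ℕ} {ρ : Restr I}
    (g : Fin C.size) (Q : List (J ⊕ Fin C.size))
    (hQ : ∀ v ∈ Q, ∀ b, Cert K b (rs (fun x => C.nodeVal (σ x) v) ρ)) :
    ∃ b, Cert K b (rs (fun x => gfun C g (σ x) Q) ρ) := by
  cases hg : C.kind g with
  | and =>
    refine ⟨false, ?_⟩
    intro x hx
    simp only [rs, gfun, hg, decide_eq_false_iff_not, not_forall] at hx
    obtain ⟨v, hvQ, hv⟩ := hx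
    have hv' : rs (fun x => C.nodeVal (σ x) v) ρ x = false := by
      show C.nodeVal (σ (ov ρ x)) v = false
      simpa using hv
    obtain ⟨A, hA, hy⟩ := hQ v hvQ false x hv'
    refine ⟨A, hA, fun y hxy => ?_⟩
    simp only [rs, gfun, hg, decide_eq_false_iff_not, not_forall]
    exact ⟨v, hvQ, by have := hy y hxy; simpa [rs] using this⟩
  | or =>
    refine ⟨true, ?_⟩
    intro x hx
    simp only [rs, gfun, hg, decide_eq_true_eq] at hx
    obtain ⟨v, hvQ, hv⟩ := hx
    obtain ⟨A, hA, hy⟩ := hQ v hvQ true x hv
    refine ⟨A, hA, fun y hxy => ?_⟩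
    simp only [rs, gfun, hg, decide_eq_true_eq]
    exact ⟨v, hvQ, hy y hxy⟩
  | not =>
    refine ⟨false, ?_⟩
    intro x hx
    simp only [rs, gfun, hg, decide_eq_false_iff_not, not_forall] at hx
    obtain ⟨v, hvQ, hv⟩ := hx
    have hv' : rs (fun x => C.nodeVal (σ x) v) ρ x = true := by
      show C.nodeVal (σ (ov ρ x)) v = true
      simpa using hv
    obtain ⟨A, hA, hy⟩ := hQ v hvQ true x hv'
    refine ⟨A, hA, fun y hxy => ?_⟩
    simp only [rs, gfun, hg, decide_eq_false_iff_not, not_forall]
    exact ⟨v, hvQ, by have := hy y hxy; simpa [rs] using this⟩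

open Classical in
theorem collapse [Fintype J] (C : Circuit J) (σ : (I → Bool) → (J → Bool))
    (hσ : ∀ j, Junta 1 (fun x => σ x j)) {q : ℝ} (h0 : 0 ≤ q) (h1 : q ≤ 1 / 3) {h : ℕ}
    (hh : 1 ≤ h) : ∀ j : ℕ,
    Ex (wq (q ^ j)) (fun ρ : Restr I => if ¬ Good C σ h j ρ then (1 : ℝ) else 0) ≤
      j * ((C.size * (Fintype.card J + C.size + 1) : ℕ) : ℝ) * (12 * h * q) ^ (h + 1) := by
  intro j
  induction j with
  | zero =>
    have hgood : ∀ ρ : Restr I, Good C σ h 0 ρ := by
      intro ρ g hg
      have : 0 < C.gateDepth g := by rw [Circuit.gateDepth]; omega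
      omega
    simp only [hgood, not_true, if_false]
    unfold Ex
    simp
  | succ j ih =>
    rw [pow_succ, wq_cmp]
    set ε : ℝ := (12 * h * q) ^ (h + 1) with hε
    have hε0 : 0 ≤ ε := by positivity
    set N : ℕ := Fintype.card J + C.size + 1 with hN
    have hwj : ∀ a, 0 ≤ wq (q ^ j) a :=
      wq_nonneg (pow_nonneg h0 j) (pow_le_one₀ h0 (by linarith))
    have hw1 : ∀ a, 0 ≤ wq q a := wq_nonneg h0 (by linarith)
    -- inner bound
    have hin : ∀ ρ : Restr I, Ex (wq q) (fun τ : Restr I =>
        if ¬ Good C σ h (j + 1) (cmp ρ τ) then (1 : ℝ) else 0) ≤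
        (if ¬ Good C σ h j ρ then (1 : ℝ) else 0) + ((C.size * N : ℕ) : ℝ) * ε := by
      intro ρ
      by_cases hG : Good C σ h j ρ
      · simp only [hG, not_true, if_false, zero_add]
        have hpt : ∀ τ : Restr I, (if ¬ Good C σ h (j + 1) (cmp ρ τ) then (1 : ℝ) else 0) ≤
            ∑ gi ∈ ((univ.filter (fun g : Fin C.size => C.gateDepth g ≤ j + 1)) ×ˢ
              Finset.range N),
              (if ¬ DT h
                (rs (rs (fun x => gfun C gi.1 (σ x) ((pl C gi.1).take gi.2)) ρ) τ)
                then (1 : ℝ) else 0) := by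
          intro τ
          have hnn : ∀ gi ∈ ((univ.filter (fun g : Fin C.size => C.gateDepth g ≤ j + 1)) ×ˢ
              Finset.range N), (0 : ℝ) ≤ (if ¬ DT h
                (rs (rs (fun x => gfun C gi.1 (σ x) ((pl C gi.1).take gi.2)) ρ) τ)
                then (1 : ℝ) else 0) := by
            intro gi _
            split_ifs <;> norm_num
          by_cases hGG : Good C σ h (j + 1) (cmp ρ τ)
          · simp only [hGG, not_true, if_false]
            exact Finset.sum_nonneg hnn
          · simp only [hGG, not_false_iff, if_true]
            have hex : ∃ g : Fin C.size, C.gateDepth g ≤ j + 1 ∧ ∃ i : ℕ,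
                ¬ DT h (rs (fun x => gfun C g (σ x) ((pl C g).take i))
                  (cmp ρ τ)) := by
              by_contra hcon
              apply hGG
              intro g hg i
              by_contra hJ
              exact hcon ⟨g, hg, i, hJ⟩
            obtain ⟨g, hg, i, hJ⟩ := hex
            rw [rs_cmp] at hJ
            have htake : (pl C g).take i = (pl C g).take (min i (pl C g).length) := by
              rcases le_total i (pl C g).length with h | h
              · rw [min_eq_left h]
              · rw [min_eq_right h, List.take_length, List.take_of_length_le h]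
            have hmem : ((g, min i (pl C g).length) : Fin C.size × ℕ) ∈
                ((univ.filter (fun g : Fin C.size => C.gateDepth g ≤ j + 1)) ×ˢ
                Finset.range N) := by
              rw [Finset.mem_product, Finset.mem_filter, Finset.mem_range]
              refine ⟨⟨Finset.mem_univ _, hg⟩, ?_⟩
              have h3 := pl_length C g
              have h4 := min_le_right i (pl C g).length
              show min i (pl C g).length < N
              omega
            refine le_trans ?_ (Finset.single_le_sum hnn hmem)
            rw [if_pos]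
            show ¬ DT h (rs (rs (fun x => gfun C g (σ x)
              ((pl C g).take (min i (pl C g).length))) ρ) τ)
            rw [← htake]
            exact hJ
        refine (Ex_mono hw1 hpt).trans ?_
        rw [Ex_sum]
        have hterm : ∀ gi ∈ ((univ.filter (fun g : Fin C.size => C.gateDepth g ≤ j + 1)) ×ˢ
              Finset.range N), Ex (wq q) (fun τ : Restr I => (if ¬ DT h
                (rs (rs (fun x => gfun C gi.1 (σ x) ((pl C gi.1).take gi.2)) ρ) τ)
                then (1 : ℝ) else 0)) ≤ ε := by
          rintro ⟨g, i⟩ hgi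
          rw [Finset.mem_product, Finset.mem_filter] at hgi
          have hgd : C.gateDepth g ≤ j + 1 := hgi.1.2
          obtain ⟨b, hb⟩ := gate_cert C σ (K := h) (ρ := ρ) g ((pl C g).take i) (by
            intro v hv
            apply node_cert C σ hσ hh hG
            have hvp : v ∈ C.preds g := by
              have := List.mem_of_mem_take hv
              rwa [pl, Finset.mem_toList] at this
            have := depth_lt C g v hvp
            omega)
          exact switching h0 h1 hb
        refine (Finset.sum_le_card_nsmul _ _ _ hterm).trans ?_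
        rw [nsmul_eq_mul]
        apply mul_le_mul_of_nonneg_right _ hε0
        rw [Finset.card_product, Finset.card_range]
        have : (univ.filter (fun g : Fin C.size => C.gateDepth g ≤ j + 1)).card ≤ C.size := by
          refine (Finset.card_le_univ _).trans ?_
          simp
        exact_mod_cast Nat.mul_le_mul_right N this
      · simp only [hG, not_false_iff, if_true]
        have h2 : Ex (wq q) (fun τ : Restr I =>
            if ¬ Good C σ h (j + 1) (cmp ρ τ) then (1 : ℝ) else 0) ≤
            Ex (wq q) (fun _ : Restr I => (1 : ℝ)) := by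
          apply Ex_mono hw1
          intro τ
          split_ifs <;> norm_num
        rw [Ex_const (wq_sum q)] at h2
        have : 0 ≤ ((C.size * N : ℕ) : ℝ) * ε := by positivity
        linarith
    refine (Ex_mono hwj hin).trans ?_
    rw [Ex_add, Ex_const (wq_sum (q ^ j))]
    push_cast at ih ⊢
    linarith

end Coll

end H592R3
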