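import Mathlib
import Pool.Agent.H568R2.Medium
import Pool.Agent.H592R3.Collapse

/-!
The first initial part of a gate that is sensitive to at least `L` planted variables.
-/

namespace H592R3

open Finset DomAC0 H568R2

section Med
variable {I : Type*} [Fintype I] [DecidableEq I] {M : Type*} [Fintype M] [DecidableEq M]
variable {J : Type}

theorem medium (C : Circuit J) (σ : (I → Bool) → (J → Bool))
    (hσ : ∀ j, Junta 1 (fun x => σ x j)) (vr : M → I) (hvr : Function.Injective vr)
    {L : ℕ} (hL : 2 ≤ L) (X : I → Bool) {d : ℕ} (hd : C.depth ≤ d)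
    (hS : L ≤ (sens (fun x => C.eval (σ x)) vr X).card) :
    ∃ g : Fin C.size, C.gateDepth g ≤ d ∧ ∃ i < (pl C g).length,
      L ≤ (sens (fun x => gfun C g (σ x) ((pl C g).take (i + 1))) vr X).card ∧
      (sens (fun x => gfun C g (σ x) ((pl C g).take (i + 1))) vr X).card < 2 * L ∧
      (sens (fun x => gfun C g (σ x) ((pl C g).take i)) vr X).card < L := by
  classical
  -- gates that are large
  set B : Finset (Fin C.size) := univ.filter (fun g => C.gateDepth g ≤ d ∧
    L ≤ (sens (fun x => C.nodeVal (σ x) (Sum.inr g)) vr X).card) with hB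
  have hin : ∀ j : J, (sens (fun x => C.nodeVal (σ x) (Sum.inl j)) vr X).card < L := by
    intro j
    have := sens_junta (hσ j) vr hvr X
    have h2 : (sens (fun x => C.nodeVal (σ x) (Sum.inl j)) vr X).card ≤ 1 := this
    omega
  have hBne : B.Nonempty := by
    have hS' : L ≤ (sens (fun x => C.nodeVal (σ x) C.output) vr X).card := hS
    have hd' : C.nodeDepth C.output ≤ d := hd
    revert hS' hd'
    generalize C.output = o
    cases o with
    | inl j => intro h1; have := hin j; omega
    | inr g =>
      intro h1 h2
      exact ⟨g, by rw [hB, Finset.mem_filter]; exact ⟨Finset.mem_univ _, h2, h1⟩⟩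
  set g := B.min' hBne with hg
  have hgB : g ∈ B := Finset.min'_mem B hBne
  rw [hB, Finset.mem_filter] at hgB
  have hchild : ∀ v ∈ pl C g, (sens (fun x => C.nodeVal (σ x) v) vr X).card < L := by
    intro v hv
    have hvp : v ∈ C.preds g := by rwa [pl, Finset.mem_toList] at hv
    have hdep := depth_lt C g v hvp
    cases v with
    | inl j => exact hin j
    | inr h =>
      by_contra hcon
      have hhB : h ∈ B := by
        rw [hB, Finset.mem_filter]
        refine ⟨Finset.mem_univ _, ?_, by omega⟩
        have h3 : C.gateDepth h < C.gateDepth g := hdep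
        omega
      have h1 := Finset.min'_le B h hhB
      have h2 := C.acyclic g h hvp
      exact absurd h2 (not_lt.2 h1)
  refine ⟨g, hgB.2.1, ?_⟩
  -- find the first initial part that is large
  have hfull : L ≤ (sens (fun x => gfun C g (σ x)
      ((pl C g).take (pl C g).length)) vr X).card := by
    rw [List.take_length]
    have : (fun x => C.nodeVal (σ x) (Sum.inr g)) = fun x => gfun C g (σ x) (pl C g) := by
      funext x
      exact gateVal_eq C (σ x) g
    rw [← this]
    exact hgB.2.2
  have hex : ∃ i, L ≤ (sens (fun x => gfun C g (σ x)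
      ((pl C g).take i)) vr X).card := ⟨_, hfull⟩
  have hpos : 0 < Nat.find hex := by
    rw [Nat.pos_iff_ne_zero]
    intro h0
    have h1 := Nat.find_spec hex
    rw [h0, List.take_zero, sens_nil] at h1
    simp at h1
    omega
  obtain ⟨i, hi⟩ := Nat.exists_eq_succ_of_ne_zero (Nat.pos_iff_ne_zero.1 hpos)
  have hlt : i < Nat.find hex := by omega
  have hprev := Nat.find_min hex hlt
  have hle : Nat.find hex ≤ (pl C g).length := Nat.find_min' hex hfull
  have hil : i < (pl C g).length := by omega
  have hspec := Nat.find_spec hex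
  rw [hi, Nat.succ_eq_add_one] at hspec
  refine ⟨i, hil, hspec, ?_, not_le.1 hprev⟩
  rw [List.take_succ_eq_append_getElem hil]
  have h1 := Finset.card_le_card (sens_take C σ vr X g ((pl C g).take i) ((pl C g)[i]))
  have h2 := Finset.card_union_le (sens (fun x => gfun C g (σ x) ((pl C g).take i)) vr X)
    (sens (fun x => C.nodeVal (σ x) ((pl C g)[i])) vr X)
  have h3 := hchild ((pl C g)[i]) (List.getElem_mem hil)
  omega

end Med

section Chain
variable {I : Type*} [Fintype I] [DecidableEq I] {J : Type}

/-- The number of changes along the initial parts of a gate. -/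
lemma gate_changes (C : Circuit J) (σ : (I → Bool) → (J → Bool)) {h j : ℕ} {ρ : Restr I}
    (hG : Good C σ h j ρ) (g : Fin C.size) (hg : C.gateDepth g ≤ j) (N : ℕ) :
    ((Finset.range N).filter (fun i => rs (fun x => gfun C g (σ x) ((pl C g).take i)) ρ ≠
      rs (fun x => gfun C g (σ x) ((pl C g).take (i + 1))) ρ)).card ≤ 2 ^ h := by
  classical
  have hsub : ∀ i, ∀ v ∈ (pl C g).take i, v ∈ (pl C g).take (i + 1) := by
    intro i v hv
    exact List.take_subset_take_left (pl C g) (by omega : i ≤ i + 1) hv
  cases hk : C.kind g with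
  | or =>
    apply chain_changes (fun i => rs (fun x => gfun C g (σ x) ((pl C g).take i)) ρ)
      (fun i => hG g hg i)
    intro i x hx
    simp only [rs, gfun, hk, decide_eq_true_eq] at hx ⊢
    obtain ⟨v, hv, hvx⟩ := hx
    exact ⟨v, hsub i v hv, hvx⟩
  | and =>
    have h1 := chain_changes (fun i => fun x => !(rs (fun x => gfun C g (σ x)
      ((pl C g).take i)) ρ x)) (fun i => (hG g hg i).not) (by
        intro i x hx
        simp only [rs, gfun, hk, Bool.not_eq_true', decide_eq_false_iff_not, not_forall]
          at hx ⊢
        obtain ⟨v, hv, hvx⟩ := hx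
        exact ⟨v, hsub i v hv, hvx⟩) N
    refine le_trans (Finset.card_le_card ?_) h1
    intro i hi
    rw [Finset.mem_filter] at hi ⊢
    refine ⟨hi.1, fun hcon => hi.2 ?_⟩
    funext x
    have := congrFun hcon x
    simpa using this
  | not =>
    have h1 := chain_changes (fun i => fun x => !(rs (fun x => gfun C g (σ x)
      ((pl C g).take i)) ρ x)) (fun i => (hG g hg i).not) (by
        intro i x hx
        simp only [rs, gfun, hk, Bool.not_eq_true', decide_eq_false_iff_not, not_forall]
          at hx ⊢
        obtain ⟨v, hv, hvx⟩ := hx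
        exact ⟨v, hsub i v hv, hvx⟩) N
    refine le_trans (Finset.card_le_card ?_) h1
    intro i hi
    rw [Finset.mem_filter] at hi ⊢
    refine ⟨hi.1, fun hcon => hi.2 ?_⟩
    funext x
    have := congrFun hcon x
    simpa using this

end Chain

end H592R3
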