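import Mathlib
import Pool.Agent.H592R3.Count
import Pool.Agent.H592R3.Medium

/-!
The expected number of planted instances for which a given circuit is sensitive.
-/

namespace H592R3

open Finset DomAC0 H568R2

lemma mask_junta {I : Type*} [DecidableEq I] {f : (I → Bool) → Bool} {K : ℕ} (hf : Junta K f)
    (Y : I → Bool) : Junta K (fun x => f (mask Y x)) := by
  obtain ⟨A, hA, h⟩ := hf
  refine ⟨A, hA, fun x z hxz => ?_⟩
  apply h
  intro i hi
  unfold mask
  rw [hxz i hi]

section Asm
variable {m n r : ℕ} {J : Type} [Fintype J]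

/-- The number of assignments counted for one gate. -/
def ctb (h L n u : ℕ) : ℕ := (h * 2 ^ (2 * L) * (2 * L)) ^ (2 * L) * n ^ u

lemma ctb_ge {h L n u k v : ℕ} (hh : 1 ≤ h) (hL : 1 ≤ L) (hn : 1 ≤ n) (hk : k ≤ 2 * L)
    (hv : v ≤ u) : (h * 2 ^ k) ^ k * (k ^ k * n ^ v) ≤ ctb h L n u := by
  unfold ctb
  rw [← mul_assoc, ← mul_pow]
  apply Nat.mul_le_mul
  · have hb : h * 2 ^ k * k ≤ h * 2 ^ (2 * L) * (2 * L) := by
      apply Nat.mul_le_mul _ hk
      apply Nat.mul_le_mul_left
      exact Nat.pow_le_pow_right (by norm_num) hk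
    have h1 : 1 ≤ h * 2 ^ (2 * L) * (2 * L) := by
      have : 1 ≤ 2 ^ (2 * L) := Nat.one_le_two_pow
      exact Nat.one_le_iff_ne_zero.2 (by positivity)
    exact (Nat.pow_le_pow_left hb k).trans (Nat.pow_le_pow_right h1 hk)
  · exact Nat.pow_le_pow_right hn hv

open Classical in
theorem gate_bound (hn : 1 ≤ n) (s : Fin m → Fin r → Fin m)
    (C : Circuit J) (σ : ((Fin m × (Fin r → Fin n)) → Bool) → (J → Bool))
    (hσ : ∀ j, Junta 1 (fun x => σ x j)) {h : ℕ} (hh : 1 ≤ h) {d τ : ℕ} (hτ : 3 ≤ τ)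
    (g : Fin C.size) (hg : C.gateDepth g ≤ d) (H : Finset (Fin m)) {L u : ℕ} (hL : 1 ≤ L)
    (hH2 : H.card < 2 * L) (hu : m - (touched s H).card ≤ u)
    {y q ε : ℝ} (hy0 : 0 < y) (hy1 : y ≤ 1) (hq : q = (1 / (τ : ℝ)) ^ d)
    (hε : d * ((C.size * (Fintype.card J + C.size + 1) : ℕ) : ℝ) *
      (12 * h * (1 / (τ : ℝ))) ^ (h + 1) ≤ ε) :
    ∑ a : Fin m → Fin n, Ex (vp (y / 2)) (fun X => ∑ i ∈ Finset.range (pl C g).length,
      if sens (fun x => gfun C g (σ x) ((pl C g).take (i + 1))) (vr s a) X = H ∧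
        (sens (fun x => gfun C g (σ x) ((pl C g).take i)) (vr s a) X).card < H.card
      then (1 : ℝ) else 0) ≤
    (1 / (y * q)) ^ (2 * L) * (2 ^ h * (ctb h L n u : ℝ) +
      ((Fintype.card J + C.size + 1 : ℕ) : ℝ) * (n : ℝ) ^ m * ε) := by
  have hτ1 : (1 : ℝ) ≤ τ := by exact_mod_cast (by omega : 1 ≤ τ)
  have hτ0 : (0 : ℝ) < τ := by linarith
  have hq0 : 0 < q := by rw [hq]; positivity
  have hq1 : q ≤ 1 := by
    rw [hq]
    apply pow_le_one₀ (by positivity)
    rw [div_le_one hτ0]; exact hτ1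
  have h13 : (1 : ℝ) / τ ≤ 1 / 3 := by
    apply one_div_le_one_div_of_le (by norm_num)
    exact_mod_cast hτ
  have hε0 : 0 ≤ ε := le_trans (by positivity) hε
  set N : ℕ := Fintype.card J + C.size + 1 with hN
  set len := (pl C g).length with hlen
  have hlenN : len ≤ N := by
    have := pl_length C g
    omega
  set f : ℕ → ((Fin m × (Fin r → Fin n)) → Bool) → Bool :=
    fun i x => gfun C g (σ x) ((pl C g).take i) with hf
  set B : ℝ := 2 ^ h * (ctb h L n u : ℝ) with hB
  have hB0 : 0 ≤ B := by positivity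
  -- counting for each `(Y, ρ, D)`
  have hcount : ∀ (Y : (Fin m × (Fin r → Fin n)) → Bool) (ρ : Restr (Fin m × (Fin r → Fin n)))
      (D : (Fin m × (Fin r → Fin n)) → Bool),
      ∑ a : Fin m → Fin n, ∑ i ∈ Finset.range len,
        (if Ev (f i) (f (i + 1)) (vr s a) H Y ρ D then (1 : ℝ) else 0) ≤
      B + (N : ℝ) * (n : ℝ) ^ m *
        (if ¬ Good C (fun x => σ (mask Y x)) h d ρ then (1 : ℝ) else 0) := by
    intro Y ρ D
    by_cases hG : Good C (fun x => σ (mask Y x)) h d ρ
    · simp only [hG, not_true, if_false, mul_zero, add_zero]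
      rw [Finset.sum_comm]
      have hch := gate_changes C (fun x => σ (mask Y x)) hG g hg len
      have h1 : ∀ i ∈ Finset.range len, ∑ a : Fin m → Fin n,
          (if Ev (f i) (f (i + 1)) (vr s a) H Y ρ D then (1 : ℝ) else 0) ≤
          if (rs (fun x => f i (mask Y x)) ρ ≠ rs (fun x => f (i + 1) (mask Y x)) ρ)
            then (ctb h L n u : ℝ) else 0 := by
        intro i _
        by_cases hc : rs (fun x => f i (mask Y x)) ρ ≠ rs (fun x => f (i + 1) (mask Y x)) ρ
        · rw [if_pos hc]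
          have h2 : ∀ a ∈ (univ : Finset (Fin m → Fin n)),
              (if Ev (f i) (f (i + 1)) (vr s a) H Y ρ D then (1 : ℝ) else 0) ≤
              (if FD (rs (fun x => f (i + 1) (mask Y x)) ρ) D (H.image (vr s a))
                then (1 : ℝ) else 0) := by
            intro a _
            by_cases hE : Ev (f i) (f (i + 1)) (vr s a) H Y ρ D
            · rw [if_pos hE, if_pos hE.1]
            · rw [if_neg hE]; split_ifs <;> norm_num
          refine (Finset.sum_le_sum h2).trans ?_
          rw [Finset.sum_boole]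
          have h3 := count_fd s H _ (hG g hg (i + 1)) D
          have h4 := h3.trans (ctb_ge (L := L) (u := u) hh hL hn (by omega) hu)
          exact_mod_cast h4
        · rw [if_neg hc]
          apply le_of_eq
          apply Finset.sum_eq_zero
          intro a _
          rw [if_neg]
          intro hE
          exact hc hE.2
      refine (Finset.sum_le_sum h1).trans ?_
      rw [← Finset.sum_filter, Finset.sum_const, nsmul_eq_mul, hB]
      apply mul_le_mul_of_nonneg_right _ (by positivity)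
      have : ((Finset.range len).filter (fun i => rs (fun x => f i (mask Y x)) ρ ≠
        rs (fun x => f (i + 1) (mask Y x)) ρ)).card ≤ 2 ^ h := hch
      exact_mod_cast this
    · simp only [hG, not_false_iff, if_true, mul_one]
      have h1 : ∑ a : Fin m → Fin n, ∑ i ∈ Finset.range len,
          (if Ev (f i) (f (i + 1)) (vr s a) H Y ρ D then (1 : ℝ) else 0) ≤
          ∑ a : Fin m → Fin n, ∑ i ∈ Finset.range len, (1 : ℝ) := by
        apply Finset.sum_le_sum
        intro a _
        apply Finset.sum_le_sum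
        intro i _
        split_ifs <;> norm_num
      refine h1.trans ?_
      rw [Finset.sum_const, Finset.sum_const, Finset.card_range, Finset.card_univ,
        Fintype.card_fun, Fintype.card_fin, Fintype.card_fin]
      simp only [nsmul_eq_mul, mul_one]
      push_cast
      have h2 : (len : ℝ) ≤ N := by exact_mod_cast hlenN
      have h3 : (0 : ℝ) ≤ (n : ℝ) ^ m := by positivity
      nlinarith
  -- comparison
  have hmain : (y * q) ^ H.card * ∑ a : Fin m → Fin n, Ex (vp (y / 2)) (fun X =>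
      ∑ i ∈ Finset.range len, if sens (f (i + 1)) (vr s a) X = H ∧
        (sens (f i) (vr s a) X).card < H.card then (1 : ℝ) else 0) ≤
      B + (N : ℝ) * (n : ℝ) ^ m * ε := by
    have e1 : ∀ a : Fin m → Fin n, (y * q) ^ H.card * Ex (vp (y / 2)) (fun X =>
        ∑ i ∈ Finset.range len, if sens (f (i + 1)) (vr s a) X = H ∧
        (sens (f i) (vr s a) X).card < H.card then (1 : ℝ) else 0) ≤
        ∑ i ∈ Finset.range len, Ex (vp y) (fun Y => Ex (wq q) (fun ρ =>
          Ex (vp (1 / 2)) (fun D => if Ev (f i) (f (i + 1)) (vr s a) H Y ρ D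
            then (1 : ℝ) else 0))) := by
      intro a
      rw [Ex_sum, Finset.mul_sum]
      exact Finset.sum_le_sum fun i _ =>
        sens_prob (f i) (f (i + 1)) (vr s a) (vr_inj s a) H hy0.le hy1 hq0.le hq1
    rw [Finset.mul_sum]
    refine (Finset.sum_le_sum fun a _ => e1 a).trans ?_
    simp only [← Ex_sum]
    have h1 : ∀ Y : (Fin m × (Fin r → Fin n)) → Bool,
        Ex (wq q) (fun ρ : Restr (Fin m × (Fin r → Fin n)) => Ex (vp (1 / 2)) (fun D =>
          ∑ a : Fin m → Fin n, ∑ i ∈ Finset.range len,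
          (if Ev (f i) (f (i + 1)) (vr s a) H Y ρ D then (1 : ℝ) else 0))) ≤
          B + (N : ℝ) * (n : ℝ) ^ m * ε := by
      intro Y
      have h2 : ∀ ρ : Restr (Fin m × (Fin r → Fin n)), Ex (vp (1 / 2)) (fun D =>
          ∑ a : Fin m → Fin n, ∑ i ∈ Finset.range len,
          (if Ev (f i) (f (i + 1)) (vr s a) H Y ρ D then (1 : ℝ) else 0)) ≤
          B + (N : ℝ) * (n : ℝ) ^ m *
          (if ¬ Good C (fun x => σ (mask Y x)) h d ρ then (1 : ℝ) else 0) := by
        intro ρ
        refine (Ex_mono (vp_nonneg (by norm_num) (by norm_num)) (fun D => hcount Y ρ D)).trans ?_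
        exact (Ex_const (I := Fin m × (Fin r → Fin n)) (vp_sum (1 / 2)) _).le
      refine (Ex_mono (wq_nonneg hq0.le hq1) h2).trans ?_
      rw [Ex_add, Ex_smul (wq q) ((N : ℝ) * (n : ℝ) ^ m), Ex_const (wq_sum q)]
      have h3 := collapse C (fun x => σ (mask Y x)) (fun j => mask_junta (hσ j) Y)
        (q := 1 / (τ : ℝ)) (by positivity) h13 hh d
      rw [← hq] at h3
      have h4 : (0 : ℝ) ≤ (N : ℝ) * (n : ℝ) ^ m := by positivity
      have h5 := mul_le_mul_of_nonneg_left (h3.trans hε) h4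
      linarith
    refine (Ex_mono (vp_nonneg hy0.le hy1) h1).trans ?_
    exact (Ex_const (I := Fin m × (Fin r → Fin n)) (vp_sum y) _).le
  -- conclusion
  set Z : ℝ := ∑ a : Fin m → Fin n, Ex (vp (y / 2)) (fun X =>
      ∑ i ∈ Finset.range len, if sens (f (i + 1)) (vr s a) X = H ∧
        (sens (f i) (vr s a) X).card < H.card then (1 : ℝ) else 0) with hZ
  have hyq0 : 0 < y * q := mul_pos hy0 hq0
  have hyq1 : y * q ≤ 1 := mul_le_one₀ hy1 hq0.le hq1
  have hR0 : 0 ≤ B + (N : ℝ) * (n : ℝ) ^ m * ε := by positivity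
  have hcost : Z ≤ (1 / (y * q)) ^ H.card * (B + (N : ℝ) * (n : ℝ) ^ m * ε) := by
    rw [one_div_pow, one_div_mul_eq_div, le_div_iff₀ (by positivity), mul_comm]
    exact hmain
  refine hcost.trans (mul_le_mul_of_nonneg_right ?_ hR0)
  apply pow_le_pow_right₀ _ (by omega)
  rw [le_div_iff₀ hyq0]
  linarith

open Classical in
/-- The number of planted instances on which a circuit is sensitive to `L` planted variables. -/
theorem circ_bound (hn : 1 ≤ n) (s : Fin m → Fin r → Fin m)
    (C : Circuit J) (σ : ((Fin m × (Fin r → Fin n)) → Bool) → (J → Bool))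
    (hσ : ∀ j, Junta 1 (fun x => σ x j)) {h : ℕ} (hh : 1 ≤ h) {d τ : ℕ} (hτ : 3 ≤ τ)
    (hdepth : C.depth ≤ d) {S : ℕ} (hS : C.size ≤ S) {L u : ℕ} (hL : 2 ≤ L)
    (hexp : ∀ H : Finset (Fin m), L ≤ H.card → m - (touched s H).card ≤ u)
    {y q ε : ℝ} (hy0 : 0 < y) (hy1 : y ≤ 1) (hq : q = (1 / (τ : ℝ)) ^ d)
    (hε : d * ((S * (Fintype.card J + S + 1) : ℕ) : ℝ) *
      (12 * h * (1 / (τ : ℝ))) ^ (h + 1) ≤ ε) :
    ∑ a : Fin m → Fin n, Ex (vp (y / 2)) (fun X =>
      if L ≤ (sens (fun x => C.eval (σ x)) (vr s a) X).card then (1 : ℝ) else 0) ≤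
    S * 2 ^ m * ((1 / (y * q)) ^ (2 * L) * (2 ^ h * (ctb h L n u : ℝ) +
      ((Fintype.card J + S + 1 : ℕ) : ℝ) * (n : ℝ) ^ m * ε)) := by
  have hε0 : 0 ≤ ε := le_trans (by positivity) hε
  have hq0 : 0 < q := by
    have : (0 : ℝ) < τ := by exact_mod_cast (by omega : 0 < τ)
    rw [hq]; positivity
  set R : ℝ := (1 / (y * q)) ^ (2 * L) * (2 ^ h * (ctb h L n u : ℝ) +
      ((Fintype.card J + S + 1 : ℕ) : ℝ) * (n : ℝ) ^ m * ε) with hR
  have hR0 : 0 ≤ R := by positivity
  set GG : Finset (Fin C.size) := univ.filter (fun g : Fin C.size => C.gateDepth g ≤ d) with hGG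
  set Med : Finset (Finset (Fin m)) :=
    univ.filter (fun H => L ≤ H.card ∧ H.card < 2 * L) with hMed
  have hpt : ∀ (a : Fin m → Fin n) (X : (Fin m × (Fin r → Fin n)) → Bool),
      (if L ≤ (sens (fun x => C.eval (σ x)) (vr s a) X).card then (1 : ℝ) else 0) ≤
      ∑ g ∈ GG, ∑ H ∈ Med, ∑ i ∈ Finset.range (pl C g).length,
        (if sens (fun x => gfun C g (σ x) ((pl C g).take (i + 1))) (vr s a) X = H ∧
        (sens (fun x => gfun C g (σ x) ((pl C g).take i)) (vr s a) X).card < H.card
      then (1 : ℝ) else 0) := by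
    intro a X
    have hn1 : ∀ g : Fin C.size, ∀ H : Finset (Fin m), ∀ i ∈ Finset.range (pl C g).length,
        (0 : ℝ) ≤ (if sens (fun x => gfun C g (σ x) ((pl C g).take (i + 1))) (vr s a) X = H ∧
        (sens (fun x => gfun C g (σ x) ((pl C g).take i)) (vr s a) X).card < H.card
      then (1 : ℝ) else 0) := by
      intro g H i _
      split_ifs <;> norm_num
    have hn2 : ∀ g : Fin C.size, ∀ H ∈ Med, (0 : ℝ) ≤ ∑ i ∈ Finset.range (pl C g).length,
        (if sens (fun x => gfun C g (σ x) ((pl C g).take (i + 1))) (vr s a) X = H ∧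
        (sens (fun x => gfun C g (σ x) ((pl C g).take i)) (vr s a) X).card < H.card
      then (1 : ℝ) else 0) := fun g H _ => Finset.sum_nonneg (hn1 g H)
    have hn3 : ∀ g ∈ GG, (0 : ℝ) ≤ ∑ H ∈ Med, ∑ i ∈ Finset.range (pl C g).length,
        (if sens (fun x => gfun C g (σ x) ((pl C g).take (i + 1))) (vr s a) X = H ∧
        (sens (fun x => gfun C g (σ x) ((pl C g).take i)) (vr s a) X).card < H.card
      then (1 : ℝ) else 0) := fun g _ => Finset.sum_nonneg (hn2 g)
    by_cases hLs : L ≤ (sens (fun x => C.eval (σ x)) (vr s a) X).card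
    · rw [if_pos hLs]
      obtain ⟨g, hg, i, hi, h1, h2, h3⟩ := medium C σ hσ (vr s a) (vr_inj s a) hL X hdepth hLs
      have hgm : g ∈ GG := by
        rw [hGG, Finset.mem_filter]; exact ⟨Finset.mem_univ _, hg⟩
      refine le_trans ?_ (Finset.single_le_sum hn3 hgm)
      have hHm : sens (fun x => gfun C g (σ x) ((pl C g).take (i + 1))) (vr s a) X ∈ Med := by
        rw [hMed, Finset.mem_filter]; exact ⟨Finset.mem_univ _, h1, h2⟩
      refine le_trans ?_ (Finset.single_le_sum (hn2 g) hHm)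
      refine le_trans ?_ (Finset.single_le_sum (hn1 g _) (Finset.mem_range.2 hi))
      rw [if_pos ⟨rfl, by omega⟩]
    · rw [if_neg hLs]
      exact Finset.sum_nonneg hn3
  have h1 : ∑ a : Fin m → Fin n, Ex (vp (y / 2)) (fun X =>
      if L ≤ (sens (fun x => C.eval (σ x)) (vr s a) X).card then (1 : ℝ) else 0) ≤
      ∑ g ∈ GG, ∑ H ∈ Med, ∑ a : Fin m → Fin n, Ex (vp (y / 2)) (fun X =>
        ∑ i ∈ Finset.range (pl C g).length,
        (if sens (fun x => gfun C g (σ x) ((pl C g).take (i + 1))) (vr s a) X = H ∧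
        (sens (fun x => gfun C g (σ x) ((pl C g).take i)) (vr s a) X).card < H.card
      then (1 : ℝ) else 0)) := by
    have h2 : ∀ a ∈ (univ : Finset (Fin m → Fin n)), Ex (vp (y / 2)) (fun X =>
        if L ≤ (sens (fun x => C.eval (σ x)) (vr s a) X).card then (1 : ℝ) else 0) ≤
        ∑ g ∈ GG, ∑ H ∈ Med, Ex (vp (y / 2)) (fun X =>
        ∑ i ∈ Finset.range (pl C g).length,
        (if sens (fun x => gfun C g (σ x) ((pl C g).take (i + 1))) (vr s a) X = H ∧
        (sens (fun x => gfun C g (σ x) ((pl C g).take i)) (vr s a) X).card < H.card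
      then (1 : ℝ) else 0)) := by
      intro a _
      refine (Ex_mono (vp_nonneg (by linarith) (by linarith)) (hpt a)).trans ?_
      rw [Ex_sum]
      simp only [Ex_sum]
      exact le_refl _
    refine (Finset.sum_le_sum h2).trans (le_of_eq ?_)
    rw [Finset.sum_comm]
    refine Finset.sum_congr rfl fun g _ => ?_
    rw [Finset.sum_comm]
  refine h1.trans ?_
  have h2 : ∀ g ∈ GG, ∑ H ∈ Med, ∑ a : Fin m → Fin n, Ex (vp (y / 2)) (fun X =>
        ∑ i ∈ Finset.range (pl C g).length,
        (if sens (fun x => gfun C g (σ x) ((pl C g).take (i + 1))) (vr s a) X = H ∧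
        (sens (fun x => gfun C g (σ x) ((pl C g).take i)) (vr s a) X).card < H.card
      then (1 : ℝ) else 0)) ≤ 2 ^ m * R := by
    intro g hg
    rw [hGG, Finset.mem_filter] at hg
    have h3 : ∀ H ∈ Med, ∑ a : Fin m → Fin n, Ex (vp (y / 2)) (fun X =>
        ∑ i ∈ Finset.range (pl C g).length,
        (if sens (fun x => gfun C g (σ x) ((pl C g).take (i + 1))) (vr s a) X = H ∧
        (sens (fun x => gfun C g (σ x) ((pl C g).take i)) (vr s a) X).card < H.card
      then (1 : ℝ) else 0)) ≤ R := by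
      intro H hH
      rw [hMed, Finset.mem_filter] at hH
      refine (gate_bound hn s C σ hσ hh hτ g hg.2 H (by omega : 1 ≤ L) hH.2.2 (hexp H hH.2.1)
        hy0 hy1 hq (ε := ε) ?_).trans ?_
      · refine le_trans ?_ hε
        apply mul_le_mul_of_nonneg_right _ (by positivity)
        apply mul_le_mul_of_nonneg_left _ (by positivity)
        have : C.size * (Fintype.card J + C.size + 1) ≤ S * (Fintype.card J + S + 1) :=
          Nat.mul_le_mul hS (by omega)
        exact_mod_cast this
      · rw [hR]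
        apply mul_le_mul_of_nonneg_left _ (by positivity)
        apply add_le_add_right
        apply mul_le_mul_of_nonneg_right _ hε0
        apply mul_le_mul_of_nonneg_right _ (by positivity)
        have : Fintype.card J + C.size + 1 ≤ Fintype.card J + S + 1 := by omega
        exact_mod_cast this
    refine (Finset.sum_le_card_nsmul _ _ _ h3).trans ?_
    rw [nsmul_eq_mul]
    apply mul_le_mul_of_nonneg_right _ hR0
    have : Med.card ≤ 2 ^ m := by
      refine (Finset.card_le_univ _).trans ?_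
      rw [Fintype.card_finset, Fintype.card_fin]
    exact_mod_cast this
  refine (Finset.sum_le_card_nsmul _ _ _ h2).trans ?_
  rw [nsmul_eq_mul, ← mul_assoc]
  apply mul_le_mul_of_nonneg_right _ hR0
  apply mul_le_mul_of_nonneg_right _ (by positivity)
  have : GG.card ≤ S := by
    refine (Finset.card_le_univ _).trans ?_
    rw [Fintype.card_fin]
    exact hS
  exact_mod_cast this

end Asm

end H592R3
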