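import Mathlib
import Pool.Agent.H592R3.Gate

/-!
Randomized circuits deciding a planted constraint satisfaction problem.
-/

namespace H592R3

open Finset DomAC0 H568R2

section Core
variable {m n r : ℕ}

/-- The instance has at most one solution. -/
def AtMostOne (s : Fin m → Fin r → Fin m) (X : Fin m × (Fin r → Fin n) → Bool) : Prop :=
  ∀ a b : Fin m → Fin n, (∀ i, X (i, fun j => a (s i j)) = true) →
    (∀ i, X (i, fun j => b (s i j)) = true) → a = b

lemma uniq_atMostOne {s : Fin m → Fin r → Fin m} {a : Fin m → Fin n}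
    {X : Fin m × (Fin r → Fin n) → Bool} (hU : Uniq s a X) (h : Finset (Fin m)) :
    AtMostOne s (plant (vr s a) h X) := by
  have key : ∀ b : Fin m → Fin n, (∀ i, plant (vr s a) h X (i, fun j => b (s i j)) = true) →
      b = a := by
    intro b hb
    by_contra hba
    obtain ⟨i, hi⟩ := hU.2 b hba
    have h1 : plant (vr s a) h X (vr s b i) = true := hb i
    have h2 : plant (vr s a) univ X (vr s b i) = true := by
      rw [plant_true] at h1 ⊢
      rcases h1 with ⟨j, _, hj⟩ | h1
      · exact Or.inl ⟨j, Finset.mem_univ _, hj⟩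
      · exact Or.inr h1
    rw [hi] at h2
    cases h2
  intro b c hb hc
  rw [key b hb, key c hc]

variable {J : Type} [Fintype J]

open Classical in
lemma rand_sens {s : Fin m → Fin r → Fin m} {a : Fin m → Fin n}
    {X : Fin m × (Fin r → Fin n) → Bool} (hU : Uniq s a X)
    {Ω : Type} [Fintype Ω] (P : Ω → ℝ) (hP0 : ∀ ω, 0 ≤ P ω) (hP1 : ∑ ω, P ω = 1)
    (F : Ω → ((Fin m × (Fin r → Fin n)) → Bool) → Bool) {L : ℕ} (hL : 1 ≤ L) (hLm : 5 * L ≤ m)
    (hcor : ∀ X, AtMostOne s X →
      (2 : ℝ) / 3 ≤ ∑ ω, if (F ω X = true ↔ Sat s X) then P ω else 0) :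
    (1 : ℝ) / 4 ≤ ∑ ω, P ω * (if L ≤ (sens (F ω) (vr s a) X).card then (1 : ℝ) else 0) := by
  have hm : 1 ≤ m := by omega
  have hmL : (0 : ℝ) < (m : ℝ) - L := by
    have : (L : ℝ) < m := by exact_mod_cast (by omega : L < m)
    linarith
  -- error on the instances
  have herr : ∀ h : Finset (Fin m), ∑ ω, P ω *
      (if ¬ (F ω (plant (vr s a) h X) = true ↔ Sat s (plant (vr s a) h X)) then (1 : ℝ) else 0)
      ≤ 1 / 3 := by
    intro h
    have h1 := hcor _ (uniq_atMostOne hU h)
    have h2 : ∑ ω, P ω *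
      (if ¬ (F ω (plant (vr s a) h X) = true ↔ Sat s (plant (vr s a) h X)) then (1 : ℝ) else 0) +
      ∑ ω, (if (F ω (plant (vr s a) h X) = true ↔ Sat s (plant (vr s a) h X)) then P ω else 0)
      = 1 := by
      rw [← Finset.sum_add_distrib, ← hP1]
      refine Finset.sum_congr rfl fun ω _ => ?_
      split_ifs <;> simp_all
    linarith
  -- pointwise
  have hpt : ∀ ω, 1 - (if L ≤ (sens (F ω) (vr s a) X).card then (1 : ℝ) else 0) ≤
      (if ¬ (F ω (plant (vr s a) univ X) = true ↔ Sat s (plant (vr s a) univ X))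
        then (1 : ℝ) else 0) +
      (1 / ((m : ℝ) - L)) * ∑ j : Fin m,
        (if ¬ (F ω (plant (vr s a) (univ.erase j) X) = true ↔
          Sat s (plant (vr s a) (univ.erase j) X)) then (1 : ℝ) else 0) := by
    intro ω
    have hnn : (0 : ℝ) ≤ (1 / ((m : ℝ) - L)) * ∑ j : Fin m,
        (if ¬ (F ω (plant (vr s a) (univ.erase j) X) = true ↔
          Sat s (plant (vr s a) (univ.erase j) X)) then (1 : ℝ) else 0) := by
      apply mul_nonneg (by positivity)
      apply Finset.sum_nonneg
      intro j _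
      split_ifs <;> norm_num
    by_cases hs : L ≤ (sens (F ω) (vr s a) X).card
    · rw [if_pos hs, sub_self]
      apply add_nonneg _ hnn
      split_ifs <;> norm_num
    · rw [if_neg hs, sub_zero]
      by_cases hfull : (F ω (plant (vr s a) univ X) = true ↔ Sat s (plant (vr s a) univ X))
      · rw [if_neg (not_not.2 hfull), zero_add]
        -- all correct `j` are sensitive
        have hsub : univ.filter (fun j : Fin m => (F ω (plant (vr s a) (univ.erase j) X) = true ↔
          Sat s (plant (vr s a) (univ.erase j) X))) ⊆ sens (F ω) (vr s a) X := by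
          intro j hj
          have hj' := (Finset.mem_filter.1 hj).2
          rw [mem_sens]
          refine ⟨univ.erase j, ?_⟩
          rw [Finset.insert_erase (Finset.mem_univ j)]
          have h1 : F ω (plant (vr s a) univ X) = true := by
            rw [hfull, uniq_sat hU]
          have h2 : ¬ F ω (plant (vr s a) (univ.erase j) X) = true := by
            rw [hj', uniq_sat hU]
            intro h
            have := Finset.mem_univ j
            rw [← h] at this
            simp at this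
          rw [h1]
          exact h2
        have hc := Finset.card_le_card hsub
        have hsplit : (univ.filter (fun j : Fin m =>
            (F ω (plant (vr s a) (univ.erase j) X) = true ↔
            Sat s (plant (vr s a) (univ.erase j) X)))).card +
            (univ.filter (fun j : Fin m => ¬ (F ω (plant (vr s a) (univ.erase j) X) = true ↔
            Sat s (plant (vr s a) (univ.erase j) X)))).card = m := by
          rw [Finset.card_filter_add_card_filter_not, Finset.card_univ, Fintype.card_fin]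
        rw [Finset.sum_boole]
        rw [one_div_mul_eq_div, le_div_iff₀ hmL, one_mul]
        have h5 : m ≤ L + (univ.filter (fun j : Fin m =>
            ¬ (F ω (plant (vr s a) (univ.erase j) X) = true ↔
            Sat s (plant (vr s a) (univ.erase j) X)))).card := by omega
        have h6 : (m : ℝ) ≤ L + ((univ.filter (fun j : Fin m =>
            ¬ (F ω (plant (vr s a) (univ.erase j) X) = true ↔
            Sat s (plant (vr s a) (univ.erase j) X)))).card : ℝ) := by exact_mod_cast h5
        linarith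
      · rw [if_pos hfull]
        linarith
  -- sum
  have h1 : ∑ ω, P ω * (1 - (if L ≤ (sens (F ω) (vr s a) X).card then (1 : ℝ) else 0)) ≤
      1 / 3 + (1 / ((m : ℝ) - L)) * (m * (1 / 3)) := by
    calc ∑ ω, P ω * (1 - (if L ≤ (sens (F ω) (vr s a) X).card then (1 : ℝ) else 0))
        ≤ ∑ ω, P ω * ((if ¬ (F ω (plant (vr s a) univ X) = true ↔
            Sat s (plant (vr s a) univ X)) then (1 : ℝ) else 0) +
          (1 / ((m : ℝ) - L)) * ∑ j : Fin m,
            (if ¬ (F ω (plant (vr s a) (univ.erase j) X) = true ↔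
            Sat s (plant (vr s a) (univ.erase j) X)) then (1 : ℝ) else 0)) :=
          Finset.sum_le_sum fun ω _ => mul_le_mul_of_nonneg_left (hpt ω) (hP0 ω)
      _ = ∑ ω, P ω * (if ¬ (F ω (plant (vr s a) univ X) = true ↔
            Sat s (plant (vr s a) univ X)) then (1 : ℝ) else 0) +
          (1 / ((m : ℝ) - L)) * ∑ j : Fin m, ∑ ω, P ω *
            (if ¬ (F ω (plant (vr s a) (univ.erase j) X) = true ↔
            Sat s (plant (vr s a) (univ.erase j) X)) then (1 : ℝ) else 0) := by
          rw [Finset.sum_comm, Finset.mul_sum, ← Finset.sum_add_distrib]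
          refine Finset.sum_congr rfl fun ω _ => ?_
          rw [← Finset.mul_sum]
          ring
      _ ≤ _ := by
          apply add_le_add (herr univ)
          apply mul_le_mul_of_nonneg_left _ (by positivity)
          refine (Finset.sum_le_sum fun j _ => herr (univ.erase j)).trans ?_
          rw [Finset.sum_const, Finset.card_univ, Fintype.card_fin, nsmul_eq_mul]
  have h2 : ∑ ω, P ω * (1 - (if L ≤ (sens (F ω) (vr s a) X).card then (1 : ℝ) else 0)) =
      1 - ∑ ω, P ω * (if L ≤ (sens (F ω) (vr s a) X).card then (1 : ℝ) else 0) := by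
    have h4 : ∑ ω, P ω * (1 - (if L ≤ (sens (F ω) (vr s a) X).card then (1 : ℝ) else 0)) =
      ∑ ω, P ω - ∑ ω, P ω * (if L ≤ (sens (F ω) (vr s a) X).card then (1 : ℝ) else 0) := by
      rw [← Finset.sum_sub_distrib]
      exact Finset.sum_congr rfl fun ω _ => by ring
    rw [h4, hP1]
  have h3 : (1 / ((m : ℝ) - L)) * (m * (1 / 3)) ≤ 5 / 12 := by
    rw [one_div_mul_eq_div, div_le_iff₀ hmL]
    have : (5 : ℝ) * L ≤ m := by exact_mod_cast hLm
    linarith
  linarith

open Classical in
theorem core (hn : 1 ≤ n) (s : Fin m → Fin (r + 1) → Fin m) (hs : ∀ i, s i 0 = i)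
    {Ω : Type} [Fintype Ω] (P : Ω → ℝ) (hP0 : ∀ ω, 0 ≤ P ω) (hP1 : ∑ ω, P ω = 1)
    (C : Ω → Circuit J) (σ : ((Fin m × (Fin (r + 1) → Fin n)) → Bool) → (J → Bool))
    (hσ : ∀ j, Junta 1 (fun x => σ x j)) {h : ℕ} (hh : 1 ≤ h) {d τ : ℕ} (hτ : 3 ≤ τ)
    (hdepth : ∀ ω, (C ω).depth ≤ d) {S : ℕ} (hS : ∀ ω, (C ω).size ≤ S) {L u : ℕ} (hL : 2 ≤ L)
    (hLm : 5 * L ≤ m)
    (hexp : ∀ H : Finset (Fin m), L ≤ H.card → m - (touched s H).card ≤ u)
    {y q ε : ℝ} (hy0 : 0 < y) (hy1 : y ≤ 1) (hq : q = (1 / (τ : ℝ)) ^ d)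
    (hε : d * ((S * (Fintype.card J + S + 1) : ℕ) : ℝ) *
      (12 * h * (1 / (τ : ℝ))) ^ (h + 1) ≤ ε)
    (hcor : ∀ X, AtMostOne s X →
      (2 : ℝ) / 3 ≤ ∑ ω, if ((C ω).eval (σ X) = true ↔ Sat s X) then P ω else 0) :
    (n : ℝ) ^ m * (1 / 4 * (1 - (m * (y / 2) + ((1 + n * (y / 2)) ^ m - 1)))) ≤
    S * 2 ^ m * ((1 / (y * q)) ^ (2 * L) * (2 ^ h * (ctb h L n u : ℝ) +
      ((Fintype.card J + S + 1 : ℕ) : ℝ) * (n : ℝ) ^ m * ε)) := by
  set R : ℝ := S * 2 ^ m * ((1 / (y * q)) ^ (2 * L) * (2 ^ h * (ctb h L n u : ℝ) +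
      ((Fintype.card J + S + 1 : ℕ) : ℝ) * (n : ℝ) ^ m * ε)) with hR
  have hp0 : 0 ≤ y / 2 := by linarith
  have hp1 : y / 2 ≤ 1 := by linarith
  have h1 : ∑ ω, P ω * ∑ a : Fin m → Fin n, Ex (vp (y / 2)) (fun X =>
      if L ≤ (sens (fun x => (C ω).eval (σ x)) (vr s a) X).card then (1 : ℝ) else 0) ≤ R := by
    calc _ ≤ ∑ ω, P ω * R := by
          refine Finset.sum_le_sum fun ω _ => mul_le_mul_of_nonneg_left ?_ (hP0 ω)
          exact circ_bound hn s (C ω) σ hσ hh hτ (hdepth ω) (hS ω) hL hexp hy0 hy1 hq hε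
      _ = R := by rw [← Finset.sum_mul, hP1, one_mul]
  have h2 : ∑ ω, P ω * ∑ a : Fin m → Fin n, Ex (vp (y / 2)) (fun X =>
      if L ≤ (sens (fun x => (C ω).eval (σ x)) (vr s a) X).card then (1 : ℝ) else 0) =
      ∑ a : Fin m → Fin n, Ex (vp (y / 2)) (fun X => ∑ ω, P ω *
      (if L ≤ (sens (fun x => (C ω).eval (σ x)) (vr s a) X).card then (1 : ℝ) else 0)) := by
    simp only [Finset.mul_sum]
    rw [Finset.sum_comm]
    refine Finset.sum_congr rfl fun a _ => ?_
    rw [Ex_sum]
    refine Finset.sum_congr rfl fun ω _ => ?_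
    rw [Ex_smul]
  rw [h2] at h1
  refine le_trans ?_ h1
  have h3 : ∀ a ∈ (univ : Finset (Fin m → Fin n)),
      1 / 4 * (1 - (m * (y / 2) + ((1 + n * (y / 2)) ^ m - 1))) ≤
      Ex (vp (y / 2)) (fun X => ∑ ω, P ω *
      (if L ≤ (sens (fun x => (C ω).eval (σ x)) (vr s a) X).card then (1 : ℝ) else 0)) := by
    intro a _
    have h4 : ∀ X : (Fin m × (Fin (r + 1) → Fin n)) → Bool,
        1 / 4 + (-(1 / 4)) * (if ¬ Uniq s a X then (1 : ℝ) else 0) ≤ ∑ ω, P ω *
        (if L ≤ (sens (fun x => (C ω).eval (σ x)) (vr s a) X).card then (1 : ℝ) else 0) := by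
      intro X
      by_cases hU : Uniq s a X
      · rw [if_neg (not_not.2 hU), mul_zero, add_zero]
        exact rand_sens hU P hP0 hP1 (fun ω x => (C ω).eval (σ x)) (by omega) hLm hcor
      · rw [if_pos hU]
        have : (0 : ℝ) ≤ ∑ ω, P ω *
          (if L ≤ (sens (fun x => (C ω).eval (σ x)) (vr s a) X).card then (1 : ℝ) else 0) := by
          apply Finset.sum_nonneg
          intro ω _
          apply mul_nonneg (hP0 ω)
          split_ifs <;> norm_num
        linarith
    refine le_trans ?_ (Ex_mono (vp_nonneg hp0 hp1) h4)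
    rw [Ex_add (vp (y / 2)) (fun _ => (1 / 4 : ℝ)), Ex_smul, Ex_const (vp_sum (y / 2))]
    have h5 := uniq_prob (n := n) hs a hp0 hp1
    linarith
  have h6 := Finset.card_nsmul_le_sum _ _ _ h3
  rw [Finset.card_univ, Fintype.card_fun, Fintype.card_fin, Fintype.card_fin, nsmul_eq_mul] at h6
  push_cast at h6
  exact h6

end Core

end H592R3
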