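import Mathlib
import Pool.Agent.H592R3.Core

/-!
Moments of the number of sensitive planted instances: comparison with the restricted functions.
-/

namespace H592R3

open Finset DomAC0 H568R2

section Dom
variable {I : Type*} [Fintype I] [DecidableEq I] {A B : Type*} [Fintype A] [Fintype B]
  [DecidableEq B]

open Classical in
/-- A product measure is dominated by the restriction of another one to an event about finitely
many coordinates. -/
lemma Ex_dom (h : A → B) (w : A → ℝ) (v : B → ℝ) (hv0 : ∀ b, 0 ≤ v b)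
    (hv : ∀ b, v b = ∑ a ∈ univ.filter (fun a => h a = b), w a) (G : A → Prop) {κ : ℝ}
    (hG : ∀ b, v b ≤ κ * ∑ a ∈ univ.filter (fun a => h a = b ∧ G a), w a)
    (V : Finset I) (F : (I → B) → ℝ) (hF : ∀ x, 0 ≤ F x) :
    Ex v F ≤ κ ^ V.card *
      Ex w (fun ω => F (fun i => h (ω i)) * (if ∀ i ∈ V, G (ω i) then 1 else 0)) := by
  have hin : Ex w (fun ω => F (fun i => h (ω i)) * (if ∀ i ∈ V, G (ω i) then 1 else 0)) =
      ∑ X : I → B, F X * ∏ i, ∑ a ∈ univ.filter (fun a => h a = X i ∧ (i ∈ V → G a)), w a := by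
    unfold Ex
    have key : ∀ X : I → B, F X * ∏ i, ∑ a ∈ univ.filter (fun a => h a = X i ∧ (i ∈ V → G a)),
        w a = ∑ ω ∈ univ.filter (fun ω : I → A => (fun i => h (ω i)) = X),
          (∏ i, w (ω i)) * (F (fun i => h (ω i)) * (if ∀ i ∈ V, G (ω i) then 1 else 0)) := by
      intro X
      have h1 : ∏ i, ∑ a ∈ univ.filter (fun a => h a = X i ∧ (i ∈ V → G a)), w a =
          ∑ ω ∈ univ.filter (fun ω : I → A => (fun i => h (ω i)) = X),
          (∏ i, w (ω i)) * (if ∀ i ∈ V, G (ω i) then 1 else 0) := by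
        rw [Finset.prod_univ_sum]
        have h2 : Fintype.piFinset (fun i => univ.filter (fun a => h a = X i ∧ (i ∈ V → G a))) =
            (univ.filter (fun ω : I → A => (fun i => h (ω i)) = X)).filter
              (fun ω => ∀ i ∈ V, G (ω i)) := by
          ext ω
          simp only [Fintype.mem_piFinset, Finset.mem_filter, Finset.mem_univ, true_and,
            funext_iff]
          constructor
          · intro hh
            exact ⟨fun i => (hh i).1, fun i hi => (hh i).2 hi⟩
          · rintro ⟨h3, h4⟩ i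
            exact ⟨h3 i, h4 i⟩
        rw [h2, Finset.sum_filter]
        refine Finset.sum_congr rfl fun ω _ => ?_
        split_ifs <;> simp
      rw [h1, Finset.mul_sum]
      refine Finset.sum_congr rfl fun ω hω => ?_
      rw [(Finset.mem_filter.1 hω).2]
      ring
    rw [Finset.sum_congr rfl fun X _ => key X]
    rw [Finset.sum_fiberwise_of_maps_to (s := univ) (t := univ)
      (g := fun ω : I → A => (fun i => h (ω i)))
      (f := fun ω : I → A => (∏ i, w (ω i)) *
        (F (fun i => h (ω i)) * (if ∀ i ∈ V, G (ω i) then 1 else 0)))]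
    intro i _
    exact Finset.mem_univ _
  rw [hin, Finset.mul_sum]
  unfold Ex
  refine Finset.sum_le_sum fun X _ => ?_
  have h1 : κ ^ V.card = ∏ i : I, (if i ∈ V then κ else 1) := by
    rw [Finset.prod_ite]
    simp
  have h2 : ∏ i, v (X i) ≤ κ ^ V.card *
      ∏ i, ∑ a ∈ univ.filter (fun a => h a = X i ∧ (i ∈ V → G a)), w a := by
    rw [h1, ← Finset.prod_mul_distrib]
    apply Finset.prod_le_prod (fun i _ => hv0 _)
    intro i _
    by_cases hi : i ∈ V
    · simp only [hi, if_true, true_implies]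
      exact hG (X i)
    · simp only [hi, if_false, false_implies, and_true, one_mul]
      exact (hv (X i)).le
  calc (∏ i, v (X i)) * F X ≤ (κ ^ V.card *
      ∏ i, ∑ a ∈ univ.filter (fun a => h a = X i ∧ (i ∈ V → G a)), w a) * F X :=
        mul_le_mul_of_nonneg_right h2 (hF X)
    _ = _ := by ring

end Dom

section Mom
variable {I : Type*} [Fintype I] [DecidableEq I]

/-- the weight of a triple (mask bit, restriction, default value) -/
noncomputable def w3 (y q : ℝ) : Bool × (Option Bool × Bool) → ℝ :=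
  fun c => vp y c.1 * (fun e : Option Bool × Bool => wq q e.1 * vp (1 / 2) e.2) c.2

/-- the input bit determined by a triple -/
def h3 : Bool × (Option Bool × Bool) → Bool := fun c => c.1 && c.2.1.getD c.2.2

lemma w3_nonneg {y q : ℝ} (hy0 : 0 ≤ y) (hy1 : y ≤ 1) (hq0 : 0 ≤ q) (hq1 : q ≤ 1) (a) :
    0 ≤ w3 y q a := by
  unfold w3
  exact mul_nonneg (vp_nonneg hy0 hy1 _) (mul_nonneg (wq_nonneg hq0 hq1 _)
      (vp_nonneg (by norm_num) (by norm_num) _))

lemma w3_sum (y q : ℝ) : ∑ a, w3 y q a = 1 := by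
  simp only [Fintype.sum_prod_type, Fintype.sum_option, Fintype.sum_bool, w3]
  simp [wq, vp]
  ring

lemma h3_push {y q : ℝ} (b : Bool) :
    vp (y / 2) b = ∑ a ∈ univ.filter (fun a : Bool × (Option Bool × Bool) => h3 a = b),
      w3 y q a := by
  rw [Finset.sum_filter]
  simp only [Fintype.sum_prod_type, Fintype.sum_option, Fintype.sum_bool, w3, h3]
  rcases b with _ | _ <;> simp [wq, vp] <;> ring

/-- The comparison of weighted expectations. -/
theorem weighted_compare {K : Type*} [Fintype K] (e : K → (I → Bool) → ℝ)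
    (E' : K → (I → Bool × (Option Bool × Bool)) → ℝ) (V : K → Finset I)
    (he0 : ∀ k X, 0 ≤ e k X) (hE0 : ∀ k ω, 0 ≤ E' k ω)
    (hle : ∀ k ω, (∀ i ∈ V k, (ω i).1 = true ∧ (ω i).2.1 = none) →
      e k (fun i => h3 (ω i)) ≤ E' k ω)
    {y q c : ℝ} (hy0 : 0 < y) (hy1 : y ≤ 1) (hq0 : 0 < q) (hq1 : q ≤ 1)
    (hc : 2 ≤ c * (y * q)) (hc1 : 1 ≤ c) (ψ : (I → Bool) → ℝ) (hψ : ∀ X, 0 ≤ ψ X) :
    Ex (vp (y / 2)) (fun X => ψ X * ∑ k, e k X) ≤
      Ex (w3 y q) (fun ω => ψ (fun i => h3 (ω i)) * ∑ k, c ^ (V k).card * E' k ω) := by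
  classical
  have hc0 : 0 ≤ c := by linarith
  simp only [Finset.mul_sum]
  rw [Ex_sum, Ex_sum]
  refine Finset.sum_le_sum fun k _ => ?_
  have hdom := Ex_dom (I := I) h3 (w3 y q) (vp (y / 2))
    (vp_nonneg (by linarith) (by linarith)) (fun b => h3_push b)
    (fun a => a.1 = true ∧ a.2.1 = none) (κ := c) (by
      intro b
      have h1 : ∑ a ∈ univ.filter (fun a : Bool × (Option Bool × Bool) => h3 a = b ∧
          (a.1 = true ∧ a.2.1 = none)), w3 y q a = y * q / 2 := by
        rw [Finset.sum_filter]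
        simp only [Fintype.sum_prod_type, Fintype.sum_option, Fintype.sum_bool, w3, h3]
        rcases b with _ | _ <;> simp [wq, vp] <;> ring
      have h2 : vp (y / 2) b ≤ 1 := by
        rcases b with _ | _ <;> simp only [vp] <;> linarith
      refine le_trans (b := c * (y * q / 2)) (by linarith) (le_of_eq ?_)
      congr 1
      rw [← h1]
      congr!)
    (V k) (fun X => ψ X * e k X) (fun X => mul_nonneg (hψ X) (he0 _ _))
  refine hdom.trans ?_
  rw [← Ex_smul]
  apply Ex_mono (w3_nonneg hy0.le hy1 hq0.le hq1)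
  intro ω
  by_cases hG : ∀ i ∈ V k, (ω i).1 = true ∧ (ω i).2.1 = none
  · rw [if_pos hG, mul_one]
    have h1 := hle k ω hG
    have h2 := hψ (fun i => h3 (ω i))
    calc c ^ (V k).card * (ψ (fun i => h3 (ω i)) * e k (fun i => h3 (ω i))) =
        ψ (fun i => h3 (ω i)) * (c ^ (V k).card * e k (fun i => h3 (ω i))) := by ring
      _ ≤ ψ (fun i => h3 (ω i)) * (c ^ (V k).card * E' k ω) := by gcongr
  · rw [if_neg hG, mul_zero, mul_zero]
    apply mul_nonneg (hψ _)
    exact mul_nonneg (by positivity) (hE0 _ _)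

end Mom

end H592R3
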