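import Mathlib
import Pool.Agent.H592R3.Sens

/-!
Moebius coefficients of functions on the subsets of a finite set.
-/

set_option linter.unusedSectionVars false

namespace H592R3

open Finset DomAC0 H568R2

section Mb
variable {M : Type*} [DecidableEq M]

/-- The Moebius coefficient of `F` at `H`. -/
def mb (F : Finset M → ℤ) (H : Finset M) : ℤ :=
  ∑ W ∈ H.powerset, (-1) ^ (H.card + W.card) * F W

/-- The discrete derivative. -/
def dl (j : M) (F : Finset M → ℤ) : Finset M → ℤ := fun W => F (insert j W) - F W

lemma mb_empty (F : Finset M → ℤ) : mb F ∅ = F ∅ := by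
  simp [mb]

lemma mb_insert (F : Finset M → ℤ) {j : M} {H : Finset M} (hj : j ∉ H) :
    mb F (insert j H) = mb (dl j F) H := by
  unfold mb dl
  rw [Finset.sum_powerset_insert hj, ← Finset.sum_add_distrib]
  refine Finset.sum_congr rfl fun W hW => ?_
  have hjW : j ∉ W := fun h => hj (Finset.mem_powerset.1 hW h)
  rw [Finset.card_insert_of_notMem hj, Finset.card_insert_of_notMem hjW]
  ring

lemma mb_congr {F G : Finset M → ℤ} {H : Finset M} (h : ∀ W ⊆ H, F W = G W) :
    mb F H = mb G H := by
  unfold mb
  refine Finset.sum_congr rfl fun W hW => ?_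
  rw [h W (Finset.mem_powerset.1 hW)]

lemma mb_add (F G : Finset M → ℤ) (H : Finset M) :
    mb (fun W => F W + G W) H = mb F H + mb G H := by
  unfold mb
  rw [← Finset.sum_add_distrib]
  refine Finset.sum_congr rfl fun W _ => by ring

lemma mb_sub (F G : Finset M → ℤ) (H : Finset M) :
    mb (fun W => F W - G W) H = mb F H - mb G H := by
  unfold mb
  rw [← Finset.sum_sub_distrib]
  refine Finset.sum_congr rfl fun W _ => by ring

lemma mb_zero (H : Finset M) : mb (fun _ => 0) H = 0 := by
  simp [mb]

lemma mb_indep {F : Finset M → ℤ} {H : Finset M} {j : M} (hj : j ∈ H)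
    (h : ∀ W, F (insert j W) = F W) : mb F H = 0 := by
  rw [← Finset.insert_erase hj, mb_insert _ (Finset.notMem_erase j H)]
  have : dl j F = fun _ => 0 := by
    funext W
    unfold dl
    rw [h W, sub_self]
  rw [this, mb_zero]

lemma mb_const (c : ℤ) {H : Finset M} (hH : H.Nonempty) : mb (fun _ => c) H = 0 := by
  obtain ⟨j, hj⟩ := hH
  exact mb_indep hj (fun _ => rfl)

/-- The coefficients of a product. -/
lemma mb_mul : ∀ (H : Finset M) (F G : Finset M → ℤ), mb (fun W => F W * G W) H ≠ 0 →
    ∃ A B : Finset M, A ∪ B = H ∧ mb F A ≠ 0 ∧ mb G B ≠ 0 := by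
  intro H
  induction H using Finset.induction_on with
  | empty =>
    intro F G h
    rw [mb_empty] at h
    refine ⟨∅, ∅, by simp, ?_, ?_⟩
    · rw [mb_empty]; exact left_ne_zero_of_mul h
    · rw [mb_empty]; exact right_ne_zero_of_mul h
  | insert j H hj ih =>
    intro F G h
    rw [mb_insert _ hj] at h
    have h1 : dl j (fun W => F W * G W) = fun W =>
        (dl j F W * G W + F W * dl j G W) + dl j F W * dl j G W := by
      funext W
      unfold dl
      ring
    rw [h1, mb_add, mb_add] at h
    have key : ∀ A B : Finset M, A ∪ B = H → j ∉ A ∧ j ∉ B := by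
      intro A B hAB
      constructor
      · intro hA; exact hj (hAB ▸ Finset.mem_union_left B hA)
      · intro hB; exact hj (hAB ▸ Finset.mem_union_right A hB)
    by_cases c1 : mb (fun W => dl j F W * G W) H = 0
    · by_cases c2 : mb (fun W => F W * dl j G W) H = 0
      · rw [c1, c2, zero_add, zero_add] at h
        obtain ⟨A, B, hAB, hA, hB⟩ := ih (dl j F) (dl j G) h
        obtain ⟨k1, k2⟩ := key A B hAB
        refine ⟨insert j A, insert j B, ?_, ?_, ?_⟩
        · rw [← Finset.insert_union_distrib, hAB]
        · rw [mb_insert _ k1]; exact hA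
        · rw [mb_insert _ k2]; exact hB
      · obtain ⟨A, B, hAB, hA, hB⟩ := ih F (dl j G) c2
        obtain ⟨k1, k2⟩ := key A B hAB
        refine ⟨A, insert j B, ?_, hA, ?_⟩
        · rw [Finset.union_insert, hAB]
        · rw [mb_insert _ k2]; exact hB
    · obtain ⟨A, B, hAB, hA, hB⟩ := ih (dl j F) G c1
      obtain ⟨k1, k2⟩ := key A B hAB
      refine ⟨insert j A, B, ?_, ?_, hB⟩
      · rw [Finset.insert_union, hAB]
      · rw [mb_insert _ k1]; exact hA

lemma mb_exists : ∀ (H : Finset M) (F : Finset M → ℤ), F H ≠ 0 →
    ∃ A ⊆ H, mb F A ≠ 0 := by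
  intro H
  induction H using Finset.induction_on with
  | empty =>
    intro F h
    exact ⟨∅, by simp, by rwa [mb_empty]⟩
  | insert j H hj ih =>
    intro F h
    by_cases c1 : F H = 0
    · have : dl j F H ≠ 0 := by
        unfold dl
        rw [c1, sub_zero]
        exact h
      obtain ⟨A, hA, hm⟩ := ih (dl j F) this
      refine ⟨insert j A, Finset.insert_subset_insert j hA, ?_⟩
      rw [mb_insert _ (fun h => hj (hA h))]
      exact hm
    · obtain ⟨A, hA, hm⟩ := ih F c1
      exact ⟨A, hA.trans (Finset.subset_insert j H), hm⟩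

/-- A nonconstant function has a nonconstant monomial. -/
lemma mb_nonconst : ∀ (H : Finset M) (F : Finset M → ℤ), F H ≠ F ∅ →
    ∃ A ⊆ H, A.Nonempty ∧ mb F A ≠ 0 := by
  intro H
  induction H using Finset.induction_on with
  | empty =>
    intro F h
    exact absurd rfl h
  | insert j H hj ih =>
    intro F h
    by_cases c1 : F H = F ∅
    · have : dl j F H ≠ 0 := by
        unfold dl
        rw [c1]
        exact sub_ne_zero.2 h
      obtain ⟨A, hA, hm⟩ := mb_exists H (dl j F) this
      refine ⟨insert j A, Finset.insert_subset_insert j hA, Finset.insert_nonempty j A, ?_⟩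
      rw [mb_insert _ (fun h => hj (hA h))]
      exact hm
    · obtain ⟨A, hA, hne, hm⟩ := ih F c1
      exact ⟨A, hA.trans (Finset.subset_insert j H), hne, hm⟩

lemma mb_image {I : Type*} [DecidableEq I] (vr : M → I) (hvr : Function.Injective vr) :
    ∀ (H : Finset M) (G : Finset I → ℤ), mb (fun W => G (W.image vr)) H = mb G (H.image vr) := by
  intro H
  induction H using Finset.induction_on with
  | empty =>
    intro G
    rw [mb_empty, Finset.image_empty, mb_empty]
  | insert j H hj ih =>
    intro G
    rw [mb_insert _ hj, Finset.image_insert, mb_insert, ← ih (dl (vr j) G)]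
    · congr 1
      funext W
      show G ((insert j W).image vr) - G (W.image vr) = _
      rw [Finset.image_insert]
      rfl
    · rw [Finset.mem_image]
      rintro ⟨j', hj', h⟩
      rw [hvr h] at hj'
      exact hj hj'

/-- All coefficients of sets with more than `k` elements vanish. -/
def Low (k : ℕ) (F : Finset M → ℤ) : Prop := ∀ H : Finset M, k < H.card → mb F H = 0

lemma Low.mono {k l : ℕ} {F : Finset M → ℤ} (h : Low k F) (hkl : k ≤ l) : Low l F :=
  fun H hH => h H (by omega)

lemma Low.mul {k l : ℕ} {F G : Finset M → ℤ} (hF : Low k F) (hG : Low l G) :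
    Low (k + l) (fun W => F W * G W) := by
  intro H hH
  by_contra hne
  obtain ⟨A, B, hAB, hA, hB⟩ := mb_mul H F G hne
  have h1 : A.card ≤ k := by
    by_contra hcon
    exact hA (hF A (by omega))
  have h2 : B.card ≤ l := by
    by_contra hcon
    exact hB (hG B (by omega))
  have := Finset.card_union_le A B
  rw [hAB] at this
  omega

lemma Low.one_sub {k : ℕ} {F : Finset M → ℤ} (hF : Low k F) : Low k (fun W => 1 - F W) := by
  intro H hH
  rw [mb_sub, hF H hH, sub_zero]
  exact mb_const 1 (Finset.card_pos.1 (by omega))

end Mb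

section Planted
variable {I : Type*} [DecidableEq I] {M : Type*} [DecidableEq M]

/-- The function on the sets of planted constraints. -/
def pf (f : (I → Bool) → Bool) (vr : M → I) (X : I → Bool) : Finset M → ℤ :=
  fun W => if f (plant vr W X) = true then 1 else 0

/-- The Moebius coefficient of the function on the subcube through `D` in which the variables of
`V` are free. -/
def cf (F : (I → Bool) → Bool) (D : I → Bool) (V : Finset I) : ℤ :=
  mb (fun U => if F (blend D V U) = true then 1 else 0) V

lemma pf_zero {f : (I → Bool) → Bool} {vr : M → I} {X : I → Bool} {H : Finset M}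
    (h : mb (pf f vr X) H ≠ 0) : ∀ j ∈ H, X (vr j) = false := by
  intro j hj
  by_contra hcon
  rw [Bool.not_eq_false] at hcon
  apply h
  apply mb_indep hj
  intro W
  unfold pf
  have : plant vr (insert j W) X = plant vr W X := by
    funext i
    unfold plant
    by_cases hi : vr j = i
    · subst hi
      rw [hcon, Bool.or_true, Bool.or_true]
    · have : (∃ j' ∈ insert j W, vr j' = i) ↔ (∃ j' ∈ W, vr j' = i) := by
        constructor
        · rintro ⟨j', hj', h2⟩
          rcases Finset.mem_insert.1 hj' with h3 | h3
          · subst h3; exact absurd h2 hi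
          · exact ⟨j', h3, h2⟩
        · rintro ⟨j', hj', h2⟩
          exact ⟨j', Finset.mem_insert_of_mem hj', h2⟩
      simp only [this]
  rw [this]

end Planted

end H592R3
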