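import Mathlib
import Pool.Agent.H592R3.Mob
import Pool.Agent.H592R3.Count
import Pool.Agent.H592R3.Medium

/-!
Counting the planted assignments with a nonzero Moebius coefficient in a shallow decision tree.
-/

set_option linter.unusedSectionVars false

namespace H592R3

open Finset DomAC0 H568R2

section Transfer
variable {I : Type*} [Fintype I] [DecidableEq I] {M : Type*} [Fintype M] [DecidableEq M]

lemma zeroOn_self {vr : M → I} {X : I → Bool} {H : Finset M}
    (h : ∀ j ∈ H, X (vr j) = false) : zeroOn (H.image vr) X = X := by
  funext i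
  unfold zeroOn
  split_ifs with hi
  · obtain ⟨j, hj, rfl⟩ := Finset.mem_image.1 hi
    exact (h j hj).symm
  · rfl

/-- The coefficients of the planted function and of the restricted function agree. -/
lemma pf_cf (f : (I → Bool) → Bool) (vr : M → I) (hvr : Function.Injective vr) (H : Finset M)
    (Y : I → Bool) (ρ : Restr I) (D : I → Bool)
    (hG : ∀ i ∈ H.image vr, Y i = true ∧ ρ i = none)
    (hz : ∀ j ∈ H, (fun i => Y i && (ρ i).getD (D i)) (vr j) = false) :
    mb (pf f vr (fun i => Y i && (ρ i).getD (D i))) H =
      cf (rs (fun x => f (mask Y x)) ρ) D (H.image vr) := by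
  unfold cf
  rw [← mb_image vr hvr H (fun U => if rs (fun x => f (mask Y x)) ρ
    (blend D (H.image vr) U) = true then 1 else 0)]
  apply mb_congr
  intro W hW
  have h1 := point_eq f vr H Y ρ D hG W hW
  rw [zeroOn_self hz] at h1
  unfold pf
  rw [h1]

end Transfer

section Fam2
variable {I : Type*} [DecidableEq I]

lemma cf_off (F : (I → Bool) → Bool) (D : I → Bool) {V : Finset I} {i : I} (hi : i ∉ V) :
    cf F D V = cf (fun x => F (Function.update x i (D i))) D V := by
  unfold cf
  apply mb_congr
  intro W _
  have : Function.update (blend D V W) i (D i) = blend D V W := by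
    funext j
    by_cases hj : j = i
    · subst hj
      rw [Function.update_self]
      unfold blend
      rw [if_neg hi]
    · rw [Function.update_of_ne hj]
  show _ = (if F (Function.update (blend D V W) i (D i)) = true then (1 : ℤ) else 0)
  rw [this]

lemma cf_on (F : (I → Bool) → Bool) (D : I → Bool) {V : Finset I} {i : I} (hi : i ∉ V) :
    cf F D (insert i V) = cf (fun x => F (Function.update x i true)) D V -
      cf (fun x => F (Function.update x i false)) D V := by
  unfold cf
  rw [mb_insert _ hi, ← mb_sub]
  apply mb_congr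
  intro W hW
  have hiW : i ∉ W := fun h => hi (hW h)
  unfold dl
  have h1 : blend D (insert i V) (insert i W) = Function.update (blend D V W) i true := by
    funext j
    by_cases hj : j = i
    · subst hj
      rw [Function.update_self]
      unfold blend
      simp
    · rw [Function.update_of_ne hj]
      unfold blend
      simp [hj]
  have h2 : blend D (insert i V) W = Function.update (blend D V W) i false := by
    funext j
    by_cases hj : j = i
    · subst hj
      rw [Function.update_self]
      unfold blend
      simp [hiW]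
    · rw [Function.update_of_ne hj]
      unfold blend
      simp [hj]
  show (if F (blend D (insert i V) (insert i W)) = true then (1 : ℤ) else 0) -
    (if F (blend D (insert i V) W) = true then (1 : ℤ) else 0) = _
  rw [h1, h2]

lemma cf_const {F : (I → Bool) → Bool} (hF : ∃ b, ∀ x, F x = b) (D : I → Bool) {V : Finset I}
    (hV : V.Nonempty) : cf F D V = 0 := by
  obtain ⟨b, hb⟩ := hF
  unfold cf
  simp only [hb]
  exact mb_const _ hV

/-- The sets with a nonzero coefficient. -/
lemma fam_exists (D : I → Bool) : ∀ (h : ℕ) (F : (I → Bool) → Bool), DT h F → ∀ k : ℕ,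
    ∃ Fam : Finset (Finset I), Fam.card ≤ (2 * h) ^ k ∧
      ∀ V : Finset I, V.card = k → cf F D V ≠ 0 → V ∈ Fam := by
  have hc : ∀ (h : ℕ) (F : (I → Bool) → Bool), (∃ b, ∀ x, F x = b) → ∀ k : ℕ,
      ∃ Fam : Finset (Finset I), Fam.card ≤ (2 * h) ^ k ∧
      ∀ V : Finset I, V.card = k → cf F D V ≠ 0 → V ∈ Fam := by
    intro h F hF k
    cases k with
    | zero =>
      refine ⟨{∅}, by simp, fun V hV _ => ?_⟩
      rw [Finset.card_eq_zero] at hV
      rw [hV]; simp
    | succ k =>
      refine ⟨∅, by simp, fun V hV hne => ?_⟩
      exact absurd (cf_const hF D (Finset.card_pos.1 (by omega))) hne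
  intro h
  induction h with
  | zero => intro F hF k; exact hc 0 F hF k
  | succ h ih =>
    intro F hF k
    rcases hF with hF | ⟨i, hi⟩
    · exact hc (h + 1) F hF k
    · cases k with
      | zero =>
        refine ⟨{∅}, by simp, fun V hV _ => ?_⟩
        rw [Finset.card_eq_zero] at hV
        rw [hV]; simp
      | succ k =>
        obtain ⟨A, hA, hA'⟩ := ih _ (hi (D i)) (k + 1)
        obtain ⟨B, hB, hB'⟩ := ih _ (hi true) k
        obtain ⟨B2, hB2, hB2'⟩ := ih _ (hi false) k
        refine ⟨A ∪ ((B ∪ B2).image (insert i)), ?_, ?_⟩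
        · have h1 : (A ∪ ((B ∪ B2).image (insert i))).card ≤
              (2 * h) ^ (k + 1) + 2 * (2 * h) ^ k := by
            refine (Finset.card_union_le _ _).trans (Nat.add_le_add hA ?_)
            refine Finset.card_image_le.trans ((Finset.card_union_le _ _).trans ?_)
            omega
          refine h1.trans ?_
          calc (2 * h) ^ (k + 1) + 2 * (2 * h) ^ k = (2 * (h + 1)) * (2 * h) ^ k := by ring
            _ ≤ (2 * (h + 1)) * (2 * (h + 1)) ^ k := by
                apply Nat.mul_le_mul_left
                exact Nat.pow_le_pow_left (by omega) k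
            _ = (2 * (h + 1)) ^ (k + 1) := by ring
        · intro V hV hne
          by_cases hiV : i ∈ V
          · apply Finset.mem_union_right
            rw [Finset.mem_image]
            refine ⟨V.erase i, ?_, Finset.insert_erase hiV⟩
            have hcard : (V.erase i).card = k := by
              rw [Finset.card_erase_of_mem hiV, hV]; omega
            rw [← Finset.insert_erase hiV, cf_on F D (Finset.notMem_erase i V)] at hne
            rw [Finset.mem_union]
            by_cases c1 : cf (fun x => F (Function.update x i true)) D (V.erase i) = 0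
            · right
              apply hB2' _ hcard
              rw [c1, zero_sub, neg_ne_zero] at hne
              exact hne
            · left
              exact hB' _ hcard c1
          · apply Finset.mem_union_left
            apply hA' V hV
            rw [← cf_off F D hiV]
            exact hne

end Fam2

section Cnt2
variable {m n r : ℕ}

open Classical in
lemma count_cf (s : Fin m → Fin r → Fin m) (H : Finset (Fin m)) {h : ℕ}
    (F : ((Fin m × (Fin r → Fin n)) → Bool) → Bool) (hF : DT h F)
    (D : (Fin m × (Fin r → Fin n)) → Bool) :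
    (univ.filter (fun a : Fin m → Fin n => cf F D (H.image (vr s a)) ≠ 0)).card ≤
      (2 * h) ^ H.card * (H.card ^ H.card * n ^ (m - (touched s H).card)) := by
  obtain ⟨Fam, hc, hFam⟩ := fam_exists D h F hF H.card
  set Fam' := Fam.filter (fun V => V.card ≤ H.card) with hFam'
  have hsub : (univ.filter (fun a : Fin m → Fin n => cf F D (H.image (vr s a)) ≠ 0)) ⊆
      Fam'.biUnion (fun V =>
        univ.filter (fun a : Fin m → Fin n => ∀ j ∈ H, vr s a j ∈ V)) := by
    intro a ha
    have hfd := (Finset.mem_filter.1 ha).2
    have hcard : (H.image (vr s a)).card = H.card :=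
      Finset.card_image_of_injective _ (vr_inj s a)
    have h1 := hFam _ hcard hfd
    rw [Finset.mem_biUnion]
    refine ⟨_, Finset.mem_filter.2 ⟨h1, hcard.le⟩, ?_⟩
    rw [Finset.mem_filter]
    exact ⟨Finset.mem_univ _, fun j hj => Finset.mem_image_of_mem _ hj⟩
  refine (Finset.card_le_card hsub).trans (Finset.card_biUnion_le.trans ?_)
  have h2 : ∀ V ∈ Fam',
      (univ.filter (fun a : Fin m → Fin n => ∀ j ∈ H, vr s a j ∈ V)).card ≤
      H.card ^ H.card * n ^ (m - (touched s H).card) := by
    intro V hV
    refine le_trans ?_ ((count_le (n := n) s H V).trans ?_)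
    · apply Finset.card_le_card
      intro a ha
      rw [Finset.mem_filter] at ha ⊢
      exact ha
    · exact Nat.mul_le_mul_right _ (Nat.pow_le_pow_left (Finset.mem_filter.1 hV).2 _)
  refine (Finset.sum_le_card_nsmul _ _ _ h2).trans ?_
  rw [smul_eq_mul]
  exact Nat.mul_le_mul_right _ ((Finset.card_filter_le _ _).trans hc)

end Cnt2

section Med2
variable {I : Type*} [Fintype I] [DecidableEq I] {M : Type*} [Fintype M] [DecidableEq M]
variable {J : Type}

lemma pf_sens {f : (I → Bool) → Bool} {vr : M → I} {X : I → Bool} {H : Finset M}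
    (h : mb (pf f vr X) H ≠ 0) : H ⊆ sens f vr X := by
  intro j hj
  by_contra hcon
  apply h
  apply mb_indep hj
  intro W
  unfold pf
  rw [not_mem_sens.1 hcon W]

lemma low_one {f : (I → Bool) → Bool} (hf : Junta 1 f) {vr : M → I}
    (hvr : Function.Injective vr) (X : I → Bool) : Low 1 (pf f vr X) := by
  intro H hH
  by_contra hne
  have h1 := Finset.card_le_card (pf_sens hne)
  have h2 := sens_junta hf vr hvr X
  omega

/-- One more wire of a gate. -/
lemma low_take (C : Circuit J) (σ : (I → Bool) → (J → Bool)) (vr : M → I) (X : I → Bool)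
    (g : Fin C.size) (Q : List (J ⊕ Fin C.size)) (v : J ⊕ Fin C.size) {k l : ℕ}
    (h1 : Low k (pf (fun x => gfun C g (σ x) Q) vr X))
    (h2 : Low l (pf (fun x => C.nodeVal (σ x) v) vr X)) :
    Low (k + l) (pf (fun x => gfun C g (σ x) (Q ++ [v])) vr X) := by
  classical
  cases hg : C.kind g with
  | and =>
    have : pf (fun x => gfun C g (σ x) (Q ++ [v])) vr X =
        fun W => pf (fun x => gfun C g (σ x) Q) vr X W * pf (fun x => C.nodeVal (σ x) v) vr X W := by
      funext W
      unfold pf gfun
      simp only [hg, decide_eq_true_eq, List.mem_append, List.mem_singleton]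
      by_cases c1 : ∀ u ∈ Q, C.nodeVal (σ (plant vr W X)) u = true
      · by_cases c2 : C.nodeVal (σ (plant vr W X)) v = true
        · rw [if_pos c1, if_pos c2, if_pos, mul_one]
          rintro u (hu | rfl)
          · exact c1 u hu
          · exact c2
        · rw [if_neg c2, if_neg, mul_zero]
          intro h
          exact c2 (h v (Or.inr rfl))
      · rw [if_neg c1, if_neg, zero_mul]
        intro h
        exact c1 (fun u hu => h u (Or.inl hu))
    rw [this]
    exact h1.mul h2
  | or =>
    have : pf (fun x => gfun C g (σ x) (Q ++ [v])) vr X =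
        fun W => 1 - (1 - pf (fun x => gfun C g (σ x) Q) vr X W) *
          (1 - pf (fun x => C.nodeVal (σ x) v) vr X W) := by
      funext W
      unfold pf gfun
      simp only [hg, decide_eq_true_eq, List.mem_append, List.mem_singleton]
      by_cases c1 : ∃ u ∈ Q, C.nodeVal (σ (plant vr W X)) u = true
      · obtain ⟨u, hu, hx⟩ := c1
        rw [if_pos ⟨u, Or.inl hu, hx⟩, if_pos ⟨u, hu, hx⟩]
        ring
      · by_cases c2 : C.nodeVal (σ (plant vr W X)) v = true
        · rw [if_pos ⟨v, Or.inr rfl, c2⟩, if_pos c2]
          ring
        · rw [if_neg c1, if_neg c2, if_neg]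
          · ring
          · rintro ⟨u, hu | rfl, hx⟩
            · exact c1 ⟨u, hu, hx⟩
            · exact c2 hx
    rw [this]
    exact (h1.one_sub.mul h2.one_sub).one_sub
  | not =>
    have : pf (fun x => gfun C g (σ x) (Q ++ [v])) vr X =
        fun W => pf (fun x => gfun C g (σ x) Q) vr X W *
          (1 - pf (fun x => C.nodeVal (σ x) v) vr X W) := by
      funext W
      unfold pf gfun
      simp only [hg, decide_eq_true_eq, List.mem_append, List.mem_singleton]
      by_cases c1 : ∀ u ∈ Q, C.nodeVal (σ (plant vr W X)) u = false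
      · by_cases c2 : C.nodeVal (σ (plant vr W X)) v = true
        · rw [if_pos c1, if_pos c2, if_neg]
          · ring
          · intro h
            have := h v (Or.inr rfl)
            rw [c2] at this
            cases this
        · rw [if_pos c1, if_neg c2, if_pos]
          · ring
          · rintro u (hu | rfl)
            · exact c1 u hu
            · exact Bool.eq_false_iff.2 c2
      · rw [if_neg c1, if_neg, zero_mul]
        intro h
        exact c1 (fun u hu => h u (Or.inl hu))
    rw [this]
    exact h1.mul h2.one_sub

lemma low_nil (C : Circuit J) (σ : (I → Bool) → (J → Bool)) (vr : M → I) (X : I → Bool)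
    (g : Fin C.size) (k : ℕ) : Low k (pf (fun x => gfun C g (σ x) []) vr X) := by
  intro H hH
  by_contra hne
  have h1 := Finset.card_le_card (pf_sens hne)
  rw [sens_nil, Finset.card_empty] at h1
  omega

/-- A circuit of large degree has a gate with an initial part of medium degree. -/
theorem medium2 (C : Circuit J) (σ : (I → Bool) → (J → Bool))
    (hσ : ∀ j, Junta 1 (fun x => σ x j)) (vr : M → I) (hvr : Function.Injective vr)
    {L : ℕ} (hL : 2 ≤ L) (X : I → Bool) {d : ℕ} (hd : C.depth ≤ d)
    (hS : ¬ Low (L - 1) (pf (fun x => C.eval (σ x)) vr X)) :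
    ∃ g : Fin C.size, C.gateDepth g ≤ d ∧ ∃ i < (pl C g).length, ∃ H : Finset M,
      L ≤ H.card ∧ H.card < 2 * L ∧
      mb (pf (fun x => gfun C g (σ x) ((pl C g).take (i + 1))) vr X) H ≠ 0 ∧
      mb (pf (fun x => gfun C g (σ x) ((pl C g).take i)) vr X) H = 0 := by
  classical
  -- gates that are large
  set B : Finset (Fin C.size) := univ.filter (fun g => C.gateDepth g ≤ d ∧
    ¬ Low (L - 1) (pf (fun x => C.nodeVal (σ x) (Sum.inr g)) vr X)) with hB
  have hin : ∀ j : J, Low (L - 1) (pf (fun x => C.nodeVal (σ x) (Sum.inl j)) vr X) := by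
    intro j
    exact (low_one (hσ j) hvr X).mono (by omega)
  have hBne : B.Nonempty := by
    have hS' : ¬ Low (L - 1) (pf (fun x => C.nodeVal (σ x) C.output) vr X) := hS
    have hd' : C.nodeDepth C.output ≤ d := hd
    revert hS' hd'
    generalize C.output = o
    cases o with
    | inl j => intro h1; exact absurd (hin j) h1
    | inr g =>
      intro h1 h2
      exact ⟨g, by rw [hB, Finset.mem_filter]; exact ⟨Finset.mem_univ _, h2, h1⟩⟩
  set g := B.min' hBne with hg
  have hgB : g ∈ B := Finset.min'_mem B hBne
  rw [hB, Finset.mem_filter] at hgB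
  have hchild : ∀ v ∈ pl C g, Low (L - 1) (pf (fun x => C.nodeVal (σ x) v) vr X) := by
    intro v hv
    have hvp : v ∈ C.preds g := by rwa [pl, Finset.mem_toList] at hv
    have hdep := depth_lt C g v hvp
    cases v with
    | inl j => exact hin j
    | inr h =>
      by_contra hcon
      have hhB : h ∈ B := by
        rw [hB, Finset.mem_filter]
        refine ⟨Finset.mem_univ _, ?_, hcon⟩
        have h3 : C.gateDepth h < C.gateDepth g := hdep
        omega
      have h1 := Finset.min'_le B h hhB
      have h2 := C.acyclic g h hvp
      exact absurd h2 (not_lt.2 h1)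
  refine ⟨g, hgB.2.1, ?_⟩
  -- find the first initial part that is large
  have hfull : ¬ Low (L - 1) (pf (fun x => gfun C g (σ x)
      ((pl C g).take (pl C g).length)) vr X) := by
    rw [List.take_length]
    have : (fun x => C.nodeVal (σ x) (Sum.inr g)) = fun x => gfun C g (σ x) (pl C g) := by
      funext x
      exact gateVal_eq C (σ x) g
    rw [← this]
    exact hgB.2.2
  have hex : ∃ i, ¬ Low (L - 1) (pf (fun x => gfun C g (σ x)
      ((pl C g).take i)) vr X) := ⟨_, hfull⟩
  have hpos : 0 < Nat.find hex := by
    rw [Nat.pos_iff_ne_zero]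
    intro h0
    have h1 := Nat.find_spec hex
    rw [h0, List.take_zero] at h1
    exact h1 (low_nil C σ vr X g _)
  obtain ⟨i, hi⟩ := Nat.exists_eq_succ_of_ne_zero (Nat.pos_iff_ne_zero.1 hpos)
  have hlt : i < Nat.find hex := by omega
  have hprev := Nat.find_min hex hlt
  rw [not_not] at hprev
  have hle : Nat.find hex ≤ (pl C g).length := Nat.find_min' hex hfull
  have hil : i < (pl C g).length := by omega
  have hspec := Nat.find_spec hex
  rw [hi, Nat.succ_eq_add_one] at hspec
  refine ⟨i, hil, ?_⟩
  unfold Low at hspec
  push Not at hspec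
  obtain ⟨H, hH1, hH2⟩ := hspec
  have hup : Low ((L - 1) + (L - 1)) (pf (fun x => gfun C g (σ x)
      ((pl C g).take (i + 1))) vr X) := by
    rw [List.take_succ_eq_append_getElem hil]
    exact low_take C σ vr X g _ _ hprev (hchild _ (List.getElem_mem hil))
  refine ⟨H, by omega, ?_, hH2, hprev H hH1⟩
  by_contra hcon
  exact hH2 (hup H (by omega))

end Med2

end H592R3
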