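import Mathlib
import Pool.Agent.H592R3.MobCount

/-!
Common decision trees for monotone chains of functions.
-/

set_option linter.unusedSectionVars false

namespace H592R3

open Finset DomAC0 H568R2

section Dtc
variable {I : Type*} [DecidableEq I]

/-- A common decision tree of depth `H` for a family of functions. -/
def DTC {ι : Type} : ℕ → (ι → (I → Bool) → Bool) → Prop
  | 0, F => ∀ j, ∃ b, ∀ x, F j x = b
  | H + 1, F => (∀ j, ∃ b, ∀ x, F j x = b) ∨
      ∃ i : I, ∀ b : Bool, DTC H (fun j x => F j (Function.update x i b))

lemma DTC.of_const {ι : Type} {H : ℕ} {F : ι → (I → Bool) → Bool}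
    (h : ∀ j, ∃ b, ∀ x, F j x = b) : DTC H F := by
  cases H with
  | zero => exact h
  | succ H => exact Or.inl h

lemma DTC.mono {ι : Type} : ∀ {H H' : ℕ} {F : ι → (I → Bool) → Bool}, DTC H F → H ≤ H' →
    DTC H' F := by
  intro H
  induction H with
  | zero => intro H' F h _; exact DTC.of_const h
  | succ H ih =>
    intro H' F h hH
    rcases h with h | ⟨i, hi⟩
    · exact DTC.of_const h
    · cases H' with
      | zero => omega
      | succ H' => exact Or.inr ⟨i, fun b => ih (hi b) (by omega)⟩

lemma DTC.not {ι : Type} : ∀ {H : ℕ} {F : ι → (I → Bool) → Bool}, DTC H F →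
    DTC H (fun j x => !(F j x)) := by
  intro H
  induction H with
  | zero =>
    intro F h j
    obtain ⟨b, hb⟩ := h j
    exact ⟨!b, fun x => by show (!(F j x)) = !b; rw [hb x]⟩
  | succ H ih =>
    intro F h
    rcases h with h | ⟨i, hi⟩
    · refine DTC.of_const fun j => ?_
      obtain ⟨b, hb⟩ := h j
      exact ⟨!b, fun x => by rw [hb x]⟩
    · exact Or.inr ⟨i, fun b => ih (hi b)⟩

lemma DT_update : ∀ {h : ℕ} {f : (I → Bool) → Bool}, DT h f → ∀ (i : I) (b : Bool),
    DT h (fun x => f (Function.update x i b)) := by
  intro h
  induction h with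
  | zero =>
    intro f hf i b
    obtain ⟨c, hc⟩ := hf
    exact ⟨c, fun x => hc _⟩
  | succ h ih =>
    intro f hf i b
    rcases hf with ⟨c, hc⟩ | ⟨i', hi'⟩
    · exact Or.inl ⟨c, fun x => hc _⟩
    · refine Or.inr ⟨i', fun b' => ?_⟩
      by_cases hii : i' = i
      · subst hii
        have : (fun x => f (Function.update (Function.update x i' b') i' b)) =
            fun x => f (Function.update x i' b) := by
          funext x
          rw [Function.update_idem]
        show DT h (fun x => f (Function.update (Function.update x i' b') i' b))
        rw [this]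
        exact hi' b
      · have : (fun x => f (Function.update (Function.update x i' b') i b)) =
            fun x => f (Function.update (Function.update x i b) i' b') := by
          funext x
          rw [Function.update_comm hii]
        show DT h (fun x => f (Function.update (Function.update x i' b') i b))
        rw [this]
        exact ih (hi' b') i b

/-- Binary search. -/
lemma chain_dtc {h : ℕ} : ∀ (m : ℕ) (F : ℕ → (I → Bool) → Bool) (lo : ℕ),
    (∀ j, DT h (F j)) → (∀ j x, F j x = true → F (j + 1) x = true) →
    (∀ j, j < lo → ∃ b, ∀ x, F j x = b) → (∀ j, lo + 2 ^ m ≤ j + 1 → ∃ b, ∀ x, F j x = b) →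
    DTC (h * m) F := by
  intro m
  induction m with
  | zero =>
    intro F lo _ _ h1 h2 j
    by_cases hj : j < lo
    · exact h1 j hj
    · exact h2 j (by simp; omega)
  | succ m ih =>
    intro F lo hDT hmono h1 h2
    obtain ⟨mid, hmid⟩ : ∃ mid, mid + 1 = lo + 2 ^ m := by
      have : 1 ≤ 2 ^ m := Nat.one_le_two_pow
      exact ⟨lo + 2 ^ m - 1, by omega⟩
    have key : ∀ (h' : ℕ) (F : ℕ → (I → Bool) → Bool), DT h' (F mid) →
        (∀ j, DT h (F j)) → (∀ j x, F j x = true → F (j + 1) x = true) →
        (∀ j, j < lo → ∃ b, ∀ x, F j x = b) →
        (∀ j, lo + 2 ^ (m + 1) ≤ j + 1 → ∃ b, ∀ x, F j x = b) → DTC (h' + h * m) F := by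
      intro h'
      have hc : ∀ (F : ℕ → (I → Bool) → Bool), (∃ b, ∀ x, F mid x = b) →
          (∀ j, DT h (F j)) → (∀ j x, F j x = true → F (j + 1) x = true) →
          (∀ j, j < lo → ∃ b, ∀ x, F j x = b) →
          (∀ j, lo + 2 ^ (m + 1) ≤ j + 1 → ∃ b, ∀ x, F j x = b) → DTC (h * m) F := by
        intro F hconst hDT hmono h1 h2
        have hmono' : ∀ j k x, j ≤ k → F j x = true → F k x = true := by
          intro j k x hjk
          induction hjk with
          | refl => exact id
          | step _ ih => exact fun hx => hmono _ x (ih hx)
        obtain ⟨b, hb⟩ := hconst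
        cases b with
        | true =>
          refine ih F lo hDT hmono h1 (fun j hj => ⟨true, fun x => ?_⟩)
          exact hmono' mid j x (by omega) (hb x)
        | false =>
          refine ih F (mid + 1) hDT hmono (fun j hj => ⟨false, fun x => ?_⟩) (fun j hj => ?_)
          · by_contra hcon
            rw [Bool.not_eq_false] at hcon
            have := hmono' j mid x (by omega) hcon
            rw [hb x] at this
            cases this
          · apply h2 j
            rw [pow_succ]
            omega
      induction h' with
      | zero =>
        intro F hm hDT hmono h1 h2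
        rw [zero_add]
        exact hc F hm hDT hmono h1 h2
      | succ h' ih' =>
        intro F hm hDT hmono h1 h2
        rcases hm with hm | ⟨i, hi⟩
        · exact (hc F hm hDT hmono h1 h2).mono (by omega)
        · have e : h' + 1 + h * m = (h' + h * m) + 1 := by ring
          rw [e]
          refine Or.inr ⟨i, fun b => ?_⟩
          refine ih' (fun j x => F j (Function.update x i b)) (hi b)
            (fun j => DT_update (hDT j) i b) (fun j x hx => hmono j _ hx) ?_ ?_
          · intro j hj
            obtain ⟨c, hc'⟩ := h1 j hj
            exact ⟨c, fun x => hc' _⟩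
          · intro j hj
            obtain ⟨c, hc'⟩ := h2 j hj
            exact ⟨c, fun x => hc' _⟩
    have := key h F (hDT mid) hDT hmono h1 h2
    have e : h * (m + 1) = h + h * m := by ring
    rw [e]
    exact this

/-- The sets with a nonzero coefficient in some function of the family. -/
lemma fam_exists_c {ι : Type} (D : I → Bool) : ∀ (H : ℕ) (F : ι → (I → Bool) → Bool),
    DTC H F → ∀ k : ℕ, ∃ Fam : Finset (Finset I), Fam.card ≤ (2 * H) ^ k ∧
      ∀ (j : ι) (V : Finset I), V.card = k → cf (F j) D V ≠ 0 → V ∈ Fam := by
  have hc : ∀ (H : ℕ) (F : ι → (I → Bool) → Bool), (∀ j, ∃ b, ∀ x, F j x = b) → ∀ k : ℕ,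
      ∃ Fam : Finset (Finset I), Fam.card ≤ (2 * H) ^ k ∧
      ∀ (j : ι) (V : Finset I), V.card = k → cf (F j) D V ≠ 0 → V ∈ Fam := by
    intro H F hF k
    cases k with
    | zero =>
      refine ⟨{∅}, by simp, fun j V hV _ => ?_⟩
      rw [Finset.card_eq_zero] at hV
      rw [hV]; simp
    | succ k =>
      refine ⟨∅, by simp, fun j V hV hne => ?_⟩
      exact absurd (cf_const (hF j) D (Finset.card_pos.1 (by omega))) hne
  intro H
  induction H with
  | zero => intro F hF k; exact hc 0 F hF k
  | succ H ih =>
    intro F hF k
    rcases hF with hF | ⟨i, hi⟩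
    · exact hc (H + 1) F hF k
    · cases k with
      | zero =>
        refine ⟨{∅}, by simp, fun j V hV _ => ?_⟩
        rw [Finset.card_eq_zero] at hV
        rw [hV]; simp
      | succ k =>
        obtain ⟨A, hA, hA'⟩ := ih _ (hi (D i)) (k + 1)
        obtain ⟨B, hB, hB'⟩ := ih _ (hi true) k
        obtain ⟨B2, hB2, hB2'⟩ := ih _ (hi false) k
        refine ⟨A ∪ ((B ∪ B2).image (insert i)), ?_, ?_⟩
        · have h1 : (A ∪ ((B ∪ B2).image (insert i))).card ≤
              (2 * H) ^ (k + 1) + 2 * (2 * H) ^ k := by
            refine (Finset.card_union_le _ _).trans (Nat.add_le_add hA ?_)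
            refine Finset.card_image_le.trans ((Finset.card_union_le _ _).trans ?_)
            omega
          refine h1.trans ?_
          calc (2 * H) ^ (k + 1) + 2 * (2 * H) ^ k = (2 * (H + 1)) * (2 * H) ^ k := by ring
            _ ≤ (2 * (H + 1)) * (2 * (H + 1)) ^ k := by
                apply Nat.mul_le_mul_left
                exact Nat.pow_le_pow_left (by omega) k
            _ = (2 * (H + 1)) ^ (k + 1) := by ring
        · intro j V hV hne
          by_cases hiV : i ∈ V
          · apply Finset.mem_union_right
            rw [Finset.mem_image]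
            refine ⟨V.erase i, ?_, Finset.insert_erase hiV⟩
            have hcard : (V.erase i).card = k := by
              rw [Finset.card_erase_of_mem hiV, hV]; omega
            rw [← Finset.insert_erase hiV, cf_on (F j) D (Finset.notMem_erase i V)] at hne
            rw [Finset.mem_union]
            by_cases c1 : cf (fun x => F j (Function.update x i true)) D (V.erase i) = 0
            · right
              apply hB2' j _ hcard
              rw [c1, zero_sub, neg_ne_zero] at hne
              exact hne
            · left
              exact hB' j _ hcard c1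
          · apply Finset.mem_union_left
            apply hA' j V hV
            rw [← cf_off (F j) D hiV]
            exact hne

end Dtc

section GateFam
variable {I : Type*} [Fintype I] [DecidableEq I] {J : Type}

/-- The initial parts of a gate have a common shallow decision tree. -/
lemma gate_dtc (C : Circuit J) (σ : (I → Bool) → (J → Bool)) {h j : ℕ} {ρ : Restr I}
    (hG : Good C σ h j ρ) (g : Fin C.size) (hg : C.gateDepth g ≤ j) {m : ℕ}
    (hm : (pl C g).length + 2 ≤ 2 ^ m) :
    DTC (h * m) (fun (i : Fin ((pl C g).length + 1)) =>
      rs (fun x => gfun C g (σ x) ((pl C g).take i)) ρ) := by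
  classical
  obtain ⟨len, hlen⟩ : ∃ len, len = (pl C g).length := ⟨_, rfl⟩
  have hsub : ∀ i, ∀ v ∈ (pl C g).take i, v ∈ (pl C g).take (i + 1) := by
    intro i v hv
    exact List.take_subset_take_left (pl C g) (by omega : i ≤ i + 1) hv
  have hrestr : ∀ {H : ℕ} (F : ℕ → (I → Bool) → Bool), DTC H F →
      DTC H (fun (i : Fin ((pl C g).length + 1)) => F i) := by
    intro H
    induction H with
    | zero => intro F hF j; exact hF j
    | succ H ih =>
      intro F hF
      rcases hF with hF | ⟨i, hi⟩
      · exact Or.inl fun j => hF j
      · exact Or.inr ⟨i, fun b => ih _ (hi b)⟩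
  cases hk : C.kind g with
  | or =>
    have h1 := chain_dtc (h := h) m (fun i => if i ≤ len then
      rs (fun x => gfun C g (σ x) ((pl C g).take i)) ρ else fun _ => true) 0
      (fun i => by
        show DT h (if i ≤ len then rs (fun x => gfun C g (σ x) ((pl C g).take i)) ρ
          else fun _ => true)
        split_ifs
        · exact hG g hg i
        · exact DT.of_const ⟨true, fun _ => rfl⟩)
      (fun i x hx => by
        by_cases hi : i + 1 ≤ len
        · simp only [hi, if_true, (by omega : i ≤ len)] at hx ⊢
          simp only [rs, gfun, hk, decide_eq_true_eq] at hx ⊢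
          obtain ⟨v, hv, hvx⟩ := hx
          exact ⟨v, hsub i v hv, hvx⟩
        · simp only [hi, if_false])
      (fun i hi => absurd hi (Nat.not_lt_zero _))
      (fun i hi => ⟨true, fun x => by
        have : ¬ i ≤ len := by rw [hlen]; omega
        simp only [this, if_false]⟩)
    have h2 := hrestr _ h1
    convert h2 using 2 with i
    have : (i : ℕ) ≤ len := by rw [hlen]; omega
    rw [if_pos this]
  | and =>
    have h1 := chain_dtc (h := h) m (fun i => if i ≤ len then
      fun x => !(rs (fun x => gfun C g (σ x) ((pl C g).take i)) ρ x) else fun _ => true) 0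
      (fun i => by
        show DT h (if i ≤ len then (fun x => !(rs (fun x => gfun C g (σ x)
          ((pl C g).take i)) ρ x)) else fun _ => true)
        split_ifs
        · exact (hG g hg i).not
        · exact DT.of_const ⟨true, fun _ => rfl⟩)
      (fun i x hx => by
        by_cases hi : i + 1 ≤ len
        · simp only [hi, if_true, (by omega : i ≤ len)] at hx ⊢
          simp only [rs, gfun, hk, Bool.not_eq_true', decide_eq_false_iff_not, not_forall]
            at hx ⊢
          obtain ⟨v, hv, hvx⟩ := hx
          exact ⟨v, hsub i v hv, hvx⟩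
        · simp only [hi, if_false])
      (fun i hi => absurd hi (Nat.not_lt_zero _))
      (fun i hi => ⟨true, fun x => by
        have : ¬ i ≤ len := by rw [hlen]; omega
        simp only [this, if_false]⟩)
    have h2 := (hrestr _ h1).not
    convert h2 using 2 with i
    have : (i : ℕ) ≤ len := by rw [hlen]; omega
    funext x
    simp only [this, if_true, Bool.not_not]
  | not =>
    have h1 := chain_dtc (h := h) m (fun i => if i ≤ len then
      fun x => !(rs (fun x => gfun C g (σ x) ((pl C g).take i)) ρ x) else fun _ => true) 0
      (fun i => by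
        show DT h (if i ≤ len then (fun x => !(rs (fun x => gfun C g (σ x)
          ((pl C g).take i)) ρ x)) else fun _ => true)
        split_ifs
        · exact (hG g hg i).not
        · exact DT.of_const ⟨true, fun _ => rfl⟩)
      (fun i x hx => by
        by_cases hi : i + 1 ≤ len
        · simp only [hi, if_true, (by omega : i ≤ len)] at hx ⊢
          simp only [rs, gfun, hk, Bool.not_eq_true', decide_eq_false_iff_not, not_forall]
            at hx ⊢
          obtain ⟨v, hv, hvx⟩ := hx
          exact ⟨v, hsub i v hv, hvx⟩
        · simp only [hi, if_false])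
      (fun i hi => absurd hi (Nat.not_lt_zero _))
      (fun i hi => ⟨true, fun x => by
        have : ¬ i ≤ len := by rw [hlen]; omega
        simp only [this, if_false]⟩)
    have h2 := (hrestr _ h1).not
    convert h2 using 2 with i
    have : (i : ℕ) ≤ len := by rw [hlen]; omega
    funext x
    simp only [this, if_true, Bool.not_not]

end GateFam

end H592R3
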