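import Mathlib
import Pool.Agent.H568R2.Expander

/-!
Scopes such that every family of a `1 / Q` fraction of them touches all but a `1 / Q` fraction of
the variables.
-/

namespace H592R3

open Finset H568R2

lemma exp_half {Q : ℕ} (hQ : 1 ≤ Q) : 4 * (((Q : ℝ) - 1) / Q) ^ (2 * Q) < 1 := by
  have hQ0 : (0 : ℝ) < Q := by exact_mod_cast hQ
  have h0 : 0 ≤ ((Q : ℝ) - 1) / Q := by
    apply div_nonneg _ hQ0.le
    have : (1 : ℝ) ≤ Q := by exact_mod_cast hQ
    linarith
  have h1 : ((Q : ℝ) - 1) / Q ≤ Real.exp (-(1 / (Q : ℝ))) := by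
    have := Real.add_one_le_exp (-(1 / (Q : ℝ)))
    have e : ((Q : ℝ) - 1) / Q = -(1 / (Q : ℝ)) + 1 := by field_simp; ring
    rw [e]; exact this
  have h2 : (((Q : ℝ) - 1) / Q) ^ (2 * Q) ≤ Real.exp (-2) := by
    refine (pow_le_pow_left₀ h0 h1 _).trans ?_
    rw [← Real.exp_nat_mul]
    apply le_of_eq
    congr 1
    push_cast
    field_simp
  have h3 : Real.exp (-2) < 1 / 4 := by
    have h4 : (2 : ℝ) < Real.exp 1 := by
      have := Real.add_one_lt_exp (show (1 : ℝ) ≠ 0 by norm_num)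
      linarith
    have h5 : (4 : ℝ) < Real.exp 2 := by
      have : Real.exp 2 = Real.exp 1 * Real.exp 1 := by rw [← Real.exp_add]; norm_num
      rw [this]; nlinarith
    rw [Real.exp_neg, inv_eq_one_div]
    exact one_div_lt_one_div_of_lt (by norm_num) h5
  linarith

theorem expander (Q m : ℕ) (hQ : 1 ≤ Q) (hm : 1 ≤ m) : ∃ F : Fin m → Fin (2 * Q ^ 2) → Fin m,
    ∀ H : Finset (Fin m), m ≤ Q * H.card → (Q - 1) * m ≤ Q * (touched F H).card := by
  classical
  by_contra hcon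
  push Not at hcon
  set r : ℕ := 2 * Q ^ 2 with hr
  set P : Finset (Finset (Fin m) × Finset (Fin m)) :=
    univ.filter (fun HW => m ≤ Q * HW.1.card ∧ Q * HW.2.card < (Q - 1) * m) with hP
  set Bad : Finset (Fin m) × Finset (Fin m) → Finset (Fin m → Fin r → Fin m) := fun HW =>
    Fintype.piFinset (fun i => if i ∈ HW.1 then Fintype.piFinset (fun _ => HW.2) else univ)
    with hBad
  have hcover : (univ : Finset (Fin m → Fin r → Fin m)) ⊆ P.biUnion Bad := by
    intro F _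
    obtain ⟨H, hH, hW⟩ := hcon F
    rw [Finset.mem_biUnion]
    refine ⟨(H, touched F H), ?_, ?_⟩
    · rw [hP, Finset.mem_filter]
      exact ⟨Finset.mem_univ _, hH, hW⟩
    · rw [hBad]
      simp only [Fintype.mem_piFinset]
      intro i
      by_cases hi : i ∈ H
      · rw [if_pos hi, Fintype.mem_piFinset]
        intro j
        exact Finset.mem_biUnion.2 ⟨i, hi, Finset.mem_image_of_mem _ (Finset.mem_univ j)⟩
      · rw [if_neg hi]; exact Finset.mem_univ _
  have hm0 : (0 : ℝ) < m := by exact_mod_cast hm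
  have hQ0 : (0 : ℝ) < Q := by exact_mod_cast hQ
  set θ : ℝ := ((Q : ℝ) - 1) / Q with hθ
  have hQ1 : (1 : ℝ) ≤ Q := by exact_mod_cast hQ
  have hθ0 : 0 ≤ θ := div_nonneg (by linarith) hQ0.le
  have hθ1 : θ ≤ 1 := by rw [hθ, div_le_one hQ0]; linarith
  have hcardBad : ∀ HW ∈ P, ((Bad HW).card : ℝ) ≤ ((m : ℝ) ^ r) ^ m * θ ^ (2 * Q * m) := by
    rintro ⟨H, W⟩ hHW
    rw [hP, Finset.mem_filter] at hHW
    obtain ⟨_, hH, hW⟩ := hHW
    simp only at hH hW
    have h1 : ((Bad (H, W)).card : ℝ) = ∏ i : Fin m, (if i ∈ H then ((W.card : ℝ)) ^ r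
        else (m : ℝ) ^ r) := by
      rw [hBad, Fintype.card_piFinset]
      push_cast
      refine Finset.prod_congr rfl fun i _ => ?_
      by_cases hi : i ∈ H
      · simp [hi]
      · simp [hi]
    rw [h1]
    have h2 : ∀ i : Fin m, (if i ∈ H then ((W.card : ℝ)) ^ r else (m : ℝ) ^ r) ≤
        (m : ℝ) ^ r * (if i ∈ H then θ ^ r else 1) := by
      intro i
      by_cases hi : i ∈ H
      · simp only [hi, if_true]
        rw [← mul_pow]
        apply pow_le_pow_left₀ (by positivity)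
        have h3 : ((Q * W.card : ℕ) : ℝ) < (((Q - 1) * m : ℕ) : ℝ) := by exact_mod_cast hW
        push_cast [Nat.cast_sub hQ] at h3
        rw [hθ, mul_div_assoc', le_div_iff₀ hQ0]
        linarith
      · simp [hi]
    refine (Finset.prod_le_prod (fun i _ => by split_ifs <;> positivity)
      (fun i _ => h2 i)).trans ?_
    rw [Finset.prod_mul_distrib, Finset.prod_const, Finset.card_univ, Fintype.card_fin]
    apply mul_le_mul_of_nonneg_left _ (by positivity)
    rw [Finset.prod_ite]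
    simp only [Finset.prod_const, one_pow, mul_one]
    rw [← pow_mul]
    apply pow_le_pow_of_le_one hθ0 hθ1
    have : (univ.filter (fun i : Fin m => i ∈ H)) = H := by ext; simp
    rw [this, hr]
    calc 2 * Q * m ≤ 2 * Q * (Q * H.card) := Nat.mul_le_mul_left _ hH
      _ = 2 * Q ^ 2 * H.card := by ring
  have hTcard : ((univ : Finset (Fin m → Fin r → Fin m)).card : ℝ) = ((m : ℝ) ^ r) ^ m := by
    simp
  have hPcard : (P.card : ℝ) ≤ 4 ^ m := by
    have : P.card ≤ 4 ^ m := by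
      refine (Finset.card_le_univ _).trans ?_
      rw [Fintype.card_prod, Fintype.card_finset, Fintype.card_fin, ← mul_pow]
      norm_num
    exact_mod_cast this
  have h1 : ((univ : Finset (Fin m → Fin r → Fin m)).card : ℝ) ≤
      4 ^ m * (((m : ℝ) ^ r) ^ m * θ ^ (2 * Q * m)) := by
    calc ((univ : Finset (Fin m → Fin r → Fin m)).card : ℝ) ≤ ((P.biUnion Bad).card : ℝ) := by
          exact_mod_cast Finset.card_le_card hcover
      _ ≤ ∑ HW ∈ P, ((Bad HW).card : ℝ) := by exact_mod_cast Finset.card_biUnion_le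
      _ ≤ ∑ HW ∈ P, (((m : ℝ) ^ r) ^ m * θ ^ (2 * Q * m)) := Finset.sum_le_sum hcardBad
      _ = P.card * (((m : ℝ) ^ r) ^ m * θ ^ (2 * Q * m)) := by
          rw [Finset.sum_const, nsmul_eq_mul]
      _ ≤ _ := mul_le_mul_of_nonneg_right hPcard (by positivity)
  rw [hTcard] at h1
  have hT0 : (0 : ℝ) < ((m : ℝ) ^ r) ^ m := by positivity
  have h2 : (4 : ℝ) ^ m * (((m : ℝ) ^ r) ^ m * θ ^ (2 * Q * m)) =
      ((m : ℝ) ^ r) ^ m * (4 * θ ^ (2 * Q)) ^ m := by
    rw [mul_pow 4 (θ ^ (2 * Q)), ← pow_mul θ (2 * Q) m]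
    ring
  rw [h2] at h1
  have h3 : (4 * θ ^ (2 * Q)) ^ m < 1 := by
    apply pow_lt_one₀ (by positivity) (exp_half hQ) (by omega)
  nlinarith

/-- The scopes used below. -/
theorem scopes (Q m' : ℕ) (hQ : 1 ≤ Q) (hm : 1 ≤ m') :
    ∃ s : Fin (Q * m') → Fin (2 * Q ^ 2 + 1) → Fin (Q * m'), (∀ i, s i 0 = i) ∧
      ∀ H : Finset (Fin (Q * m')), m' ≤ H.card → Q * m' - (touched s H).card ≤ m' := by
  have hQm : 1 ≤ Q * m' := Nat.one_le_iff_ne_zero.2 (by positivity)
  obtain ⟨F, hF⟩ := expander Q (Q * m') hQ hQm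
  refine ⟨fun i => Fin.cons i (F i), fun i => rfl, fun H hH => ?_⟩
  have h1 := hF H (Nat.mul_le_mul_left Q hH)
  have h2 : (touched F H).card ≤ (touched (fun i => (Fin.cons i (F i) :
      Fin (2 * Q ^ 2 + 1) → Fin (Q * m'))) H).card := by
    apply Finset.card_le_card
    intro v hv
    unfold touched at hv ⊢
    obtain ⟨i, hi, hvi⟩ := Finset.mem_biUnion.1 hv
    obtain ⟨j, _, rfl⟩ := Finset.mem_image.1 hvi
    refine Finset.mem_biUnion.2 ⟨i, hi, Finset.mem_image.2 ⟨j.succ, Finset.mem_univ _, ?_⟩⟩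
    rfl
  have h3 : (Q - 1) * (Q * m') = Q * ((Q - 1) * m') := by ring
  rw [h3] at h1
  have h4 := Nat.le_of_mul_le_mul_left h1 (by omega : 0 < Q)
  have h5 : (Q - 1) * m' + m' = Q * m' := by
    rw [← Nat.succ_mul]; congr 1; omega
  omega

end H592R3
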