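import Mathlib
import Pool.Agent.H568R2.Collapse

/-!
Renaming the inputs of a circuit.
-/

namespace H592R3

open Finset DomAC0 H568R2

section MapIn
variable {J J' : Type}

open Classical in
/-- Rename the inputs of a circuit. -/
noncomputable def mapIn (φ : J → J') (C : Circuit J) : Circuit J' where
  size := C.size
  kind := C.kind
  preds := fun g => (C.preds g).image (Sum.map φ id)
  acyclic := by
    intro g h hh
    obtain ⟨v, hv, he⟩ := Finset.mem_image.1 hh
    cases v with
    | inl j => simp at he
    | inr h' =>
      simp only [Sum.map_inr, id_eq, Sum.inr.injEq] at he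
      subst he
      exact C.acyclic g h' hv
  unary := by
    intro g hg
    obtain ⟨v, hv⟩ := Finset.card_eq_one.1 (C.unary g hg)
    rw [hv, Finset.image_singleton, Finset.card_singleton]
  output := Sum.map φ id C.output

lemma mapIn_gateVal (φ : J → J') (C : Circuit J) (x : J' → Bool) : ∀ (k : ℕ) (g : Fin C.size),
    g.val = k → (mapIn φ C).gateVal x g = C.gateVal (fun j => x (φ j)) g := by
  classical
  intro k
  induction k using Nat.strong_induction_on with
  | _ k ih =>
    intro g hg
    rw [gateVal_eq (mapIn φ C) x g, gateVal_eq C (fun j => x (φ j)) g]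
    have hnode : ∀ v ∈ C.preds g, (mapIn φ C).nodeVal x (Sum.map φ id v) =
        C.nodeVal (fun j => x (φ j)) v := by
      intro v hv
      cases v with
      | inl j => rfl
      | inr h =>
        have hlt := C.acyclic g h hv
        exact ih h.val (by rw [← hg]; exact hlt) h rfl
    have hp : (mapIn φ C).preds g = (C.preds g).image (Sum.map φ id) := by
      show (C.preds g).image _ = _
      congr
    unfold gfun
    have hk : (mapIn φ C).kind g = C.kind g := rfl
    rw [hk, hp]
    cases C.kind g with
    | and =>
      simp only [Finset.mem_toList]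
      rw [decide_eq_decide]
      constructor
      · intro h v hv
        exact (hnode v hv).symm.trans (h _ (Finset.mem_image_of_mem _ hv))
      · intro h v hv
        obtain ⟨w, hw, rfl⟩ := Finset.mem_image.1 hv
        exact (hnode w hw).trans (h w hw)
    | or =>
      simp only [Finset.mem_toList]
      rw [decide_eq_decide]
      constructor
      · rintro ⟨v, hv, h⟩
        obtain ⟨w, hw, rfl⟩ := Finset.mem_image.1 hv
        exact ⟨w, hw, (hnode w hw).symm.trans h⟩
      · rintro ⟨v, hv, h⟩
        exact ⟨_, Finset.mem_image_of_mem _ hv, (hnode v hv).trans h⟩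
    | not =>
      simp only [Finset.mem_toList]
      rw [decide_eq_decide]
      constructor
      · intro h v hv
        exact (hnode v hv).symm.trans (h _ (Finset.mem_image_of_mem _ hv))
      · intro h v hv
        obtain ⟨w, hw, rfl⟩ := Finset.mem_image.1 hv
        exact (hnode w hw).trans (h w hw)

lemma mapIn_eval (φ : J → J') (C : Circuit J) (x : J' → Bool) :
    (mapIn φ C).eval x = C.eval (fun j => x (φ j)) := by
  unfold Circuit.eval
  show (mapIn φ C).nodeVal x (Sum.map φ id C.output) = _
  cases C.output with
  | inl j => rfl
  | inr g => exact mapIn_gateVal φ C x g.val g rfl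

lemma gateDepth_le (C : Circuit J) (g : Fin C.size) {k : ℕ} (hk : 1 ≤ k)
    (h : ∀ v ∈ C.preds g, C.nodeDepth v < k) : C.gateDepth g ≤ k := by
  rw [Circuit.gateDepth]
  have : (C.preds g).attach.sup (fun v =>
    match v with
    | ⟨Sum.inl _, _⟩ => 0
    | ⟨Sum.inr h, _⟩ => Circuit.gateDepth C h) ≤ k - 1 := by
    apply Finset.sup_le
    rintro ⟨v, hv⟩ _
    have h1 := h v hv
    cases v with
    | inl j => exact Nat.zero_le _
    | inr h' =>
      have h2 : C.gateDepth h' < k := h1
      show C.gateDepth h' ≤ k - 1
      omega
  refine (Nat.add_le_add_right this 1).trans ?_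
  omega

lemma one_le_gateDepth (C : Circuit J) (g : Fin C.size) : 1 ≤ C.gateDepth g := by
  rw [Circuit.gateDepth]; omega

lemma mapIn_gateDepth (φ : J → J') (C : Circuit J) : ∀ (k : ℕ) (g : Fin C.size),
    g.val = k → (mapIn φ C).gateDepth g ≤ C.gateDepth g := by
  classical
  intro k
  induction k using Nat.strong_induction_on with
  | _ k ih =>
    intro g hg
    apply gateDepth_le (mapIn φ C) g (one_le_gateDepth C g)
    intro v hv
    have hp : (mapIn φ C).preds g = (C.preds g).image (Sum.map φ id) := by
      show (C.preds g).image _ = _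
      congr
    rw [hp] at hv
    obtain ⟨w, hw, rfl⟩ := Finset.mem_image.1 hv
    have hd := depth_lt C g w hw
    refine lt_of_le_of_lt ?_ hd
    cases w with
    | inl j => exact le_refl _
    | inr h =>
      have hlt := C.acyclic g h hw
      exact ih h.val (by rw [← hg]; exact hlt) h rfl

lemma mapIn_depth (φ : J → J') (C : Circuit J) : (mapIn φ C).depth ≤ C.depth := by
  unfold Circuit.depth
  show (mapIn φ C).nodeDepth (Sum.map φ id C.output) ≤ _
  cases C.output with
  | inl j => exact le_refl _
  | inr g => exact mapIn_gateDepth φ C g.val g rfl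

end MapIn

section Std
variable {I : Type}

/-- All functions of at most one input bit. -/
def std (X : I → Bool) : Option I × Bool → Bool
  | (none, b) => b
  | (some i, b) => xor (X i) b

lemma std_junta (p : Option I × Bool) : Junta 1 (fun X : I → Bool => std X p) := by
  rcases p with ⟨_ | i, b⟩
  · exact ⟨∅, by simp, fun X Y _ => rfl⟩
  · refine ⟨{i}, by simp, fun X Y h => ?_⟩
    have := h i (by simp)
    show xor (X i) b = xor (Y i) b
    rw [this]

lemma junta_std {f : (I → Bool) → Bool} (hf : Junta 1 f) :
    ∃ p : Option I × Bool, ∀ X, f X = std X p := by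
  obtain ⟨A, hA, hd⟩ := hf
  rcases Nat.eq_zero_or_pos A.card with h0 | h0
  · have hA0 : A = ∅ := Finset.card_eq_zero.1 h0
    subst hA0
    exact ⟨(none, f (fun _ => true)), fun X => hd _ _ (by simp)⟩
  · obtain ⟨i, hi⟩ := Finset.card_eq_one.1 (by omega : A.card = 1)
    subst hi
    have key : ∀ X, f X = f (fun _ => X i) := fun X => hd _ _ (by simp)
    by_cases h : f (fun _ => false) = f (fun _ => true)
    · refine ⟨(none, f (fun _ => true)), fun X => ?_⟩
      rw [key X]
      show f (fun _ => X i) = f (fun _ => true)
      cases X i
      · exact h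
      · rfl
    · refine ⟨(some i, f (fun _ => false)), fun X => ?_⟩
      rw [key X]
      show f (fun _ => X i) = xor (X i) (f (fun _ => false))
      cases hX : X i
      · simp
      · cases h1 : f (fun _ => false) <;> cases h2 : f (fun _ => true) <;> simp_all

end Std

end H592R3
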