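import Mathlib
import Pool.Agent.H592R3.Core
import Pool.Agent.H592R3.Expand
import Pool.Agent.H592R3.MapIn

/-!
The lower bound for the constraint satisfaction problem, with explicit parameters.
-/

namespace H592R3

open Finset DomAC0 H568R2

/-- the probability of a bad planted instance is small -/
lemma bad_small (m : ℕ) (T : ℝ) (hT : 8 * (m : ℝ) ≤ T) (hm : 1 ≤ m) (n : ℝ) (hn : n = T ^ 2) :
    m * ((1 / T ^ 3) / 2) + ((1 + n * ((1 / T ^ 3) / 2)) ^ m - 1) ≤ 1 / 2 := by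
  have hm1 : (1 : ℝ) ≤ m := by exact_mod_cast hm
  have hT0 : 0 < T := by linarith
  have hT1 : 1 ≤ T := by linarith
  have hnp : n * ((1 / T ^ 3) / 2) = 1 / (2 * T) := by
    rw [hn]; field_simp
  rw [hnp]
  have hmT : (m : ℝ) * (1 / (2 * T)) ≤ 1 / 16 := by
    rw [mul_one_div, div_le_div_iff₀ (by positivity) (by norm_num)]
    linarith
  have h1 : (m : ℝ) * ((1 / T ^ 3) / 2) ≤ 1 / 16 := by
    refine le_trans ?_ hmT
    apply mul_le_mul_of_nonneg_left _ (by positivity)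
    rw [div_div]
    apply one_div_le_one_div_of_le (by positivity)
    have : T ≤ T ^ 3 := by
      calc T = T ^ 1 := (pow_one _).symm
        _ ≤ T ^ 3 := pow_le_pow_right₀ hT1 (by norm_num)
    linarith
  have h2 : (1 + 1 / (2 * T)) ^ m ≤ 16 / 15 := by
    have e1 : (1 + 1 / (2 * T)) ^ m ≤ Real.exp (m * (1 / (2 * T))) := by
      rw [Real.exp_nat_mul]
      apply pow_le_pow_left₀ (by positivity)
      have := Real.add_one_le_exp (1 / (2 * T))
      linarith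
    have e2 : Real.exp (m * (1 / (2 * T))) ≤ Real.exp (1 / 16) := Real.exp_le_exp.2 hmT
    have e3 : Real.exp (1 / 16) ≤ 16 / 15 := by
      have h3 := Real.add_one_le_exp (-(1 / 16 : ℝ))
      rw [Real.exp_neg] at h3
      have h4 : 0 < Real.exp (1 / 16) := Real.exp_pos _
      have h5 : (15 / 16 : ℝ) ≤ (Real.exp (1 / 16))⁻¹ := by linarith
      rw [le_inv_comm₀ (by norm_num) h4] at h5
      norm_num at h5 ⊢
      exact h5
    linarith
  linarith

/-- the constant in the decision tree depth -/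
def EE (Q : ℕ) : ℕ := 8 * Q + 8 + 4 * (2 * Q ^ 2 + 1) + 4

lemma final_arith (Q d m' S Jc : ℕ) (hQ : 6 ≤ Q) (hd : 1 ≤ d) (hm' : 2 ≤ m') (T τ : ℝ)
    (hT : T = τ ^ d)
    (hA : 2 * (12 * (2 * d * EE Q * m' : ℕ) : ℝ) ^ 8 ≤ τ)
    (hB : ((2 : ℝ) ^ (Q + 4 + 2 * d * EE Q + 4 * m')) ^ 2 ≤ T)
    (hS : (S : ℝ) ≤ T ^ ((2 * Q - 11) * m'))
    (hJ : (Jc : ℝ) = (Q * m' * (T ^ 2) ^ (2 * Q ^ 2 + 1) + 1) * 2)
    (hmain : (T ^ 2) ^ (Q * m') * (1 / 8) ≤
      S * 2 ^ (Q * m') * ((T ^ 4) ^ (2 * m') * (2 ^ (2 * d * EE Q * m') *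
      (((2 * d * EE Q * m' : ℕ) : ℝ) * 2 ^ (2 * m') * (2 * m')) ^ (2 * m') * (T ^ 2) ^ m' +
      ((Jc + S + 1 : ℕ) : ℝ) * (T ^ 2) ^ (Q * m') * (d * ((S * (Jc + S + 1) : ℕ) : ℝ) *
      (12 * (2 * d * EE Q * m' : ℕ) * (1 / τ)) ^ (2 * d * EE Q * m' + 1))))) : False := by
  obtain ⟨e, he⟩ : ∃ e, e = d * EE Q * m' := ⟨_, rfl⟩
  have h2e : 2 * d * EE Q * m' = 2 * e := by rw [he]; ring
  rw [h2e] at hmain hA
  obtain ⟨N, hN⟩ : ∃ N, N = Jc + S + 1 := ⟨_, rfl⟩
  rw [← hN] at hmain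
  obtain ⟨W, hW⟩ : ∃ W : ℝ, W = 12 * ((2 * e : ℕ) : ℝ) := ⟨_, rfl⟩
  rw [← hW] at hmain hA
  have hE1 : 24 * Q ≤ 3 * EE Q := by unfold EE; omega
  have hE2 : 1 ≤ EE Q := by unfold EE; omega
  have hdm : d * m' ≤ e := by
    rw [he]; exact Nat.mul_le_mul_right m' (Nat.le_mul_of_pos_right d (by omega))
  have heQ : Q * m' ≤ e := by
    rw [he]
    have : 1 * Q ≤ d * EE Q := Nat.mul_le_mul hd (by unfold EE; omega : Q ≤ EE Q)
    exact Nat.mul_le_mul_right _ (by omega)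
  have hm'e0 : m' ≤ e := (Nat.le_mul_of_pos_left m' (by omega)).trans hdm
  have hde0 : d ≤ e := (Nat.le_mul_of_pos_right d (by omega)).trans hdm
  have he1 : 1 ≤ e := by omega
  have heR : (1 : ℝ) ≤ e := by exact_mod_cast he1
  have hW24 : W = 24 * e := by rw [hW]; push_cast; ring
  have hW1 : 24 ≤ W := by rw [hW24]; linarith
  have hm'R : (2 : ℝ) ≤ m' := by exact_mod_cast hm'
  have hdR : (1 : ℝ) ≤ d := by exact_mod_cast hd
  have hdmR : (d : ℝ) * m' ≤ e := by exact_mod_cast hdm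
  have heQR : (Q : ℝ) * m' ≤ e := by exact_mod_cast heQ
  have hW8 : W ≤ W ^ 8 := by
    calc W = W ^ 1 := (pow_one _).symm
      _ ≤ W ^ 8 := pow_le_pow_right₀ (by linarith) (by norm_num)
  have hτ1 : 1 ≤ τ := by linarith
  have hτ0 : 0 < τ := by linarith
  have hWτ : W ≤ τ := by linarith
  have hτT : τ ≤ T := by
    rw [hT]
    calc τ = τ ^ 1 := (pow_one _).symm
      _ ≤ τ ^ d := pow_le_pow_right₀ hτ1 hd
  have hT1 : 1 ≤ T := by linarith
  have hT0 : 0 < T := by linarith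
  have h8Q : 8 * ((Q : ℝ) * m') ≤ T := by linarith
  have hT8 : 8 ≤ T := by linarith
  set X : ℝ := (T ^ 2) ^ (Q * m') with hX
  have hX0 : 0 < X := by positivity
  have hX' : X = T ^ (2 * Q * m') := by rw [hX, ← pow_mul]; congr 1; ring
  -- first term
  set R1 : ℝ := S * 2 ^ (Q * m') * ((T ^ 4) ^ (2 * m') * (2 ^ (2 * e) *
      (((2 * e : ℕ) : ℝ) * 2 ^ (2 * m') * (2 * m')) ^ (2 * m') * (T ^ 2) ^ m')) with hR1
  set R2 : ℝ := S * 2 ^ (Q * m') * ((T ^ 4) ^ (2 * m') * ((N : ℝ) * X * (d * ((S * N : ℕ) : ℝ) *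
      (W * (1 / τ)) ^ (2 * e + 1)))) with hR2
  have hsum : X * (1 / 8) ≤ R1 + R2 := by
    refine hmain.trans (le_of_eq ?_)
    rw [hR1, hR2]; ring
  -- bound R1
  set Z : ℝ := 2 ^ (Q + 2 * d * EE Q) * (2 * ((2 * e : ℕ) : ℝ) * m' * 2 ^ (2 * m')) ^ 2 with hZ
  have hZ0 : 0 ≤ Z := by positivity
  have hZT : 16 * Z ≤ T := by
    have hU0 : (0 : ℝ) ≤ 2 ^ (Q + 4 + 2 * d * EE Q + 4 * m') := by positivity
    have hm'e : (m' : ℝ) ≤ e := by exact_mod_cast hm'e0
    have hb1 : 2 * ((2 * e : ℕ) : ℝ) * m' ≤ W ^ 2 := by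
      have h1 : (e : ℝ) * m' ≤ e * e := mul_le_mul_of_nonneg_left hm'e (by positivity)
      have h2 : (0 : ℝ) ≤ e * e := by positivity
      have h3 : 2 * ((2 * e : ℕ) : ℝ) * m' = 4 * ((e : ℝ) * m') := by push_cast; ring
      have h4 : W ^ 2 = 576 * ((e : ℝ) * e) := by rw [hW24]; ring
      rw [h3, h4]
      linarith only [h1, h2]
    have hb2 : 16 * Z ≤ 2 ^ (Q + 4 + 2 * d * EE Q + 4 * m') * (W ^ 4) := by
      have h1 : 16 * Z = 2 ^ (Q + 4 + 2 * d * EE Q + 4 * m') * (2 * ((2 * e : ℕ) : ℝ) * m') ^ 2 := by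
        rw [hZ, mul_pow _ ((2 : ℝ) ^ (2 * m')), ← pow_mul 2 (2 * m') 2,
          show Q + 4 + 2 * d * EE Q + 4 * m' = 4 + (Q + 2 * d * EE Q) + 2 * m' * 2 by ring,
          pow_add, pow_add]
        ring
      rw [h1]
      apply mul_le_mul_of_nonneg_left _ hU0
      calc (2 * ((2 * e : ℕ) : ℝ) * m') ^ 2 ≤ (W ^ 2) ^ 2 :=
            pow_le_pow_left₀ (by positivity) hb1 2
        _ = W ^ 4 := by ring
    refine hb2.trans ?_
    have hb3 : (W ^ 4) ^ 2 ≤ T := by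
      have : (W ^ 4) ^ 2 = W ^ 8 := by ring
      rw [this]; linarith [pow_nonneg (by linarith : (0 : ℝ) ≤ W) 8]
    have hb4 : (2 ^ (Q + 4 + 2 * d * EE Q + 4 * m') * (W ^ 4)) ^ 2 ≤ T ^ 2 := by
      rw [mul_pow, pow_two T]
      exact mul_le_mul hB hb3 (by positivity) hT0.le
    exact (pow_le_pow_iff_left₀ (by positivity) hT0.le (by norm_num)).1 hb4
  have hR1b : 16 * R1 ≤ X := by
    have e1 : R1 = S * (T ^ (10 * m') * Z ^ m') := by
      obtain ⟨a, ha⟩ : ∃ a : ℝ, a = ((2 * e : ℕ) : ℝ) * 2 ^ (2 * m') * (2 * m') := ⟨_, rfl⟩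
      have hZa : Z = 2 ^ (Q + 2 * d * EE Q) * a ^ 2 := by
        rw [hZ, ha]
        congr 2
        ring
      have h1 : ((2 : ℝ) ^ (Q + 2 * d * EE Q)) ^ m' = 2 ^ (Q * m') * 2 ^ (2 * e) := by
        rw [← pow_mul, ← pow_add]; congr 1; rw [he]; ring
      have h2 : (a ^ 2) ^ m' = a ^ (2 * m') := by rw [← pow_mul]
      have h3 : (T ^ 4) ^ (2 * m') * (T ^ 2) ^ m' = T ^ (10 * m') := by
        rw [← pow_mul, ← pow_mul, ← pow_add]; congr 1; ring
      rw [hZa, mul_pow, h1, h2, ← h3, hR1, ← ha]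
      generalize a ^ (2 * m') = a1
      generalize (T ^ 4) ^ (2 * m') = a2
      generalize (T ^ 2) ^ m' = a3
      generalize (2 : ℝ) ^ (Q * m') = a4
      generalize (2 : ℝ) ^ (2 * e) = a5
      ring
    rw [e1]
    have e2 : 16 * Z ^ m' ≤ T ^ m' := by
      calc 16 * Z ^ m' ≤ 16 ^ m' * Z ^ m' := by
            apply mul_le_mul_of_nonneg_right _ (by positivity)
            calc (16 : ℝ) = 16 ^ 1 := (pow_one _).symm
              _ ≤ 16 ^ m' := pow_le_pow_right₀ (by norm_num) (by omega)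
        _ = (16 * Z) ^ m' := (mul_pow 16 Z m').symm
        _ ≤ T ^ m' := pow_le_pow_left₀ (by positivity) hZT _
    calc 16 * (S * (T ^ (10 * m') * Z ^ m')) = S * (T ^ (10 * m') * (16 * Z ^ m')) := by ring
      _ ≤ T ^ ((2 * Q - 11) * m') * (T ^ (10 * m') * T ^ m') := by
          apply mul_le_mul hS _ (by positivity) (by positivity)
          exact mul_le_mul_of_nonneg_left e2 (by positivity)
      _ = X := by
          rw [hX', ← pow_add, ← pow_add]
          congr 1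
          have : (2 * Q - 11) * m' + 11 * m' = 2 * Q * m' := by
            rw [← Nat.add_mul]; congr 1; omega
          omega
  -- bound R2
  have hSX : (S : ℝ) ≤ X := by
    refine hS.trans ?_
    rw [hX']
    apply pow_le_pow_right₀ hT1
    exact Nat.mul_le_mul_right _ (by omega)
  have hX1 : 1 ≤ X := by rw [hX]; exact one_le_pow₀ (one_le_pow₀ hT1)
  obtain ⟨B, hB'⟩ : ∃ B, B = 2 * Q ^ 2 + 1 := ⟨_, rfl⟩
  have hNb : (N : ℝ) ≤ T ^ (2 * Q * m' + 2 * B + 2) := by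
    have e1 : (N : ℝ) = (Q * m' * (T ^ 2) ^ B + 1) * 2 + S + 1 := by
      rw [hN]; push_cast; rw [hJ, hB']
    set b : ℝ := T ^ (2 * B + 1) with hb
    have hb1 : 1 ≤ b := one_le_pow₀ hT1
    have e2 : 8 * ((Q : ℝ) * m' * (T ^ 2) ^ B) ≤ b := by
      rw [hb, ← pow_mul, pow_succ]
      calc 8 * ((Q : ℝ) * m' * T ^ (2 * B)) = T ^ (2 * B) * (8 * ((Q : ℝ) * m')) := by ring
        _ ≤ T ^ (2 * B) * T := mul_le_mul_of_nonneg_left h8Q (by positivity)
    have e3 : (N : ℝ) ≤ X + b / 4 + 3 := by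
      rw [e1]; linarith
    have e4 : X + b / 4 + 3 ≤ 8 * (X * b) := by
      have f1 : X * 1 ≤ X * b := mul_le_mul_of_nonneg_left hb1 hX0.le
      have f2 : 1 * b ≤ X * b := mul_le_mul_of_nonneg_right hX1 (by linarith)
      linarith only [f1, f2, hX1, hb1]
    have e5 : 8 * (X * b) ≤ T * (X * b) := by
      apply mul_le_mul_of_nonneg_right hT8 (by positivity)
    refine e3.trans (e4.trans (e5.trans (le_of_eq ?_)))
    rw [hX', hb, ← pow_add, mul_comm, ← pow_succ]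
    congr 1
  have hR2b : 16 * R2 < X := by
    have e1 : 16 * R2 = (16 * d) * 2 ^ (Q * m') * (S * S * (N * N) * T ^ (8 * m')) *
        (W * (1 / τ)) ^ (2 * e + 1) * X := by
      rw [hR2, ← pow_mul T]
      push_cast
      rw [show 4 * (2 * m') = 8 * m' by ring]
      ring
    rw [e1]
    have e2 : (S : ℝ) * S * (N * N) * T ^ (8 * m') ≤ τ ^ e := by
      have f1 : (S : ℝ) * S * (N * N) * T ^ (8 * m') ≤ T ^ (2 * Q * m') * T ^ (2 * Q * m') *
          (T ^ (2 * Q * m' + 2 * B + 2) * T ^ (2 * Q * m' + 2 * B + 2)) * T ^ (8 * m') := by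
        rw [hX'] at hSX
        gcongr
      refine f1.trans ?_
      rw [← pow_add, ← pow_add, ← pow_add, ← pow_add]
      have f2 : τ ^ e = T ^ (EE Q * m') := by
        rw [hT, ← pow_mul, he]; congr 1; ring
      rw [f2]
      apply pow_le_pow_right₀ hT1
      unfold EE
      rw [← hB']
      have g1 : (8 * Q + 8 + 4 * B + 4) * m' = 8 * (Q * m') + 8 * m' + (4 * B + 4) * m' := by
        ring
      have g2 : (4 * B + 4) * 1 ≤ (4 * B + 4) * m' := Nat.mul_le_mul_left _ (by omega)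
      have g3 : 2 * Q * m' = 2 * (Q * m') := by ring
      rw [g1, g3]
      omega
    have e3 : (16 * (d : ℝ)) * 2 ^ (Q * m') * W ^ (2 * e + 1) < τ ^ (e + 1) := by
      have g1 : 16 * (d : ℝ) ≤ W := by
        rw [hW24]
        have : (d : ℝ) ≤ e := by exact_mod_cast hde0
        linarith only [this, heR]
      have g2 : (2 : ℝ) ^ (Q * m') ≤ 2 ^ e := pow_le_pow_right₀ (by norm_num) heQ
      calc (16 * (d : ℝ)) * 2 ^ (Q * m') * W ^ (2 * e + 1) ≤ W * 2 ^ e * W ^ (2 * e + 1) := by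
            gcongr
        _ = 2 ^ e * (W ^ 2) ^ (e + 1) := by rw [← pow_mul]; ring
        _ < 2 ^ (e + 1) * (W ^ 2) ^ (e + 1) := by
            apply mul_lt_mul_of_pos_right _ (by positivity)
            exact pow_lt_pow_right₀ (by norm_num) (by omega)
        _ = (2 * W ^ 2) ^ (e + 1) := by rw [mul_pow]
        _ ≤ τ ^ (e + 1) := by
            apply pow_le_pow_left₀ (by positivity)
            refine le_trans ?_ hA
            have : W ^ 2 ≤ W ^ 8 := pow_le_pow_right₀ (by linarith) (by norm_num)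
            linarith
    have e4 : (16 * (d : ℝ)) * 2 ^ (Q * m') * (S * S * (N * N) * T ^ (8 * m')) *
        (W * (1 / τ)) ^ (2 * e + 1) < 1 := by
      have g1 : (W * (1 / τ)) ^ (2 * e + 1) = W ^ (2 * e + 1) / τ ^ (2 * e + 1) := by
        rw [mul_one_div, div_pow]
      rw [g1]
      calc (16 * (d : ℝ)) * 2 ^ (Q * m') * (S * S * (N * N) * T ^ (8 * m')) *
            (W ^ (2 * e + 1) / τ ^ (2 * e + 1))
          ≤ (16 * (d : ℝ)) * 2 ^ (Q * m') * τ ^ e * (W ^ (2 * e + 1) / τ ^ (2 * e + 1)) := by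
            gcongr
        _ = ((16 * (d : ℝ)) * 2 ^ (Q * m') * W ^ (2 * e + 1)) * τ ^ e / τ ^ (2 * e + 1) := by
            ring
        _ < τ ^ (e + 1) * τ ^ e / τ ^ (2 * e + 1) := by
            apply div_lt_div_of_pos_right _ (by positivity)
            exact mul_lt_mul_of_pos_right e3 (by positivity)
        _ = 1 := by
            rw [← pow_add, show e + 1 + e = 2 * e + 1 by ring, div_self (by positivity)]
    calc _ < 1 * X := mul_lt_mul_of_pos_right e4 hX0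
      _ = X := one_mul X
  linarith

open Classical in
/-- The lower bound for the constraint satisfaction problem. -/
theorem csp_lower (Q d m' t : ℕ) (hQ : 6 ≤ Q) (hd : 1 ≤ d) (hm' : 2 ≤ m')
    (hA : 2 * (12 * (2 * d * EE Q * m')) ^ 8 ≤ 2 ^ t)
    (hB : 2 * (Q + 4 + 2 * d * EE Q + 4 * m') ≤ d * t)
    (s : Fin (Q * m') → Fin (2 * Q ^ 2 + 1) → Fin (Q * m')) (hs : ∀ i, s i 0 = i)
    (hexp : ∀ H : Finset (Fin (Q * m')), m' ≤ H.card → Q * m' - (touched s H).card ≤ m')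
    {J : Type} {Ω : Type} [Fintype Ω] (P : Ω → ℝ) (hP0 : ∀ ω, 0 ≤ P ω) (hP1 : ∑ ω, P ω = 1)
    (C : Ω → Circuit J)
    (σ : ((Fin (Q * m') × (Fin (2 * Q ^ 2 + 1) → Fin (2 ^ (2 * d * t)))) → Bool) → (J → Bool))
    (hσ : ∀ j, Junta 1 (fun x => σ x j))
    (hdepth : ∀ ω, (C ω).depth ≤ d) {S : ℕ} (hS : ∀ ω, (C ω).size ≤ S)
    (hcor : ∀ X, AtMostOne s X →
      (2 : ℝ) / 3 ≤ ∑ ω, if ((C ω).eval (σ X) = true ↔ Sat s X) then P ω else 0) :
    2 ^ ((2 * Q - 11) * (d * t * m')) < S := by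
  by_contra hcon
  push Not at hcon
  obtain ⟨φ, hφ⟩ : ∃ φ : J → Option (Fin (Q * m') ×
      (Fin (2 * Q ^ 2 + 1) → Fin (2 ^ (2 * d * t)))) × Bool, ∀ j X, σ X j = std X (φ j) := by
    choose φ hφ using fun j => junta_std (hσ j)
    exact ⟨φ, hφ⟩
  have hev : ∀ ω X, (mapIn φ (C ω)).eval (std X) = (C ω).eval (σ X) := by
    intro ω X
    rw [mapIn_eval]
    congr 1
    funext j
    exact (hφ j X).symm
  have hn1 : 1 ≤ 2 ^ (2 * d * t) := Nat.one_le_two_pow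
  have hE : 1 ≤ EE Q := by unfold EE; omega
  have hh1 : 1 ≤ 2 * d * EE Q * m' := by
    have : 0 < 2 * d * EE Q * m' := by positivity
    omega
  have hτ3 : 3 ≤ 2 ^ t := by
    refine le_trans ?_ hA
    have : 1 ≤ (12 * (2 * d * EE Q * m')) ^ 8 := Nat.one_le_pow _ _ (by omega)
    have h2 : 12 * (2 * d * EE Q * m') ≤ (12 * (2 * d * EE Q * m')) ^ 8 :=
      Nat.le_self_pow (by norm_num) _
    omega
  obtain ⟨T, hT⟩ : ∃ T : ℝ, T = (2 : ℝ) ^ (d * t) := ⟨_, rfl⟩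
  have hT0 : 0 < T := by rw [hT]; positivity
  have hT1 : 1 ≤ T := by rw [hT]; exact one_le_pow₀ (by norm_num)
  have hTτ : T = ((2 ^ t : ℕ) : ℝ) ^ d := by rw [hT]; push_cast; rw [← pow_mul, mul_comm]
  have hnT : ((2 ^ (2 * d * t) : ℕ) : ℝ) = T ^ 2 := by
    rw [hT, ← pow_mul]; push_cast; congr 1; ring
  have hq : (1 / ((2 ^ t : ℕ) : ℝ)) ^ d = 1 / T := by rw [one_div_pow, hTτ]
  have h8 : 8 * (((Q * m' : ℕ) : ℝ)) ≤ T := by
    have h1 : 8 * (Q * m') ≤ 2 ^ t := by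
      refine le_trans ?_ hA
      have h2 : 12 * (2 * d * EE Q * m') ≤ (12 * (2 * d * EE Q * m')) ^ 8 :=
        Nat.le_self_pow (by norm_num) _
      have h3 : Q * m' ≤ d * EE Q * m' := by
        apply Nat.mul_le_mul_right
        calc Q = 1 * Q := (one_mul Q).symm
          _ ≤ d * EE Q := Nat.mul_le_mul hd (by unfold EE; omega)
      have h4 : 12 * (2 * d * EE Q * m') = 24 * (d * EE Q * m') := by ring
      omega
    have h2 : 2 ^ t ≤ 2 ^ (d * t) :=
      Nat.pow_le_pow_right (by norm_num) (Nat.le_mul_of_pos_left t (by omega))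
    rw [hT]
    exact_mod_cast h1.trans h2
  have hQm : 1 ≤ Q * m' := Nat.one_le_iff_ne_zero.2 (by positivity)
  have hcore := core (m := Q * m') (n := 2 ^ (2 * d * t)) (r := 2 * Q ^ 2) hn1 s hs P hP0 hP1
    (fun ω => mapIn φ (C ω)) (fun X => std X) std_junta hh1 (d := d) (τ := 2 ^ t) hτ3
    (fun ω => (mapIn_depth φ (C ω)).trans (hdepth ω)) (S := S) (fun ω => hS ω) (L := m') (u := m')
    hm' (Nat.mul_le_mul_right m' (by omega)) hexp (y := 1 / T ^ 3) (q := 1 / T)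
    (by positivity) (by
      rw [div_le_one (by positivity)]; exact one_le_pow₀ hT1) hq.symm (le_refl _) (by
      intro X hX
      have := hcor X hX
      simp only [hev]
      exact this)
  have hbad := bad_small (Q * m') T h8 hQm _ hnT
  have hyq : 1 / (1 / T ^ 3 * (1 / T)) = T ^ 4 := by
    field_simp
  rw [hyq, hnT] at hcore
  have hlow : (T ^ 2) ^ (Q * m') * (1 / 8) ≤ (T ^ 2) ^ (Q * m') * (1 / 4 * (1 - (((Q * m' : ℕ) : ℝ) *
      (1 / T ^ 3 / 2) + ((1 + T ^ 2 * (1 / T ^ 3 / 2)) ^ (Q * m') - 1)))) := by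
    apply mul_le_mul_of_nonneg_left _ (by positivity)
    rw [hnT] at hbad
    linarith
  have hJc : (Fintype.card (Option (Fin (Q * m') ×
      (Fin (2 * Q ^ 2 + 1) → Fin (2 ^ (2 * d * t)))) × Bool) : ℝ) =
      (Q * m' * (T ^ 2) ^ (2 * Q ^ 2 + 1) + 1) * 2 := by
    rw [Fintype.card_prod, Fintype.card_option, Fintype.card_prod, Fintype.card_fun,
      Fintype.card_fin, Fintype.card_fin, Fintype.card_fin, Fintype.card_bool]
    rw [← hnT]
    push_cast
    ring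
  refine final_arith Q d m' S _ hQ hd hm' T ((2 ^ t : ℕ) : ℝ) hTτ ?_ ?_ ?_ hJc ?_
  · exact_mod_cast hA
  · rw [hT, ← pow_mul]
    apply pow_le_pow_right₀ (by norm_num)
    calc (Q + 4 + 2 * d * EE Q + 4 * m') * 2 = 2 * (Q + 4 + 2 * d * EE Q + 4 * m') := by ring
      _ ≤ d * t := hB
  · rw [hT, ← pow_mul]
    have : (S : ℝ) ≤ ((2 ^ ((2 * Q - 11) * (d * t * m')) : ℕ) : ℝ) := by exact_mod_cast hcon
    refine this.trans (le_of_eq ?_)
    push_cast
    congr 1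
    ring
  · refine (hlow.trans hcore).trans (le_of_eq ?_)
    congr 3
    unfold ctb
    push_cast
    rw [← hnT]
    push_cast
    ring

end H592R3
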