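import Mathlib
import Pool.Agent.H592R3.Csp

/-!
The choice of the parameters.
-/

namespace H592R3

theorem params (ε : ℝ) (hε : 0 < ε) : ∃ Q : ℕ, 6 ≤ Q ∧ Even Q ∧ ∃ C : ℝ, 0 < C ∧
    ∀ n d w : ℕ, 1 ≤ n → 1 ≤ d → C * (√(n : ℝ) + d * Real.log n) ≤ w → w ≤ n →
    ∃ t m' : ℕ, 1 ≤ t ∧ 2 ≤ m' ∧ 2 * (12 * (2 * d * EE Q * m')) ^ 8 ≤ 2 ^ t ∧
      2 * (Q + 4 + 2 * d * EE Q + 4 * m') ≤ d * t ∧
      (2 * Q ^ 2 + 1) * (2 * d * t) + 1 ≤ w ∧ Q * m' * (2 * d * t + 1) ≤ n ∧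
      (1 - ε) * n ≤ (((2 * Q - 11) * (d * t * m') : ℕ) : ℝ) := by
  obtain ⟨Q0, hQ0⟩ := exists_nat_ge (7 / ε)
  obtain ⟨Q, hQ⟩ : ∃ Q, Q = 2 * (Q0 + 3) := ⟨_, rfl⟩
  have hQ6 : 6 ≤ Q := by omega
  have hQe : Even Q := ⟨Q0 + 3, by omega⟩
  have hQε : 7 ≤ ε * Q := by
    have h1 : 7 / ε ≤ Q := by
      refine hQ0.trans ?_
      exact_mod_cast (by omega : Q0 ≤ Q)
    rw [div_le_iff₀ hε] at h1
    linarith
  obtain ⟨E, hE⟩ : ∃ E, E = EE Q := ⟨_, rfl⟩
  obtain ⟨B, hB⟩ : ∃ B, B = 2 * Q ^ 2 + 1 := ⟨_, rfl⟩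
  have hE1 : 1 ≤ E := by rw [hE]; unfold EE; omega
  have hlog2 : 0 < Real.log 2 := Real.log_pos (by norm_num)
  obtain ⟨KA, hKA⟩ : ∃ KA : ℝ, KA = (8 + (Real.log 2 + 8 * Real.log (24 * E)) / Real.log 2) /
    Real.log 2 := ⟨_, rfl⟩
  have hER : (1 : ℝ) ≤ E := by exact_mod_cast hE1
  have hlogE : 0 ≤ Real.log (24 * E) := Real.log_nonneg (by linarith)
  have hKA0 : 0 ≤ KA := by rw [hKA]; positivity
  obtain ⟨c, hc⟩ : ∃ c : ℝ, c = KA + (4 * Q + 16 + 8 * E) / Real.log 2 + 4 + 2 * Q := ⟨_, rfl⟩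
  have hQR : (6 : ℝ) ≤ Q := by exact_mod_cast hQ6
  have hfrac0 : 0 ≤ (4 * (Q : ℝ) + 16 + 8 * E) / Real.log 2 := by positivity
  have hc4 : 4 ≤ c := by rw [hc]; linarith
  have hcQ : 2 * (Q : ℝ) ≤ c := by rw [hc]; linarith
  have hcK : KA ≤ c := by rw [hc]; linarith
  have hcE : (4 * (Q : ℝ) + 16 + 8 * E) ≤ c * Real.log 2 := by
    have : (4 * (Q : ℝ) + 16 + 8 * E) / Real.log 2 ≤ c := by rw [hc]; linarith
    rwa [div_le_iff₀ hlog2] at this
  have hB1 : 1 ≤ B := by omega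
  have hBR : (1 : ℝ) ≤ B := by exact_mod_cast hB1
  refine ⟨Q, hQ6, hQe, 8 * B * c, by positivity, ?_⟩
  intro n d w hn hd hw hwn
  have hnR : (1 : ℝ) ≤ n := by exact_mod_cast hn
  have hdR : (1 : ℝ) ≤ d := by exact_mod_cast hd
  have hlogn : 0 ≤ Real.log n := Real.log_nonneg hnR
  have hwnR : (w : ℝ) ≤ n := by exact_mod_cast hwn
  have hsq : √(n : ℝ) * √(n : ℝ) = n := Real.mul_self_sqrt (by linarith)
  have hs0 : 0 ≤ √(n : ℝ) := Real.sqrt_nonneg _
  have hdl : 0 ≤ (d : ℝ) * Real.log n := by positivity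
  have hw1 : 8 * B * c * √(n : ℝ) ≤ w := by
    refine le_trans ?_ hw
    apply mul_le_mul_of_nonneg_left _ (by positivity)
    linarith
  have hw2 : 8 * B * c * (d * Real.log n) ≤ w := by
    refine le_trans ?_ hw
    apply mul_le_mul_of_nonneg_left _ (by positivity)
    linarith
  -- `n` is large
  have hsc : 8 * B * c ≤ √(n : ℝ) := by
    have h1 : 8 * B * c * √(n : ℝ) ≤ √(n : ℝ) * √(n : ℝ) := by rw [hsq]; linarith
    have hs1 : 0 < √(n : ℝ) := Real.sqrt_pos.2 (by linarith)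
    exact le_of_mul_le_mul_right h1 hs1
  have hc8 : c ≤ 8 * B * c := by
    have : 1 * c ≤ (8 * B) * c := mul_le_mul_of_nonneg_right (by linarith) (by linarith)
    linarith
  have hnc : c * c ≤ n := by
    rw [← hsq]
    exact mul_le_mul (hc8.trans hsc) (hc8.trans hsc) (by linarith) hs0
  have hn4Q : 4 * (Q : ℝ) * Q ≤ n := by
    have : (2 * (Q : ℝ)) * (2 * Q) ≤ c * c := mul_le_mul hcQ hcQ (by positivity) (by linarith)
    linarith
  have hn2 : 2 ≤ n := by
    have h1 : (2 : ℝ) ≤ n := by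
      have : (4 : ℝ) * 4 ≤ c * c := mul_le_mul hc4 hc4 (by norm_num) (by linarith)
      linarith
    exact_mod_cast h1
  have hl2 : Real.log 2 ≤ Real.log n := Real.log_le_log (by norm_num) (by exact_mod_cast hn2)
  -- the parameter `t`
  obtain ⟨t, ht⟩ : ∃ t, t = w / (4 * d * B) := ⟨_, rfl⟩
  have hdB : 0 < 4 * d * B := by positivity
  have ht1 : t * (4 * d * B) ≤ w := by rw [ht]; exact Nat.div_mul_le_self _ _
  have ht2 : w < (t + 1) * (4 * d * B) := by
    rw [ht]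
    exact Nat.lt_mul_of_div_lt (Nat.lt_succ_self _) hdB
  have ht1R : (t : ℝ) * (4 * d * B) ≤ w := by exact_mod_cast ht1
  have ht2R : (w : ℝ) < (t + 1) * (4 * d * B) := by exact_mod_cast ht2
  have hta : 2 * c * Real.log n < t + 1 := by
    have h1 : (2 * c * Real.log n) * (4 * d * B) < (t + 1) * (4 * d * B) := by
      have : (2 * c * Real.log n) * (4 * d * B) = 8 * B * c * (d * Real.log n) := by ring
      linarith
    exact lt_of_mul_lt_mul_right h1 (by positivity)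
  have htb : 2 * c * √(n : ℝ) < d * (t + 1) := by
    have h1 : (2 * c * √(n : ℝ)) * (4 * B) < (d * (t + 1)) * (4 * B) := by
      have e1 : (2 * c * √(n : ℝ)) * (4 * B) = 8 * B * c * √(n : ℝ) := by ring
      have e2 : ((d : ℝ) * (t + 1)) * (4 * B) = (t + 1) * (4 * d * B) := by ring
      linarith
    exact lt_of_mul_lt_mul_right h1 (by positivity)
  have hcl : 4 * (Q : ℝ) + 16 + 8 * E ≤ c * Real.log n :=
    hcE.trans (mul_le_mul_of_nonneg_left hl2 (by linarith))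
  have htt : (t : ℝ) + 1 ≤ 2 * t := by
    have h1 : (1 : ℝ) ≤ c * Real.log n := by linarith
    linarith
  have htl : c * Real.log n ≤ t := by linarith
  have hds : c * √(n : ℝ) ≤ d * t := by
    have h1 : (d : ℝ) * (t + 1) ≤ d * (2 * t) := mul_le_mul_of_nonneg_left htt (by linarith)
    linarith
  have ht1' : 4 * Q + 16 + 8 * E ≤ t := by
    have : ((4 * Q + 16 + 8 * E : ℕ) : ℝ) ≤ t := by push_cast; linarith
    exact_mod_cast this
  have htpos : 1 ≤ t := by omega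
  have htR : (1 : ℝ) ≤ t := by exact_mod_cast htpos
  -- the parameter `m'`
  obtain ⟨ℓ, hℓ⟩ : ∃ ℓ, ℓ = 2 * d * t + 1 := ⟨_, rfl⟩
  obtain ⟨m', hm'⟩ : ∃ m', m' = n / (Q * ℓ) := ⟨_, rfl⟩
  have hQℓ : 0 < Q * ℓ := by rw [hℓ]; positivity
  have hm1 : m' * (Q * ℓ) ≤ n := by rw [hm']; exact Nat.div_mul_le_self _ _
  have hm2 : n < (m' + 1) * (Q * ℓ) := by
    rw [hm']
    exact Nat.lt_mul_of_div_lt (Nat.lt_succ_self _) hQℓ
  have hm1R : (m' : ℝ) * (Q * ℓ) ≤ n := by exact_mod_cast hm1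
  have hm2R : (n : ℝ) < (m' + 1) * (Q * ℓ) := by exact_mod_cast hm2
  have hℓR : (ℓ : ℝ) = 2 * d * t + 1 := by rw [hℓ]; push_cast; ring
  have hBQ : (2 : ℝ) * Q * Q ≤ B := by
    rw [hB]; push_cast
    have : (Q : ℝ) ^ 2 = Q * Q := by ring
    linarith only [this]
  -- `Q * 2dt ≤ n / (4 Q)`
  have hq1 : (4 * (Q : ℝ)) * (Q * (2 * d * t)) ≤ n := by
    have h1 : (4 * (Q : ℝ)) * (Q * (2 * d * t)) = (2 * Q * Q) * (4 * d * t) := by ring
    have h2 : (2 * (Q : ℝ) * Q) * (4 * d * t) ≤ B * (4 * d * t) :=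
      mul_le_mul_of_nonneg_right hBQ (by positivity)
    have h3 : (B : ℝ) * (4 * d * t) = t * (4 * d * B) := by ring
    linarith
  have hm'2 : 2 ≤ m' := by
    rw [hm', Nat.le_div_iff_mul_le hQℓ]
    have h1 : (2 : ℝ) * (Q * ℓ) ≤ n := by
      rw [hℓR]
      have h2 : 24 * ((Q : ℝ) * (2 * d * t)) ≤ 4 * (Q : ℝ) * (Q * (2 * d * t)) :=
        mul_le_mul_of_nonneg_right (by linarith only [hQR]) (by positivity)
      have h3 : 24 * (Q : ℝ) ≤ 4 * Q * Q :=
        mul_le_mul_of_nonneg_right (by linarith only [hQR]) (by positivity)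
      have h4 : (2 : ℝ) * (Q * (2 * d * t + 1)) = 2 * (Q * (2 * d * t)) + 2 * Q := by ring
      have h5 : (0 : ℝ) ≤ Q * (2 * d * t) := by positivity
      rw [h4]
      linarith only [h2, h3, h5, hq1, hn4Q, hQR]
    exact_mod_cast h1
  have hm'R : (2 : ℝ) ≤ m' := by exact_mod_cast hm'2
  have hdt1 : (1 : ℝ) ≤ d * t := one_le_mul_of_one_le_of_one_le hdR htR
  have hdtQ : (d : ℝ) * t ≤ Q * (2 * d * t + 1) := by
    have h1 : (1 : ℝ) * (d * t) ≤ Q * (2 * d * t + 1) :=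
      mul_le_mul (by linarith only [hQR]) (by linarith only [hdt1]) (by positivity)
        (by positivity)
    linarith only [h1]
  refine ⟨t, m', htpos, hm'2, ?_, ?_, ?_, ?_, ?_⟩
  · -- condition (A)
    rw [← hE]
    have hdm : (d : ℝ) * m' ≤ n := by
      refine le_trans ?_ hm1R
      have h1 : (d : ℝ) ≤ Q * ℓ := by
        rw [hℓR]
        have : (d : ℝ) ≤ d * t := le_mul_of_one_le_right (by linarith only [hdR]) htR
        linarith only [this, hdtQ]
      have h2 := mul_le_mul_of_nonneg_left h1 (by linarith : (0 : ℝ) ≤ m')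
      linarith
    have h1 : (2 : ℝ) * (12 * (2 * d * E * m')) ^ 8 ≤ 2 * (24 * E * n) ^ 8 := by
      apply mul_le_mul_of_nonneg_left _ (by norm_num)
      apply pow_le_pow_left₀ (by positivity)
      have h2 : 24 * (E : ℝ) * (d * m') ≤ 24 * E * n :=
        mul_le_mul_of_nonneg_left hdm (by positivity)
      linarith
    have h2 : (2 : ℝ) * (24 * E * n) ^ 8 ≤ 2 ^ t := by
      rw [← Real.log_le_log_iff (by positivity) (by positivity)]
      rw [Real.log_mul (by norm_num) (by positivity), Real.log_pow, Real.log_pow,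
        Real.log_mul (by positivity) (by positivity)]
      have h3 : KA * Real.log n ≤ t :=
        (mul_le_mul_of_nonneg_right hcK hlogn).trans htl
      have h4 : (KA * Real.log n) * Real.log 2 ≤ t * Real.log 2 :=
        mul_le_mul_of_nonneg_right h3 hlog2.le
      have h5 : (KA * Real.log n) * Real.log 2 = 8 * Real.log n +
          (Real.log 2 + 8 * Real.log (24 * E)) * (Real.log n / Real.log 2) := by
        rw [hKA]; field_simp
      have h6 : 1 ≤ Real.log n / Real.log 2 := by rw [le_div_iff₀ hlog2]; linarith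
      have h7 : (Real.log 2 + 8 * Real.log (24 * E)) * 1 ≤
          (Real.log 2 + 8 * Real.log (24 * E)) * (Real.log n / Real.log 2) :=
        mul_le_mul_of_nonneg_left h6 (by positivity)
      push_cast
      linarith
    have h3 := h1.trans h2
    exact_mod_cast h3
  · -- condition (B)
    rw [← hE]
    have h16 : 16 * (m' : ℝ) ≤ d * t := by
      have e1 : (m' : ℝ) * (d * t) ≤ n := by
        refine le_trans ?_ hm1R
        apply mul_le_mul_of_nonneg_left _ (by linarith)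
        rw [hℓR]
        exact hdtQ
      have e2 : (c * √(n : ℝ)) * (c * √(n : ℝ)) ≤ (d * t) * (d * t) :=
        mul_le_mul hds hds (by positivity) (by positivity)
      have e3 : (c * √(n : ℝ)) * (c * √(n : ℝ)) = (c * c) * n := by
        rw [show (c * √(n : ℝ)) * (c * √(n : ℝ)) = (c * c) * (√(n : ℝ) * √(n : ℝ)) by ring, hsq]
      have e4 : (16 : ℝ) * n ≤ (c * c) * n :=
        mul_le_mul_of_nonneg_right (by
          have := mul_le_mul hc4 hc4 (by norm_num) (by linarith only [hc4])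
          linarith only [this]) (by linarith only [hnR])
      have e5 : (16 * (m' : ℝ)) * (d * t) ≤ (d * t) * (d * t) := by
        calc (16 * (m' : ℝ)) * (d * t) = 16 * (m' * (d * t)) := by ring
          _ ≤ 16 * n := by linarith
          _ ≤ _ := by linarith
      exact le_of_mul_le_mul_right e5 (by linarith)
    have h16' : 16 * m' ≤ d * t := by exact_mod_cast h16
    have h1 : d * (4 * Q + 16 + 8 * E) ≤ d * t := Nat.mul_le_mul_left d ht1'
    have h2 : 1 * (4 * Q + 16) ≤ d * (4 * Q + 16) := Nat.mul_le_mul_right _ hd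
    have h3 : d * (4 * Q + 16 + 8 * E) = d * (4 * Q + 16) + 8 * (d * E) := by ring
    have h4 : 2 * d * E = 2 * (d * E) := by ring
    rw [h4]
    omega
  · rw [← hB]
    have h1 : B * (2 * d * t) * 2 = t * (4 * d * B) := by ring
    have h2 : 1 ≤ B * (2 * d * t) := Nat.one_le_iff_ne_zero.2 (by positivity)
    omega
  · rw [← hℓ]
    calc Q * m' * ℓ = m' * (Q * ℓ) := by ring
      _ ≤ n := hm1
  · -- the exponent
    have hQ11 : ((2 * Q - 11 : ℕ) : ℝ) = 2 * Q - 11 := by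
      rw [Nat.cast_sub (by omega)]; push_cast; ring
    push_cast
    rw [hQ11]
    -- `m' Q ≤ n / (4 Q)`
    have a1 : (4 * (Q : ℝ)) * (m' * Q) ≤ n := by
      have h1 : 4 * (Q : ℝ) ≤ ℓ := by
        rw [hℓR]
        have : ((4 * Q + 16 + 8 * E : ℕ) : ℝ) ≤ t := by exact_mod_cast ht1'
        push_cast at this
        have h2 : (t : ℝ) ≤ 2 * d * t :=
          le_mul_of_one_le_left (by linarith only [htR]) (by linarith only [hdR])
        linarith only [this, h2, hER]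
      have h2 := mul_le_mul_of_nonneg_right h1 (by positivity : (0 : ℝ) ≤ m' * Q)
      linarith
    have a2 : (n : ℝ) < 2 * Q * (d * t * m') + m' * Q + Q * (2 * d * t) + Q := by
      refine hm2R.trans_le (le_of_eq ?_)
      rw [hℓR]; ring
    have a3 : (4 * (Q : ℝ)) * n < (4 * Q) * (2 * Q * (d * t * m')) + 3 * n := by
      have h1 := mul_lt_mul_of_pos_left a2 (by positivity : (0 : ℝ) < 4 * Q)
      linarith
    obtain ⟨Y, hY⟩ : ∃ Y : ℝ, Y = d * t * m' := ⟨_, rfl⟩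
    rw [← hY] at a3 ⊢
    -- multiply by `8 Q ^ 2`
    have hn0 : (0 : ℝ) < n := by linarith
    have b1 : (4 * (Q : ℝ) - 3) * n ≤ 8 * Q * Q * Y := by linarith
    have b2 : (2 * (Q : ℝ) - 11) * ((4 * (Q : ℝ) - 3) * n) ≤ (2 * (Q : ℝ) - 11) * (8 * Q * Q * Y) :=
      mul_le_mul_of_nonneg_left b1 (by linarith)
    have b3 : (1 - ε) * (8 * Q * Q) ≤ (2 * (Q : ℝ) - 11) * (4 * (Q : ℝ) - 3) := by
      have : (8 * (Q : ℝ)) * 7 ≤ (8 * (Q : ℝ)) * (ε * Q) :=
        mul_le_mul_of_nonneg_left hQε (by positivity)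
      linarith only [this, hQR]
    have b4 : ((1 - ε) * (8 * Q * Q)) * n ≤ ((2 * (Q : ℝ) - 11) * (4 * (Q : ℝ) - 3)) * n :=
      mul_le_mul_of_nonneg_right b3 hn0.le
    have b5 : ((1 - ε) * n) * (8 * Q * Q) ≤ ((2 * (Q : ℝ) - 11) * Y) * (8 * Q * Q) := by
      linarith
    exact le_of_mul_le_mul_right b5 (by positivity)

end H592R3
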