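import Mathlib
import Pool.Agent.H592R3.Defs
import Pool.Agent.H592R3.Param

/-!
The lower bound for CNF satisfiability.
-/

namespace H592R3

open Finset DomAC0 H568R2 SmallDepth

open Classical in
lemma correct_iff {J : Type} (R : RandCircuit J) (x : J → Bool) (p p' : Prop) (hp : p ↔ p')
    (h : R.Correct x p) : let _ := R.fin
    (2 : ℝ) / 3 ≤ ∑ ω, if ((R.circ ω).eval x = true ↔ p') then R.prob ω else 0 := by
  intro _
  unfold RandCircuit.Correct at h
  refine h.trans (le_of_eq ?_)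
  refine Finset.sum_congr rfl fun ω _ => if_congr ?_ rfl rfl
  rw [← hp]
  by_cases hq : p
  · simp [hq]
  · simp [hq]

section Red
variable {m n B ℓ M : ℕ}

/-- The literals of the clause of a constraint. -/
def LitP (s : Fin m → Fin B → Fin m) (e : (Fin m × Fin ℓ) ↪ Fin n)
    (dec : (Fin ℓ → Bool) ≃ Fin (2 ^ ℓ)) (v0 : Fin n)
    (X : (Fin m × (Fin B → Fin (2 ^ ℓ))) → Bool)
    (p : Fin m × (Fin B → Fin (2 ^ ℓ))) (l : Fin n × Bool) : Prop :=
  (X p = true ∧ l.1 = v0) ∨
    (X p = false ∧ ∃ k i, l = (e (s p.1 k, i), !(dec.symm (p.2 k) i)))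

/-- The literals of the clause of a variable. -/
def LitU (e : (Fin m × Fin ℓ) ↪ Fin n) (v0 u : Fin n) (l : Fin n × Bool) : Prop :=
  (u ∈ Set.range e ∧ l.1 = v0) ∨ (u ∉ Set.range e ∧ l = (u, false))

/-- The clause matrix of a constraint satisfaction instance. -/
noncomputable def cnfOf (s : Fin m → Fin B → Fin m) (e : (Fin m × Fin ℓ) ↪ Fin n)
    (dec : (Fin ℓ → Bool) ≃ Fin (2 ^ ℓ)) (v0 : Fin n)
    (π : Fin M → (Fin m × (Fin B → Fin (2 ^ ℓ))) ⊕ Fin n)
    (X : (Fin m × (Fin B → Fin (2 ^ ℓ))) → Bool) : Fin M × Fin n × Bool → Bool :=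
  open Classical in
  fun c => decide (Sum.elim (fun p => LitP s e dec v0 X p c.2) (fun u => LitU e v0 u c.2) (π c.1))

lemma cnfOf_junta (s : Fin m → Fin B → Fin m) (e : (Fin m × Fin ℓ) ↪ Fin n)
    (dec : (Fin ℓ → Bool) ≃ Fin (2 ^ ℓ)) (v0 : Fin n)
    (π : Fin M → (Fin m × (Fin B → Fin (2 ^ ℓ))) ⊕ Fin n) (c : Fin M × Fin n × Bool) :
    Junta 1 (fun X => cnfOf s e dec v0 π X c) := by
  have key : ∀ X Y : (Fin m × (Fin B → Fin (2 ^ ℓ))) → Bool,
      (Sum.elim (fun p => LitP s e dec v0 X p c.2) (fun u => LitU e v0 u c.2) (π c.1) ↔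
      Sum.elim (fun p => LitP s e dec v0 Y p c.2) (fun u => LitU e v0 u c.2) (π c.1)) →
      cnfOf s e dec v0 π X c = cnfOf s e dec v0 π Y c := by
    intro X Y h
    unfold cnfOf
    rw [decide_eq_decide]
    exact h
  cases h : π c.1 with
  | inl p =>
    refine ⟨{p}, by simp, fun X Y hXY => key X Y ?_⟩
    have := hXY p (by simp)
    rw [h]
    simp only [Sum.elim_inl, LitP, this]
  | inr u =>
    refine ⟨∅, by simp, fun X Y _ => key X Y ?_⟩
    rw [h]
    exact Iff.rfl

variable {s : Fin m → Fin B → Fin m} {e : (Fin m × Fin ℓ) ↪ Fin n}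
    {dec : (Fin ℓ → Bool) ≃ Fin (2 ^ ℓ)} {v0 : Fin n}
    {π : Fin M → (Fin m × (Fin B → Fin (2 ^ ℓ))) ⊕ Fin n}

lemma cnfOf_true {X : (Fin m × (Fin B → Fin (2 ^ ℓ))) → Bool} {c : Fin M} {l : Fin n × Bool} :
    cnfOf s e dec v0 π X (c, l) = true ↔
      Sum.elim (fun p => LitP s e dec v0 X p l) (fun u => LitU e v0 u l) (π c) := by
  unfold cnfOf
  exact @decide_eq_true_iff _ (Classical.propDecidable _)

lemma cnfOf_models (hπ : Function.Surjective π)
    (X : (Fin m × (Fin B → Fin (2 ^ ℓ))) → Bool) (α : Fin n → Bool) :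
    Models (cnfOf s e dec v0 π X) α ↔ (∀ v, v ∉ Set.range e → α v = false) ∧
      ∀ j, X (j, fun k => dec (fun i => α (e (s j k, i)))) = true := by
  constructor
  · intro h
    constructor
    · intro v hv
      obtain ⟨c, hc⟩ := hπ (Sum.inr v)
      obtain ⟨v', hv'⟩ := h c
      rw [cnfOf_true, hc] at hv'
      rcases hv' with ⟨h1, _⟩ | ⟨_, h2⟩
      · exact absurd h1 hv
      · have h3 := Prod.mk.inj h2
        rw [← h3.1]; exact h3.2
    · intro j
      by_contra hX
      obtain ⟨c, hc⟩ := hπ (Sum.inl (j, fun k => dec (fun i => α (e (s j k, i)))))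
      obtain ⟨v', hv'⟩ := h c
      rw [cnfOf_true, hc] at hv'
      rcases hv' with ⟨h1, _⟩ | ⟨_, k, i, h2⟩
      · exact hX h1
      · rw [Equiv.symm_apply_apply] at h2
        have h3 := Prod.mk.inj h2
        have h4 := h3.2
        rw [h3.1] at h4
        cases hb : α (e (s j k, i)) <;> rw [hb] at h4 <;> cases h4
  · rintro ⟨h1, h2⟩ c
    cases hc : π c with
    | inl p =>
      obtain ⟨j, τ⟩ := p
      cases hX : X (j, τ) with
      | true =>
        refine ⟨v0, ?_⟩
        rw [cnfOf_true, hc]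
        exact Or.inl ⟨hX, rfl⟩
      | false =>
        have hne : ∃ k, τ k ≠ dec (fun i => α (e (s j k, i))) := by
          by_contra hcon
          push Not at hcon
          have : τ = fun k => dec (fun i => α (e (s j k, i))) := funext hcon
          rw [this, h2 j] at hX
          cases hX
        obtain ⟨k, hk⟩ := hne
        have hne2 : ∃ i, dec.symm (τ k) i ≠ α (e (s j k, i)) := by
          by_contra hcon
          push Not at hcon
          apply hk
          rw [← funext hcon, Equiv.apply_symm_apply]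
        obtain ⟨i, hi⟩ := hne2
        refine ⟨e (s j k, i), ?_⟩
        rw [cnfOf_true, hc]
        refine Or.inr ⟨hX, k, i, ?_⟩
        refine Prod.ext rfl ?_
        show α (e (s j k, i)) = !(dec.symm (τ k) i)
        revert hi
        cases dec.symm (τ k) i <;> cases α (e (s j k, i)) <;> simp
    | inr u =>
      by_cases hu : u ∈ Set.range e
      · refine ⟨v0, ?_⟩
        rw [cnfOf_true, hc]
        exact Or.inl ⟨hu, rfl⟩
      · refine ⟨u, ?_⟩
        rw [cnfOf_true, hc]
        exact Or.inr ⟨hu, Prod.ext rfl (h1 u hu)⟩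

lemma cnfOf_sat (hπ : Function.Surjective π) (X : (Fin m × (Fin B → Fin (2 ^ ℓ))) → Bool) :
    (∃ α, Models (cnfOf s e dec v0 π X) α) ↔ Sat s X := by
  constructor
  · rintro ⟨α, hα⟩
    rw [cnfOf_models hπ] at hα
    exact ⟨fun v => dec (fun i => α (e (v, i))), hα.2⟩
  · rintro ⟨a, ha⟩
    refine ⟨Function.extend e (fun p => dec.symm (a p.1) p.2) (fun _ => false), ?_⟩
    rw [cnfOf_models hπ]
    constructor
    · intro v hv
      rw [Function.extend_apply']
      rintro ⟨p, hp⟩
      exact hv ⟨p, hp⟩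
    · intro j
      have : (fun k => dec (fun i => Function.extend e
          (fun p : Fin m × Fin ℓ => dec.symm (a p.1) p.2) (fun _ => false) (e (s j k, i)))) =
          fun k => a (s j k) := by
        funext k
        have h2 : (fun i => Function.extend e
          (fun p : Fin m × Fin ℓ => dec.symm (a p.1) p.2) (fun _ => false) (e (s j k, i))) =
            dec.symm (a (s j k)) := by
          funext i
          rw [e.injective.extend_apply]
        rw [h2, Equiv.apply_symm_apply]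
      rw [this]
      exact ha j

lemma cnfOf_unique (hπ : Function.Surjective π) (X : (Fin m × (Fin B → Fin (2 ^ ℓ))) → Bool)
    (hX : AtMostOne s X) (α β : Fin n → Bool) (hα : Models (cnfOf s e dec v0 π X) α)
    (hβ : Models (cnfOf s e dec v0 π X) β) : α = β := by
  rw [cnfOf_models hπ] at hα hβ
  have h1 := hX (fun v => dec (fun i => α (e (v, i)))) (fun v => dec (fun i => β (e (v, i))))
    hα.2 hβ.2
  funext v
  by_cases hv : v ∈ Set.range e
  · obtain ⟨⟨u, i⟩, rfl⟩ := hv
    have h2 := congrFun h1 u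
    have h3 := dec.injective h2
    exact congrFun h3 i
  · rw [hα.1 v hv, hβ.1 v hv]

lemma cnfOf_width {w : ℕ} (hw : B * ℓ ≤ w) (hw2 : 2 ≤ w)
    (X : (Fin m × (Fin B → Fin (2 ^ ℓ))) → Bool) : WidthLe (cnfOf s e dec v0 π X) w := by
  classical
  intro c
  have htaut : (({v0} : Finset (Fin n)) ×ˢ (univ : Finset Bool)).card ≤ w := by
    rw [Finset.card_product]; simpa using hw2
  simp only [cnfOf_true]
  cases hc : π c with
  | inl p =>
    cases hX : X p with
    | true =>
      refine le_trans (Finset.card_le_card ?_) htaut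
      intro l hl
      rw [Finset.mem_filter] at hl
      rw [Finset.mem_product, Finset.mem_singleton]
      rcases hl.2 with ⟨_, h⟩ | ⟨h, _⟩
      · exact ⟨h, Finset.mem_univ _⟩
      · rw [hX] at h; cases h
    | false =>
      have : (univ.filter (fun l : Fin n × Bool => Sum.elim (fun p => LitP s e dec v0 X p l)
          (fun u => LitU e v0 u l) (Sum.inl p))) ⊆
          (univ : Finset (Fin B × Fin ℓ)).image (fun q => (e (s p.1 q.1, q.2),
            !(dec.symm (p.2 q.1) q.2))) := by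
        intro l hl
        rw [Finset.mem_filter] at hl
        rcases hl.2 with ⟨h, _⟩ | ⟨_, k, i, h⟩
        · rw [hX] at h; cases h
        · rw [Finset.mem_image]
          exact ⟨(k, i), Finset.mem_univ _, h.symm⟩
      refine (Finset.card_le_card this).trans (Finset.card_image_le.trans ?_)
      rw [Finset.card_univ, Fintype.card_prod, Fintype.card_fin, Fintype.card_fin]
      exact hw
  | inr u =>
    by_cases hu : u ∈ Set.range e
    · refine le_trans (Finset.card_le_card ?_) htaut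
      intro l hl
      rw [Finset.mem_filter] at hl
      rw [Finset.mem_product, Finset.mem_singleton]
      rcases hl.2 with ⟨_, h⟩ | ⟨h, _⟩
      · exact ⟨h, Finset.mem_univ _⟩
      · exact absurd hu h
    · have : (univ.filter (fun l : Fin n × Bool => Sum.elim (fun p => LitP s e dec v0 X p l)
          (fun u => LitU e v0 u l) (Sum.inr u))) ⊆ ({(u, false)} : Finset (Fin n × Bool)) := by
        intro l hl
        rw [Finset.mem_filter] at hl
        rw [Finset.mem_singleton]
        rcases hl.2 with ⟨h, _⟩ | ⟨_, h⟩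
        · exact absurd h hu
        · exact h
      refine (Finset.card_le_card this).trans ?_
      rw [Finset.card_singleton]
      omega

end Red

/-- The lower bound for CNF satisfiability. -/
theorem cnf_lower (ε : ℝ) (hε : 0 < ε) : ∃ C : ℝ, 0 < C ∧ ∀ n d w M S : ℕ, 1 ≤ n → 1 ≤ d →
    C * (√(n : ℝ) + d * Real.log n) ≤ w → w ≤ n → n * 2 ^ w ≤ M →
    ∀ R : RandCircuit (Fin M × Fin n × Bool), R.Bounded d S →
    (∀ x : Fin M × Fin n × Bool → Bool, WidthLe x w →
      (∀ α β, Models x α → Models x β → α = β) → R.Correct x (∃ α, Models x α)) →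
    (2 : ℝ) ^ ((1 - ε) * n) < S := by
  classical
  obtain ⟨Q, hQ6, _, C, hC, hpar⟩ := params ε hε
  refine ⟨C, hC, ?_⟩
  intro n d w M S hn hd hw hwn hM R hR hcor
  obtain ⟨t, m', ht, hm', hA, hB, hBw, hQn, hexp⟩ := hpar n d w hn hd hw hwn
  obtain ⟨s, hs, hsexp⟩ := scopes Q m' (by omega) (by omega)
  have hdt : 1 ≤ d * t := Nat.one_le_iff_ne_zero.2 (by positivity)
  have hℓ2 : 2 ≤ 2 * d * t := by
    have : 2 * d * t = 2 * (d * t) := by ring
    omega
  -- encoding of the variables
  have hcard1 : Q * m' * (2 * d * t) ≤ n := by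
    refine le_trans ?_ hQn
    exact Nat.mul_le_mul_left _ (by omega)
  obtain ⟨e⟩ : Nonempty ((Fin (Q * m') × Fin (2 * d * t)) ↪ Fin n) := by
    apply Function.Embedding.nonempty_of_card_le
    rw [Fintype.card_prod, Fintype.card_fin, Fintype.card_fin, Fintype.card_fin]
    exact hcard1
  obtain ⟨dec⟩ : Nonempty ((Fin (2 * d * t) → Bool) ≃ Fin (2 ^ (2 * d * t))) :=
    ⟨Fintype.equivFinOfCardEq (by simp)⟩
  have hn0 : 0 < n := hn
  have hB1 : 2 ≤ (2 * Q ^ 2 + 1) * (2 * d * t) := by
    calc 2 ≤ 2 * d * t := hℓ2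
      _ = 1 * (2 * d * t) := (one_mul _).symm
      _ ≤ _ := Nat.mul_le_mul_right _ (by omega)
  -- encoding of the clauses
  have hcard2 : Q * m' * (2 ^ (2 * d * t)) ^ (2 * Q ^ 2 + 1) + n ≤ M := by
    refine le_trans ?_ hM
    have h1 : (2 ^ (2 * d * t)) ^ (2 * Q ^ 2 + 1) ≤ 2 ^ w := by
      rw [← pow_mul]
      apply Nat.pow_le_pow_right (by norm_num)
      rw [mul_comm]; omega
    have h2 : 2 * (Q * m') ≤ n := by
      refine le_trans ?_ hcard1
      rw [mul_comm]
      exact Nat.mul_le_mul_left _ hℓ2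
    have h3 : 2 ≤ 2 ^ w := by
      calc 2 = 2 ^ 1 := (pow_one 2).symm
        _ ≤ 2 ^ w := Nat.pow_le_pow_right (by norm_num) (by omega)
    have h4 : 2 * (Q * m' * (2 ^ (2 * d * t)) ^ (2 * Q ^ 2 + 1)) ≤ n * 2 ^ w := by
      calc 2 * (Q * m' * (2 ^ (2 * d * t)) ^ (2 * Q ^ 2 + 1)) =
          (2 * (Q * m')) * (2 ^ (2 * d * t)) ^ (2 * Q ^ 2 + 1) := by ring
        _ ≤ n * 2 ^ w := Nat.mul_le_mul h2 h1
    have h5 : 2 * n ≤ n * 2 ^ w := by
      rw [mul_comm]; exact Nat.mul_le_mul_left _ h3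
    omega
  obtain ⟨π, hπ⟩ : ∃ π : Fin M → (Fin (Q * m') × (Fin (2 * Q ^ 2 + 1) →
      Fin (2 ^ (2 * d * t)))) ⊕ Fin n, Function.Surjective π := by
    have : Nonempty ((Fin (Q * m') × (Fin (2 * Q ^ 2 + 1) →
      Fin (2 ^ (2 * d * t)))) ⊕ Fin n) := ⟨Sum.inr ⟨0, hn0⟩⟩
    obtain ⟨g⟩ : Nonempty (((Fin (Q * m') × (Fin (2 * Q ^ 2 + 1) →
      Fin (2 ^ (2 * d * t)))) ⊕ Fin n) ↪ Fin M) := by
      apply Function.Embedding.nonempty_of_card_le
      rw [Fintype.card_sum, Fintype.card_prod, Fintype.card_fun, Fintype.card_fin,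
        Fintype.card_fin, Fintype.card_fin, Fintype.card_fin, Fintype.card_fin]
      exact hcard2
    exact ⟨Function.invFun g, Function.invFun_surjective g.injective⟩
  let _ := R.fin
  have hlow := csp_lower Q d m' t hQ6 hd hm' hA hB s hs hsexp R.prob R.nonneg R.total R.circ
    (fun X => cnfOf s e dec ⟨0, hn0⟩ π X) (cnfOf_junta s e dec ⟨0, hn0⟩ π)
    (fun ω => (hR ω).1) (S := S) (fun ω => (hR ω).2) (by
      intro X hX
      exact correct_iff R _ _ _ (cnfOf_sat hπ X) (hcor (cnfOf s e dec ⟨0, hn0⟩ π X)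
        (cnfOf_width (by omega) (by omega) X) (cnfOf_unique hπ X hX)))
  have hSR : ((2 ^ ((2 * Q - 11) * (d * t * m')) : ℕ) : ℝ) < S := by exact_mod_cast hlow
  refine lt_of_le_of_lt ?_ hSR
  push_cast
  rw [← Real.rpow_natCast]
  exact Real.rpow_le_rpow_of_exponent_le (by norm_num) hexp

end H592R3
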