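import Mathlib
import Pool.Agent.H592R3.MobMoment
import Pool.Agent.H592R3.GameDefs

/-!
Public-coin interactive proofs for unsatisfiability of planted constraint satisfaction problems.
-/

set_option linter.unusedSectionVars false

namespace H592R3.Mb2

open Finset DomAC0 H568R2 SmallDepth

section Am
variable {m n r : ℕ} {J : Type}

/-- The value of the game with payoff `cntS`. -/
noncomputable def ms (s : Fin m → Fin r → Fin m)
    (σ : ((Fin m × (Fin r → Fin n)) → Bool) → (J → Bool)) :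
    Game J → ((Fin m × (Fin r → Fin n)) → Bool) → ℝ
  | .verify C, X => cntS s σ C X
  | .merlin _ next, X => ⨆ z, ms s σ (next z) X
  | .arthur _ p next, X => ∑ i, p i * ms s σ (next i) X

lemma exists_sup {k : ℕ} (f : Fin (2 ^ k) → ℝ) : ∃ z, f z = ⨆ z, f z := by
  have : Nonempty (Fin (2 ^ k)) := ⟨⟨0, by positivity⟩⟩
  exact exists_eq_ciSup_of_finite

lemma le_sup {k : ℕ} (f : Fin (2 ^ k) → ℝ) (z) : f z ≤ ⨆ z, f z :=
  le_ciSup (Set.finite_range f).bddAbove z

lemma ms_nonneg (s : Fin m → Fin r → Fin m)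
    (σ : ((Fin m × (Fin r → Fin n)) → Bool) → (J → Bool)) {d S : ℕ}
    (X : (Fin m × (Fin r → Fin n)) → Bool) :
    ∀ (G : Game J) (g : ℕ), G.Bounded d S g → 0 ≤ ms s σ G X := by
  intro G
  induction G with
  | verify C => intro g _; exact cntS_nonneg s σ C X
  | merlin k next ih =>
    intro g hG
    obtain ⟨z, hz⟩ := exists_sup (fun z => ms s σ (next z) X)
    show 0 ≤ ⨆ z, ms s σ (next z) X
    rw [← hz]
    exact ih z _ (hG.2 z)
  | arthur N p next ih =>
    intro g hG
    exact Finset.sum_nonneg fun i _ => mul_nonneg (hG.1 i) (ih i _ (hG.2.2 i))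

/-- The gain of the game is bounded by the number of sensitive instances. -/
lemma game_diff (s : Fin m → Fin r → Fin m)
    (σ : ((Fin m × (Fin r → Fin n)) → Bool) → (J → Bool)) {d S : ℕ}
    (X : (Fin m × (Fin r → Fin n)) → Bool) (u : (Fin m → Fin n) → ℝ)
    (hu0 : ∀ a, 0 ≤ u a) (hu1 : ∀ a, u a ≤ 1) :
    ∀ (G : Game J) (g : ℕ), G.Bounded d S g →
    ∑ a : Fin m → Fin n, u a * (G.value (σ X) - G.value (σ (plant (vr s a) univ X))) ≤
      ms s σ G X := by
  classical
  intro G
  induction G with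
  | verify C =>
    intro g _
    show _ ≤ cntS s σ C X
    unfold cntS
    refine Finset.sum_le_sum fun a _ => ?_
    by_cases hs : C.eval (σ X) ≠ C.eval (σ (plant (vr s a) univ X))
    · rw [if_pos hs]
      have h1 : (Game.verify C).value (σ X) - (Game.verify C).value (σ (plant (vr s a) univ X))
          ≤ 1 := by
        simp only [Game.value]
        split_ifs <;> norm_num
      have h2 := hu0 a
      have h3 := hu1 a
      nlinarith
    · rw [if_neg hs]
      rw [not_not] at hs
      have h5 : (Game.verify C).value (σ X) - (Game.verify C).value (σ (plant (vr s a) univ X))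
          = 0 := by
        simp only [Game.value]
        rw [hs, sub_self]
      rw [h5, mul_zero]
  | merlin k next ih =>
    intro g hG
    obtain ⟨z, hz⟩ := exists_sup (fun z => (next z).value (σ X))
    have h1 := ih z _ (hG.2 z)
    have h2 := le_sup (fun z => ms s σ (next z) X) z
    refine le_trans ?_ (h1.trans h2)
    refine Finset.sum_le_sum fun a _ => mul_le_mul_of_nonneg_left ?_ (hu0 a)
    have h3 := le_sup (fun z => (next z).value (σ (plant (vr s a) univ X))) z
    have h4 : (Game.merlin k next).value (σ X) = (next z).value (σ X) := hz.symm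
    have h5 : (next z).value (σ (plant (vr s a) univ X)) ≤
      (Game.merlin k next).value (σ (plant (vr s a) univ X)) := h3
    rw [h4]
    linarith
  | arthur N p next ih =>
    intro g hG
    have h1 : ∑ a : Fin m → Fin n, u a * ((Game.arthur N p next).value (σ X) -
        (Game.arthur N p next).value (σ (plant (vr s a) univ X))) =
        ∑ i, p i * ∑ a : Fin m → Fin n, u a * ((next i).value (σ X) -
        (next i).value (σ (plant (vr s a) univ X))) := by
      simp only [Game.value]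
      simp only [Finset.mul_sum]
      rw [Finset.sum_comm]
      refine Finset.sum_congr rfl fun a _ => ?_
      rw [← Finset.sum_sub_distrib, Finset.mul_sum]
      refine Finset.sum_congr rfl fun i _ => by ring
    rw [h1]
    show _ ≤ ∑ i, p i * ms s σ (next i) X
    exact Finset.sum_le_sum fun i _ => mul_le_mul_of_nonneg_left (ih i _ (hG.2.2 i)) (hG.1 i)

/-- The moments of the game value. -/
lemma game_moment (s : Fin m → Fin r → Fin m)
    (σ : ((Fin m × (Fin r → Fin n)) → Bool) → (J → Bool)) {d S t : ℕ}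
    {p : ℝ} (hp0 : 0 ≤ p) (hp1 : p ≤ 1) {R : ℝ} (hR0 : 0 ≤ R)
    (hR : ∀ C : Circuit J, C.depth ≤ d → C.size ≤ S →
      Ex (vp p) (fun X => (cntS s σ C X) ^ t) ≤ R) :
    ∀ (G : Game J) (g : ℕ), G.Bounded d S g →
    Ex (vp p) (fun X => (ms s σ G X) ^ t) ≤ 2 ^ g * R := by
  intro G
  induction G with
  | verify C =>
    intro g hG
    refine (hR C hG.1 hG.2).trans ?_
    have : (1 : ℝ) ≤ 2 ^ g := one_le_pow₀ (by norm_num)
    nlinarith
  | merlin k next ih =>
    intro g hG
    have h1 : ∀ X, (ms s σ (Game.merlin k next) X) ^ t ≤ ∑ z, (ms s σ (next z) X) ^ t := by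
      intro X
      obtain ⟨z, hz⟩ := exists_sup (fun z => ms s σ (next z) X)
      have h2 : ms s σ (Game.merlin k next) X = ms s σ (next z) X := hz.symm
      rw [h2]
      exact Finset.single_le_sum (f := fun z => (ms s σ (next z) X) ^ t)
        (fun z _ => pow_nonneg (ms_nonneg s σ X (next z) _ (hG.2 z)) t) (Finset.mem_univ z)
    refine (Ex_mono (vp_nonneg hp0 hp1) h1).trans ?_
    rw [Ex_sum]
    have h3 : ∀ z ∈ (univ : Finset (Fin (2 ^ k))),
        Ex (vp p) (fun X => (ms s σ (next z) X) ^ t) ≤ 2 ^ (g - k) * R := fun z _ =>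
      ih z _ (hG.2 z)
    refine (Finset.sum_le_card_nsmul _ _ _ h3).trans ?_
    rw [Finset.card_univ, Fintype.card_fin, nsmul_eq_mul, ← mul_assoc]
    push_cast
    rw [← pow_add]
    have : k + (g - k) = g := by have := hG.1; omega
    rw [this]
  | arthur N p' next ih =>
    intro g hG
    have h1 : ∀ X, (ms s σ (Game.arthur N p' next) X) ^ t ≤
        ∑ i, p' i * (ms s σ (next i) X) ^ t := by
      intro X
      exact Real.pow_arith_mean_le_arith_mean_pow univ p' (fun i => ms s σ (next i) X)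
        (fun i _ => hG.1 i) hG.2.1 (fun i _ => ms_nonneg s σ X (next i) _ (hG.2.2 i)) t
    refine (Ex_mono (vp_nonneg hp0 hp1) h1).trans ?_
    rw [Ex_sum]
    calc ∑ i, Ex (vp p) (fun X => p' i * (ms s σ (next i) X) ^ t)
        ≤ ∑ i, p' i * (2 ^ g * R) := by
          refine Finset.sum_le_sum fun i _ => ?_
          rw [Ex_smul]
          exact mul_le_mul_of_nonneg_left (ih i _ (hG.2.2 i)) (hG.1 i)
      _ = 2 ^ g * R := by rw [← Finset.sum_mul, hG.2.1, one_mul]

lemma Ex_pow {I : Type*} [Fintype I] [DecidableEq I] {p : ℝ} (hp0 : 0 ≤ p) (hp1 : p ≤ 1)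
    (F : (I → Bool) → ℝ) (hF : ∀ X, 0 ≤ F X) (t : ℕ) :
    (Ex (vp p) F) ^ t ≤ Ex (vp p) (fun X => F X ^ t) := by
  unfold Ex
  apply Real.pow_arith_mean_le_arith_mean_pow univ (fun X : I → Bool => ∏ i, vp p (X i)) F
    (fun X _ => Finset.prod_nonneg fun i _ => vp_nonneg hp0 hp1 _) _ (fun X _ => hF X) t
  have := Ex_const (I := I) (vp_sum p) (1 : ℝ)
  unfold Ex at this
  simpa using this

open Classical in
lemma game_pt (hm : 1 ≤ m) (s : Fin m → Fin (r + 1) → Fin m)
    (G : Game J) (σ : ((Fin m × (Fin (r + 1) → Fin n)) → Bool) → (J → Bool)) {d S g : ℕ}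
    (hG : G.Bounded d S g)
    (hyes : ∀ X, ¬ Sat s X → 2 / 3 ≤ G.value (σ X))
    (hno : ∀ X, AtMostOne s X → Sat s X → G.value (σ X) ≤ 1 / 3)
    (X : (Fin m × (Fin (r + 1) → Fin n)) → Bool) :
    ∑ a : Fin m → Fin n, (1 / 3) * (1 - (if ¬ Uniq s a X then (1 : ℝ) else 0)) ≤
      ms s σ G X := by
  have h1 := game_diff s σ (d := d) (S := S) X
    (fun a => 1 - (if ¬ Uniq s a X then (1 : ℝ) else 0))
    (fun a => by split_ifs <;> norm_num)
    (fun a => by split_ifs <;> norm_num) G g hG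
  refine le_trans (Finset.sum_le_sum fun a _ => ?_) h1
  by_cases hU : Uniq s a X
  · simp only [hU, not_true, if_false, sub_zero, mul_one, one_mul]
    have h2 : ¬ Sat s X := by
      have h4 : plant (vr s a) (∅ : Finset (Fin m)) X = X := by
        funext i
        unfold plant
        simp
      rw [← h4, uniq_sat hU]
      intro h5
      have h6 : (⟨0, by omega⟩ : Fin m) ∈ (univ : Finset (Fin m)) := Finset.mem_univ _
      rw [← h5] at h6
      simp at h6
    have h3 := hyes X h2
    have h4 := hno _ (uniq_atMostOne hU univ) ((uniq_sat hU univ).2 rfl)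
    linarith
  · simp only [hU, not_false_iff, if_true, sub_self, mul_zero, zero_mul, le_refl]

open Classical in
lemma rand_pt (hm : 1 ≤ m) (s : Fin m → Fin (r + 1) → Fin m) {N : ℕ}
    (p : Fin N → ℝ) (hp0 : ∀ i, 0 ≤ p i) (hp1 : ∑ i, p i = 1) (C : Fin N → Circuit J)
    (σ : ((Fin m × (Fin (r + 1) → Fin n)) → Bool) → (J → Bool))
    (hcor : ∀ X, AtMostOne s X →
      (2 : ℝ) / 3 ≤ ∑ i, if ((C i).eval (σ X) = true ↔ Sat s X) then p i else 0)
    (X : (Fin m × (Fin (r + 1) → Fin n)) → Bool) :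
    ∑ a : Fin m → Fin n, (1 / 3) * (1 - (if ¬ Uniq s a X then (1 : ℝ) else 0)) ≤
      ms s σ (Game.arthur N p (fun i => .verify (C i))) X := by
  show _ ≤ ∑ i, p i * cntS s σ (C i) X
  unfold cntS
  simp only [Finset.mul_sum]
  rw [Finset.sum_comm]
  refine Finset.sum_le_sum fun a _ => ?_
  have hnn : ∀ i ∈ (univ : Finset (Fin N)), (0 : ℝ) ≤ p i *
      (if (C i).eval (σ X) ≠ (C i).eval (σ (plant (vr s a) univ X)) then (1 : ℝ) else 0) := by
    intro i _
    apply mul_nonneg (hp0 i)
    split_ifs <;> norm_num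
  by_cases hU : Uniq s a X
  · simp only [hU, not_true, if_false, sub_zero, mul_one]
    have h4 : plant (vr s a) (∅ : Finset (Fin m)) X = X := by
      funext i
      unfold plant
      simp
    have h2 : ¬ Sat s X := by
      rw [← h4, uniq_sat hU]
      intro h5
      have h6 : (⟨0, by omega⟩ : Fin m) ∈ (univ : Finset (Fin m)) := Finset.mem_univ _
      rw [← h5] at h6
      simp at h6
    have h3 : Sat s (plant (vr s a) univ X) := (uniq_sat hU univ).2 rfl
    have hA : AtMostOne s X := by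
      have := uniq_atMostOne hU ∅
      rwa [h4] at this
    have e1 := hcor X hA
    have e2 := hcor _ (uniq_atMostOne hU univ)
    simp only [h2, h3, iff_false, iff_true] at e1 e2
    have h5 : ∑ i, (if ¬ (C i).eval (σ X) = true then p i else 0) +
        ∑ i, (if (C i).eval (σ (plant (vr s a) univ X)) = true then p i else 0) ≤
        ∑ i, (p i + p i *
          (if (C i).eval (σ X) ≠ (C i).eval (σ (plant (vr s a) univ X)) then (1 : ℝ) else 0)) := by
      rw [← Finset.sum_add_distrib]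
      refine Finset.sum_le_sum fun i _ => ?_
      have hpi := hp0 i
      by_cases c1 : (C i).eval (σ X) = true
      · by_cases c2 : (C i).eval (σ (plant (vr s a) univ X)) = true
        · rw [if_neg (not_not.2 c1), if_pos c2, c1, c2]; simp
        · rw [if_neg (not_not.2 c1), if_neg c2]
          have : 0 ≤ p i * (if (C i).eval (σ X) ≠ (C i).eval (σ (plant (vr s a) univ X))
            then (1 : ℝ) else 0) := hnn i (Finset.mem_univ i)
          linarith
      · by_cases c2 : (C i).eval (σ (plant (vr s a) univ X)) = true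
        · rw [if_pos c1, if_pos c2, if_pos (by rw [c2]; exact c1)]
          linarith
        · rw [if_pos c1, if_neg c2]
          have : 0 ≤ p i * (if (C i).eval (σ X) ≠ (C i).eval (σ (plant (vr s a) univ X))
            then (1 : ℝ) else 0) := hnn i (Finset.mem_univ i)
          linarith
    rw [Finset.sum_add_distrib, hp1] at h5
    linarith
  · simp only [hU, not_false_iff, if_true, sub_self, mul_zero]
    exact Finset.sum_nonneg hnn

open Classical in
theorem game_core [Fintype J] (hn : 1 ≤ n) (hm : 1 ≤ m) (s : Fin m → Fin (r + 1) → Fin m)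
    (hs : ∀ i, s i 0 = i)
    (G : Game J) (σ : ((Fin m × (Fin (r + 1) → Fin n)) → Bool) → (J → Bool))
    (hσ : ∀ j, Junta 1 (fun x => σ x j)) {h : ℕ} (hh : 1 ≤ h) {d τ : ℕ} (hτ : 3 ≤ τ)
    {S g : ℕ} (hG : G.Bounded d S g) {L u : ℕ} (hL : 2 ≤ L)
    (hexp : ∀ H : Finset (Fin m), L ≤ H.card → m - (touched s H).card ≤ u)
    {y q c ε : ℝ} (hy0 : 0 < y) (hy1 : y ≤ 1) (hq : q = (1 / (τ : ℝ)) ^ d)
    (hcyq : 2 ≤ c * (y * q)) (hc : 1 ≤ c)
    (hε : d * ((S * (Fintype.card J + S + 1) : ℕ) : ℝ) *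
      (12 * h * (1 / (τ : ℝ))) ^ (h + 1) ≤ ε) {Bs : ℝ}
    (hBs : ∑ H ∈ univ.filter (fun H : Finset (Fin m) => 1 ≤ H.card ∧ H.card < L),
      c ^ H.card * (((2 * h) ^ H.card *
        (H.card ^ H.card * n ^ (m - (touched s H).card)) : ℕ) : ℝ) ≤ Bs)
    (hBN : S * 2 ^ m * (c ^ (2 * L) * (2 ^ h * (ctc h L n u : ℝ))) + Bs ≤ (n : ℝ) ^ m) (t : ℕ)
    (hbad : m * (y / 2) + ((1 + n * (y / 2)) ^ m - 1) ≤ 1 / 2)
    (hpt : ∀ X : (Fin m × (Fin (r + 1) → Fin n)) → Bool,
      ∑ a : Fin m → Fin n, (1 / 3) * (1 - (if ¬ Uniq s a X then (1 : ℝ) else 0)) ≤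
        ms s σ G X) :
    ((n : ℝ) ^ m / 6) ^ t ≤
    2 ^ g * ((S * 2 ^ m * (c ^ (2 * L) * (2 ^ h * (ctc h L n u : ℝ))) + Bs) ^ t +
      t * ((n : ℝ) ^ m) ^ t * ((S * ((Fintype.card J + S + 1 : ℕ) : ℝ) + 1) * 2 ^ m *
        c ^ (2 * L)) * ε) := by
  have hp0 : 0 ≤ y / 2 := by linarith
  have hp1 : y / 2 ≤ 1 := by linarith
  have hε0 : 0 ≤ ε := le_trans (by positivity) hε
  have hc0 : 0 ≤ c := by linarith
  have hBs0 : 0 ≤ Bs := le_trans (Finset.sum_nonneg fun H _ => by positivity) hBs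
  have hmom := game_moment s σ hp0 hp1 (d := d) (S := S)
    (t := t) (R := (S * 2 ^ m * (c ^ (2 * L) * (2 ^ h * (ctc h L n u : ℝ))) + Bs) ^ t +
      t * ((n : ℝ) ^ m) ^ t * ((S * ((Fintype.card J + S + 1 : ℕ) : ℝ) + 1) * 2 ^ m *
        c ^ (2 * L)) * ε) (by positivity) (by
      intro C hC1 hC2
      exact circ_moment hn s C σ hσ hh hτ hC1 hC2 hL hexp hy0 hy1 hq hcyq hc hε hBs hBN t)
    G g hG
  refine le_trans ?_ hmom
  -- lower bound
  have hnn : ∀ X : (Fin m × (Fin (r + 1) → Fin n)) → Bool,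
      0 ≤ ∑ a : Fin m → Fin n, (1 / 3) * (1 - (if ¬ Uniq s a X then (1 : ℝ) else 0)) := by
    intro X
    refine Finset.sum_nonneg fun a _ => ?_
    split_ifs <;> norm_num
  have h1 := Ex_pow hp0 hp1 _ hnn t
  refine le_trans ?_ (h1.trans (Ex_mono (vp_nonneg hp0 hp1) fun X =>
    pow_le_pow_left₀ (hnn X) (hpt X) t))
  apply pow_le_pow_left₀ (by positivity)
  rw [Ex_sum]
  have h2 : ∀ a ∈ (univ : Finset (Fin m → Fin n)), (1 : ℝ) / 6 ≤ Ex (vp (y / 2))
      (fun X => (1 / 3) * (1 - (if ¬ Uniq s a X then (1 : ℝ) else 0))) := by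
    intro a _
    rw [Ex_smul]
    have h3 : Ex (vp (y / 2)) (fun X : (Fin m × (Fin (r + 1) → Fin n)) → Bool =>
        1 - (if ¬ Uniq s a X then (1 : ℝ) else 0)) =
        1 + (-1) * Ex (vp (y / 2)) (fun X : (Fin m × (Fin (r + 1) → Fin n)) → Bool =>
          (if ¬ Uniq s a X then (1 : ℝ) else 0)) := by
      rw [← Ex_smul]
      have h4 := Ex_add (vp (y / 2)) (fun _ : (Fin m × (Fin (r + 1) → Fin n)) → Bool => (1 : ℝ))
        (fun X => (-1) * (if ¬ Uniq s a X then (1 : ℝ) else 0))
      rw [Ex_const (vp_sum (y / 2))] at h4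
      rw [← h4]
      congr 1
      funext X
      ring
    rw [h3]
    have h5 := uniq_prob (n := n) hs a hp0 hp1
    linarith
  have h6 := Finset.card_nsmul_le_sum _ _ _ h2
  rw [Finset.card_univ, Fintype.card_fun, Fintype.card_fin, Fintype.card_fin, nsmul_eq_mul] at h6
  push_cast at h6
  linarith

end Am

end H592R3.Mb2
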