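import Mathlib
import Pool.Agent.H592R3.Mom3
import Pool.Agent.H592R3.MobCore

/-!
Public-coin interactive proofs for unsatisfiability of planted constraint satisfaction problems
(version with common decision trees).
-/

set_option linter.unusedSectionVars false

namespace H592R3.Mb3

open Finset DomAC0 H568R2 SmallDepth H592R3.Mb2

section Am
variable {m n r : ℕ} {J : Type}

open Classical in
theorem game_core [Fintype J] (hn : 1 ≤ n) (hm : 1 ≤ m) (s : Fin m → Fin (r + 1) → Fin m)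
    (hs : ∀ i, s i 0 = i)
    (G : Game J) (σ : ((Fin m × (Fin (r + 1) → Fin n)) → Bool) → (J → Bool))
    (hσ : ∀ j, Junta 1 (fun x => σ x j)) {h : ℕ} (hh : 1 ≤ h) {d τ : ℕ} (hτ : 3 ≤ τ)
    {S g : ℕ} (hG : G.Bounded d S g) {L u l : ℕ} (hL : 2 ≤ L) (hl : 1 ≤ l)
    (hlen : Fintype.card J + S + 2 ≤ 2 ^ l)
    (hexp : ∀ H : Finset (Fin m), L ≤ H.card → m - (touched s H).card ≤ u)
    {y q c ε : ℝ} (hy0 : 0 < y) (hy1 : y ≤ 1) (hq : q = (1 / (τ : ℝ)) ^ d)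
    (hcyq : 2 ≤ c * (y * q)) (hc : 1 ≤ c)
    (hε : d * ((S * (Fintype.card J + S + 1) : ℕ) : ℝ) *
      (12 * h * (1 / (τ : ℝ))) ^ (h + 1) ≤ ε) {Bs : ℝ}
    (hBs : ∑ H ∈ univ.filter (fun H : Finset (Fin m) => 1 ≤ H.card ∧ H.card < L),
      c ^ H.card * (((2 * h) ^ H.card *
        (H.card ^ H.card * n ^ (m - (touched s H).card)) : ℕ) : ℝ) ≤ Bs)
    (hBN : S * 2 ^ m * (c ^ (2 * L) * (ctc (h * l) L n u : ℝ)) + Bs ≤ (n : ℝ) ^ m) (t : ℕ)
    (hbad : m * (y / 2) + ((1 + n * (y / 2)) ^ m - 1) ≤ 1 / 2)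
    (hpt : ∀ X : (Fin m × (Fin (r + 1) → Fin n)) → Bool,
      ∑ a : Fin m → Fin n, (1 / 3) * (1 - (if ¬ Uniq s a X then (1 : ℝ) else 0)) ≤
        ms s σ G X) :
    ((n : ℝ) ^ m / 6) ^ t ≤
    2 ^ g * ((S * 2 ^ m * (c ^ (2 * L) * (ctc (h * l) L n u : ℝ)) + Bs) ^ t +
      t * ((n : ℝ) ^ m) ^ t * (((S : ℝ) + 1) * 2 ^ m *
        c ^ (2 * L)) * ε) := by
  have hp0 : 0 ≤ y / 2 := by linarith
  have hp1 : y / 2 ≤ 1 := by linarith
  have hε0 : 0 ≤ ε := le_trans (by positivity) hε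
  have hc0 : 0 ≤ c := by linarith
  have hBs0 : 0 ≤ Bs := le_trans (Finset.sum_nonneg fun H _ => by positivity) hBs
  have hmom := game_moment s σ hp0 hp1 (d := d) (S := S)
    (t := t) (R := (S * 2 ^ m * (c ^ (2 * L) * (ctc (h * l) L n u : ℝ)) + Bs) ^ t +
      t * ((n : ℝ) ^ m) ^ t * (((S : ℝ) + 1) * 2 ^ m *
        c ^ (2 * L)) * ε) (by positivity) (by
      intro C hC1 hC2
      exact circ_moment hn s C σ hσ hh hτ hC1 hC2 hL hl hlen hexp hy0 hy1 hq hcyq hc hε hBs hBN t)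
    G g hG
  refine le_trans ?_ hmom
  -- lower bound
  have hnn : ∀ X : (Fin m × (Fin (r + 1) → Fin n)) → Bool,
      0 ≤ ∑ a : Fin m → Fin n, (1 / 3) * (1 - (if ¬ Uniq s a X then (1 : ℝ) else 0)) := by
    intro X
    refine Finset.sum_nonneg fun a _ => ?_
    split_ifs <;> norm_num
  have h1 := Ex_pow hp0 hp1 _ hnn t
  refine le_trans ?_ (h1.trans (Ex_mono (vp_nonneg hp0 hp1) fun X =>
    pow_le_pow_left₀ (hnn X) (hpt X) t))
  apply pow_le_pow_left₀ (by positivity)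
  rw [Ex_sum]
  have h2 : ∀ a ∈ (univ : Finset (Fin m → Fin n)), (1 : ℝ) / 6 ≤ Ex (vp (y / 2))
      (fun X => (1 / 3) * (1 - (if ¬ Uniq s a X then (1 : ℝ) else 0))) := by
    intro a _
    rw [Ex_smul]
    have h3 : Ex (vp (y / 2)) (fun X : (Fin m × (Fin (r + 1) → Fin n)) → Bool =>
        1 - (if ¬ Uniq s a X then (1 : ℝ) else 0)) =
        1 + (-1) * Ex (vp (y / 2)) (fun X : (Fin m × (Fin (r + 1) → Fin n)) → Bool =>
          (if ¬ Uniq s a X then (1 : ℝ) else 0)) := by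
      rw [← Ex_smul]
      have h4 := Ex_add (vp (y / 2)) (fun _ : (Fin m × (Fin (r + 1) → Fin n)) → Bool => (1 : ℝ))
        (fun X => (-1) * (if ¬ Uniq s a X then (1 : ℝ) else 0))
      rw [Ex_const (vp_sum (y / 2))] at h4
      rw [← h4]
      congr 1
      funext X
      ring
    rw [h3]
    have h5 := uniq_prob (n := n) hs a hp0 hp1
    linarith
  have h6 := Finset.card_nsmul_le_sum _ _ _ h2
  rw [Finset.card_univ, Fintype.card_fun, Fintype.card_fin, Fintype.card_fin, nsmul_eq_mul] at h6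
  push_cast at h6
  linarith

end Am

end H592R3.Mb3
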