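import Mathlib
import Pool.Agent.H592R3.Joint

/-!
The moments of the number of planted instances to which a circuit is sensitive.
-/

namespace H592R3

open Finset DomAC0 H568R2

section Mo
variable {m n r : ℕ} {J : Type} [Fintype J]

/-- The types of sensitivity: a gate, a set of medium size and an initial part of the gate, or a
small set. -/
abbrev Ty (C : Circuit J) (m : ℕ) : Type :=
  (Fin C.size × Finset (Fin m) × Fin (Fintype.card J + C.size + 1)) ⊕ Finset (Fin m)

/-- The set of constraints of a type. -/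
def Ty.hset {C : Circuit J} {m : ℕ} (θ : Ty C m) : Finset (Fin m) :=
  Sum.elim (fun x => x.2.1) id θ

/-- The event of a type for a planted instance. -/
def EvX (C : Circuit J) (σ : ((Fin m × (Fin r → Fin n)) → Bool) → (J → Bool))
    (s : Fin m → Fin r → Fin m) (d L : ℕ) (a : Fin m → Fin n)
    (X : (Fin m × (Fin r → Fin n)) → Bool) : Ty C m → Prop
  | Sum.inl (g, H, i) => (C.gateDepth g ≤ d ∧ L ≤ H.card ∧ H.card < 2 * L) ∧
      (sens (fun x => gfun C g (σ x) ((pl C g).take (i + 1))) (vr s a) X = H ∧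
        (sens (fun x => gfun C g (σ x) ((pl C g).take i)) (vr s a) X).card < H.card)
  | Sum.inr H => (1 ≤ H.card ∧ H.card < L) ∧ sens (fun x => C.eval (σ x)) (vr s a) X = H

/-- The event of a type for a restriction. -/
def EvR (C : Circuit J) (σ : ((Fin m × (Fin r → Fin n)) → Bool) → (J → Bool))
    (s : Fin m → Fin r → Fin m) (d L : ℕ) (a : Fin m → Fin n)
    (Y : (Fin m × (Fin r → Fin n)) → Bool) (ρ : Restr (Fin m × (Fin r → Fin n)))
    (D : (Fin m × (Fin r → Fin n)) → Bool) : Ty C m → Prop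
  | Sum.inl (g, H, i) => (C.gateDepth g ≤ d ∧ L ≤ H.card ∧ H.card < 2 * L) ∧
      Ev (fun x => gfun C g (σ x) ((pl C g).take i))
        (fun x => gfun C g (σ x) ((pl C g).take (i + 1))) (vr s a) H Y ρ D
  | Sum.inr H => (1 ≤ H.card ∧ H.card < L) ∧
      FD (rs (fun x => C.eval (σ (mask Y x))) ρ) D (H.image (vr s a))

lemma evX_evR (C : Circuit J) (σ : ((Fin m × (Fin r → Fin n)) → Bool) → (J → Bool))
    (s : Fin m → Fin r → Fin m) (d L : ℕ) (a : Fin m → Fin n) (θ : Ty C m)
    (ω : (Fin m × (Fin r → Fin n)) → Bool × (Option Bool × Bool))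
    (hω : ∀ i ∈ θ.hset.image (vr s a), (ω i).1 = true ∧ (ω i).2.1 = none)
    (h : EvX C σ s d L a (fun i => h3 (ω i)) θ) :
    EvR C σ s d L a (fun i => (ω i).1) (fun i => (ω i).2.1) (fun i => (ω i).2.2) θ := by
  rcases θ with ⟨g, H, i⟩ | H
  · obtain ⟨h0, h1, h2⟩ := h
    refine ⟨h0, ?_⟩
    have hB := sens_pair _ _ (vr s a) H _ h1 h2
    have e1 := bad_fd (fun x => gfun C g (σ x) ((pl C g).take (i + 1))) (vr s a) H
      (fun i => (ω i).1) (fun i => (ω i).2.1) (fun i => (ω i).2.2) hω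
    have e2 := bad_fd (fun x => gfun C g (σ x) ((pl C g).take i)) (vr s a) H
      (fun i => (ω i).1) (fun i => (ω i).2.1) (fun i => (ω i).2.2) hω
    refine ⟨e1.1 hB.1, fun hcon => hB.2 ?_⟩
    apply e2.2
    rw [hcon]
    exact e1.1 hB.1
  · obtain ⟨h0, h1⟩ := h
    refine ⟨h0, ?_⟩
    have hB := sens_bad (fun x => C.eval (σ x)) (vr s a) (fun i => h3 (ω i))
    rw [h1] at hB
    exact (bad_fd (fun x => C.eval (σ x)) (vr s a) H
      (fun i => (ω i).1) (fun i => (ω i).2.1) (fun i => (ω i).2.2) hω).1 hB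

lemma sens_evX (C : Circuit J) (σ : ((Fin m × (Fin r → Fin n)) → Bool) → (J → Bool))
    (hσ : ∀ j, Junta 1 (fun x => σ x j)) (s : Fin m → Fin r → Fin m) {d L : ℕ} (hL : 2 ≤ L)
    (hdepth : C.depth ≤ d) (a : Fin m → Fin n) (X : (Fin m × (Fin r → Fin n)) → Bool)
    (h : (sens (fun x => C.eval (σ x)) (vr s a) X).Nonempty) :
    ∃ θ : Ty C m, EvX C σ s d L a X θ := by
  by_cases hLs : L ≤ (sens (fun x => C.eval (σ x)) (vr s a) X).card
  · obtain ⟨g, hg, i, hi, h1, h2, h3⟩ := medium C σ hσ (vr s a) (vr_inj s a) hL X hdepth hLs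
    have hlen := pl_length C g
    refine ⟨Sum.inl (g, sens (fun x => gfun C g (σ x) ((pl C g).take (i + 1))) (vr s a) X,
      ⟨i, by omega⟩), ⟨hg, h1, h2⟩, rfl, ?_⟩
    exact lt_of_lt_of_le h3 h1
  · exact ⟨Sum.inr (sens (fun x => C.eval (σ x)) (vr s a) X),
      ⟨Finset.card_pos.2 h, by omega⟩, rfl⟩

omit [Fintype J] in
lemma out_DT (C : Circuit J) (σ : ((Fin m × (Fin r → Fin n)) → Bool) → (J → Bool))
    (hσ : ∀ j, Junta 1 (fun x => σ x j)) {h d : ℕ} (hh : 1 ≤ h)
    {ρ : Restr (Fin m × (Fin r → Fin n))} (hG : Good C σ h d ρ) (hd : C.depth ≤ d) :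
    DT h (rs (fun x => C.eval (σ x)) ρ) := by
  have hd' : C.nodeDepth C.output ≤ d := hd
  show DT h (rs (fun x => C.nodeVal (σ x) C.output) ρ)
  revert hd'
  generalize C.output = o
  intro hd'
  cases o with
  | inl j => exact DT.of_junta_one ((hσ j).rs ρ) hh
  | inr g =>
    have := hG g hd' (pl C g).length
    rw [List.take_length] at this
    have h2 : (fun x => C.nodeVal (σ x) (Sum.inr g)) = fun x => gfun C g (σ x) (pl C g) := by
      funext x
      exact gateVal_eq C (σ x) g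
    rw [h2]
    exact this

open Classical in
omit [Fintype J] in
lemma gate_count (hn : 1 ≤ n) (s : Fin m → Fin r → Fin m)
    (C : Circuit J) (σ : ((Fin m × (Fin r → Fin n)) → Bool) → (J → Bool))
    {h : ℕ} (hh : 1 ≤ h) {d : ℕ}
    (g : Fin C.size) (hg : C.gateDepth g ≤ d) (H : Finset (Fin m)) {L u : ℕ} (hL : 1 ≤ L)
    (hH2 : H.card < 2 * L) (hu : m - (touched s H).card ≤ u)
    (Y : (Fin m × (Fin r → Fin n)) → Bool) (ρ : Restr (Fin m × (Fin r → Fin n)))
    (D : (Fin m × (Fin r → Fin n)) → Bool)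
    (hG : Good C (fun x => σ (mask Y x)) h d ρ) (N : ℕ) :
    ∑ a : Fin m → Fin n, ∑ i ∈ Finset.range N,
      (if Ev (fun x => gfun C g (σ x) ((pl C g).take i))
        (fun x => gfun C g (σ x) ((pl C g).take (i + 1))) (vr s a) H Y ρ D
        then (1 : ℝ) else 0) ≤ 2 ^ h * (ctb h L n u : ℝ) := by
  set f : ℕ → ((Fin m × (Fin r → Fin n)) → Bool) → Bool :=
    fun i x => gfun C g (σ x) ((pl C g).take i) with hf
  rw [Finset.sum_comm]
  have hch := gate_changes C (fun x => σ (mask Y x)) hG g hg N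
  have h1 : ∀ i ∈ Finset.range N, ∑ a : Fin m → Fin n,
      (if Ev (f i) (f (i + 1)) (vr s a) H Y ρ D then (1 : ℝ) else 0) ≤
      if (rs (fun x => f i (mask Y x)) ρ ≠ rs (fun x => f (i + 1) (mask Y x)) ρ)
        then (ctb h L n u : ℝ) else 0 := by
    intro i _
    by_cases hc : rs (fun x => f i (mask Y x)) ρ ≠ rs (fun x => f (i + 1) (mask Y x)) ρ
    · rw [if_pos hc]
      have h2 : ∀ a ∈ (univ : Finset (Fin m → Fin n)),
          (if Ev (f i) (f (i + 1)) (vr s a) H Y ρ D then (1 : ℝ) else 0) ≤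
          (if FD (rs (fun x => f (i + 1) (mask Y x)) ρ) D (H.image (vr s a))
            then (1 : ℝ) else 0) := by
        intro a _
        by_cases hE : Ev (f i) (f (i + 1)) (vr s a) H Y ρ D
        · rw [if_pos hE, if_pos hE.1]
        · rw [if_neg hE]; split_ifs <;> norm_num
      refine (Finset.sum_le_sum h2).trans ?_
      rw [Finset.sum_boole]
      have h3 := count_fd s H _ (hG g hg (i + 1)) D
      have h4 := h3.trans (ctb_ge (L := L) (u := u) hh hL hn (by omega) hu)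
      exact_mod_cast h4
    · rw [if_neg hc]
      apply le_of_eq
      apply Finset.sum_eq_zero
      intro a _
      rw [if_neg]
      intro hE
      exact hc hE.2
  refine (Finset.sum_le_sum h1).trans ?_
  rw [← Finset.sum_filter, Finset.sum_const, nsmul_eq_mul]
  apply mul_le_mul_of_nonneg_right _ (by positivity)
  have : ((Finset.range N).filter (fun i => rs (fun x => f i (mask Y x)) ρ ≠
    rs (fun x => f (i + 1) (mask Y x)) ρ)).card ≤ 2 ^ h := hch
  exact_mod_cast this

open Classical in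
/-- The bound for good restrictions. -/
lemma good_bound (hn : 1 ≤ n) (s : Fin m → Fin r → Fin m)
    (C : Circuit J) (σ : ((Fin m × (Fin r → Fin n)) → Bool) → (J → Bool))
    (hσ : ∀ j, Junta 1 (fun x => σ x j)) {h : ℕ} (hh : 1 ≤ h) {d : ℕ}
    (hdepth : C.depth ≤ d) {S : ℕ} (hS : C.size ≤ S) {L u : ℕ} (hL : 2 ≤ L)
    (hexp : ∀ H : Finset (Fin m), L ≤ H.card → m - (touched s H).card ≤ u)
    {c : ℝ} (hc : 1 ≤ c) {Bs : ℝ}
    (hBs : ∑ H ∈ univ.filter (fun H : Finset (Fin m) => 1 ≤ H.card ∧ H.card < L),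
      c ^ H.card * (((h * 2 ^ H.card) ^ H.card *
        (H.card ^ H.card * n ^ (m - (touched s H).card)) : ℕ) : ℝ) ≤ Bs)
    (Y : (Fin m × (Fin r → Fin n)) → Bool) (ρ : Restr (Fin m × (Fin r → Fin n)))
    (D : (Fin m × (Fin r → Fin n)) → Bool)
    (hG : Good C (fun x => σ (mask Y x)) h d ρ) :
    ∑ k : (Fin m → Fin n) × Ty C m, c ^ k.2.hset.card *
      (if EvR C σ s d L k.1 Y ρ D k.2 then (1 : ℝ) else 0) ≤
      S * 2 ^ m * (c ^ (2 * L) * (2 ^ h * (ctb h L n u : ℝ))) + Bs := by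
  have hc0 : 0 ≤ c := by linarith
  rw [Fintype.sum_prod_type_right, Fintype.sum_sum_type]
  apply add_le_add
  · rw [Fintype.sum_prod_type]
    have h1 : ∀ g : Fin C.size, ∑ x : Finset (Fin m) × Fin (Fintype.card J + C.size + 1),
        ∑ a : Fin m → Fin n, c ^ (Ty.hset (C := C) (Sum.inl (g, x))).card *
        (if EvR C σ s d L a Y ρ D (Sum.inl (g, x)) then (1 : ℝ) else 0) ≤
        2 ^ m * (c ^ (2 * L) * (2 ^ h * (ctb h L n u : ℝ))) := by
      intro g
      rw [Fintype.sum_prod_type]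
      have h2 : ∀ H : Finset (Fin m), ∑ i : Fin (Fintype.card J + C.size + 1),
          ∑ a : Fin m → Fin n, c ^ (Ty.hset (C := C) (Sum.inl (g, H, i))).card *
          (if EvR C σ s d L a Y ρ D (Sum.inl (g, H, i)) then (1 : ℝ) else 0) ≤
          c ^ (2 * L) * (2 ^ h * (ctb h L n u : ℝ)) := by
        intro H
        by_cases hc1 : C.gateDepth g ≤ d ∧ L ≤ H.card ∧ H.card < 2 * L
        · have h3 := gate_count hn s C σ hh g hc1.1 H (by omega : 1 ≤ L) hc1.2.2
            (hexp H hc1.2.1) Y ρ D hG (Fintype.card J + C.size + 1)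
          rw [Finset.sum_comm] at h3
          rw [← Fin.sum_univ_eq_sum_range (fun i => ∑ a : Fin m → Fin n,
            (if Ev (fun x => gfun C g (σ x) ((pl C g).take i))
            (fun x => gfun C g (σ x) ((pl C g).take (i + 1))) (vr s a) H Y ρ D
            then (1 : ℝ) else 0))] at h3
          have h4 : ∑ i : Fin (Fintype.card J + C.size + 1),
              ∑ a : Fin m → Fin n, c ^ (Ty.hset (C := C) (Sum.inl (g, H, i))).card *
              (if EvR C σ s d L a Y ρ D (Sum.inl (g, H, i)) then (1 : ℝ) else 0) =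
              c ^ H.card * ∑ i : Fin (Fintype.card J + C.size + 1), ∑ a : Fin m → Fin n,
              (if Ev (fun x => gfun C g (σ x) ((pl C g).take i))
              (fun x => gfun C g (σ x) ((pl C g).take (i + 1))) (vr s a) H Y ρ D
              then (1 : ℝ) else 0) := by
            rw [Finset.mul_sum]
            refine Finset.sum_congr rfl fun i _ => ?_
            rw [Finset.mul_sum]
            refine Finset.sum_congr rfl fun a _ => ?_
            have e1 : (Ty.hset (C := C) (Sum.inl (g, H, i))) = H := rfl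
            rw [e1]
            congr 1
            have e2 : EvR C σ s d L a Y ρ D (Sum.inl (g, H, i)) ↔
                Ev (fun x => gfun C g (σ x) ((pl C g).take i))
                (fun x => gfun C g (σ x) ((pl C g).take (i + 1))) (vr s a) H Y ρ D := by
              constructor
              · exact fun h => h.2
              · exact fun h => ⟨hc1, h⟩
            simp only [e2]
          rw [h4]
          apply mul_le_mul _ h3 _ (by positivity)
          · exact pow_le_pow_right₀ hc (by omega)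
          · refine Finset.sum_nonneg fun i _ => Finset.sum_nonneg fun a _ => ?_
            split_ifs <;> norm_num
        · have h4 : ∑ i : Fin (Fintype.card J + C.size + 1),
              ∑ a : Fin m → Fin n, c ^ (Ty.hset (C := C) (Sum.inl (g, H, i))).card *
              (if EvR C σ s d L a Y ρ D (Sum.inl (g, H, i)) then (1 : ℝ) else 0) = 0 := by
            refine Finset.sum_eq_zero fun i _ => Finset.sum_eq_zero fun a _ => ?_
            rw [if_neg, mul_zero]
            exact fun h => hc1 h.1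
          rw [h4]
          positivity
      refine (Finset.sum_le_card_nsmul _ _ _ (fun H _ => h2 H)).trans ?_
      rw [nsmul_eq_mul, Finset.card_univ, Fintype.card_finset, Fintype.card_fin]
      push_cast
      exact le_refl _
    refine (Finset.sum_le_card_nsmul _ _ _ (fun g _ => h1 g)).trans ?_
    rw [nsmul_eq_mul, Finset.card_univ, Fintype.card_fin, ← mul_assoc]
    apply mul_le_mul_of_nonneg_right _ (by positivity)
    apply mul_le_mul_of_nonneg_right _ (by positivity)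
    exact_mod_cast hS
  · refine le_trans ?_ hBs
    rw [Finset.sum_filter]
    refine Finset.sum_le_sum fun H _ => ?_
    by_cases hH : 1 ≤ H.card ∧ H.card < L
    · rw [if_pos hH]
      show (∑ a : Fin m → Fin n, c ^ H.card *
        (if EvR C σ s d L a Y ρ D (Sum.inr H) then (1 : ℝ) else 0)) ≤ _
      rw [← Finset.mul_sum]
      apply mul_le_mul_of_nonneg_left _ (by positivity)
      have e2 : ∀ a : Fin m → Fin n, EvR C σ s d L a Y ρ D (Sum.inr H) ↔
          FD (rs (fun x => C.eval (σ (mask Y x))) ρ) D (H.image (vr s a)) := by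
        intro a
        constructor
        · exact fun h => h.2
        · exact fun h => ⟨hH, h⟩
      simp only [e2]
      rw [Finset.sum_boole]
      have h3 := count_fd s H _ (out_DT C (fun x => σ (mask Y x))
        (fun j => mask_junta (hσ j) Y) hh hG hdepth) D
      exact_mod_cast h3
    · rw [if_neg hH]
      apply le_of_eq
      refine Finset.sum_eq_zero fun a _ => ?_
      rw [if_neg, mul_zero]
      exact fun h => hH h.1

open Classical in
/-- The bound for all restrictions. -/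
lemma all_bound (s : Fin m → Fin r → Fin m)
    (C : Circuit J) (σ : ((Fin m × (Fin r → Fin n)) → Bool) → (J → Bool)) {d : ℕ}
    {S : ℕ} (hS : C.size ≤ S) {L : ℕ} {c : ℝ} (hc : 1 ≤ c)
    (Y : (Fin m × (Fin r → Fin n)) → Bool) (ρ : Restr (Fin m × (Fin r → Fin n)))
    (D : (Fin m × (Fin r → Fin n)) → Bool) :
    ∑ k : (Fin m → Fin n) × Ty C m, c ^ k.2.hset.card *
      (if EvR C σ s d L k.1 Y ρ D k.2 then (1 : ℝ) else 0) ≤
      (n : ℝ) ^ m * ((S * ((Fintype.card J + S + 1 : ℕ) : ℝ) + 1) * 2 ^ m * c ^ (2 * L)) := by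
  have hc0 : 0 ≤ c := by linarith
  have h1 : ∀ k : (Fin m → Fin n) × Ty C m, c ^ k.2.hset.card *
      (if EvR C σ s d L k.1 Y ρ D k.2 then (1 : ℝ) else 0) ≤ c ^ (2 * L) := by
    intro k
    by_cases hk : EvR C σ s d L k.1 Y ρ D k.2
    · rw [if_pos hk, mul_one]
      apply pow_le_pow_right₀ hc
      rcases k with ⟨a, ⟨g, H, i⟩ | H⟩
      · exact hk.1.2.2.le
      · have h2 : H.card < L := hk.1.2
        show H.card ≤ 2 * L
        omega
    · rw [if_neg hk, mul_zero]; positivity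
  refine (Finset.sum_le_card_nsmul _ _ _ (fun k _ => h1 k)).trans ?_
  rw [nsmul_eq_mul, Finset.card_univ, Fintype.card_prod, Fintype.card_fun, Fintype.card_fin,
    Fintype.card_fin, Fintype.card_sum, Fintype.card_prod, Fintype.card_prod, Fintype.card_fin,
    Fintype.card_fin, Fintype.card_finset, Fintype.card_fin]
  push_cast
  have h2 : (C.size : ℝ) ≤ S := by exact_mod_cast hS
  have h3 : (C.size : ℝ) * (2 ^ m * ((Fintype.card J : ℝ) + C.size + 1)) + 2 ^ m ≤
      (S * ((Fintype.card J : ℝ) + S + 1) + 1) * 2 ^ m := by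
    have h4 : (C.size : ℝ) * ((Fintype.card J : ℝ) + C.size + 1) ≤
        S * ((Fintype.card J : ℝ) + S + 1) := by gcongr
    have h5 : (0 : ℝ) ≤ 2 ^ m := by positivity
    nlinarith
  calc (n : ℝ) ^ m * ((C.size : ℝ) * (2 ^ m * ((Fintype.card J : ℝ) + C.size + 1)) + 2 ^ m) *
        c ^ (2 * L) ≤ (n : ℝ) ^ m * ((S * ((Fintype.card J : ℝ) + S + 1) + 1) * 2 ^ m) *
        c ^ (2 * L) := by gcongr
    _ = _ := by ring

open Classical in
/-- The number of planted instances to which the circuit is sensitive. -/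
noncomputable def cntS (s : Fin m → Fin r → Fin m)
    (σ : ((Fin m × (Fin r → Fin n)) → Bool) → (J → Bool)) (C : Circuit J)
    (X : (Fin m × (Fin r → Fin n)) → Bool) : ℝ :=
  ∑ a : Fin m → Fin n,
    if (sens (fun x => C.eval (σ x)) (vr s a) X).Nonempty then (1 : ℝ) else 0

omit [Fintype J] in
lemma cntS_nonneg (s : Fin m → Fin r → Fin m)
    (σ : ((Fin m × (Fin r → Fin n)) → Bool) → (J → Bool)) (C : Circuit J)
    (X : (Fin m × (Fin r → Fin n)) → Bool) : 0 ≤ cntS s σ C X := by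
  unfold cntS
  refine Finset.sum_nonneg fun a _ => ?_
  split_ifs <;> norm_num

omit [Fintype J] in
lemma cntS_le (s : Fin m → Fin r → Fin m)
    (σ : ((Fin m × (Fin r → Fin n)) → Bool) → (J → Bool)) (C : Circuit J)
    (X : (Fin m × (Fin r → Fin n)) → Bool) : cntS s σ C X ≤ (n : ℝ) ^ m := by
  classical
  unfold cntS
  calc _ ≤ ∑ _a : Fin m → Fin n, (1 : ℝ) := by
        refine Finset.sum_le_sum fun a _ => ?_
        split_ifs <;> norm_num
    _ = (n : ℝ) ^ m := by
        rw [Finset.sum_const, Finset.card_univ, Fintype.card_fun, Fintype.card_fin,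
          Fintype.card_fin, nsmul_eq_mul]
        push_cast
        ring

open Classical in
/-- The weighted number of planted instances to which a circuit is sensitive. -/
theorem circ_weighted (hn : 1 ≤ n) (s : Fin m → Fin r → Fin m)
    (C : Circuit J) (σ : ((Fin m × (Fin r → Fin n)) → Bool) → (J → Bool))
    (hσ : ∀ j, Junta 1 (fun x => σ x j)) {h : ℕ} (hh : 1 ≤ h) {d τ : ℕ} (hτ : 3 ≤ τ)
    (hdepth : C.depth ≤ d) {S : ℕ} (hS : C.size ≤ S) {L u : ℕ} (hL : 2 ≤ L)
    (hexp : ∀ H : Finset (Fin m), L ≤ H.card → m - (touched s H).card ≤ u)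
    {y q c ε : ℝ} (hy0 : 0 < y) (hy1 : y ≤ 1) (hq : q = (1 / (τ : ℝ)) ^ d)
    (hcyq : 2 ≤ c * (y * q)) (hc : 1 ≤ c)
    (hε : d * ((S * (Fintype.card J + S + 1) : ℕ) : ℝ) *
      (12 * h * (1 / (τ : ℝ))) ^ (h + 1) ≤ ε) {Bs : ℝ}
    (hBs : ∑ H ∈ univ.filter (fun H : Finset (Fin m) => 1 ≤ H.card ∧ H.card < L),
      c ^ H.card * (((h * 2 ^ H.card) ^ H.card *
        (H.card ^ H.card * n ^ (m - (touched s H).card)) : ℕ) : ℝ) ≤ Bs)
    (ψ : ((Fin m × (Fin r → Fin n)) → Bool) → ℝ) (hψ0 : ∀ X, 0 ≤ ψ X) {B0 : ℝ}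
    (hψ1 : ∀ X, ψ X ≤ B0) :
    Ex (vp (y / 2)) (fun X => ψ X * cntS s σ C X) ≤
    (S * 2 ^ m * (c ^ (2 * L) * (2 ^ h * (ctb h L n u : ℝ))) + Bs) * Ex (vp (y / 2)) ψ +
      B0 * ((n : ℝ) ^ m * ((S * ((Fintype.card J + S + 1 : ℕ) : ℝ) + 1) * 2 ^ m *
        c ^ (2 * L))) * ε := by
  have hτ1 : (1 : ℝ) ≤ τ := by exact_mod_cast (by omega : 1 ≤ τ)
  have hτ0 : (0 : ℝ) < τ := by linarith
  have hq0 : 0 < q := by rw [hq]; positivity
  have hq1 : q ≤ 1 := by
    rw [hq]
    apply pow_le_one₀ (by positivity)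
    rw [div_le_one hτ0]; exact hτ1
  have h13 : (1 : ℝ) / τ ≤ 1 / 3 := by
    apply one_div_le_one_div_of_le (by norm_num)
    exact_mod_cast hτ
  have hε0 : 0 ≤ ε := le_trans (by positivity) hε
  have hB00 : 0 ≤ B0 := (hψ0 (fun _ => false)).trans (hψ1 _)
  obtain ⟨Bd, hBd⟩ : ∃ Bd : ℝ, Bd = S * 2 ^ m * (c ^ (2 * L) * (2 ^ h * (ctb h L n u : ℝ))) + Bs :=
    ⟨_, rfl⟩
  obtain ⟨Big, hBig⟩ : ∃ Big : ℝ, Big = (n : ℝ) ^ m *
    ((S * ((Fintype.card J + S + 1 : ℕ) : ℝ) + 1) * 2 ^ m * c ^ (2 * L)) := ⟨_, rfl⟩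
  rw [← hBd, ← hBig]
  have hc0 : 0 ≤ c := by linarith
  have hBig0 : 0 ≤ Big := by rw [hBig]; positivity
  have hBs0 : 0 ≤ Bs := le_trans (Finset.sum_nonneg fun H _ => by positivity) hBs
  have hBd0 : 0 ≤ Bd := by rw [hBd]; positivity
  -- step 1: pointwise
  have hp0 : 0 ≤ y / 2 := by linarith
  have hp1 : y / 2 ≤ 1 := by linarith
  have hstep1 : Ex (vp (y / 2)) (fun X => ψ X * cntS s σ C X) ≤
      Ex (vp (y / 2)) (fun X => ψ X * ∑ k : (Fin m → Fin n) × Ty C m,
        (if EvX C σ s d L k.1 X k.2 then (1 : ℝ) else 0)) := by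
    apply Ex_mono (vp_nonneg hp0 hp1)
    intro X
    apply mul_le_mul_of_nonneg_left _ (hψ0 X)
    unfold cntS
    rw [Fintype.sum_prod_type]
    refine Finset.sum_le_sum fun a _ => ?_
    have hnn : ∀ θ ∈ (univ : Finset (Ty C m)), (0 : ℝ) ≤
        (if EvX C σ s d L a X θ then (1 : ℝ) else 0) := by
      intro θ _
      split_ifs <;> norm_num
    by_cases hs : (sens (fun x => C.eval (σ x)) (vr s a) X).Nonempty
    · rw [if_pos hs]
      obtain ⟨θ, hθ⟩ := sens_evX C σ hσ s hL hdepth a X hs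
      refine le_trans ?_ (Finset.single_le_sum hnn (Finset.mem_univ θ))
      rw [if_pos hθ]
    · rw [if_neg hs]
      exact Finset.sum_nonneg hnn
  refine hstep1.trans ?_
  -- step 2: comparison
  have hstep2 := weighted_compare (I := Fin m × (Fin r → Fin n))
    (K := (Fin m → Fin n) × Ty C m)
    (fun k X => if EvX C σ s d L k.1 X k.2 then (1 : ℝ) else 0)
    (fun k ω => if EvR C σ s d L k.1 (fun i => (ω i).1) (fun i => (ω i).2.1)
      (fun i => (ω i).2.2) k.2 then (1 : ℝ) else 0)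
    (fun k => k.2.hset.image (vr s k.1)) (by intro k X; split_ifs <;> norm_num)
    (by intro k X; split_ifs <;> norm_num) (by
      intro k ω hω
      by_cases h1 : EvX C σ s d L k.1 (fun i => h3 (ω i)) k.2
      · rw [if_pos h1, if_pos (evX_evR C σ s d L k.1 k.2 ω hω h1)]
      · rw [if_neg h1]
        split_ifs <;> norm_num) hy0 hy1 hq0 hq1 hcyq hc ψ hψ0
  refine hstep2.trans ?_
  -- step 3: bound for each point
  have hpt : ∀ ω : (Fin m × (Fin r → Fin n)) → Bool × (Option Bool × Bool),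
      ψ (fun i => h3 (ω i)) * ∑ k : (Fin m → Fin n) × Ty C m,
        c ^ (k.2.hset.image (vr s k.1)).card *
        (if EvR C σ s d L k.1 (fun i => (ω i).1) (fun i => (ω i).2.1)
        (fun i => (ω i).2.2) k.2 then (1 : ℝ) else 0) ≤
      Bd * ψ (fun i => h3 (ω i)) + (B0 * Big) *
        (if ¬ Good C (fun x => σ (mask (fun i => (ω i).1) x)) h d
        (fun i => (ω i).2.1) then (1 : ℝ) else 0) := by
    intro ω
    have hcard : ∀ k : (Fin m → Fin n) × Ty C m,
        (k.2.hset.image (vr s k.1)).card = k.2.hset.card := fun k =>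
      Finset.card_image_of_injective _ (vr_inj s k.1)
    simp only [hcard]
    have hψω := hψ0 (fun i => h3 (ω i))
    by_cases hG : Good C (fun x => σ (mask (fun i => (ω i).1) x)) h d (fun i => (ω i).2.1)
    · simp only [hG, not_true, if_false, mul_zero, add_zero]
      rw [mul_comm Bd]
      apply mul_le_mul_of_nonneg_left _ hψω
      rw [hBd]
      exact good_bound hn s C σ hσ hh hdepth hS hL hexp hc hBs _ _ _ hG
    · simp only [hG, not_false_iff, if_true, mul_one]
      have h1 := all_bound (L := L) (d := d) s C σ hS hc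
        (fun i => (ω i).1) (fun i => (ω i).2.1) (fun i => (ω i).2.2)
      rw [← hBig] at h1
      have h2 : 0 ≤ Bd * ψ (fun i => h3 (ω i)) := mul_nonneg hBd0 hψω
      have h4 : ψ (fun i => h3 (ω i)) * ∑ k : (Fin m → Fin n) × Ty C m,
          c ^ k.2.hset.card *
          (if EvR C σ s d L k.1 (fun i => (ω i).1) (fun i => (ω i).2.1)
          (fun i => (ω i).2.2) k.2 then (1 : ℝ) else 0) ≤ B0 * Big :=
        (mul_le_mul_of_nonneg_left h1 hψω).trans (mul_le_mul_of_nonneg_right (hψ1 _) hBig0)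
      linarith
  refine (Ex_mono (w3_nonneg hy0.le hy1 hq0.le hq1) hpt).trans ?_
  rw [Ex_add, Ex_smul (w3 y q) (B0 * Big), Ex_smul (w3 y q) Bd]
  have hpush : Ex (w3 y q) (fun ω : (Fin m × (Fin r → Fin n)) → Bool × (Option Bool × Bool) =>
      ψ (fun i => h3 (ω i))) = Ex (vp (y / 2)) ψ :=
    Ex_push (I := Fin m × (Fin r → Fin n)) h3 (w3 y q) (vp (y / 2)) (fun b => h3_push b) ψ
  rw [hpush]
  have hfail : Ex (w3 y q) (fun ω : (Fin m × (Fin r → Fin n)) → Bool × (Option Bool × Bool) =>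
      (if ¬ Good C (fun x => σ (mask (fun i => (ω i).1) x)) h d
        (fun i => (ω i).2.1) then (1 : ℝ) else 0)) ≤ ε := by
    have e1 : Ex (w3 y q) (fun ω : (Fin m × (Fin r → Fin n)) → Bool × (Option Bool × Bool) =>
      (if ¬ Good C (fun x => σ (mask (fun i => (ω i).1) x)) h d
        (fun i => (ω i).2.1) then (1 : ℝ) else 0)) =
        Ex (vp y) (fun Y => Ex (fun e : Option Bool × Bool => wq q e.1 * vp (1 / 2) e.2)
          (fun ω => (if ¬ Good C (fun x => σ (mask Y x)) h d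
        (fun i => (ω i).1) then (1 : ℝ) else 0))) :=
      Ex_prod (I := Fin m × (Fin r → Fin n)) (vp y)
        (fun e : Option Bool × Bool => wq q e.1 * vp (1 / 2) e.2) _
    rw [e1]
    have e2 : ∀ Y : (Fin m × (Fin r → Fin n)) → Bool,
        Ex (fun e : Option Bool × Bool => wq q e.1 * vp (1 / 2) e.2)
          (fun ω : (Fin m × (Fin r → Fin n)) → Option Bool × Bool =>
            (if ¬ Good C (fun x => σ (mask Y x)) h d
        (fun i => (ω i).1) then (1 : ℝ) else 0)) ≤ ε := by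
      intro Y
      refine (Ex_prod (I := Fin m × (Fin r → Fin n)) (wq q) (vp (1 / 2)) _).le.trans ?_
      have e3 : ∀ ρ : Restr (Fin m × (Fin r → Fin n)), Ex (vp (1 / 2))
          (fun _ : (Fin m × (Fin r → Fin n)) → Bool =>
            (if ¬ Good C (fun x => σ (mask Y x)) h d ρ then (1 : ℝ) else 0)) =
            (if ¬ Good C (fun x => σ (mask Y x)) h d ρ then (1 : ℝ) else 0) :=
        fun ρ => Ex_const (vp_sum (1 / 2)) _
      have h3 := collapse C (fun x => σ (mask Y x)) (fun j => mask_junta (hσ j) Y)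
        (q := 1 / (τ : ℝ)) (by positivity) h13 hh d
      rw [← hq] at h3
      refine le_trans (le_of_eq ?_) (h3.trans (le_trans ?_ hε))
      · congr 1
        funext ρ
        exact e3 ρ
      · apply mul_le_mul_of_nonneg_right _ (by positivity)
        apply mul_le_mul_of_nonneg_left _ (by positivity)
        have : C.size * (Fintype.card J + C.size + 1) ≤ S * (Fintype.card J + S + 1) :=
          Nat.mul_le_mul hS (by omega)
        exact_mod_cast this
    refine (Ex_mono (vp_nonneg hy0.le hy1) e2).trans ?_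
    exact (Ex_const (I := Fin m × (Fin r → Fin n)) (vp_sum y) _).le
  have h5 := mul_le_mul_of_nonneg_left hfail (by positivity : 0 ≤ B0 * Big)
  linarith

open Classical in
/-- The moments of the number of planted instances to which a circuit is sensitive. -/
theorem circ_moment (hn : 1 ≤ n) (s : Fin m → Fin r → Fin m)
    (C : Circuit J) (σ : ((Fin m × (Fin r → Fin n)) → Bool) → (J → Bool))
    (hσ : ∀ j, Junta 1 (fun x => σ x j)) {h : ℕ} (hh : 1 ≤ h) {d τ : ℕ} (hτ : 3 ≤ τ)
    (hdepth : C.depth ≤ d) {S : ℕ} (hS : C.size ≤ S) {L u : ℕ} (hL : 2 ≤ L)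
    (hexp : ∀ H : Finset (Fin m), L ≤ H.card → m - (touched s H).card ≤ u)
    {y q c ε : ℝ} (hy0 : 0 < y) (hy1 : y ≤ 1) (hq : q = (1 / (τ : ℝ)) ^ d)
    (hcyq : 2 ≤ c * (y * q)) (hc : 1 ≤ c)
    (hε : d * ((S * (Fintype.card J + S + 1) : ℕ) : ℝ) *
      (12 * h * (1 / (τ : ℝ))) ^ (h + 1) ≤ ε) {Bs : ℝ}
    (hBs : ∑ H ∈ univ.filter (fun H : Finset (Fin m) => 1 ≤ H.card ∧ H.card < L),
      c ^ H.card * (((h * 2 ^ H.card) ^ H.card *
        (H.card ^ H.card * n ^ (m - (touched s H).card)) : ℕ) : ℝ) ≤ Bs)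
    (hBN : S * 2 ^ m * (c ^ (2 * L) * (2 ^ h * (ctb h L n u : ℝ))) + Bs ≤ (n : ℝ) ^ m) (t : ℕ) :
    Ex (vp (y / 2)) (fun X => cntS s σ C X ^ t) ≤
    (S * 2 ^ m * (c ^ (2 * L) * (2 ^ h * (ctb h L n u : ℝ))) + Bs) ^ t +
      t * ((n : ℝ) ^ m) ^ t * ((S * ((Fintype.card J + S + 1 : ℕ) : ℝ) + 1) * 2 ^ m *
        c ^ (2 * L)) * ε := by
  have hε0 : 0 ≤ ε := le_trans (by positivity) hε
  have hc0 : 0 ≤ c := by linarith
  obtain ⟨R, hR⟩ : ∃ R : ℝ, R = (S * ((Fintype.card J + S + 1 : ℕ) : ℝ) + 1) * 2 ^ m *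
        c ^ (2 * L) := ⟨_, rfl⟩
  have hR0 : 0 ≤ R := by rw [hR]; positivity
  have hBs0 : 0 ≤ Bs := le_trans (Finset.sum_nonneg fun H _ => by positivity) hBs
  induction t with
  | zero =>
    simp only [pow_zero, Nat.cast_zero, zero_mul, add_zero]
    exact (Ex_const (I := Fin m × (Fin r → Fin n)) (vp_sum (y / 2)) (1 : ℝ)).le
  | succ t ih =>
    have h1 := circ_weighted hn s C σ hσ hh hτ hdepth hS hL hexp hy0 hy1 hq hcyq hc hε hBs
      (fun X => cntS s σ C X ^ t) (fun X => pow_nonneg (cntS_nonneg s σ C X) t)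
      (B0 := ((n : ℝ) ^ m) ^ t) (fun X => pow_le_pow_left₀ (cntS_nonneg s σ C X)
        (cntS_le s σ C X) t)
    rw [← hR] at ih h1 ⊢
    obtain ⟨Bd, hBd⟩ : ∃ Bd : ℝ,
      Bd = S * 2 ^ m * (c ^ (2 * L) * (2 ^ h * (ctb h L n u : ℝ))) + Bs := ⟨_, rfl⟩
    have hBd0 : 0 ≤ Bd := by rw [hBd]; positivity
    rw [← hBd] at ih h1 hBN ⊢
    have h2 : Ex (vp (y / 2)) (fun X => cntS s σ C X ^ (t + 1)) ≤
        Bd * Ex (vp (y / 2)) (fun X => cntS s σ C X ^ t) +
        ((n : ℝ) ^ m) ^ t * ((n : ℝ) ^ m * R) * ε := by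
      simp only [pow_succ]
      exact h1
    obtain ⟨NN, hNN⟩ : ∃ NN : ℝ, NN = (n : ℝ) ^ m := ⟨_, rfl⟩
    rw [← hNN] at ih h2 hBN ⊢
    have hNN0 : 0 ≤ NN := by rw [hNN]; positivity
    have h3 : Bd * Ex (vp (y / 2)) (fun X => cntS s σ C X ^ t) ≤
        Bd * (Bd ^ t + t * NN ^ t * R * ε) := mul_le_mul_of_nonneg_left ih hBd0
    have h4 : Bd * (t * NN ^ t * R * ε) ≤ NN * (t * NN ^ t * R * ε) :=
      mul_le_mul_of_nonneg_right hBN (by positivity)
    push_cast
    have e1 : Bd * (Bd ^ t + t * NN ^ t * R * ε) = Bd ^ (t + 1) + Bd * (t * NN ^ t * R * ε) := by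
      ring
    have e2 : ((t : ℝ) + 1) * NN ^ (t + 1) * R * ε =
        NN * (t * NN ^ t * R * ε) + NN ^ t * (NN * R) * ε := by ring
    linarith

end Mo

end H592R3
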