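import Mathlib
import Pool.Agent.H592R3.Expand

/-!
Scopes that expand small families by a factor three and large families to almost everything.
-/

namespace H592R3

open Finset H568R2

lemma choose_bound {m k : ℕ} (hm : 1 ≤ m) (hk : k ≤ m) :
    (m.choose k : ℝ) * ((k : ℝ) / m) ^ k ≤ Real.exp k := by
  have hm0 : (0 : ℝ) < m := by exact_mod_cast hm
  have h1 : ((k : ℝ) / m + 1) ^ m = ∑ j ∈ Finset.range (m + 1),
      ((k : ℝ) / m) ^ j * 1 ^ (m - j) * (m.choose j : ℝ) := add_pow _ _ _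
  have h2 : ((k : ℝ) / m) ^ k * 1 ^ (m - k) * (m.choose k : ℝ) ≤ ((k : ℝ) / m + 1) ^ m := by
    rw [h1]
    exact Finset.single_le_sum (f := fun j => ((k : ℝ) / m) ^ j * 1 ^ (m - j) *
      (m.choose j : ℝ)) (fun j _ => by positivity) (Finset.mem_range.2 (by omega))
  have h3 : ((k : ℝ) / m + 1) ^ m ≤ Real.exp k := by
    calc ((k : ℝ) / m + 1) ^ m ≤ (Real.exp ((k : ℝ) / m)) ^ m :=
          pow_le_pow_left₀ (by positivity) (Real.add_one_le_exp _) m
      _ = Real.exp k := by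
          rw [← Real.exp_nat_mul]
          congr 1
          field_simp
  rw [one_pow, mul_one] at h2
  linarith

lemma geom_quarter (M : ℕ) : ∑ k ∈ Finset.Icc 1 M, ((1 : ℝ) / 4) ^ k ≤
    1 / 3 - (1 / 3) * (1 / 4) ^ M := by
  induction M with
  | zero => simp
  | succ M ih =>
    rw [Finset.sum_Icc_succ_top (by omega)]
    rw [pow_succ]
    linarith

lemma term_bound {m k : ℕ} (hm : 1 ≤ m) (hk1 : 1 ≤ k) (hk : 6 * k ≤ m) :
    (m.choose k : ℝ) * (m.choose (3 * k) : ℝ) * (((3 * k : ℕ) : ℝ) / m) ^ (14 * k) ≤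
      (1 / 4) ^ k := by
  have hm0 : (0 : ℝ) < m := by exact_mod_cast hm
  have hk0 : (0 : ℝ) < k := by exact_mod_cast hk1
  have hx : ((3 * k : ℕ) : ℝ) / m ≤ 1 / 2 := by
    rw [div_le_div_iff₀ hm0 (by norm_num)]
    have : ((6 * k : ℕ) : ℝ) ≤ m := by exact_mod_cast hk
    push_cast at this ⊢
    linarith
  have h1 := choose_bound hm (by omega : k ≤ m)
  have h2 := choose_bound hm (by omega : 3 * k ≤ m)
  have he : Real.exp k * Real.exp ((3 * k : ℕ) : ℝ) ≤ 81 ^ k := by
    rw [← Real.exp_add]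
    have h3 : (k : ℝ) + ((3 * k : ℕ) : ℝ) = ((4 * k : ℕ) : ℝ) * 1 := by push_cast; ring
    rw [h3, Real.exp_nat_mul, pow_mul]
    apply pow_le_pow_left₀ (by positivity)
    have h4 : Real.exp 1 ≤ 3 := by
      have := Real.exp_one_lt_d9
      linarith
    calc Real.exp 1 ^ 4 ≤ 3 ^ 4 := pow_le_pow_left₀ (by positivity) h4 4
      _ = 81 := by norm_num
  obtain ⟨x, hxd⟩ : ∃ x : ℝ, x = ((3 * k : ℕ) : ℝ) / m := ⟨_, rfl⟩
  rw [← hxd] at hx h2 ⊢
  have hx0 : 0 ≤ x := by rw [hxd]; positivity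
  have hkx : (k : ℝ) / m = x / 3 := by rw [hxd]; push_cast; ring
  rw [hkx] at h1
  have hx3 : 0 < x / 3 := by rw [← hkx]; positivity
  -- main identity
  have h5 : (m.choose k : ℝ) * (m.choose (3 * k) : ℝ) * x ^ (14 * k) =
      ((m.choose k : ℝ) * (x / 3) ^ k) * ((m.choose (3 * k) : ℝ) * x ^ (3 * k)) *
        (3 ^ k * (x ^ 10) ^ k) := by
    rw [div_pow, ← pow_mul x 10 k]
    have : x ^ (14 * k) = x ^ k * x ^ (3 * k) * x ^ (10 * k) := by
      rw [← pow_add, ← pow_add]; congr 1; ring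
    rw [this]
    field_simp
  rw [h5]
  have h6 : ((m.choose k : ℝ) * (x / 3) ^ k) * ((m.choose (3 * k) : ℝ) * x ^ (3 * k)) ≤ 81 ^ k :=
    le_trans (mul_le_mul h1 h2 (by positivity) (by positivity)) he
  have h7 : (3 : ℝ) ^ k * (x ^ 10) ^ k ≤ (3 / 1024) ^ k := by
    rw [← mul_pow]
    apply pow_le_pow_left₀ (by positivity)
    have : x ^ 10 ≤ (1 / 2) ^ 10 := pow_le_pow_left₀ hx0 hx 10
    norm_num at this ⊢
    linarith
  calc _ ≤ (81 : ℝ) ^ k * (3 / 1024) ^ k := mul_le_mul h6 h7 (by positivity) (by positivity)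
    _ = (81 * (3 / 1024)) ^ k := (mul_pow _ _ _).symm
    _ ≤ (1 / 4) ^ k := pow_le_pow_left₀ (by norm_num) (by norm_num) k

theorem expander2 (m : ℕ) (hm : 1 ≤ m) : ∃ F : Fin m → Fin 14 → Fin m,
    ∀ H : Finset (Fin m), 1 ≤ H.card → 6 * H.card ≤ m → 3 * H.card ≤ (touched F H).card := by
  classical
  by_contra hcon
  push Not at hcon
  set Bad : Finset (Fin m) × Finset (Fin m) → Finset (Fin m → Fin 14 → Fin m) := fun HW =>
    Fintype.piFinset (fun i => if i ∈ HW.1 then Fintype.piFinset (fun _ => HW.2) else univ)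
    with hBad
  set KS : Finset ℕ := (Finset.Icc 1 m).filter (fun k => 6 * k ≤ m) with hKS
  set P : ℕ → Finset (Finset (Fin m) × Finset (Fin m)) := fun k =>
    (univ : Finset (Fin m)).powersetCard k ×ˢ (univ : Finset (Fin m)).powersetCard (3 * k) with hP
  have hcover : (univ : Finset (Fin m → Fin 14 → Fin m)) ⊆
      KS.biUnion (fun k => (P k).biUnion Bad) := by
    intro F _
    obtain ⟨H, hH1, hH6, hW⟩ := hcon F
    obtain ⟨W, hTW, -, hWc⟩ := Finset.exists_subsuperset_card_eq (Finset.subset_univ (touched F H))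
      hW.le (by rw [Finset.card_univ, Fintype.card_fin]; omega)
    rw [Finset.mem_biUnion]
    refine ⟨H.card, ?_, ?_⟩
    · rw [hKS, Finset.mem_filter, Finset.mem_Icc]
      exact ⟨⟨hH1, by omega⟩, hH6⟩
    · rw [Finset.mem_biUnion]
      refine ⟨(H, W), ?_, ?_⟩
      · rw [hP, Finset.mem_product, Finset.mem_powersetCard, Finset.mem_powersetCard]
        exact ⟨⟨Finset.subset_univ _, rfl⟩, Finset.subset_univ _, hWc⟩
      · rw [hBad]
        simp only [Fintype.mem_piFinset]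
        intro i
        by_cases hi : i ∈ H
        · rw [if_pos hi, Fintype.mem_piFinset]
          intro j
          exact hTW (Finset.mem_biUnion.2 ⟨i, hi, Finset.mem_image_of_mem _ (Finset.mem_univ j)⟩)
        · rw [if_neg hi]; exact Finset.mem_univ _
  have hm0 : (0 : ℝ) < m := by exact_mod_cast hm
  have hcardBad : ∀ k, ∀ HW ∈ P k, ((Bad HW).card : ℝ) ≤
      ((m : ℝ) ^ 14) ^ m * (((3 * k : ℕ) : ℝ) / m) ^ (14 * k) := by
    rintro k ⟨H, W⟩ hHW
    rw [hP, Finset.mem_product, Finset.mem_powersetCard, Finset.mem_powersetCard] at hHW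
    obtain ⟨⟨_, hH⟩, _, hW⟩ := hHW
    simp only at hH hW
    have h1 : ((Bad (H, W)).card : ℝ) = ∏ i : Fin m, (if i ∈ H then ((W.card : ℝ)) ^ 14
        else (m : ℝ) ^ 14) := by
      rw [hBad, Fintype.card_piFinset]
      push_cast
      refine Finset.prod_congr rfl fun i _ => ?_
      by_cases hi : i ∈ H
      · simp [hi]
      · simp [hi]
    have h2 : ∀ i : Fin m, (if i ∈ H then ((W.card : ℝ)) ^ 14 else (m : ℝ) ^ 14) =
        (m : ℝ) ^ 14 * (if i ∈ H then (((3 * k : ℕ) : ℝ) / m) ^ 14 else 1) := by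
      intro i
      by_cases hi : i ∈ H
      · simp only [hi, if_true]
        rw [← mul_pow, hW]
        congr 1
        field_simp
      · simp [hi]
    rw [h1, Finset.prod_congr rfl (fun i _ => h2 i), Finset.prod_mul_distrib, Finset.prod_const,
      Finset.card_univ, Fintype.card_fin]
    apply le_of_eq
    congr 1
    rw [Finset.prod_ite]
    simp only [Finset.prod_const, one_pow, mul_one]
    rw [← pow_mul]
    have : (univ.filter (fun i : Fin m => i ∈ H)) = H := by ext; simp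
    rw [this, hH]
  have hTcard : ((univ : Finset (Fin m → Fin 14 → Fin m)).card : ℝ) = ((m : ℝ) ^ 14) ^ m := by
    simp
  have hT0 : (0 : ℝ) < ((m : ℝ) ^ 14) ^ m := by positivity
  have h1 : ((univ : Finset (Fin m → Fin 14 → Fin m)).card : ℝ) ≤
      ((m : ℝ) ^ 14) ^ m * (1 / 3) := by
    calc ((univ : Finset (Fin m → Fin 14 → Fin m)).card : ℝ)
        ≤ ((KS.biUnion (fun k => (P k).biUnion Bad)).card : ℝ) := by
          exact_mod_cast Finset.card_le_card hcover
      _ ≤ ∑ k ∈ KS, (((P k).biUnion Bad).card : ℝ) := by exact_mod_cast Finset.card_biUnion_le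
      _ ≤ ∑ k ∈ KS, ((m : ℝ) ^ 14) ^ m * (1 / 4) ^ k := by
          refine Finset.sum_le_sum fun k hk => ?_
          rw [hKS, Finset.mem_filter, Finset.mem_Icc] at hk
          calc (((P k).biUnion Bad).card : ℝ) ≤ ∑ HW ∈ P k, ((Bad HW).card : ℝ) := by
                exact_mod_cast Finset.card_biUnion_le
            _ ≤ ∑ HW ∈ P k, (((m : ℝ) ^ 14) ^ m * (((3 * k : ℕ) : ℝ) / m) ^ (14 * k)) :=
                Finset.sum_le_sum (hcardBad k)
            _ = ((m : ℝ) ^ 14) ^ m * ((m.choose k : ℝ) * (m.choose (3 * k) : ℝ) *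
                (((3 * k : ℕ) : ℝ) / m) ^ (14 * k)) := by
                rw [Finset.sum_const, nsmul_eq_mul, hP, Finset.card_product,
                  Finset.card_powersetCard, Finset.card_powersetCard, Finset.card_univ,
                  Fintype.card_fin]
                push_cast
                ring
            _ ≤ _ := mul_le_mul_of_nonneg_left (term_bound hm hk.1.1 hk.2) hT0.le
      _ = ((m : ℝ) ^ 14) ^ m * ∑ k ∈ KS, ((1 : ℝ) / 4) ^ k := by rw [Finset.mul_sum]
      _ ≤ ((m : ℝ) ^ 14) ^ m * (1 / 3) := by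
          apply mul_le_mul_of_nonneg_left _ hT0.le
          calc ∑ k ∈ KS, ((1 : ℝ) / 4) ^ k ≤ ∑ k ∈ Finset.Icc 1 m, ((1 : ℝ) / 4) ^ k :=
                Finset.sum_le_sum_of_subset_of_nonneg (Finset.filter_subset _ _)
                  (fun k _ _ => by positivity)
            _ ≤ 1 / 3 - (1 / 3) * (1 / 4) ^ m := geom_quarter m
            _ ≤ 1 / 3 := by
                have : (0 : ℝ) ≤ (1 / 3) * (1 / 4) ^ m := by positivity
                linarith
  rw [hTcard] at h1
  linarith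

/-- The scopes used below. -/
theorem scopes2 (Q m' : ℕ) (hQ : 6 ≤ Q) (hm : 1 ≤ m') :
    ∃ s : Fin (Q * m') → Fin (2 * Q ^ 2 + 14 + 1) → Fin (Q * m'), (∀ i, s i 0 = i) ∧
      (∀ H : Finset (Fin (Q * m')), m' ≤ H.card → Q * m' - (touched s H).card ≤ m') ∧
      ∀ H : Finset (Fin (Q * m')), 1 ≤ H.card → H.card < m' →
        3 * H.card ≤ (touched s H).card := by
  have hQm : 1 ≤ Q * m' := Nat.one_le_iff_ne_zero.2 (by positivity)
  obtain ⟨F, hF⟩ := expander Q (Q * m') (by omega) hQm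
  obtain ⟨G, hG⟩ := expander2 (Q * m') hQm
  have hsubF : ∀ H : Finset (Fin (Q * m')), touched F H ⊆
      touched (fun i => (Fin.cons i (Fin.append (F i) (G i)) :
      Fin (2 * Q ^ 2 + 14 + 1) → Fin (Q * m'))) H := by
    intro H v hv
    unfold touched at hv ⊢
    obtain ⟨i, hi, hvi⟩ := Finset.mem_biUnion.1 hv
    obtain ⟨j, _, rfl⟩ := Finset.mem_image.1 hvi
    refine Finset.mem_biUnion.2 ⟨i, hi, Finset.mem_image.2
      ⟨(Fin.castAdd 14 j).succ, Finset.mem_univ _, ?_⟩⟩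
    show (Fin.cons i (Fin.append (F i) (G i)) : Fin (2 * Q ^ 2 + 14 + 1) → Fin (Q * m'))
      (Fin.castAdd 14 j).succ = F i j
    rw [Fin.cons_succ, Fin.append_left]
  have hsubG : ∀ H : Finset (Fin (Q * m')), touched G H ⊆
      touched (fun i => (Fin.cons i (Fin.append (F i) (G i)) :
      Fin (2 * Q ^ 2 + 14 + 1) → Fin (Q * m'))) H := by
    intro H v hv
    unfold touched at hv ⊢
    obtain ⟨i, hi, hvi⟩ := Finset.mem_biUnion.1 hv
    obtain ⟨j, _, rfl⟩ := Finset.mem_image.1 hvi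
    refine Finset.mem_biUnion.2 ⟨i, hi, Finset.mem_image.2
      ⟨(Fin.natAdd (2 * Q ^ 2) j).succ, Finset.mem_univ _, ?_⟩⟩
    show (Fin.cons i (Fin.append (F i) (G i)) : Fin (2 * Q ^ 2 + 14 + 1) → Fin (Q * m'))
      (Fin.natAdd (2 * Q ^ 2) j).succ = G i j
    rw [Fin.cons_succ, Fin.append_right]
  refine ⟨fun i => Fin.cons i (Fin.append (F i) (G i)), fun i => rfl, fun H hH => ?_,
    fun H hH1 hH2 => ?_⟩
  · have h1 := hF H (Nat.mul_le_mul_left Q hH)
    have h2 := Finset.card_le_card (hsubF H)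
    have h3 : (Q - 1) * (Q * m') = Q * ((Q - 1) * m') := by ring
    rw [h3] at h1
    have h4 := Nat.le_of_mul_le_mul_left h1 (by omega : 0 < Q)
    have h5 : (Q - 1) * m' + m' = Q * m' := by
      rw [← Nat.succ_mul]; congr 1; omega
    omega
  · have h1 : 6 * H.card ≤ Q * m' := Nat.mul_le_mul hQ hH2.le
    exact (hG H hH1 h1).trans (Finset.card_le_card (hsubG H))

end H592R3
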