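import Mathlib
import Pool.Agent.H592R3.AmArith

/-!
The lower bound for interactive proofs of unsatisfiability of the planted constraint satisfaction
problem.
-/

namespace H592R3

open Finset DomAC0 H568R2 SmallDepth

section GMap
variable {J J' : Type}

/-- Rename the inputs of all circuits of a game. -/
noncomputable def gmap (φ : J → J') : Game J → Game J'
  | .verify C => .verify (mapIn φ C)
  | .merlin k next => .merlin k (fun z => gmap φ (next z))
  | .arthur N p next => .arthur N p (fun i => gmap φ (next i))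

lemma gmap_value (φ : J → J') (x : J' → Bool) : ∀ G : Game J,
    (gmap φ G).value x = G.value (fun j => x (φ j)) := by
  intro G
  induction G with
  | verify C => simp only [gmap, Game.value, mapIn_eval]
  | merlin k next ih => simp only [gmap, Game.value, ih]
  | arthur N p next ih => simp only [gmap, Game.value, ih]

lemma gmap_bounded (φ : J → J') {d S : ℕ} : ∀ (G : Game J) (g : ℕ), G.Bounded d S g →
    (gmap φ G).Bounded d S g := by
  intro G
  induction G with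
  | verify C =>
    intro g hG
    exact ⟨(mapIn_depth φ C).trans hG.1, hG.2⟩
  | merlin k next ih =>
    intro g hG
    exact ⟨hG.1, fun z => ih z _ (hG.2 z)⟩
  | arthur N p next ih =>
    intro g hG
    exact ⟨hG.1, hG.2.1, fun i => ih i _ (hG.2.2 i)⟩

end GMap

open Classical in
/-- The lower bound for interactive proofs of unsatisfiability of the constraint satisfaction
problem. -/
theorem csp_game (Q d m' b k g e : ℕ) (hQ : 6 ≤ Q) (hd : 1 ≤ d) (hm' : 2 ≤ m')
    (he : e = d * (E1 Q * m' + k))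
    (hA : 2 * (12 * (2 * e)) ^ 16 ≤ 2 ^ b)
    (hB1 : 4 * e ≤ m' * (d * b))
    (hB2 : 4 * Q + 8 + 16 * m' ≤ d * b)
    (hg : 2 * (g + 2) ≤ d * b * k)
    (s : Fin (Q * m') → Fin (2 * Q ^ 2 + 14 + 1) → Fin (Q * m')) (hs : ∀ i, s i 0 = i)
    (hexp : ∀ H : Finset (Fin (Q * m')), m' ≤ H.card → Q * m' - (touched s H).card ≤ m')
    (hsm : ∀ H : Finset (Fin (Q * m')), 1 ≤ H.card → H.card < m' →
        3 * H.card ≤ (touched s H).card)
    {J : Type} (G : Game J) {S : ℕ} (hG : G.Bounded d S g)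
    (σ : ((Fin (Q * m') × (Fin (2 * Q ^ 2 + 14 + 1) → Fin (2 ^ (2 * d * b)))) → Bool) →
      (J → Bool))
    (hσ : ∀ j, Junta 1 (fun x => σ x j))
    (hyes : ∀ X, ¬ Sat s X → 2 / 3 ≤ G.value (σ X))
    (hno : ∀ X, AtMostOne s X → Sat s X → G.value (σ X) ≤ 1 / 3) :
    2 ^ ((2 * Q - 12) * (d * b * m')) < S := by
  by_contra hcon
  push Not at hcon
  obtain ⟨φ, hφ⟩ : ∃ φ : J → Option (Fin (Q * m') ×
      (Fin (2 * Q ^ 2 + 14 + 1) → Fin (2 ^ (2 * d * b)))) × Bool,
      ∀ j X, σ X j = std X (φ j) := by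
    choose φ hφ using fun j => junta_std (hσ j)
    exact ⟨φ, hφ⟩
  have hev : ∀ X, (gmap φ G).value (std X) = G.value (σ X) := by
    intro X
    rw [gmap_value]
    congr 1
    funext j
    exact (hφ j X).symm
  have hn1 : 1 ≤ 2 ^ (2 * d * b) := Nat.one_le_two_pow
  have hE : 1 ≤ E1 Q := by unfold E1; omega
  have hm'e : m' ≤ e := by
    rw [he]
    calc m' = 1 * (1 * m') := by ring
      _ ≤ d * (E1 Q * m' + k) := Nat.mul_le_mul hd
          ((Nat.mul_le_mul_right m' hE).trans (Nat.le_add_right _ _))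
  have hQe : Q * m' ≤ e := by
    rw [he]
    calc Q * m' ≤ E1 Q * m' := Nat.mul_le_mul_right _ (by unfold E1 E0; omega)
      _ ≤ E1 Q * m' + k := Nat.le_add_right _ _
      _ = 1 * (E1 Q * m' + k) := (one_mul _).symm
      _ ≤ d * (E1 Q * m' + k) := Nat.mul_le_mul_right _ hd
  have he1 : 1 ≤ e := by omega
  have hτ3 : 3 ≤ 2 ^ b := by
    refine le_trans ?_ hA
    have h2 : 12 * (2 * e) ≤ (12 * (2 * e)) ^ 16 := Nat.le_self_pow (by norm_num) _
    omega
  obtain ⟨T, hT⟩ : ∃ T : ℝ, T = (2 : ℝ) ^ (d * b) := ⟨_, rfl⟩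
  have hT0 : 0 < T := by rw [hT]; positivity
  have hT1 : 1 ≤ T := by rw [hT]; exact one_le_pow₀ (by norm_num)
  have hTτ : T = ((2 ^ b : ℕ) : ℝ) ^ d := by rw [hT]; push_cast; rw [← pow_mul, mul_comm]
  have hnT : ((2 ^ (2 * d * b) : ℕ) : ℝ) = T ^ 2 := by
    rw [hT, ← pow_mul]; push_cast; congr 1; ring
  have hq : (1 / ((2 ^ b : ℕ) : ℝ)) ^ d = 1 / T := by rw [one_div_pow, hTτ]
  have hτT : ((2 ^ b : ℕ) : ℝ) ≤ T := by
    have h2 : 2 ^ b ≤ 2 ^ (d * b) :=
      Nat.pow_le_pow_right (by norm_num) (Nat.le_mul_of_pos_left b (by omega))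
    rw [hT]
    exact_mod_cast h2
  have hAT : 2 * (12 * ((2 * e : ℕ) : ℝ)) ^ 16 ≤ T := by
    refine le_trans ?_ hτT
    exact_mod_cast hA
  have heR : (1 : ℝ) ≤ e := by exact_mod_cast he1
  have h24 : 12 * ((2 * e : ℕ) : ℝ) = 24 * e := by push_cast; ring
  have h12 : 24 * (e : ℝ) ≤ (24 * (e : ℝ)) ^ 16 := by
    calc 24 * (e : ℝ) = (24 * (e : ℝ)) ^ 1 := (pow_one _).symm
      _ ≤ (24 * (e : ℝ)) ^ 16 := pow_le_pow_right₀ (by linarith only [heR]) (by norm_num)
  have hAT' : 2 * (24 * (e : ℝ)) ^ 16 ≤ T := by rw [← h24]; exact hAT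
  have hQeR : ((Q * m' : ℕ) : ℝ) ≤ e := by exact_mod_cast hQe
  have hm'eR : (m' : ℝ) ≤ e := by exact_mod_cast hm'e
  have h8 : 8 * (((Q * m' : ℕ) : ℝ)) ≤ T := by linarith only [hQeR, hAT', h12, heR]
  have hT2 : 2 ≤ T := by linarith only [hAT', h12, heR]
  have hB2T : (2 : ℝ) ^ (4 * Q + 8 + 16 * m') ≤ T := by
    rw [hT]
    exact pow_le_pow_right₀ (by norm_num) hB2
  have hQm : 1 ≤ Q * m' := Nat.one_le_iff_ne_zero.2 (by positivity)
  have hbad := bad_small (Q * m') T h8 hQm _ hnT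
  have hbig : 4 * ((2 * e : ℕ) : ℝ) * m' * 2 ^ m' * ((Q * m' : ℕ) : ℝ) ≤ T := by
    have h3 : 4 * ((2 * e : ℕ) : ℝ) * m' * 2 ^ m' * ((Q * m' : ℕ) : ℝ) ≤
        8 * (e : ℝ) ^ 3 * 2 ^ m' := by
      calc 4 * ((2 * e : ℕ) : ℝ) * m' * 2 ^ m' * ((Q * m' : ℕ) : ℝ) =
          8 * ((e : ℝ) * m' * ((Q * m' : ℕ) : ℝ)) * 2 ^ m' := by push_cast; ring
        _ ≤ 8 * ((e : ℝ) * e * e) * 2 ^ m' := by gcongr
        _ = 8 * (e : ℝ) ^ 3 * 2 ^ m' := by ring
    refine h3.trans ?_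
    have h4 : (8 * (e : ℝ) ^ 3 * 2 ^ m') ^ 2 ≤ T ^ 2 := by
      rw [mul_pow, pow_two T]
      apply mul_le_mul _ _ (by positivity) hT0.le
      · calc (8 * (e : ℝ) ^ 3) ^ 2 = 64 * (e : ℝ) ^ 6 := by ring
          _ ≤ 24 ^ 16 * (e : ℝ) ^ 16 := by
              apply mul_le_mul (by norm_num) (pow_le_pow_right₀ heR (by norm_num))
                (by positivity) (by norm_num)
          _ = (24 * (e : ℝ)) ^ 16 := (mul_pow _ _ _).symm
          _ ≤ T := by
            have : (0 : ℝ) ≤ (24 * (e : ℝ)) ^ 16 := by positivity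
            linarith only [this, hAT']
      · refine le_trans ?_ hB2T
        rw [← pow_mul]
        exact pow_le_pow_right₀ (by norm_num) (by omega)
    exact (pow_le_pow_iff_left₀ (by positivity) hT0.le (by norm_num)).1 h4
  have hBs := small_sum (h := 2 * e) (L := m') s hT1 hnT hsm hbig
  have hSR : (S : ℝ) ≤ T ^ ((2 * Q - 12) * m') := by
    rw [hT, ← pow_mul]
    have : (S : ℝ) ≤ ((2 ^ ((2 * Q - 12) * (d * b * m')) : ℕ) : ℝ) := by exact_mod_cast hcon
    refine this.trans (le_of_eq ?_)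
    push_cast
    congr 1
    ring
  have hfirst := first_term Q m' e S hm' hQ T he1 hm'e hAT (by
      rw [hT, ← pow_mul, ← pow_mul]
      apply pow_le_pow_right₀ (by norm_num)
      rw [mul_comm (d * b) m']
      omega) hB2T hSR
  obtain ⟨X, hX⟩ : ∃ X : ℝ, X = (T ^ 2) ^ (Q * m') := ⟨_, rfl⟩
  have hX0 : 0 < X := by rw [hX]; positivity
  have hctb : S * 2 ^ (Q * m') * ((2 * T ^ 4) ^ (2 * m') * (2 ^ (2 * e) *
      (ctb (2 * e) m' (2 ^ (2 * d * b)) m' : ℝ))) ≤ X / T := by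
    rw [hX]
    refine le_trans (le_of_eq ?_) hfirst
    unfold ctb
    push_cast
    have hnT' : (2 : ℝ) ^ (2 * d * b) = T ^ 2 := by
      rw [← hnT]; push_cast; rfl
    rw [hnT']
  have hctb0 : 0 ≤ S * 2 ^ (Q * m') * ((2 * T ^ 4) ^ (2 * m') * (2 ^ (2 * e) *
      (ctb (2 * e) m' (2 ^ (2 * d * b)) m' : ℝ))) := by positivity
  have hXT : X / T + X / T ≤ X := by
    rw [← add_div, div_le_iff₀ hT0]
    have := mul_le_mul_of_nonneg_left hT2 hX0.le
    linarith only [this]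
  have hcore := game_core (m := Q * m') (n := 2 ^ (2 * d * b)) (r := 2 * Q ^ 2 + 14) hn1 hQm s hs
    (gmap φ G) (fun X => std X) std_junta (h := 2 * e) (by omega) (d := d) (τ := 2 ^ b) hτ3
    (gmap_bounded φ G g hG) (L := m') (u := m') hm' hexp (y := 1 / T ^ 3) (q := 1 / T)
    (c := 2 * T ^ 4) (by positivity) (by
      rw [div_le_one (by positivity)]; exact one_le_pow₀ hT1) hq.symm (by
      apply le_of_eq; field_simp) (by
      have : 1 ≤ T ^ 4 := one_le_pow₀ hT1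
      linarith only [this]) (le_refl _) hBs (by
      rw [← hX, hnT, ← hX]
      linarith only [hctb, hXT]) k hbad (by
      intro X hX
      rw [hev]
      exact hyes X hX) (by
      intro X hX hX'
      rw [hev]
      exact hno X hX hX')
  have hJc : (Fintype.card (Option (Fin (Q * m') ×
      (Fin (2 * Q ^ 2 + 14 + 1) → Fin (2 ^ (2 * d * b)))) × Bool) : ℝ) =
      (Q * m' * (T ^ 2) ^ (2 * Q ^ 2 + 14 + 1) + 1) * 2 := by
    rw [Fintype.card_prod, Fintype.card_option, Fintype.card_prod, Fintype.card_fun,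
      Fintype.card_fin, Fintype.card_fin, Fintype.card_fin, Fintype.card_bool]
    rw [← hnT]
    push_cast
    ring
  rw [hnT] at hcore
  refine am_arith Q d m' k g S _ e hQ hd hm' T ((2 ^ b : ℕ) : ℝ) hTτ he (by exact_mod_cast hA)
    hB2T ?_ hSR hJc
    (S * 2 ^ (Q * m') * ((2 * T ^ 4) ^ (2 * m') * (2 ^ (2 * e) *
      (ctb (2 * e) m' (2 ^ (2 * d * b)) m' : ℝ))) + (T ^ 2) ^ (Q * m') / T) ?_ ?_ hcore
  · rw [hT, ← pow_mul, ← pow_mul]
    apply pow_le_pow_right₀ (by norm_num)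
    omega
  · rw [← hX]; positivity
  · rw [← hX]
    linarith only [hctb]

end H592R3
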