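import Mathlib
import Pool.Agent.H592R3.AmArith
import Pool.Agent.H592R3.MobCore

/-!
The arithmetic for interactive proofs (version with Moebius coefficients).
-/

namespace H592R3.Mb2

open Finset DomAC0 H568R2 SmallDepth

open Classical in
lemma small_sum {m h L : ℕ} {r n : ℕ} (s : Fin m → Fin r → Fin m) {T : ℝ} (hT1 : 1 ≤ T)
    (hn : (n : ℝ) = T ^ 2)
    (hsm : ∀ H : Finset (Fin m), 1 ≤ H.card → H.card < L → 3 * H.card ≤ (touched s H).card)
    (hbig : 8 * (h : ℝ) * L * m ≤ T) :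
    ∑ H ∈ univ.filter (fun H : Finset (Fin m) => 1 ≤ H.card ∧ H.card < L),
      (2 * T ^ 4) ^ H.card * (((2 * h) ^ H.card *
        (H.card ^ H.card * n ^ (m - (touched s H).card)) : ℕ) : ℝ) ≤ (T ^ 2) ^ m / T := by
  have hT0 : 0 < T := by linarith
  obtain ⟨z, hz⟩ : ∃ z : ℝ, z = 4 * h * L / T ^ 2 := ⟨_, rfl⟩
  have hz0 : 0 ≤ z := by rw [hz]; positivity
  have hterm : ∀ H ∈ univ.filter (fun H : Finset (Fin m) => 1 ≤ H.card ∧ H.card < L),
      (2 * T ^ 4) ^ H.card * (((2 * h) ^ H.card *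
        (H.card ^ H.card * n ^ (m - (touched s H).card)) : ℕ) : ℝ) ≤
      (T ^ 2) ^ m * z ^ H.card := by
    intro H hH
    rw [Finset.mem_filter] at hH
    obtain ⟨_, hH1, hH2⟩ := hH
    have h3 := hsm H hH1 hH2
    have h4 : (touched s H).card ≤ m := by
      have := Finset.card_le_univ (touched s H)
      rwa [Fintype.card_fin] at this
    push_cast
    rw [hn]
    have hT2 : 1 ≤ T ^ 2 := one_le_pow₀ hT1
    have h5 : (T ^ 2) ^ (m - (touched s H).card) ≤ (T ^ 2) ^ (m - 3 * H.card) :=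
      pow_le_pow_right₀ hT2 (by omega)
    have h6 : (T ^ 2) ^ m = (T ^ 2) ^ (m - 3 * H.card) * (T ^ 6) ^ H.card := by
      rw [← pow_mul T 6, ← pow_mul T 2, ← pow_mul T 2, ← pow_add]
      congr 1
      omega
    have h7 : (2 * (h : ℝ)) ^ H.card * ((H.card : ℝ) ^ H.card) ≤
        (2 * (h : ℝ) * L) ^ H.card := by
      rw [← mul_pow]
      apply pow_le_pow_left₀ (by positivity)
      have e2 : (H.card : ℝ) ≤ L := by exact_mod_cast hH2.le
      gcongr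
    calc (2 * T ^ 4) ^ H.card * ((2 * (h : ℝ)) ^ H.card *
          ((H.card : ℝ) ^ H.card * (T ^ 2) ^ (m - (touched s H).card)))
        = (2 * T ^ 4) ^ H.card * (((2 * (h : ℝ)) ^ H.card *
          ((H.card : ℝ) ^ H.card)) * (T ^ 2) ^ (m - (touched s H).card)) := by ring
      _ ≤ (2 * T ^ 4) ^ H.card * ((2 * (h : ℝ) * L) ^ H.card *
          (T ^ 2) ^ (m - 3 * H.card)) := by gcongr
      _ = (T ^ 2) ^ (m - 3 * H.card) * ((T ^ 6) * z) ^ H.card := by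
          rw [hz]
          rw [show T ^ 6 * (4 * h * L / T ^ 2) = (2 * T ^ 4) * (2 * (h : ℝ) * L) by
            field_simp; ring]
          rw [mul_pow (2 * T ^ 4) (2 * (h : ℝ) * L)]
          ring
      _ = (T ^ 2) ^ m * z ^ H.card := by rw [h6, mul_pow]; ring
  refine (Finset.sum_le_sum hterm).trans ?_
  rw [← Finset.mul_sum]
  have h8 : ∑ H ∈ univ.filter (fun H : Finset (Fin m) => 1 ≤ H.card ∧ H.card < L), z ^ H.card ≤
      (1 + z) ^ m - 1 := by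
    have h9 : ∑ H : Finset (Fin m), z ^ H.card = (1 + z) ^ m := by
      have := Fintype.sum_pow_mul_eq_add_pow (Fin m) z (1 : ℝ)
      simp only [one_pow, mul_one, Fintype.card_fin] at this
      rw [this, add_comm]
    have h10 : ∑ H ∈ univ.filter (fun H : Finset (Fin m) => 1 ≤ H.card ∧ H.card < L),
        z ^ H.card + z ^ (∅ : Finset (Fin m)).card ≤ ∑ H : Finset (Fin m), z ^ H.card := by
      rw [add_comm, ← Finset.sum_insert (f := fun H : Finset (Fin m) => z ^ H.card)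
        (s := univ.filter (fun H : Finset (Fin m) => 1 ≤ H.card ∧ H.card < L)) (a := ∅)
        (by simp)]
      exact Finset.sum_le_sum_of_subset_of_nonneg (Finset.subset_univ _)
        (fun H _ _ => by positivity)
    rw [h9] at h10
    simp only [Finset.card_empty, pow_zero] at h10
    linarith
  have h11 : z * m ≤ 1 / (2 * T) := by
    rw [hz, div_mul_eq_mul_div, div_le_div_iff₀ (by positivity) (by positivity)]
    have : 4 * (h : ℝ) * L * m * (2 * T) = (8 * (h : ℝ) * L * m) * T := by ring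
    rw [this]
    calc (8 * (h : ℝ) * L * m) * T ≤ T * T := mul_le_mul_of_nonneg_right hbig hT0.le
      _ = 1 * T ^ 2 := by ring
  have h12 : z * m ≤ 1 / 2 := by
    refine h11.trans ?_
    apply one_div_le_one_div_of_le (by norm_num)
    linarith
  have h13 := pow_one_add_le hz0 m h12
  rw [div_eq_mul_one_div]
  apply mul_le_mul_of_nonneg_left _ (by positivity)
  have h14 : 2 * (1 / (2 * T)) = 1 / T := by field_simp
  linarith

/-- The bound of the first term. -/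
lemma first_term (Q m' e S : ℕ) (hm' : 2 ≤ m') (hQ : 6 ≤ Q) (T : ℝ) (he1 : 1 ≤ e) (hm'e : m' ≤ e)
    (hA : 2 * (12 * (2 * e : ℕ) : ℝ) ^ 16 ≤ T)
    (hB1 : ((2 : ℝ) ^ (2 * e)) ^ 2 ≤ T ^ m')
    (hB2 : (2 : ℝ) ^ (4 * Q + 8) ≤ T)
    (hS : (S : ℝ) ≤ T ^ ((2 * Q - 12) * m')) :
    S * 2 ^ (Q * m') * ((2 * T ^ 4) ^ (2 * m') * (2 ^ (2 * e) *
      ((2 * ((2 * e : ℕ) : ℝ) * (2 * m')) ^ (2 * m') *
        (T ^ 2) ^ m'))) ≤ (T ^ 2) ^ (Q * m') / T := by
  obtain ⟨W, hW⟩ : ∃ W : ℝ, W = 12 * ((2 * e : ℕ) : ℝ) := ⟨_, rfl⟩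
  rw [← hW] at hA
  have heR : (1 : ℝ) ≤ e := by exact_mod_cast he1
  have hW24 : W = 24 * e := by rw [hW]; push_cast; ring
  have hW1 : 24 ≤ W := by rw [hW24]; linarith only [heR]
  have hW16 : W ≤ W ^ 16 := by
    calc W = W ^ 1 := (pow_one _).symm
      _ ≤ W ^ 16 := pow_le_pow_right₀ (by linarith only [hW1]) (by norm_num)
  have hT1 : 1 ≤ T := by linarith only [hA, hW16, hW1]
  have hT0 : 0 < T := by linarith only [hT1]
  obtain ⟨v, hv⟩ : ∃ v : ℝ, v = 2 * ((2 * e : ℕ) : ℝ) * (2 * m') := ⟨_, rfl⟩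
  obtain ⟨Z, hZ⟩ : ∃ Z : ℝ, Z = 2 ^ (Q + 2) * v ^ 2 := ⟨_, rfl⟩
  have hv0 : 0 ≤ v := by rw [hv]; positivity
  have hZ0 : 0 ≤ Z := by rw [hZ]; positivity
  have hZT : Z ^ 2 ≤ T := by
    have hm'eR : (m' : ℝ) ≤ e := by exact_mod_cast hm'e
    have hv2 : v ≤ W ^ 2 := by
      have h1 : (e : ℝ) * m' ≤ e * e := mul_le_mul_of_nonneg_left hm'eR (by positivity)
      have h2 : (0 : ℝ) ≤ e * e := by positivity
      have h3 : v = 8 * ((e : ℝ) * m') := by rw [hv]; push_cast; ring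
      have h4 : W ^ 2 = 576 * ((e : ℝ) * e) := by rw [hW24]; ring
      rw [h3, h4]
      linarith only [h1, h2]
    have h1 : (Z ^ 2) ^ 2 ≤ T ^ 2 := by
      calc (Z ^ 2) ^ 2 = (2 ^ (Q + 2)) ^ 4 * v ^ 8 := by rw [hZ]; ring
        _ ≤ (2 ^ (Q + 2)) ^ 4 * (W ^ 2) ^ 8 := by gcongr
        _ = W ^ 16 * 2 ^ (4 * Q + 8) := by
            rw [← pow_mul, ← pow_mul,
              show 4 * Q + 8 = (Q + 2) * 4 by ring]
            ring
        _ ≤ T * T := by
            have : W ^ 16 ≤ T := by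
              have h5 : 0 ≤ W ^ 16 := by positivity
              linarith only [hA, h5]
            exact mul_le_mul this hB2 (by positivity) hT0.le
        _ = T ^ 2 := by ring
    exact (pow_le_pow_iff_left₀ (by positivity) hT0.le (by norm_num)).1 h1
  have e1 : S * 2 ^ (Q * m') * ((2 * T ^ 4) ^ (2 * m') * (2 ^ (2 * e) *
      ((2 * ((2 * e : ℕ) : ℝ) * (2 * m')) ^ (2 * m') *
        (T ^ 2) ^ m'))) = S * (T ^ (10 * m') * (2 ^ (2 * e) * Z ^ m')) := by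
    have h1 : ((2 : ℝ) ^ (Q + 2)) ^ m' = 2 ^ (Q * m') * 2 ^ (2 * m') := by
      rw [← pow_mul, ← pow_add]; congr 1; ring
    have h2 : (v ^ 2) ^ m' = v ^ (2 * m') := by rw [← pow_mul]
    have h3 : (T ^ 4) ^ (2 * m') * (T ^ 2) ^ m' = T ^ (10 * m') := by
      rw [← pow_mul, ← pow_mul, ← pow_add]; congr 1; ring
    rw [hZ, mul_pow (2 ^ (Q + 2)) (v ^ 2) m', h1, h2, ← h3, ← hv, mul_pow 2 (T ^ 4)]
    generalize v ^ (2 * m') = a1
    generalize (T ^ 4) ^ (2 * m') = a2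
    generalize (T ^ 2) ^ m' = a3
    generalize (2 : ℝ) ^ (Q * m') = a4
    generalize (2 : ℝ) ^ (2 * e) = a5
    generalize (2 : ℝ) ^ (2 * m') = a6
    ring
  rw [e1, le_div_iff₀ hT0]
  have e2 : 2 ^ (2 * e) * Z ^ m' ≤ T ^ m' := by
    have h1 : (2 ^ (2 * e) * Z ^ m') ^ 2 ≤ (T ^ m') ^ 2 := by
      rw [mul_pow, pow_two (T ^ m'), ← pow_mul Z m' 2, mul_comm m' 2, pow_mul Z 2 m']
      exact mul_le_mul hB1 (pow_le_pow_left₀ (by positivity) hZT _) (by positivity)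
        (by positivity)
    exact (pow_le_pow_iff_left₀ (by positivity) (by positivity) (by norm_num)).1 h1
  calc S * (T ^ (10 * m') * (2 ^ (2 * e) * Z ^ m')) * T ≤
      T ^ ((2 * Q - 12) * m') * (T ^ (10 * m') * T ^ m') * T ^ m' := by
        have e3 : T ≤ T ^ m' := by
          calc T = T ^ 1 := (pow_one _).symm
            _ ≤ T ^ m' := pow_le_pow_right₀ hT1 (by omega)
        gcongr
    _ = (T ^ 2) ^ (Q * m') := by
        rw [← pow_mul, ← pow_add, ← pow_add, ← pow_add]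
        congr 1
        have h1 : (2 * Q - 12) * m' + 12 * m' = 2 * Q * m' := by
          rw [← Nat.add_mul]; congr 1; omega
        have h2 : 2 * (Q * m') = 2 * Q * m' := by ring
        omega

lemma am_arith (Q d m' k g S Jc e : ℕ) (hQ : 6 ≤ Q) (hd : 1 ≤ d) (hm' : 2 ≤ m')
    (T τ : ℝ) (hT : T = τ ^ d) (he : e = d * (E1 Q * m' + k))
    (hA : 2 * (12 * (2 * e : ℕ) : ℝ) ^ 16 ≤ τ)
    (hB2 : (2 : ℝ) ^ (4 * Q + 8) ≤ T)
    (hg : ((2 : ℝ) ^ (g + 2)) ^ 2 ≤ T ^ k)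
    (hS : (S : ℝ) ≤ T ^ ((2 * Q - 12) * m'))
    (hJ : (Jc : ℝ) = (Q * m' * (T ^ 2) ^ (2 * Q ^ 2 + 14 + 1) + 1) * 2)
    (P : ℝ) (hP0 : 0 ≤ P) (hP : P ≤ 2 * ((T ^ 2) ^ (Q * m') / T))
    (hmain : ((T ^ 2) ^ (Q * m') / 6) ^ k ≤
      2 ^ g * (P ^ k + k * ((T ^ 2) ^ (Q * m')) ^ k *
        ((S * ((Jc + S + 1 : ℕ) : ℝ) + 1) * 2 ^ (Q * m') * (2 * T ^ 4) ^ (2 * m')) *
      (d * ((S * (Jc + S + 1) : ℕ) : ℝ) *
      (12 * (2 * e : ℕ) * (1 / τ)) ^ (2 * e + 1)))) : False := by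
  obtain ⟨W, hW⟩ : ∃ W : ℝ, W = 12 * ((2 * e : ℕ) : ℝ) := ⟨_, rfl⟩
  rw [← hW] at hmain hA
  have hE2 : 1 ≤ E1 Q := by unfold E1; omega
  have hdm : d * m' ≤ e := by
    rw [he]
    apply Nat.mul_le_mul_left
    exact (Nat.le_mul_of_pos_left m' (by omega)).trans (Nat.le_add_right _ _)
  have heQ : Q * m' ≤ e := by
    rw [he]
    calc Q * m' ≤ E1 Q * m' := Nat.mul_le_mul_right _ (by unfold E1 E0; omega)
      _ ≤ E1 Q * m' + k := Nat.le_add_right _ _
      _ = 1 * (E1 Q * m' + k) := (one_mul _).symm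
      _ ≤ d * (E1 Q * m' + k) := Nat.mul_le_mul_right _ hd
  have hde0 : d ≤ e := (Nat.le_mul_of_pos_right d (by omega)).trans hdm
  have he1 : 1 ≤ e := by omega
  have heR : (1 : ℝ) ≤ e := by exact_mod_cast he1
  have hW24 : W = 24 * e := by rw [hW]; push_cast; ring
  have hW1 : 24 ≤ W := by rw [hW24]; linarith only [heR]
  have hdR : (1 : ℝ) ≤ d := by exact_mod_cast hd
  have heQR : (Q : ℝ) * m' ≤ e := by exact_mod_cast heQ
  have hW16 : W ≤ W ^ 16 := by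
    calc W = W ^ 1 := (pow_one _).symm
      _ ≤ W ^ 16 := pow_le_pow_right₀ (by linarith only [hW1]) (by norm_num)
  have hτ1 : 1 ≤ τ := by linarith only [hA, hW16, hW1]
  have hτ0 : 0 < τ := by linarith only [hτ1]
  have hWτ : W ≤ τ := by linarith only [hA, hW16, hW1]
  have hτT : τ ≤ T := by
    rw [hT]
    calc τ = τ ^ 1 := (pow_one _).symm
      _ ≤ τ ^ d := pow_le_pow_right₀ hτ1 hd
  have hT1 : 1 ≤ T := by linarith only [hτT, hτ1]
  have hT0 : 0 < T := by linarith only [hT1]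
  have hW2 : W ^ 2 ≤ W ^ 16 := pow_le_pow_right₀ (by linarith only [hW1]) (by norm_num)
  have hT576 : 576 ≤ T := by
    have : (24 : ℝ) ^ 2 ≤ W ^ 2 := pow_le_pow_left₀ (by norm_num) hW1 2
    linarith only [this, hW2, hA, hτT]
  have h8Q : 8 * ((Q : ℝ) * m') ≤ T := by linarith only [heQR, hW24, hWτ, hτT, heR]
  obtain ⟨X, hX⟩ : ∃ X : ℝ, X = (T ^ 2) ^ (Q * m') := ⟨_, rfl⟩
  rw [← hX] at hmain hP
  have hX0 : 0 < X := by rw [hX]; positivity
  obtain ⟨a, ha⟩ : ∃ a : ℝ, a = X / 6 := ⟨_, rfl⟩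
  rw [← ha] at hmain
  have ha0 : 0 < a := by rw [ha]; positivity
  have hXa : X = 6 * a := by rw [ha]; ring
  have h2Q : ((2 : ℝ) ^ (Q * m')) * 2 ^ (2 * m') ≤ T ^ m' := by
    rw [← pow_add, show Q * m' + 2 * m' = (Q + 2) * m' by ring, pow_mul]
    apply pow_le_pow_left₀ (by positivity)
    refine le_trans ?_ hB2
    exact pow_le_pow_right₀ (by norm_num) (by omega)
  obtain ⟨hSN, hR2b⟩ := size_bounds Q m' S Jc _ T hT576 hm' h8Q hS hJ h2Q
  have hE0e : 4 * Q + 2 * (2 * Q ^ 2 + 14 + 1) + 13 = E0 Q := rfl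
  rw [hE0e] at hSN hR2b
  obtain ⟨N2, hN2⟩ : ∃ N2, N2 = S * (Jc + S + 1) := ⟨_, rfl⟩
  rw [← hN2] at hSN hmain
  obtain ⟨R2, hR2⟩ : ∃ R2 : ℝ, R2 = (S * ((Jc + S + 1 : ℕ) : ℝ) + 1) * 2 ^ (Q * m') *
    (2 * T ^ 4) ^ (2 * m') := ⟨_, rfl⟩
  rw [← hR2] at hR2b hmain
  have hR20 : 0 ≤ R2 := by rw [hR2]; positivity
  obtain ⟨ε, hε⟩ : ∃ ε : ℝ, ε = d * (N2 : ℝ) * (W * (1 / τ)) ^ (2 * e + 1) := ⟨_, rfl⟩
  rw [← hε] at hmain
  have hW0 : 0 ≤ W := by linarith only [hW1]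
  have hε0 : 0 ≤ ε := by rw [hε]; positivity
  have hg12 : (2 : ℝ) ^ (g + 2) * 12 ^ k ≤ T ^ k := by
    have h4 : ((2 : ℝ) ^ (g + 2) * 12 ^ k) ^ 2 ≤ (T ^ k) ^ 2 := by
      rw [mul_pow, pow_two (T ^ k)]
      apply mul_le_mul hg _ (by positivity) (by positivity)
      rw [← pow_mul, mul_comm k 2, pow_mul]
      apply pow_le_pow_left₀ (by positivity)
      norm_num
      linarith only [hT576]
    exact (pow_le_pow_iff_left₀ (by positivity) (by positivity) (by norm_num)).1 h4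
  have hterm1 : 2 ^ g * P ^ k ≤ a ^ k / 4 := by
    have h1 : P ≤ a * (12 / T) := by
      have : a * (12 / T) = 2 * (X / T) := by rw [ha]; ring
      rw [this]
      exact hP
    have h2 : P ^ k ≤ a ^ k * (12 / T) ^ k := by
      rw [← mul_pow]
      exact pow_le_pow_left₀ hP0 h1 k
    have h3 : (2 : ℝ) ^ g * (12 / T) ^ k ≤ 1 / 4 := by
      rw [div_pow, ← mul_div_assoc, div_le_div_iff₀ (by positivity) (by norm_num)]
      rw [pow_add] at hg12
      linarith only [hg12]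
    calc 2 ^ g * P ^ k ≤ 2 ^ g * (a ^ k * (12 / T) ^ k) := by gcongr
      _ = a ^ k * (2 ^ g * (12 / T) ^ k) := by ring
      _ ≤ a ^ k * (1 / 4) := by gcongr
      _ = a ^ k / 4 := by ring
  -- second term
  have hεb : ε * T ^ (E1 Q * m' + k) ≤ T ^ (1 + E0 Q * m') := by
    have h1 : (d : ℝ) ≤ T := by
      have : (d : ℝ) ≤ e := by exact_mod_cast hde0
      linarith only [this, hW24, hWτ, hτT, heR]
    have h3 : (W * (1 / τ)) ^ (2 * e + 1) * T ^ (E1 Q * m' + k) ≤ 1 := by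
      have f2 : T ^ (E1 Q * m' + k) = τ ^ e := by
        rw [hT, ← pow_mul, he]
      have g1 : (W * (1 / τ)) ^ (2 * e + 1) = W ^ (2 * e + 1) / τ ^ (2 * e + 1) := by
        rw [mul_one_div, div_pow]
      rw [f2, g1, div_mul_eq_mul_div, div_le_one (by positivity)]
      have g2 : W ^ (2 * e + 1) ≤ τ ^ (e + 1) := by
        calc W ^ (2 * e + 1) ≤ W ^ (2 * (e + 1)) :=
              pow_le_pow_right₀ (by linarith only [hW1]) (by omega)
          _ = (W ^ 2) ^ (e + 1) := by rw [pow_mul]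
          _ ≤ τ ^ (e + 1) := pow_le_pow_left₀ (by positivity) (by
              have : 0 ≤ W ^ 16 := by positivity
              linarith only [hW2, hA, this]) _
      calc W ^ (2 * e + 1) * τ ^ e ≤ τ ^ (e + 1) * τ ^ e := by gcongr
        _ = τ ^ (2 * e + 1) := by rw [← pow_add]; congr 1; ring
    calc ε * T ^ (E1 Q * m' + k) = d * (N2 : ℝ) *
          ((W * (1 / τ)) ^ (2 * e + 1) * T ^ (E1 Q * m' + k)) := by rw [hε]; ring
      _ ≤ T * T ^ (E0 Q * m') * 1 := by gcongr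
      _ = T ^ (1 + E0 Q * m') := by rw [mul_one, pow_add, pow_one]
  have hterm2 : 2 ^ g * (k * X ^ k * R2 * ε) ≤ a ^ k / 4 := by
    have h1 : (k : ℝ) * X ^ k ≤ a ^ k * 12 ^ k := by
      have hk2 : (k : ℝ) ≤ 2 ^ k := by exact_mod_cast Nat.lt_two_pow_self.le
      calc (k : ℝ) * X ^ k ≤ 2 ^ k * X ^ k := by gcongr
        _ = a ^ k * 12 ^ k := by
            rw [hXa, ← mul_pow, ← mul_pow]; congr 1; ring
    have h2 : 2 ^ (g + 2) * 12 ^ k * (R2 * ε) ≤ 1 := by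
      have hTp : 0 < T ^ (E1 Q * m' + k) := by positivity
      have h3 : 2 ^ (g + 2) * 12 ^ k * (R2 * ε) * T ^ (E1 Q * m' + k) ≤
          1 * T ^ (E1 Q * m' + k) := by
        calc 2 ^ (g + 2) * 12 ^ k * (R2 * ε) * T ^ (E1 Q * m' + k)
            = (2 ^ (g + 2) * 12 ^ k) * R2 * (ε * T ^ (E1 Q * m' + k)) := by ring
          _ ≤ T ^ k * T ^ (E0 Q * m') * T ^ (1 + E0 Q * m') := by gcongr
          _ = T ^ (k + E0 Q * m' + (1 + E0 Q * m')) := by
              rw [← pow_add, ← pow_add]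
          _ ≤ T ^ (E1 Q * m' + k) := by
              apply pow_le_pow_right₀ hT1
              have g0 : E1 Q * m' = E0 Q * m' + E0 Q * m' + 2 * m' := by
                unfold E1; ring
              rw [g0]
              omega
          _ = 1 * T ^ (E1 Q * m' + k) := (one_mul _).symm
      exact le_of_mul_le_mul_right h3 hTp
    have h5 : 0 ≤ R2 * ε := mul_nonneg hR20 hε0
    calc 2 ^ g * (k * X ^ k * R2 * ε) = 2 ^ g * ((k * X ^ k) * (R2 * ε)) := by ring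
      _ ≤ 2 ^ g * ((a ^ k * 12 ^ k) * (R2 * ε)) := by gcongr
      _ = a ^ k / 4 * (2 ^ (g + 2) * 12 ^ k * (R2 * ε)) := by rw [pow_add]; ring
      _ ≤ a ^ k / 4 * 1 := by gcongr
      _ = a ^ k / 4 := by ring
  have hak : 0 < a ^ k := by positivity
  rw [mul_add] at hmain
  linarith only [hmain, hterm1, hterm2, hak]

end H592R3.Mb2
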