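import Mathlib
import Pool.Agent.H592R3.AmCsp
import Pool.Agent.H592R3.MobArith

/-!
The lower bound for interactive proofs of unsatisfiability of the planted constraint satisfaction
problem.
-/

namespace H592R3.Mb2

open Finset DomAC0 H568R2 SmallDepth


section MsGmap
variable {m n r : ℕ} {J J' : Type}

lemma ms_gmap (s : Fin m → Fin r → Fin m)
    (σ : ((Fin m × (Fin r → Fin n)) → Bool) → (J → Bool))
    (φ : J → Option (Fin m × (Fin r → Fin n)) × Bool) (hφ : ∀ j X, σ X j = std X (φ j))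
    (X : (Fin m × (Fin r → Fin n)) → Bool) :
    ∀ G : Game J, ms s (fun X => std X) (gmap φ G) X = ms s σ G X := by
  have hev : ∀ (C : Circuit J) (X : (Fin m × (Fin r → Fin n)) → Bool),
      (mapIn φ C).eval (std X) = C.eval (σ X) := by
    intro C X
    rw [mapIn_eval]
    congr 1
    funext j
    exact (hφ j X).symm
  intro G
  induction G with
  | verify C =>
    show cntS s (fun X => std X) (mapIn φ C) X = cntS s σ C X
    unfold cntS
    refine Finset.sum_congr rfl fun a _ => ?_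
    simp only [hev]
  | merlin k next ih =>
    show (⨆ z, ms s (fun X => std X) (gmap φ (next z)) X) = ⨆ z, ms s σ (next z) X
    simp only [ih]
  | arthur N p next ih =>
    show (∑ i, p i * ms s (fun X => std X) (gmap φ (next i)) X) = ∑ i, p i * ms s σ (next i) X
    simp only [ih]

end MsGmap

open Classical in
/-- The lower bound for interactive proofs of unsatisfiability of the constraint satisfaction
problem. -/
theorem csp_core (Q d m' b k g e : ℕ) (hQ : 6 ≤ Q) (hd : 1 ≤ d) (hm' : 2 ≤ m')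
    (he : e = d * (E1 Q * m' + k))
    (hA : 2 * (12 * (2 * e)) ^ 16 ≤ 2 ^ b)
    (hB1 : 4 * e ≤ m' * (d * b))
    (hB2 : 4 * Q + 8 ≤ d * b)
    (hg : 2 * (g + 2) ≤ d * b * k)
    (s : Fin (Q * m') → Fin (2 * Q ^ 2 + 14 + 1) → Fin (Q * m')) (hs : ∀ i, s i 0 = i)
    (hexp : ∀ H : Finset (Fin (Q * m')), m' ≤ H.card → Q * m' - (touched s H).card ≤ m')
    (hsm : ∀ H : Finset (Fin (Q * m')), 1 ≤ H.card → H.card < m' →
        3 * H.card ≤ (touched s H).card)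
    {J : Type} (G : Game J) {S : ℕ} (hG : G.Bounded d S g)
    (σ : ((Fin (Q * m') × (Fin (2 * Q ^ 2 + 14 + 1) → Fin (2 ^ (2 * d * b)))) → Bool) →
      (J → Bool))
    (hσ : ∀ j, Junta 1 (fun x => σ x j))
    (hpt : ∀ X : (Fin (Q * m') × (Fin (2 * Q ^ 2 + 14 + 1) → Fin (2 ^ (2 * d * b)))) → Bool,
      ∑ a : Fin (Q * m') → Fin (2 ^ (2 * d * b)),
        (1 / 3) * (1 - (if ¬ Uniq s a X then (1 : ℝ) else 0)) ≤ ms s σ G X) :
    2 ^ ((2 * Q - 12) * (d * b * m')) < S := by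
  by_contra hcon
  push Not at hcon
  obtain ⟨φ, hφ⟩ : ∃ φ : J → Option (Fin (Q * m') ×
      (Fin (2 * Q ^ 2 + 14 + 1) → Fin (2 ^ (2 * d * b)))) × Bool,
      ∀ j X, σ X j = std X (φ j) := by
    choose φ hφ using fun j => junta_std (hσ j)
    exact ⟨φ, hφ⟩
  have hev : ∀ X, ms s (fun X => std X) (gmap φ G) X = ms s σ G X := fun X =>
    ms_gmap s σ φ hφ X G
  have hn1 : 1 ≤ 2 ^ (2 * d * b) := Nat.one_le_two_pow
  have hE : 1 ≤ E1 Q := by unfold E1; omega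
  have hm'e : m' ≤ e := by
    rw [he]
    calc m' = 1 * (1 * m') := by ring
      _ ≤ d * (E1 Q * m' + k) := Nat.mul_le_mul hd
          ((Nat.mul_le_mul_right m' hE).trans (Nat.le_add_right _ _))
  have hQe : Q * m' ≤ e := by
    rw [he]
    calc Q * m' ≤ E1 Q * m' := Nat.mul_le_mul_right _ (by unfold E1 E0; omega)
      _ ≤ E1 Q * m' + k := Nat.le_add_right _ _
      _ = 1 * (E1 Q * m' + k) := (one_mul _).symm
      _ ≤ d * (E1 Q * m' + k) := Nat.mul_le_mul_right _ hd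
  have he1 : 1 ≤ e := by omega
  have hτ3 : 3 ≤ 2 ^ b := by
    refine le_trans ?_ hA
    have h2 : 12 * (2 * e) ≤ (12 * (2 * e)) ^ 16 := Nat.le_self_pow (by norm_num) _
    omega
  obtain ⟨T, hT⟩ : ∃ T : ℝ, T = (2 : ℝ) ^ (d * b) := ⟨_, rfl⟩
  have hT0 : 0 < T := by rw [hT]; positivity
  have hT1 : 1 ≤ T := by rw [hT]; exact one_le_pow₀ (by norm_num)
  have hTτ : T = ((2 ^ b : ℕ) : ℝ) ^ d := by rw [hT]; push_cast; rw [← pow_mul, mul_comm]
  have hnT : ((2 ^ (2 * d * b) : ℕ) : ℝ) = T ^ 2 := by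
    rw [hT, ← pow_mul]; push_cast; congr 1; ring
  have hq : (1 / ((2 ^ b : ℕ) : ℝ)) ^ d = 1 / T := by rw [one_div_pow, hTτ]
  have hτT : ((2 ^ b : ℕ) : ℝ) ≤ T := by
    have h2 : 2 ^ b ≤ 2 ^ (d * b) :=
      Nat.pow_le_pow_right (by norm_num) (Nat.le_mul_of_pos_left b (by omega))
    rw [hT]
    exact_mod_cast h2
  have hAT : 2 * (12 * ((2 * e : ℕ) : ℝ)) ^ 16 ≤ T := by
    refine le_trans ?_ hτT
    exact_mod_cast hA
  have heR : (1 : ℝ) ≤ e := by exact_mod_cast he1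
  have h24 : 12 * ((2 * e : ℕ) : ℝ) = 24 * e := by push_cast; ring
  have h12 : 24 * (e : ℝ) ≤ (24 * (e : ℝ)) ^ 16 := by
    calc 24 * (e : ℝ) = (24 * (e : ℝ)) ^ 1 := (pow_one _).symm
      _ ≤ (24 * (e : ℝ)) ^ 16 := pow_le_pow_right₀ (by linarith only [heR]) (by norm_num)
  have hAT' : 2 * (24 * (e : ℝ)) ^ 16 ≤ T := by rw [← h24]; exact hAT
  have hQeR : ((Q * m' : ℕ) : ℝ) ≤ e := by exact_mod_cast hQe
  have hm'eR : (m' : ℝ) ≤ e := by exact_mod_cast hm'e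
  have h8 : 8 * (((Q * m' : ℕ) : ℝ)) ≤ T := by linarith only [hQeR, hAT', h12, heR]
  have hT2 : 2 ≤ T := by linarith only [hAT', h12, heR]
  have hB2T : (2 : ℝ) ^ (4 * Q + 8) ≤ T := by
    rw [hT]
    exact pow_le_pow_right₀ (by norm_num) hB2
  have hQm : 1 ≤ Q * m' := Nat.one_le_iff_ne_zero.2 (by positivity)
  have hbad := bad_small (Q * m') T h8 hQm _ hnT
  have hbig : 8 * ((2 * e : ℕ) : ℝ) * m' * ((Q * m' : ℕ) : ℝ) ≤ T := by
    calc 8 * ((2 * e : ℕ) : ℝ) * m' * ((Q * m' : ℕ) : ℝ) =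
          16 * ((e : ℝ) * m' * ((Q * m' : ℕ) : ℝ)) := by push_cast; ring
      _ ≤ 16 * ((e : ℝ) * e * e) := by gcongr
      _ = 16 * (e : ℝ) ^ 3 := by ring
      _ ≤ 24 ^ 16 * (e : ℝ) ^ 16 := by
          apply mul_le_mul (by norm_num) (pow_le_pow_right₀ heR (by norm_num))
            (by positivity) (by norm_num)
      _ = (24 * (e : ℝ)) ^ 16 := (mul_pow _ _ _).symm
      _ ≤ T := by
          have : (0 : ℝ) ≤ (24 * (e : ℝ)) ^ 16 := by positivity
          linarith only [this, hAT']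
  have hBs := small_sum (h := 2 * e) (L := m') s hT1 hnT hsm hbig
  have hSR : (S : ℝ) ≤ T ^ ((2 * Q - 12) * m') := by
    rw [hT, ← pow_mul]
    have : (S : ℝ) ≤ ((2 ^ ((2 * Q - 12) * (d * b * m')) : ℕ) : ℝ) := by exact_mod_cast hcon
    refine this.trans (le_of_eq ?_)
    push_cast
    congr 1
    ring
  have hfirst := first_term Q m' e S hm' hQ T he1 hm'e hAT (by
      rw [hT, ← pow_mul, ← pow_mul]
      apply pow_le_pow_right₀ (by norm_num)
      rw [mul_comm (d * b) m']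
      omega) hB2T hSR
  obtain ⟨X, hX⟩ : ∃ X : ℝ, X = (T ^ 2) ^ (Q * m') := ⟨_, rfl⟩
  have hX0 : 0 < X := by rw [hX]; positivity
  have hctb : S * 2 ^ (Q * m') * ((2 * T ^ 4) ^ (2 * m') * (2 ^ (2 * e) *
      (ctc (2 * e) m' (2 ^ (2 * d * b)) m' : ℝ))) ≤ X / T := by
    rw [hX]
    refine le_trans (le_of_eq ?_) hfirst
    unfold ctc
    push_cast
    have hnT' : (2 : ℝ) ^ (2 * d * b) = T ^ 2 := by
      rw [← hnT]; push_cast; rfl
    rw [hnT']
  have hctb0 : 0 ≤ S * 2 ^ (Q * m') * ((2 * T ^ 4) ^ (2 * m') * (2 ^ (2 * e) *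
      (ctc (2 * e) m' (2 ^ (2 * d * b)) m' : ℝ))) := by positivity
  have hXT : X / T + X / T ≤ X := by
    rw [← add_div, div_le_iff₀ hT0]
    have := mul_le_mul_of_nonneg_left hT2 hX0.le
    linarith only [this]
  have hcore := game_core (m := Q * m') (n := 2 ^ (2 * d * b)) (r := 2 * Q ^ 2 + 14) hn1 hQm s hs
    (gmap φ G) (fun X => std X) std_junta (h := 2 * e) (by omega) (d := d) (τ := 2 ^ b) hτ3
    (gmap_bounded φ G g hG) (L := m') (u := m') hm' hexp (y := 1 / T ^ 3) (q := 1 / T)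
    (c := 2 * T ^ 4) (by positivity) (by
      rw [div_le_one (by positivity)]; exact one_le_pow₀ hT1) hq.symm (by
      apply le_of_eq; field_simp) (by
      have : 1 ≤ T ^ 4 := one_le_pow₀ hT1
      linarith only [this]) (le_refl _) hBs (by
      rw [← hX, hnT, ← hX]
      linarith only [hctb, hXT]) k hbad (by
      intro X
      rw [hev]
      exact hpt X)
  have hJc : (Fintype.card (Option (Fin (Q * m') ×
      (Fin (2 * Q ^ 2 + 14 + 1) → Fin (2 ^ (2 * d * b)))) × Bool) : ℝ) =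
      (Q * m' * (T ^ 2) ^ (2 * Q ^ 2 + 14 + 1) + 1) * 2 := by
    rw [Fintype.card_prod, Fintype.card_option, Fintype.card_prod, Fintype.card_fun,
      Fintype.card_fin, Fintype.card_fin, Fintype.card_fin, Fintype.card_bool]
    rw [← hnT]
    push_cast
    ring
  rw [hnT] at hcore
  refine am_arith Q d m' k g S _ e hQ hd hm' T ((2 ^ b : ℕ) : ℝ) hTτ he (by exact_mod_cast hA)
    hB2T ?_ hSR hJc
    (S * 2 ^ (Q * m') * ((2 * T ^ 4) ^ (2 * m') * (2 ^ (2 * e) *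
      (ctc (2 * e) m' (2 ^ (2 * d * b)) m' : ℝ))) + (T ^ 2) ^ (Q * m') / T) ?_ ?_ hcore
  · rw [hT, ← pow_mul, ← pow_mul]
    apply pow_le_pow_right₀ (by norm_num)
    omega
  · rw [← hX]; positivity
  · rw [← hX]
    linarith only [hctb]

/-- The lower bound for interactive proofs of unsatisfiability. -/
theorem csp_game (Q d m' b k g e : ℕ) (hQ : 6 ≤ Q) (hd : 1 ≤ d) (hm' : 2 ≤ m')
    (he : e = d * (E1 Q * m' + k))
    (hA : 2 * (12 * (2 * e)) ^ 16 ≤ 2 ^ b)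
    (hB1 : 4 * e ≤ m' * (d * b))
    (hB2 : 4 * Q + 8 ≤ d * b)
    (hg : 2 * (g + 2) ≤ d * b * k)
    (s : Fin (Q * m') → Fin (2 * Q ^ 2 + 14 + 1) → Fin (Q * m')) (hs : ∀ i, s i 0 = i)
    (hexp : ∀ H : Finset (Fin (Q * m')), m' ≤ H.card → Q * m' - (touched s H).card ≤ m')
    (hsm : ∀ H : Finset (Fin (Q * m')), 1 ≤ H.card → H.card < m' →
        3 * H.card ≤ (touched s H).card)
    {J : Type} (G : Game J) {S : ℕ} (hG : G.Bounded d S g)
    (σ : ((Fin (Q * m') × (Fin (2 * Q ^ 2 + 14 + 1) → Fin (2 ^ (2 * d * b)))) → Bool) →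
      (J → Bool))
    (hσ : ∀ j, Junta 1 (fun x => σ x j))
    (hyes : ∀ X, ¬ Sat s X → 2 / 3 ≤ G.value (σ X))
    (hno : ∀ X, AtMostOne s X → Sat s X → G.value (σ X) ≤ 1 / 3) :
    2 ^ ((2 * Q - 12) * (d * b * m')) < S :=
  csp_core Q d m' b k g e hQ hd hm' he hA hB1 hB2 hg s hs hexp hsm G hG σ hσ
    (fun X => game_pt (Nat.one_le_iff_ne_zero.2 (by positivity)) s G σ hG hyes hno X)

open Classical in
/-- The lower bound for randomized circuits. -/
theorem csp_rand (Q d m' b k e : ℕ) (hQ : 6 ≤ Q) (hd : 1 ≤ d) (hm' : 2 ≤ m')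
    (he : e = d * (E1 Q * m' + k))
    (hA : 2 * (12 * (2 * e)) ^ 16 ≤ 2 ^ b)
    (hB1 : 4 * e ≤ m' * (d * b))
    (hB2 : 4 * Q + 8 ≤ d * b)
    (hg : 2 * (0 + 2) ≤ d * b * k)
    (s : Fin (Q * m') → Fin (2 * Q ^ 2 + 14 + 1) → Fin (Q * m')) (hs : ∀ i, s i 0 = i)
    (hexp : ∀ H : Finset (Fin (Q * m')), m' ≤ H.card → Q * m' - (touched s H).card ≤ m')
    (hsm : ∀ H : Finset (Fin (Q * m')), 1 ≤ H.card → H.card < m' →
        3 * H.card ≤ (touched s H).card)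
    {J : Type} {Ω : Type} [Fintype Ω] (P : Ω → ℝ) (hP0 : ∀ ω, 0 ≤ P ω) (hP1 : ∑ ω, P ω = 1)
    (C : Ω → Circuit J)
    (σ : ((Fin (Q * m') × (Fin (2 * Q ^ 2 + 14 + 1) → Fin (2 ^ (2 * d * b)))) → Bool) →
      (J → Bool))
    (hσ : ∀ j, Junta 1 (fun x => σ x j))
    (hdepth : ∀ ω, (C ω).depth ≤ d) {S : ℕ} (hS : ∀ ω, (C ω).size ≤ S)
    (hcor : ∀ X, AtMostOne s X →
      (2 : ℝ) / 3 ≤ ∑ ω, if ((C ω).eval (σ X) = true ↔ Sat s X) then P ω else 0) :
    2 ^ ((2 * Q - 12) * (d * b * m')) < S := by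
  obtain ⟨eq⟩ : Nonempty (Ω ≃ Fin (Fintype.card Ω)) := ⟨Fintype.equivFin Ω⟩
  have hp1 : ∑ i, P (eq.symm i) = 1 := by
    rw [← hP1]
    exact Equiv.sum_comp eq.symm P
  refine csp_core Q d m' b k 0 e hQ hd hm' he hA hB1 hB2 hg s hs hexp hsm
    (Game.arthur (Fintype.card Ω) (fun i => P (eq.symm i)) (fun i => .verify (C (eq.symm i))))
    ⟨fun i => hP0 _, hp1, fun i => ⟨hdepth _, hS _⟩⟩ σ hσ
    (fun X => rand_pt (Nat.one_le_iff_ne_zero.2 (by positivity)) s _ (fun i => hP0 _) hp1 _ σ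
      (fun X hX => ?_) X)
  refine (hcor X hX).trans (le_of_eq ?_)
  exact (Equiv.sum_comp eq.symm (fun ω =>
    if ((C ω).eval (σ X) = true ↔ Sat s X) then P ω else 0)).symm

end H592R3.Mb2
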