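import Mathlib
import Pool.Agent.H592R3.MobCsp
import Pool.Agent.H592R3.Core3

/-!
The arithmetic for interactive proofs (version with common decision trees).
-/

namespace H592R3.Mb3

open Finset DomAC0 H568R2 SmallDepth H592R3.Mb2

/-- The number of wires. -/
lemma len_bound (Q m' S Jc A : ℕ) (T : ℝ) (hT : 576 ≤ T)
    (hm' : 2 ≤ m') (h8Q : 8 * ((Q : ℝ) * m') ≤ T)
    (hS : (S : ℝ) ≤ T ^ ((2 * Q - 12) * m'))
    (hJ : (Jc : ℝ) = (Q * m' * (T ^ 2) ^ A + 1) * 2) :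
    ((Jc + S + 2 : ℕ) : ℝ) ≤ T ^ ((4 * Q + 2 * A + 13) * m') := by
  have hT1 : 1 ≤ T := by linarith only [hT]
  have hT0 : 0 < T := by linarith only [hT1]
  obtain ⟨X, hX'⟩ : ∃ X : ℝ, X = T ^ (2 * Q * m') := ⟨_, rfl⟩
  have hX0 : 0 < X := by rw [hX']; positivity
  have hSX : (S : ℝ) ≤ X := by
    refine hS.trans ?_
    rw [hX']
    apply pow_le_pow_right₀ hT1
    exact Nat.mul_le_mul_right _ (by omega)
  have hX1 : 1 ≤ X := by rw [hX']; exact one_le_pow₀ hT1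
  have e1 : ((Jc + S + 2 : ℕ) : ℝ) = (Q * m' * (T ^ 2) ^ A + 1) * 2 + S + 2 := by
    push_cast; rw [hJ]
  obtain ⟨b, hb⟩ : ∃ b : ℝ, b = T ^ (2 * A + 1) := ⟨_, rfl⟩
  have hb1 : 1 ≤ b := by rw [hb]; exact one_le_pow₀ hT1
  have e2 : 8 * ((Q : ℝ) * m' * (T ^ 2) ^ A) ≤ b := by
    rw [hb, ← pow_mul, pow_succ]
    calc 8 * ((Q : ℝ) * m' * T ^ (2 * A)) = T ^ (2 * A) * (8 * ((Q : ℝ) * m')) := by ring
      _ ≤ T ^ (2 * A) * T := mul_le_mul_of_nonneg_left h8Q (by positivity)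
  have e3 : ((Jc + S + 2 : ℕ) : ℝ) ≤ X + b / 4 + 4 := by
    rw [e1]; linarith only [e2, hSX]
  have e4 : X + b / 4 + 4 ≤ 8 * (X * b) := by
    have f1 : X * 1 ≤ X * b := mul_le_mul_of_nonneg_left hb1 hX0.le
    have f2 : 1 * b ≤ X * b := mul_le_mul_of_nonneg_right hX1 (by linarith only [hb1])
    linarith only [f1, f2, hX1, hb1]
  have e5 : 8 * (X * b) ≤ T * (X * b) := by
    apply mul_le_mul_of_nonneg_right (by linarith only [hT]) (by positivity)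
  refine e3.trans (e4.trans (e5.trans ?_))
  rw [hX', hb, ← pow_add, mul_comm, ← pow_succ]
  apply pow_le_pow_right₀ hT1
  have g1 : (4 * Q + 2 * A + 13) * m' = 2 * Q * m' + 2 * Q * m' + 9 * m' + (2 * A + 4) * m' := by
    ring
  have g2 : (2 * A + 4) * 1 ≤ (2 * A + 4) * m' := Nat.mul_le_mul_left _ (by omega)
  rw [g1]
  omega

/-- The bound of the first term. -/
lemma first_term (Q m' e b l S : ℕ) (hm' : 2 ≤ m') (hQ : 6 ≤ Q) (T : ℝ) (he1 : 1 ≤ e)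
    (hm'e : m' ≤ e) (hle : l ≤ e * b)
    (hA : 2 * (12 * (2 * e : ℕ) : ℝ) ^ 16 ≤ T)
    (hB2 : (2 : ℝ) ^ (2 * Q + 16) * (b : ℝ) ^ 4 ≤ T)
    (hS : (S : ℝ) ≤ T ^ ((2 * Q - 12) * m')) :
    S * 2 ^ (Q * m') * ((2 * T ^ 4) ^ (2 * m') *
      ((2 * ((2 * e * l : ℕ) : ℝ) * (2 * m')) ^ (2 * m') *
        (T ^ 2) ^ m')) ≤ (T ^ 2) ^ (Q * m') / T := by
  have heR : (1 : ℝ) ≤ e := by exact_mod_cast he1
  have h24 : (12 * ((2 * e : ℕ) : ℝ)) = 24 * e := by push_cast; ring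
  rw [h24] at hA
  have h16 : (e : ℝ) ^ 12 ≤ T := by
    have h1 : (e : ℝ) ^ 12 ≤ (24 * (e : ℝ)) ^ 12 :=
      pow_le_pow_left₀ (by positivity) (by linarith only [heR]) 12
    have h2 : (24 * (e : ℝ)) ^ 12 ≤ (24 * (e : ℝ)) ^ 16 :=
      pow_le_pow_right₀ (by linarith only [heR]) (by norm_num)
    have h3 : 0 ≤ (24 * (e : ℝ)) ^ 16 := by positivity
    linarith only [h1, h2, h3, hA]
  have hT1 : 1 ≤ T := (one_le_pow₀ heR).trans h16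
  have hT0 : 0 < T := by linarith only [hT1]
  obtain ⟨v, hv⟩ : ∃ v : ℝ, v = 2 * ((2 * e * l : ℕ) : ℝ) * (2 * m') := ⟨_, rfl⟩
  obtain ⟨Z, hZ⟩ : ∃ Z : ℝ, Z = 2 ^ (Q + 2) * v ^ 2 := ⟨_, rfl⟩
  have hv0 : 0 ≤ v := by rw [hv]; positivity
  have hZ0 : 0 ≤ Z := by rw [hZ]; positivity
  have hZT : Z ≤ T := by
    have hm'eR : (m' : ℝ) ≤ e := by exact_mod_cast hm'e
    have hleR : (l : ℝ) ≤ e * b := by exact_mod_cast hle
    have hv2 : v ≤ 8 * ((e : ℝ) ^ 3 * b) := by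
      have h3 : v = 8 * ((e : ℝ) * l * m') := by rw [hv]; push_cast; ring
      rw [h3]
      have h4 : (e : ℝ) * l * m' ≤ e * (e * b) * e := by gcongr
      linarith only [h4]
    have h1 : Z ^ 2 ≤ T ^ 2 := by
      calc Z ^ 2 = (2 ^ (Q + 2)) ^ 2 * v ^ 4 := by rw [hZ]; ring
        _ ≤ (2 ^ (Q + 2)) ^ 2 * (8 * ((e : ℝ) ^ 3 * b)) ^ 4 := by gcongr
        _ = (2 ^ (2 * Q + 16) * (b : ℝ) ^ 4) * (e : ℝ) ^ 12 := by
            rw [← pow_mul, show 2 * Q + 16 = (Q + 2) * 2 + 12 by ring, pow_add]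
            ring
        _ ≤ T * T := mul_le_mul hB2 h16 (by positivity) hT0.le
        _ = T ^ 2 := by ring
    exact (pow_le_pow_iff_left₀ hZ0 hT0.le (by norm_num)).1 h1
  have e1 : S * 2 ^ (Q * m') * ((2 * T ^ 4) ^ (2 * m') *
      ((2 * ((2 * e * l : ℕ) : ℝ) * (2 * m')) ^ (2 * m') *
        (T ^ 2) ^ m')) = S * (T ^ (10 * m') * Z ^ m') := by
    have h1 : ((2 : ℝ) ^ (Q + 2)) ^ m' = 2 ^ (Q * m') * 2 ^ (2 * m') := by
      rw [← pow_mul, ← pow_add]; congr 1; ring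
    have h2 : (v ^ 2) ^ m' = v ^ (2 * m') := by rw [← pow_mul]
    have h3 : (T ^ 4) ^ (2 * m') * (T ^ 2) ^ m' = T ^ (10 * m') := by
      rw [← pow_mul, ← pow_mul, ← pow_add]; congr 1; ring
    rw [hZ, mul_pow (2 ^ (Q + 2)) (v ^ 2) m', h1, h2, ← h3, ← hv, mul_pow 2 (T ^ 4)]
    generalize v ^ (2 * m') = a1
    generalize (T ^ 4) ^ (2 * m') = a2
    generalize (T ^ 2) ^ m' = a3
    generalize (2 : ℝ) ^ (Q * m') = a4
    generalize (2 : ℝ) ^ (2 * m') = a6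
    ring
  rw [e1, le_div_iff₀ hT0]
  have e2 : Z ^ m' ≤ T ^ m' := pow_le_pow_left₀ hZ0 hZT _
  calc S * (T ^ (10 * m') * Z ^ m') * T ≤
      T ^ ((2 * Q - 12) * m') * (T ^ (10 * m') * T ^ m') * T ^ m' := by
        have e3 : T ≤ T ^ m' := by
          calc T = T ^ 1 := (pow_one _).symm
            _ ≤ T ^ m' := pow_le_pow_right₀ hT1 (by omega)
        gcongr
    _ = (T ^ 2) ^ (Q * m') := by
        rw [← pow_mul, ← pow_add, ← pow_add, ← pow_add]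
        congr 1
        have h1 : (2 * Q - 12) * m' + 12 * m' = 2 * Q * m' := by
          rw [← Nat.add_mul]; congr 1; omega
        have h2 : 2 * (Q * m') = 2 * Q * m' := by ring
        omega

lemma am_arith (Q d m' k g S Jc e : ℕ) (hQ : 6 ≤ Q) (hd : 1 ≤ d) (hm' : 2 ≤ m')
    (T τ : ℝ) (hT : T = τ ^ d) (he : e = d * (E1 Q * m' + k))
    (hA : 2 * (12 * (2 * e : ℕ) : ℝ) ^ 16 ≤ τ)
    (hB2 : (2 : ℝ) ^ (4 * Q + 8) ≤ T)
    (hg : ((2 : ℝ) ^ (g + 2)) ^ 2 ≤ T ^ k)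
    (hS : (S : ℝ) ≤ T ^ ((2 * Q - 12) * m'))
    (hJ : (Jc : ℝ) = (Q * m' * (T ^ 2) ^ (2 * Q ^ 2 + 14 + 1) + 1) * 2)
    (P : ℝ) (hP0 : 0 ≤ P) (hP : P ≤ 2 * ((T ^ 2) ^ (Q * m') / T))
    (hT0 : 0 ≤ T) (hτ0 : 0 ≤ τ)
    (hmain : ((T ^ 2) ^ (Q * m') / 6) ^ k ≤
      2 ^ g * (P ^ k + k * ((T ^ 2) ^ (Q * m')) ^ k *
        (((S : ℝ) + 1) * 2 ^ (Q * m') * (2 * T ^ 4) ^ (2 * m')) *
      (d * ((S * (Jc + S + 1) : ℕ) : ℝ) *
      (12 * (2 * e : ℕ) * (1 / τ)) ^ (2 * e + 1)))) : False := by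
  refine Mb2.am_arith Q d m' k g S Jc e hQ hd hm' T τ hT he hA hB2 hg hS hJ P hP0 hP
    (hmain.trans ?_)
  have h1 : (S : ℝ) + 1 ≤ S * ((Jc + S + 1 : ℕ) : ℝ) + 1 := by
    have h2 : (S : ℝ) * 1 ≤ S * ((Jc + S + 1 : ℕ) : ℝ) := by
      apply mul_le_mul_of_nonneg_left _ (by positivity)
      exact_mod_cast (by omega : 1 ≤ Jc + S + 1)
    linarith only [h2]
  have h3 : 0 ≤ 12 * ((2 * e : ℕ) : ℝ) * (1 / τ) := by positivity
  gcongr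

end H592R3.Mb3
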