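import Mathlib
import Pool.Agent.H592R3.Param2

/-!
The choice of the parameters for interactive proofs (clause width `C d log n`).
-/

namespace H592R3

/-- The constants. -/
lemma consts2 (ε : ℝ) (hε : 0 < ε) : ∃ Q : ℕ, 6 ≤ Q ∧ Even Q ∧ 7 ≤ ε * Q ∧ ∃ c : ℝ, 16 ≤ c ∧
    2 * (Q : ℝ) ≤ c ∧ 288 * (Q : ℝ) ≤ c ∧
    (600 * (Q : ℝ) + 96 + 32 * E1 Q) ≤ c * Real.log 2 ∧
    ∀ n b : ℕ, 2 ≤ n → c * Real.log n ≤ b →
      2 * (12 * (2 * ((E1 Q + 1) * n))) ^ 16 ≤ 2 ^ b := by
  obtain ⟨Q0, hQ0⟩ := exists_nat_ge (7 / ε)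
  obtain ⟨Q, hQ⟩ : ∃ Q, Q = 2 * Q0 + 6 := ⟨_, rfl⟩
  have hQ6 : 6 ≤ Q := by omega
  have hQε : 7 ≤ ε * Q := by
    have h1 : 7 / ε ≤ Q := by
      refine hQ0.trans ?_
      exact_mod_cast (by omega : Q0 ≤ Q)
    rw [div_le_iff₀ hε] at h1
    linarith
  obtain ⟨E, hE⟩ : ∃ E, E = E1 Q := ⟨_, rfl⟩
  have hE1 : 1 ≤ E := by rw [hE]; unfold E1; omega
  have hlog2 : 0 < Real.log 2 := Real.log_pos (by norm_num)
  obtain ⟨KA, hKA⟩ : ∃ KA : ℝ, KA = (16 + (Real.log 2 + 16 * Real.log (24 * (E + 1))) /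
    Real.log 2) / Real.log 2 := ⟨_, rfl⟩
  have hER : (1 : ℝ) ≤ E := by exact_mod_cast hE1
  have hlogE : 0 ≤ Real.log (24 * (E + 1)) := Real.log_nonneg (by linarith)
  have hKA0 : 0 ≤ KA := by rw [hKA]; positivity
  have hQR : (6 : ℝ) ≤ Q := by exact_mod_cast hQ6
  obtain ⟨c, hc⟩ : ∃ c : ℝ, c = KA + (600 * Q + 96 + 32 * E) / Real.log 2 + 16 + 288 * Q :=
    ⟨_, rfl⟩
  have hfrac0 : 0 ≤ (600 * (Q : ℝ) + 96 + 32 * E) / Real.log 2 := by positivity
  refine ⟨Q, hQ6, ⟨Q0 + 3, by omega⟩, hQε, c, by linarith, by linarith, by linarith, ?_, ?_⟩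
  · rw [← hE]
    have : (600 * (Q : ℝ) + 96 + 32 * E) / Real.log 2 ≤ c := by linarith
    rwa [div_le_iff₀ hlog2] at this
  · intro n b hn hb
    rw [← hE]
    have hnR : (2 : ℝ) ≤ n := by exact_mod_cast hn
    have hlogn : 0 ≤ Real.log n := Real.log_nonneg (by linarith)
    have hl2 : Real.log 2 ≤ Real.log n := Real.log_le_log (by norm_num) hnR
    have h2 : (2 : ℝ) * (24 * (E + 1) * n) ^ 16 ≤ 2 ^ b := by
      rw [← Real.log_le_log_iff (by positivity) (by positivity)]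
      rw [Real.log_mul (by norm_num) (by positivity), Real.log_pow, Real.log_pow,
        Real.log_mul (by positivity) (by positivity)]
      have hcK : KA ≤ c := by linarith
      have h3 : KA * Real.log n ≤ b :=
        (mul_le_mul_of_nonneg_right hcK hlogn).trans hb
      have h4 : (KA * Real.log n) * Real.log 2 ≤ b * Real.log 2 :=
        mul_le_mul_of_nonneg_right h3 hlog2.le
      have h5 : (KA * Real.log n) * Real.log 2 = 16 * Real.log n +
          (Real.log 2 + 16 * Real.log (24 * (E + 1))) * (Real.log n / Real.log 2) := by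
        rw [hKA]; field_simp
      have h6 : 1 ≤ Real.log n / Real.log 2 := by rw [le_div_iff₀ hlog2]; linarith
      have h7 : (Real.log 2 + 16 * Real.log (24 * (E + 1))) * 1 ≤
          (Real.log 2 + 16 * Real.log (24 * (E + 1))) * (Real.log n / Real.log 2) :=
        mul_le_mul_of_nonneg_left h6 (by positivity)
      push_cast
      linarith
    have h3 : (2 : ℝ) * (12 * (2 * ((E + 1) * n))) ^ 16 ≤ 2 ^ b := by
      refine le_trans (le_of_eq ?_) h2
      ring
    exact_mod_cast h3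

theorem params3 (ε : ℝ) (hε : 0 < ε) : ∃ Q : ℕ, 6 ≤ Q ∧ Even Q ∧ ∃ C : ℝ, 0 < C ∧
    ∀ n d g w : ℕ, 2 ≤ n → 1 ≤ d → C * (d * Real.log n) ≤ w → w ≤ n →
      C * (d * g) ≤ n * w →
    ∃ b m' k : ℕ, 1 ≤ b ∧ 2 ≤ m' ∧
      2 * (12 * (2 * (d * (E1 Q * m' + k)))) ^ 16 ≤ 2 ^ b ∧
      4 * (d * (E1 Q * m' + k)) ≤ m' * (d * b) ∧
      4 * Q + 8 ≤ d * b ∧
      2 * (g + 2) ≤ d * b * k ∧
      (2 * Q ^ 2 + 14 + 1) * (2 * d * b) + 1 ≤ w ∧ Q * m' * (2 * d * b + 1) ≤ n ∧
      (1 - ε) * n ≤ (((2 * Q - 12) * (d * b * m') : ℕ) : ℝ) := by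
  obtain ⟨Q, hQ6, hQev, hQε, c, hc4, hcQ, hc288, hcE, hpow⟩ := consts2 ε hε
  obtain ⟨E, hE⟩ : ∃ E, E = E1 Q := ⟨_, rfl⟩
  rw [← hE] at hcE hpow
  obtain ⟨B, hB⟩ : ∃ B, B = 2 * Q ^ 2 + 14 + 1 := ⟨_, rfl⟩
  have hE1 : 1 ≤ E := by rw [hE]; unfold E1; omega
  have hlog2 : 0 < Real.log 2 := Real.log_pos (by norm_num)
  have hER : (1 : ℝ) ≤ E := by exact_mod_cast hE1
  have hQR : (6 : ℝ) ≤ Q := by exact_mod_cast hQ6
  have hB1 : 1 ≤ B := by omega
  have hBR : (1 : ℝ) ≤ B := by exact_mod_cast hB1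
  have hc00 : 0 ≤ c := by linarith only [hc4]
  have hc1 : 0 < 1 + c / Real.log 2 := by positivity
  refine ⟨Q, hQ6, hQev, 8 * B * c * (1 + c / Real.log 2), by positivity, ?_⟩
  intro n d g w hn hd hw hwn hgw
  have hnR2 : (2 : ℝ) ≤ n := by exact_mod_cast hn
  have hnR : (1 : ℝ) ≤ n := by linarith only [hnR2]
  have hdR : (1 : ℝ) ≤ d := by exact_mod_cast hd
  have hg0 : (0 : ℝ) ≤ g := Nat.cast_nonneg g
  have hlogn : 0 ≤ Real.log n := Real.log_nonneg hnR
  have hwnR : (w : ℝ) ≤ n := by exact_mod_cast hwn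
  have hdl : 0 ≤ (d : ℝ) * Real.log n := by positivity
  have hc0 : 0 ≤ c := hc00
  have hl2' : Real.log 2 ≤ Real.log n := Real.log_le_log (by norm_num) hnR2
  have hCC : 8 * B * c ≤ 8 * B * c * (1 + c / Real.log 2) := by
    have h1 : (8 * B * c) * 1 ≤ 8 * B * c * (1 + c / Real.log 2) := by
      apply mul_le_mul_of_nonneg_left _ (by positivity)
      have : 0 ≤ c / Real.log 2 := by positivity
      linarith only [this]
    linarith only [h1]
  have hgw : 8 * B * c * (d * g) ≤ n * w := by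
    refine le_trans ?_ hgw
    exact mul_le_mul_of_nonneg_right hCC (by positivity)
  have hw2 : 8 * B * c * (d * Real.log n) ≤ w := by
    refine le_trans ?_ hw
    exact mul_le_mul_of_nonneg_right hCC hdl
  -- `n` is large
  have hnc : c * c ≤ n := by
    have h1 : (d : ℝ) * Real.log n ≥ Real.log 2 := by
      have : (1 : ℝ) * Real.log n ≤ d * Real.log n := mul_le_mul_of_nonneg_right hdR hlogn
      linarith only [this, hl2']
    have h2 : (c / Real.log 2) ≤ 8 * B * c * (1 + c / Real.log 2) / c := by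
      rw [le_div_iff₀ (by linarith only [hc4])]
      have e1 : 0 ≤ c / Real.log 2 := by positivity
      have e2 : (c / Real.log 2) * c ≤ (1 + c / Real.log 2) * c :=
        mul_le_mul_of_nonneg_right (by linarith only) hc0
      have e3 : 1 * ((1 + c / Real.log 2) * c) ≤ (8 * B) * ((1 + c / Real.log 2) * c) := by
        apply mul_le_mul_of_nonneg_right (by linarith only [hBR]) (by positivity)
      linarith only [e2, e3]
    have hcpos : 0 < c := by linarith only [hc4]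
    have h3 : (c * c) ≤ 8 * B * c * (1 + c / Real.log 2) * Real.log 2 := by
      have e1 : c * (c / Real.log 2) ≤ c * (8 * B * c * (1 + c / Real.log 2) / c) :=
        mul_le_mul_of_nonneg_left h2 hc0
      have e2 : c * (8 * B * c * (1 + c / Real.log 2) / c) = 8 * B * c * (1 + c / Real.log 2) := by
        field_simp
      rw [e2] at e1
      have e3 := mul_le_mul_of_nonneg_right e1 hlog2.le
      have e4 : c * (c / Real.log 2) * Real.log 2 = c * c := by field_simp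
      linarith only [e3, e4]
    have h4 : 8 * B * c * (1 + c / Real.log 2) * Real.log 2 ≤
        8 * B * c * (1 + c / Real.log 2) * (d * Real.log n) :=
      mul_le_mul_of_nonneg_left h1 (by positivity)
    linarith only [h3, h4, hw, hwnR]
  have hn4Q : 4 * (Q : ℝ) * Q ≤ n := by
    have : (2 * (Q : ℝ)) * (2 * Q) ≤ c * c := mul_le_mul hcQ hcQ (by positivity) hc0
    linarith only [this, hnc]
  have hn2 : 2 ≤ n := hn
  have hl2 : Real.log 2 ≤ Real.log n := hl2'
  -- the parameter `b`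
  obtain ⟨b, hb⟩ : ∃ b, b = w / (4 * d * B) := ⟨_, rfl⟩
  have hdB : 0 < 4 * d * B := by positivity
  have hb1 : b * (4 * d * B) ≤ w := by rw [hb]; exact Nat.div_mul_le_self _ _
  have hb2 : w < (b + 1) * (4 * d * B) := by
    rw [hb]
    exact Nat.lt_mul_of_div_lt (Nat.lt_succ_self _) hdB
  have hb1R : (b : ℝ) * (4 * d * B) ≤ w := by exact_mod_cast hb1
  have hb2R : (w : ℝ) < (b + 1) * (4 * d * B) := by exact_mod_cast hb2
  have hba : 2 * c * Real.log n < b + 1 := by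
    have h1 : (2 * c * Real.log n) * (4 * d * B) < (b + 1) * (4 * d * B) := by
      have : (2 * c * Real.log n) * (4 * d * B) = 8 * B * c * (d * Real.log n) := by ring
      linarith only [this, hw2, hb2R]
    exact lt_of_mul_lt_mul_right h1 (by positivity)
  have hcl : 600 * (Q : ℝ) + 96 + 32 * E ≤ c * Real.log n :=
    hcE.trans (mul_le_mul_of_nonneg_left hl2 hc0)
  have hbt : (b : ℝ) + 1 ≤ 2 * b := by
    linarith only [hcl, hQR, hER, hba]
  have hbl : c * Real.log n ≤ b := by linarith only [hcl, hQR, hER, hba]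
  have hbR' : 600 * (Q : ℝ) + 96 + 32 * E ≤ b := by linarith only [hcl, hbl]
  have hb1' : 600 * Q + 96 + 32 * E ≤ b := by
    have : ((600 * Q + 96 + 32 * E : ℕ) : ℝ) ≤ b := by push_cast; exact hbR'
    exact_mod_cast this
  have hbpos : 1 ≤ b := by omega
  have hbR : (1 : ℝ) ≤ b := by exact_mod_cast hbpos
  have hdb0 : 0 < d * b := Nat.mul_pos (by omega) (by omega)
  have hdb1 : (1 : ℝ) ≤ d * b := one_le_mul_of_one_le_of_one_le hdR hbR
  -- the parameter `m'`
  obtain ⟨ℓ, hℓ⟩ : ∃ ℓ, ℓ = 2 * d * b + 1 := ⟨_, rfl⟩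
  obtain ⟨m', hm'⟩ : ∃ m', m' = n / (Q * ℓ) := ⟨_, rfl⟩
  have hQℓ : 0 < Q * ℓ := by rw [hℓ]; positivity
  have hm1 : m' * (Q * ℓ) ≤ n := by rw [hm']; exact Nat.div_mul_le_self _ _
  have hm2 : n < (m' + 1) * (Q * ℓ) := by
    rw [hm']
    exact Nat.lt_mul_of_div_lt (Nat.lt_succ_self _) hQℓ
  have hm1R : (m' : ℝ) * (Q * ℓ) ≤ n := by exact_mod_cast hm1
  have hm2R : (n : ℝ) < (m' + 1) * (Q * ℓ) := by exact_mod_cast hm2
  have hℓR : (ℓ : ℝ) = 2 * d * b + 1 := by rw [hℓ]; push_cast; ring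
  have hBQ : (2 : ℝ) * Q * Q ≤ B := by
    rw [hB]; push_cast
    have : (Q : ℝ) ^ 2 = Q * Q := by ring
    linarith only [this]
  have hq1 : (4 * (Q : ℝ)) * (Q * (2 * d * b)) ≤ n := by
    have h1 : (4 * (Q : ℝ)) * (Q * (2 * d * b)) = (2 * Q * Q) * (4 * d * b) := by ring
    have h2 : (2 * (Q : ℝ) * Q) * (4 * d * b) ≤ B * (4 * d * b) :=
      mul_le_mul_of_nonneg_right hBQ (by positivity)
    have h3 : (B : ℝ) * (4 * d * b) = b * (4 * d * B) := by ring
    linarith only [h1, h2, h3, hb1R, hwnR]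
  have hm'2 : 2 ≤ m' := by
    rw [hm', Nat.le_div_iff_mul_le hQℓ]
    have h1 : (2 : ℝ) * (Q * ℓ) ≤ n := by
      rw [hℓR]
      have h2 : 24 * ((Q : ℝ) * (2 * d * b)) ≤ 4 * (Q : ℝ) * (Q * (2 * d * b)) :=
        mul_le_mul_of_nonneg_right (by linarith only [hQR]) (by positivity)
      have h3 : 24 * (Q : ℝ) ≤ 4 * Q * Q :=
        mul_le_mul_of_nonneg_right (by linarith only [hQR]) (by positivity)
      have h4 : (2 : ℝ) * (Q * (2 * d * b + 1)) = 2 * (Q * (2 * d * b)) + 2 * Q := by ring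
      have h5 : (0 : ℝ) ≤ Q * (2 * d * b) := by positivity
      rw [h4]
      linarith only [h2, h3, h5, hq1, hn4Q, hQR]
    exact_mod_cast h1
  have hm'R : (2 : ℝ) ≤ m' := by exact_mod_cast hm'2
  have hm'0 : (0 : ℝ) ≤ m' := by linarith only [hm'R]
  have hdtQ : (d : ℝ) * b ≤ Q * (2 * d * b + 1) := by
    have h1 : (1 : ℝ) * (d * b) ≤ Q * (2 * d * b + 1) :=
      mul_le_mul (by linarith only [hQR]) (by linarith only [hdb1]) (by positivity)
        (by positivity)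
    linarith only [h1]
  have hmdb : (m' : ℝ) * (d * b) ≤ n := by
    refine le_trans ?_ hm1R
    apply mul_le_mul_of_nonneg_left _ hm'0
    rw [hℓR]
    exact hdtQ
  -- `n ≤ 9/2 Q m' d b`
  have hlow : (n : ℝ) ≤ 9 / 2 * (Q * (m' * (d * b))) := by
    have h1 : (m' : ℝ) + 1 ≤ 3 / 2 * m' := by linarith only [hm'R]
    have h2 : (Q : ℝ) * ℓ ≤ 3 * (Q * (d * b)) := by
      rw [hℓR]
      have : (Q : ℝ) * 1 ≤ Q * (d * b) := mul_le_mul_of_nonneg_left hdb1 (by positivity)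
      linarith only [this]
    have h3 : ((m' : ℝ) + 1) * (Q * ℓ) ≤ (3 / 2 * m') * (3 * (Q * (d * b))) :=
      mul_le_mul h1 h2 (by positivity) (by positivity)
    have h4 : (3 / 2 * (m' : ℝ)) * (3 * (Q * (d * b))) = 9 / 2 * (Q * (m' * (d * b))) := by ring
    linarith only [h3, h4, hm2R]
  -- the parameter `k`
  obtain ⟨k, hk⟩ : ∃ k, k = 2 * (g + 2) / (d * b) + 1 := ⟨_, rfl⟩
  have hkpos : 1 ≤ k := by rw [hk]; exact Nat.le_add_left 1 _
  have hk1 : (k - 1) * (d * b) ≤ 2 * (g + 2) := by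
    rw [hk, Nat.add_sub_cancel]; exact Nat.div_mul_le_self _ _
  have hk2 : 2 * (g + 2) < k * (d * b) := by
    rw [hk]
    exact Nat.lt_mul_of_div_lt (Nat.lt_succ_self _) hdb0
  have hk1R : ((k : ℝ) - 1) * (d * b) ≤ 2 * (g + 2) := by
    have : (((k - 1 : ℕ) * (d * b) : ℕ) : ℝ) ≤ ((2 * (g + 2) : ℕ) : ℝ) := by exact_mod_cast hk1
    rw [Nat.cast_mul, Nat.cast_sub hkpos] at this
    push_cast at this
    exact this
  -- `144 Q g ≤ n b / 2`
  have hgb : 144 * (Q : ℝ) * g ≤ n * b / 2 := by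
    -- `c g ≤ n b`
    have h1 : c * g ≤ n * b := by
      have h2 : (8 * B * c * (d * g) : ℝ) ≤ n * (2 * b * (4 * d * B)) := by
        have h3 : (w : ℝ) ≤ 2 * b * (4 * d * B) := by
          have h4 : ((b : ℝ) + 1) * (4 * d * B) ≤ (2 * b) * (4 * d * B) :=
            mul_le_mul_of_nonneg_right hbt (by positivity)
          linarith only [h4, hb2R]
        exact hgw.trans (mul_le_mul_of_nonneg_left h3 (by linarith only [hnR]))
      have h5 : (c * g) * (8 * B * d) ≤ (n * b) * (8 * B * d) := by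
        calc (c * g) * (8 * B * d) = 8 * B * c * (d * g) := by ring
          _ ≤ n * (2 * b * (4 * d * B)) := h2
          _ = (n * b) * (8 * B * d) := by ring
      exact le_of_mul_le_mul_right h5 (by positivity)
    have h6 : 288 * (Q : ℝ) * g ≤ c * g := mul_le_mul_of_nonneg_right hc288 hg0
    linarith only [h1, h6]
  have hgb2 : 144 * (Q : ℝ) * 2 ≤ n * b / 2 := by
    have h1 : (1 : ℝ) * b ≤ n * b := mul_le_mul_of_nonneg_right hnR (by linarith only [hbR])
    linarith only [h1, hbR', hER, hQR]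
  -- `8 k ≤ m' b`
  have hkb : 8 * (k : ℝ) ≤ m' * b := by
    have h1 : (16 * ((k : ℝ) - 1)) * (d * b) ≤ (m' * b) * (d * b) := by
      have h2 : 16 * (((k : ℝ) - 1) * (d * b)) ≤ 32 * (g + 2) := by linarith only [hk1R]
      -- `144 Q (g + 2) ≤ n b ≤ 9/2 Q m' d b b`
      have h3 : 144 * (Q : ℝ) * (g + 2) ≤ n * b := by linarith only [hgb, hgb2]
      have h4 : (n : ℝ) * b ≤ 9 / 2 * (Q * (m' * (d * b))) * b :=
        mul_le_mul_of_nonneg_right hlow (by linarith only [hbR])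
      have h5 : (9 / 2 * (Q : ℝ)) * (32 * (g + 2)) ≤ (9 / 2 * (Q : ℝ)) * ((m' * b) * (d * b)) := by
        calc (9 / 2 * (Q : ℝ)) * (32 * (g + 2)) = 144 * (Q : ℝ) * (g + 2) := by ring
          _ ≤ 9 / 2 * (Q * (m' * (d * b))) * b := h3.trans h4
          _ = (9 / 2 * (Q : ℝ)) * ((m' * b) * (d * b)) := by ring
      have h6 := le_of_mul_le_mul_left h5 (by positivity)
      linarith only [h2, h6]
    have h7 := le_of_mul_le_mul_right h1 (by linarith only [hdb1])
    have h8 : (2 : ℝ) * b ≤ m' * b := mul_le_mul_of_nonneg_right hm'R (by linarith only [hbR])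
    linarith only [h7, h8, hbR', hQR, hER]
  refine ⟨b, m', k, hbpos, hm'2, ?_, ?_, ?_, ?_, ?_, ?_, ?_⟩
  · -- condition (A)
    rw [← hE]
    refine le_trans ?_ (hpow n b hn2 hbl)
    apply Nat.mul_le_mul_left
    apply Nat.pow_le_pow_left
    apply Nat.mul_le_mul_left
    apply Nat.mul_le_mul_left
    have hdm : (d : ℝ) * m' ≤ n := by
      have h1 : (m' : ℝ) * (d * 1) ≤ m' * (d * b) := by
        apply mul_le_mul_of_nonneg_left _ hm'0
        exact mul_le_mul_of_nonneg_left hbR (by linarith only [hdR])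
      linarith only [h1, hmdb]
    have hdk : (d : ℝ) * k ≤ n := by
      have h1 : (d : ℝ) * (8 * k) ≤ d * (m' * b) :=
        mul_le_mul_of_nonneg_left hkb (by linarith only [hdR])
      have h2 : (0 : ℝ) ≤ d * k := by positivity
      linarith only [h1, h2, hmdb]
    have h3 : (d : ℝ) * (E * m' + k) ≤ (E + 1) * n := by
      have h4 : (E : ℝ) * (d * m') ≤ E * n := mul_le_mul_of_nonneg_left hdm (by positivity)
      linarith only [h4, hdk]
    exact_mod_cast h3
  · -- condition (B1)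
    rw [← hE]
    have h1 : 4 * ((d : ℝ) * (E * m' + k)) ≤ m' * (d * b) := by
      have h2 : (8 * (E : ℝ)) * m' ≤ b * m' :=
        mul_le_mul_of_nonneg_right (by linarith only [hbR', hQR, hER]) hm'0
      have h3 : 4 * ((E : ℝ) * m' + k) ≤ m' * b := by linarith only [h2, hkb]
      have h4 : (d : ℝ) * (4 * ((E : ℝ) * m' + k)) ≤ d * (m' * b) :=
        mul_le_mul_of_nonneg_left h3 (by linarith only [hdR])
      linarith only [h4]
    exact_mod_cast h1
  · -- condition (B2)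
    have hbd : (600 * (Q : ℝ) + 96) ≤ d * b := by
      have h1 : (1 : ℝ) * b ≤ d * b := mul_le_mul_of_nonneg_right hdR (by linarith only [hbR])
      linarith only [h1, hbR', hER]
    have hfin : 4 * (Q : ℝ) + 8 ≤ d * b := by
      linarith only [hbd, hQR]
    exact_mod_cast hfin
  · calc 2 * (g + 2) ≤ k * (d * b) := hk2.le
      _ = d * b * k := mul_comm _ _
  · rw [← hB]
    have h1 : B * (2 * d * b) * 2 = b * (4 * d * B) := by ring
    have h2 : 1 ≤ B * (2 * d * b) := Nat.one_le_iff_ne_zero.2 (by positivity)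
    omega
  · rw [← hℓ]
    calc Q * m' * ℓ = m' * (Q * ℓ) := by ring
      _ ≤ n := hm1
  · rw [hℓ] at hm2
    refine exponent ε hε Q n d b m' hQ6 hQε (by omega) hm2 ?_ hq1 hn4Q
    have h1 : 4 * (Q : ℝ) ≤ ℓ := by
      rw [hℓR]
      have h2 : (b : ℝ) ≤ 2 * d * b :=
        le_mul_of_one_le_left (by linarith only [hbR]) (by linarith only [hdR])
      linarith only [hbR', h2, hER, hQR]
    have h2 := mul_le_mul_of_nonneg_right h1 (by positivity : (0 : ℝ) ≤ m' * Q)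
    linarith only [h2, hm1R]

end H592R3
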