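import Mathlib
import Pool.Agent.H592R3.Defs

/-!
Acceptance probability of a randomized circuit.
-/

namespace SmallDepth

open DomAC0

/-- The probability that the randomized circuit outputs `true` on the input `x`. -/
noncomputable def RandCircuit.acc {J : Type} (R : RandCircuit J) (x : J → Bool) : ℝ :=
  letI := R.fin
  ∑ ω, if (R.circ ω).eval x = true then R.prob ω else 0

/-- The CNF formula `x` has a model. -/
def HasModel {n M : ℕ} (x : Fin M × Fin n × Bool → Bool) : Prop := ∃ α, Models x α

/-- The CNF formula `x` has at most one model. -/
def UniqueModel {n M : ℕ} (x : Fin M × Fin n × Bool → Bool) : Prop :=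
  ∀ α β, Models x α → Models x β → α = β

end SmallDepth
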