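import Mathlib
import Pool.Agent.H568R2.Collapse
import Pool.Agent.H592R3.Defs

/-!
The circuit that checks whether a fixed assignment is a model.
-/

namespace H592R3

open Finset DomAC0 H568R2 SmallDepth

section Chk
variable {n M : ℕ}

open Classical in
/-- The wires of the checking circuit. -/
noncomputable def chkPreds (M : ℕ) (α : Fin n → Bool) (g : Fin (M + 1)) :
    Finset ((Fin M × Fin n × Bool) ⊕ Fin (M + 1)) :=
  if h : g.val < M
    then univ.image (fun v : Fin n => Sum.inl ((⟨g.val, h⟩ : Fin M), v, α v))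
    else (univ.filter (fun g' : Fin (M + 1) => g'.val < M)).image Sum.inr

lemma mem_lt (α : Fin n → Bool) (g : Fin (M + 1)) (hg : g.val < M)
    (v : (Fin M × Fin n × Bool) ⊕ Fin (M + 1)) :
    v ∈ chkPreds M α g ↔ ∃ u : Fin n, Sum.inl ((⟨g.val, hg⟩ : Fin M), u, α u) = v := by
  unfold chkPreds
  rw [dif_pos hg, Finset.mem_image]
  simp

lemma mem_ge (α : Fin n → Bool) (g : Fin (M + 1)) (hg : ¬ g.val < M)
    (v : (Fin M × Fin n × Bool) ⊕ Fin (M + 1)) :
    v ∈ chkPreds M α g ↔ ∃ g' : Fin (M + 1), g'.val < M ∧ Sum.inr g' = v := by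
  unfold chkPreds
  rw [dif_neg hg, Finset.mem_image]
  simp

/-- An AND of ORs that checks whether `α` is a model of the CNF formula given as input. -/
noncomputable def chk (M : ℕ) (α : Fin n → Bool) : Circuit (Fin M × Fin n × Bool) where
  size := M + 1
  kind := fun g => if g.val < M then GateKind.or else GateKind.and
  preds := chkPreds M α
  acyclic := by
    intro g h hh
    by_cases hg : g.val < M
    · obtain ⟨u, hu⟩ := (mem_lt α g hg _).1 hh
      cases hu
    · obtain ⟨g', hg', hu⟩ := (mem_ge α g hg _).1 hh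
      rw [Sum.inr.injEq] at hu
      subst hu
      show g'.val < g.val
      omega
  unary := by
    intro g hg
    split_ifs at hg
  output := Sum.inr (Fin.last M)

lemma chk_mem_lt (α : Fin n → Bool) (g : Fin (M + 1)) (hg : g.val < M)
    (v : (Fin M × Fin n × Bool) ⊕ Fin (M + 1)) :
    v ∈ (chk M α).preds g ↔ ∃ u : Fin n, Sum.inl ((⟨g.val, hg⟩ : Fin M), u, α u) = v :=
  mem_lt α g hg v

lemma chk_mem_last (α : Fin n → Bool) (v : (Fin M × Fin n × Bool) ⊕ Fin (M + 1)) :
    v ∈ (chk M α).preds (Fin.last M) ↔ ∃ g : Fin (M + 1), g.val < M ∧ Sum.inr g = v :=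
  mem_ge α (Fin.last M) (by simp) v

lemma chk_gate (α : Fin n → Bool) (x : Fin M × Fin n × Bool → Bool) (g : Fin (M + 1))
    (hg : g.val < M) : (chk M α).gateVal x g = true ↔
      ∃ v : Fin n, x ((⟨g.val, hg⟩ : Fin M), v, α v) = true := by
  rw [gateVal_eq (chk M α) x g]
  unfold gfun
  have hk : (chk M α).kind g = GateKind.or := by
    show (if g.val < M then GateKind.or else GateKind.and) = _
    rw [if_pos hg]
  rw [hk]
  simp only [Finset.mem_toList, decide_eq_true_eq]
  constructor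
  · rintro ⟨v, hv, h⟩
    obtain ⟨u, rfl⟩ := (chk_mem_lt α g hg v).1 hv
    exact ⟨u, h⟩
  · rintro ⟨v, hv⟩
    exact ⟨Sum.inl ((⟨g.val, hg⟩ : Fin M), v, α v), (chk_mem_lt α g hg _).2 ⟨v, rfl⟩, hv⟩

lemma chk_eval (α : Fin n → Bool) (x : Fin M × Fin n × Bool → Bool) :
    (chk M α).eval x = true ↔ Models x α := by
  show (chk M α).gateVal x (Fin.last M) = true ↔ _
  rw [gateVal_eq (chk M α) x (Fin.last M)]
  unfold gfun
  have hk : (chk M α).kind (Fin.last M) = GateKind.and := by
    show (if (Fin.last M).val < M then GateKind.or else GateKind.and) = _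
    rw [if_neg (by simp)]
  rw [hk]
  simp only [Finset.mem_toList, decide_eq_true_eq]
  constructor
  · intro h c
    have hc : c.val < M + 1 := by omega
    have h1 := h (Sum.inr (⟨c.val, hc⟩ : Fin (M + 1)))
      ((chk_mem_last α _).2 ⟨⟨c.val, hc⟩, c.2, rfl⟩)
    exact (chk_gate α x ⟨c.val, hc⟩ c.2).1 h1
  · intro h v hv
    obtain ⟨g, hg, rfl⟩ := (chk_mem_last α v).1 hv
    exact (chk_gate α x g hg).2 (h ⟨g.val, hg⟩)

lemma chk_depth (α : Fin n → Bool) : (chk M α).depth ≤ 2 := by
  have h1 : ∀ g : Fin (M + 1), g.val < M → (chk M α).gateDepth g ≤ 1 := by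
    intro g hg
    rw [Circuit.gateDepth]
    apply Nat.succ_le_succ
    apply Finset.sup_le
    rintro ⟨v, hv⟩ _
    obtain ⟨u, rfl⟩ := (chk_mem_lt α g hg v).1 hv
    exact le_refl 0
  show (chk M α).gateDepth (Fin.last M) ≤ 2
  rw [Circuit.gateDepth]
  apply Nat.succ_le_succ
  apply Finset.sup_le
  rintro ⟨v, hv⟩ _
  obtain ⟨g, hg, rfl⟩ := (chk_mem_last α v).1 hv
  exact h1 g hg

end Chk

end H592R3
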