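import Mathlib
import Pool.Agent.H592R3.Defs

/-!
A deterministic circuit as a randomized circuit.
-/

namespace SmallDepth

open DomAC0

/-- The point distribution on one circuit. -/
noncomputable def RandCircuit.det {J : Type} (C : Circuit J) : RandCircuit J where
  Ω := Unit
  fin := inferInstance
  prob := fun _ => 1
  nonneg := fun _ => zero_le_one
  total := by simp
  circ := fun _ => C

theorem RandCircuit.det_bounded {J : Type} (C : Circuit J) {d S : ℕ} (h1 : C.depth ≤ d)
    (h2 : C.size ≤ S) : (RandCircuit.det C).Bounded d S := fun _ => ⟨h1, h2⟩

open Classical in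
theorem RandCircuit.det_correct {J : Type} (C : Circuit J) (x : J → Bool) (p : Prop)
    (h : C.eval x = decide p) : (RandCircuit.det C).Correct x p := by
  unfold RandCircuit.Correct
  simp only [RandCircuit.det]
  rw [Finset.sum_const, if_pos]
  · norm_num
  · rw [h]

end SmallDepth
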