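import Mathlib
import Pool.Agent.H592R3.Csp
import Pool.Agent.H592R3.Cnf

/-!
Randomized circuits that accept solvable instances with probability at least `p` and unsolvable
ones with probability at most `p / 2`.
-/

namespace H592R3

open Finset DomAC0 H568R2 SmallDepth

section Core
variable {m n r : ℕ}

open Classical in
lemma rand_sens_gap {s : Fin m → Fin r → Fin m} {a : Fin m → Fin n}
    {X : Fin m × (Fin r → Fin n) → Bool} (hU : Uniq s a X)
    {Ω : Type} [Fintype Ω] (P : Ω → ℝ) (hP0 : ∀ ω, 0 ≤ P ω) {p : ℝ} (hp : 0 ≤ p)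
    (F : Ω → ((Fin m × (Fin r → Fin n)) → Bool) → Bool) {L : ℕ} (hL : 1 ≤ L) (hLm : 5 * L ≤ m)
    (hyes : ∀ X, AtMostOne s X → Sat s X → p ≤ ∑ ω, if F ω X = true then P ω else 0)
    (hno : ∀ X, ¬ Sat s X → ∑ ω, (if F ω X = true then P ω else 0) ≤ p / 2) :
    p / 4 ≤ ∑ ω, P ω * (if L ≤ (sens (F ω) (vr s a) X).card then (1 : ℝ) else 0) := by
  have hm : 1 ≤ m := by omega
  have hmL : (0 : ℝ) < (m : ℝ) - L := by
    have : (L : ℝ) < m := by exact_mod_cast (by omega : L < m)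
    linarith
  have hj : ∀ j : Fin m, ¬ Sat s (plant (vr s a) (univ.erase j) X) := by
    intro j
    rw [uniq_sat hU]
    intro h
    have := Finset.mem_univ j
    rw [← h] at this
    simp at this
  have hu : Sat s (plant (vr s a) univ X) := by rw [uniq_sat hU]
  -- pointwise
  have hpt : ∀ ω, (if F ω (plant (vr s a) univ X) = true then (1 : ℝ) else 0) ≤
      (if L ≤ (sens (F ω) (vr s a) X).card then (1 : ℝ) else 0) +
      (1 / ((m : ℝ) - L)) * ∑ j : Fin m,
        (if F ω (plant (vr s a) (univ.erase j) X) = true then (1 : ℝ) else 0) := by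
    intro ω
    have hnn : (0 : ℝ) ≤ (1 / ((m : ℝ) - L)) * ∑ j : Fin m,
        (if F ω (plant (vr s a) (univ.erase j) X) = true then (1 : ℝ) else 0) := by
      apply mul_nonneg (by positivity)
      apply Finset.sum_nonneg
      intro j _
      split_ifs <;> norm_num
    by_cases hs : L ≤ (sens (F ω) (vr s a) X).card
    · rw [if_pos hs]
      have : (if F ω (plant (vr s a) univ X) = true then (1 : ℝ) else 0) ≤ 1 := by
        split_ifs <;> norm_num
      linarith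
    · rw [if_neg hs, zero_add]
      by_cases hfull : F ω (plant (vr s a) univ X) = true
      · rw [if_pos hfull]
        -- rejected `j` are sensitive
        have hsub : univ.filter (fun j : Fin m => ¬ F ω (plant (vr s a) (univ.erase j) X) = true)
            ⊆ sens (F ω) (vr s a) X := by
          intro j hj
          have hj' := (Finset.mem_filter.1 hj).2
          rw [mem_sens]
          refine ⟨univ.erase j, ?_⟩
          rw [Finset.insert_erase (Finset.mem_univ j), hfull]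
          exact hj'
        have hc := Finset.card_le_card hsub
        have hsplit : (univ.filter (fun j : Fin m =>
            F ω (plant (vr s a) (univ.erase j) X) = true)).card +
            (univ.filter (fun j : Fin m =>
            ¬ F ω (plant (vr s a) (univ.erase j) X) = true)).card = m := by
          rw [Finset.card_filter_add_card_filter_not, Finset.card_univ, Fintype.card_fin]
        rw [Finset.sum_boole]
        rw [one_div_mul_eq_div, le_div_iff₀ hmL, one_mul]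
        have h5 : m ≤ L + (univ.filter (fun j : Fin m =>
            F ω (plant (vr s a) (univ.erase j) X) = true)).card := by omega
        have h6 : (m : ℝ) ≤ L + ((univ.filter (fun j : Fin m =>
            F ω (plant (vr s a) (univ.erase j) X) = true)).card : ℝ) := by exact_mod_cast h5
        linarith
      · rw [if_neg hfull]
        exact hnn
  have e1 : ∀ Z : (Fin m × (Fin r → Fin n)) → Bool,
      ∑ ω, (if F ω Z = true then P ω else 0) =
      ∑ ω, P ω * (if F ω Z = true then (1 : ℝ) else 0) := by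
    intro Z
    refine Finset.sum_congr rfl fun ω _ => ?_
    split_ifs <;> simp
  have h1 : p ≤ ∑ ω, P ω * (if L ≤ (sens (F ω) (vr s a) X).card then (1 : ℝ) else 0) +
      (1 / ((m : ℝ) - L)) * (m * (p / 2)) := by
    calc p ≤ ∑ ω, P ω * (if F ω (plant (vr s a) univ X) = true then (1 : ℝ) else 0) := by
          rw [← e1]; exact hyes _ (uniq_atMostOne hU univ) hu
      _ ≤ ∑ ω, P ω * ((if L ≤ (sens (F ω) (vr s a) X).card then (1 : ℝ) else 0) +
          (1 / ((m : ℝ) - L)) * ∑ j : Fin m,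
          (if F ω (plant (vr s a) (univ.erase j) X) = true then (1 : ℝ) else 0)) :=
          Finset.sum_le_sum fun ω _ => mul_le_mul_of_nonneg_left (hpt ω) (hP0 ω)
      _ = ∑ ω, P ω * (if L ≤ (sens (F ω) (vr s a) X).card then (1 : ℝ) else 0) +
          (1 / ((m : ℝ) - L)) * ∑ j : Fin m, ∑ ω, P ω *
          (if F ω (plant (vr s a) (univ.erase j) X) = true then (1 : ℝ) else 0) := by
          rw [Finset.sum_comm, Finset.mul_sum, ← Finset.sum_add_distrib]
          refine Finset.sum_congr rfl fun ω _ => ?_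
          rw [← Finset.mul_sum]
          ring
      _ ≤ _ := by
          apply add_le_add_right
          apply mul_le_mul_of_nonneg_left _ (by positivity)
          refine (Finset.sum_le_sum fun j _ => ?_ :
            _ ≤ ∑ _j : Fin m, p / 2).trans ?_
          · rw [← e1]; exact hno _ (hj j)
          · rw [Finset.sum_const, Finset.card_univ, Fintype.card_fin, nsmul_eq_mul]
  have h3 : (1 / ((m : ℝ) - L)) * (m * (p / 2)) ≤ 5 / 8 * p := by
    rw [one_div_mul_eq_div, div_le_iff₀ hmL]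
    have : (5 : ℝ) * L ≤ m := by exact_mod_cast hLm
    nlinarith
  linarith

variable {J : Type} [Fintype J]

open Classical in
theorem core_gap (hn : 1 ≤ n) (s : Fin m → Fin (r + 1) → Fin m) (hs : ∀ i, s i 0 = i)
    {Ω : Type} [Fintype Ω] (P : Ω → ℝ) (hP0 : ∀ ω, 0 ≤ P ω) (hP1 : ∑ ω, P ω = 1)
    {p : ℝ} (hp : 0 ≤ p)
    (C : Ω → Circuit J) (σ : ((Fin m × (Fin (r + 1) → Fin n)) → Bool) → (J → Bool))
    (hσ : ∀ j, Junta 1 (fun x => σ x j)) {h : ℕ} (hh : 1 ≤ h) {d τ : ℕ} (hτ : 3 ≤ τ)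
    (hdepth : ∀ ω, (C ω).depth ≤ d) {S : ℕ} (hS : ∀ ω, (C ω).size ≤ S) {L u : ℕ} (hL : 2 ≤ L)
    (hLm : 5 * L ≤ m)
    (hexp : ∀ H : Finset (Fin m), L ≤ H.card → m - (touched s H).card ≤ u)
    {y q ε : ℝ} (hy0 : 0 < y) (hy1 : y ≤ 1) (hq : q = (1 / (τ : ℝ)) ^ d)
    (hε : d * ((S * (Fintype.card J + S + 1) : ℕ) : ℝ) *
      (12 * h * (1 / (τ : ℝ))) ^ (h + 1) ≤ ε)
    (hyes : ∀ X, AtMostOne s X → Sat s X → p ≤ ∑ ω, if (C ω).eval (σ X) = true then P ω else 0)
    (hno : ∀ X, ¬ Sat s X → ∑ ω, (if (C ω).eval (σ X) = true then P ω else 0) ≤ p / 2) :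
    (n : ℝ) ^ m * (p / 4 * (1 - (m * (y / 2) + ((1 + n * (y / 2)) ^ m - 1)))) ≤
    S * 2 ^ m * ((1 / (y * q)) ^ (2 * L) * (2 ^ h * (ctb h L n u : ℝ) +
      ((Fintype.card J + S + 1 : ℕ) : ℝ) * (n : ℝ) ^ m * ε)) := by
  set R : ℝ := S * 2 ^ m * ((1 / (y * q)) ^ (2 * L) * (2 ^ h * (ctb h L n u : ℝ) +
      ((Fintype.card J + S + 1 : ℕ) : ℝ) * (n : ℝ) ^ m * ε)) with hR
  have hp0 : 0 ≤ y / 2 := by linarith
  have hp1 : y / 2 ≤ 1 := by linarith
  have h1 : ∑ ω, P ω * ∑ a : Fin m → Fin n, Ex (vp (y / 2)) (fun X =>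
      if L ≤ (sens (fun x => (C ω).eval (σ x)) (vr s a) X).card then (1 : ℝ) else 0) ≤ R := by
    calc _ ≤ ∑ ω, P ω * R := by
          refine Finset.sum_le_sum fun ω _ => mul_le_mul_of_nonneg_left ?_ (hP0 ω)
          exact circ_bound hn s (C ω) σ hσ hh hτ (hdepth ω) (hS ω) hL hexp hy0 hy1 hq hε
      _ = R := by rw [← Finset.sum_mul, hP1, one_mul]
  have h2 : ∑ ω, P ω * ∑ a : Fin m → Fin n, Ex (vp (y / 2)) (fun X =>
      if L ≤ (sens (fun x => (C ω).eval (σ x)) (vr s a) X).card then (1 : ℝ) else 0) =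
      ∑ a : Fin m → Fin n, Ex (vp (y / 2)) (fun X => ∑ ω, P ω *
      (if L ≤ (sens (fun x => (C ω).eval (σ x)) (vr s a) X).card then (1 : ℝ) else 0)) := by
    simp only [Finset.mul_sum]
    rw [Finset.sum_comm]
    refine Finset.sum_congr rfl fun a _ => ?_
    rw [Ex_sum]
    refine Finset.sum_congr rfl fun ω _ => ?_
    rw [Ex_smul]
  rw [h2] at h1
  refine le_trans ?_ h1
  have h3 : ∀ a ∈ (univ : Finset (Fin m → Fin n)),
      p / 4 * (1 - (m * (y / 2) + ((1 + n * (y / 2)) ^ m - 1))) ≤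
      Ex (vp (y / 2)) (fun X => ∑ ω, P ω *
      (if L ≤ (sens (fun x => (C ω).eval (σ x)) (vr s a) X).card then (1 : ℝ) else 0)) := by
    intro a _
    have h4 : ∀ X : (Fin m × (Fin (r + 1) → Fin n)) → Bool,
        p / 4 + (-(p / 4)) * (if ¬ Uniq s a X then (1 : ℝ) else 0) ≤ ∑ ω, P ω *
        (if L ≤ (sens (fun x => (C ω).eval (σ x)) (vr s a) X).card then (1 : ℝ) else 0) := by
      intro X
      by_cases hU : Uniq s a X
      · rw [if_neg (not_not.2 hU), mul_zero, add_zero]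
        exact rand_sens_gap hU P hP0 hp (fun ω x => (C ω).eval (σ x)) (by omega) hLm hyes hno
      · rw [if_pos hU]
        have : (0 : ℝ) ≤ ∑ ω, P ω *
          (if L ≤ (sens (fun x => (C ω).eval (σ x)) (vr s a) X).card then (1 : ℝ) else 0) := by
          apply Finset.sum_nonneg
          intro ω _
          apply mul_nonneg (hP0 ω)
          split_ifs <;> norm_num
        linarith
    refine le_trans ?_ (Ex_mono (vp_nonneg hp0 hp1) h4)
    rw [Ex_add (vp (y / 2)) (fun _ => (p / 4 : ℝ)), Ex_smul, Ex_const (vp_sum (y / 2))]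
    have h5 := uniq_prob (n := n) hs a hp0 hp1
    nlinarith
  have h6 := Finset.card_nsmul_le_sum _ _ _ h3
  rw [Finset.card_univ, Fintype.card_fun, Fintype.card_fin, Fintype.card_fin, nsmul_eq_mul] at h6
  push_cast at h6
  exact h6

end Core

open Classical in
/-- The lower bound for the constraint satisfaction problem, multiplicative gap version. -/
theorem csp_gap (Q d m' t : ℕ) (hQ : 6 ≤ Q) (hd : 1 ≤ d) (hm' : 2 ≤ m')
    (hA : 2 * (12 * (2 * d * EE Q * m')) ^ 8 ≤ 2 ^ t)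
    (hB : 2 * (Q + 4 + 2 * d * EE Q + 4 * m') ≤ d * t)
    (s : Fin (Q * m') → Fin (2 * Q ^ 2 + 1) → Fin (Q * m')) (hs : ∀ i, s i 0 = i)
    (hexp : ∀ H : Finset (Fin (Q * m')), m' ≤ H.card → Q * m' - (touched s H).card ≤ m')
    {J : Type} {Ω : Type} [Fintype Ω] (P : Ω → ℝ) (hP0 : ∀ ω, 0 ≤ P ω) (hP1 : ∑ ω, P ω = 1)
    {p : ℝ} (hp0 : 0 < p) (hp1 : p ≤ 1)
    (C : Ω → Circuit J)
    (σ : ((Fin (Q * m') × (Fin (2 * Q ^ 2 + 1) → Fin (2 ^ (2 * d * t)))) → Bool) → (J → Bool))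
    (hσ : ∀ j, Junta 1 (fun x => σ x j))
    (hdepth : ∀ ω, (C ω).depth ≤ d) {S : ℕ} (hS : ∀ ω, (C ω).size ≤ S)
    (hyes : ∀ X, AtMostOne s X → Sat s X → p ≤ ∑ ω, if (C ω).eval (σ X) = true then P ω else 0)
    (hno : ∀ X, ¬ Sat s X → ∑ ω, (if (C ω).eval (σ X) = true then P ω else 0) ≤ p / 2) :
    p * 2 ^ ((2 * Q - 11) * (d * t * m')) < S := by
  by_contra hcon
  push Not at hcon
  obtain ⟨φ, hφ⟩ : ∃ φ : J → Option (Fin (Q * m') ×
      (Fin (2 * Q ^ 2 + 1) → Fin (2 ^ (2 * d * t)))) × Bool, ∀ j X, σ X j = std X (φ j) := by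
    choose φ hφ using fun j => junta_std (hσ j)
    exact ⟨φ, hφ⟩
  have hev : ∀ ω X, (mapIn φ (C ω)).eval (std X) = (C ω).eval (σ X) := by
    intro ω X
    rw [mapIn_eval]
    congr 1
    funext j
    exact (hφ j X).symm
  have hn1 : 1 ≤ 2 ^ (2 * d * t) := Nat.one_le_two_pow
  have hE : 1 ≤ EE Q := by unfold EE; omega
  have hh1 : 1 ≤ 2 * d * EE Q * m' := by
    have : 0 < 2 * d * EE Q * m' := by positivity
    omega
  have hτ3 : 3 ≤ 2 ^ t := by
    refine le_trans ?_ hA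
    have : 1 ≤ (12 * (2 * d * EE Q * m')) ^ 8 := Nat.one_le_pow _ _ (by omega)
    have h2 : 12 * (2 * d * EE Q * m') ≤ (12 * (2 * d * EE Q * m')) ^ 8 :=
      Nat.le_self_pow (by norm_num) _
    omega
  obtain ⟨T, hT⟩ : ∃ T : ℝ, T = (2 : ℝ) ^ (d * t) := ⟨_, rfl⟩
  have hT0 : 0 < T := by rw [hT]; positivity
  have hT1 : 1 ≤ T := by rw [hT]; exact one_le_pow₀ (by norm_num)
  have hTτ : T = ((2 ^ t : ℕ) : ℝ) ^ d := by rw [hT]; push_cast; rw [← pow_mul, mul_comm]
  have hnT : ((2 ^ (2 * d * t) : ℕ) : ℝ) = T ^ 2 := by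
    rw [hT, ← pow_mul]; push_cast; congr 1; ring
  have hq : (1 / ((2 ^ t : ℕ) : ℝ)) ^ d = 1 / T := by rw [one_div_pow, hTτ]
  have h8 : 8 * (((Q * m' : ℕ) : ℝ)) ≤ T := by
    have h1 : 8 * (Q * m') ≤ 2 ^ t := by
      refine le_trans ?_ hA
      have h2 : 12 * (2 * d * EE Q * m') ≤ (12 * (2 * d * EE Q * m')) ^ 8 :=
        Nat.le_self_pow (by norm_num) _
      have h3 : Q * m' ≤ d * EE Q * m' := by
        apply Nat.mul_le_mul_right
        calc Q = 1 * Q := (one_mul Q).symm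
          _ ≤ d * EE Q := Nat.mul_le_mul hd (by unfold EE; omega)
      have h4 : 12 * (2 * d * EE Q * m') = 24 * (d * EE Q * m') := by ring
      omega
    have h2 : 2 ^ t ≤ 2 ^ (d * t) :=
      Nat.pow_le_pow_right (by norm_num) (Nat.le_mul_of_pos_left t (by omega))
    rw [hT]
    exact_mod_cast h1.trans h2
  have hQm : 1 ≤ Q * m' := Nat.one_le_iff_ne_zero.2 (by positivity)
  have hcore := core_gap (m := Q * m') (n := 2 ^ (2 * d * t)) (r := 2 * Q ^ 2) hn1 s hs P hP0 hP1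
    hp0.le (fun ω => mapIn φ (C ω)) (fun X => std X) std_junta hh1 (d := d) (τ := 2 ^ t) hτ3
    (fun ω => (mapIn_depth φ (C ω)).trans (hdepth ω)) (S := S) (fun ω => hS ω) (L := m') (u := m')
    hm' (Nat.mul_le_mul_right m' (by omega)) hexp (y := 1 / T ^ 3) (q := 1 / T)
    (by positivity) (by
      rw [div_le_one (by positivity)]; exact one_le_pow₀ hT1) hq.symm (le_refl _) (by
      intro X hX hX'
      have := hyes X hX hX'
      simp only [hev]
      exact this) (by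
      intro X hX
      have := hno X hX
      simp only [hev]
      exact this)
  have hbad := bad_small (Q * m') T h8 hQm _ hnT
  have hyq : 1 / (1 / T ^ 3 * (1 / T)) = T ^ 4 := by
    field_simp
  rw [hyq, hnT] at hcore
  have hlow : (T ^ 2) ^ (Q * m') * (p / 8) ≤ (T ^ 2) ^ (Q * m') * (p / 4 * (1 - (((Q * m' : ℕ) : ℝ) *
      (1 / T ^ 3 / 2) + ((1 + T ^ 2 * (1 / T ^ 3 / 2)) ^ (Q * m') - 1)))) := by
    apply mul_le_mul_of_nonneg_left _ (by positivity)
    rw [hnT] at hbad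
    nlinarith
  have hJc : (Fintype.card (Option (Fin (Q * m') ×
      (Fin (2 * Q ^ 2 + 1) → Fin (2 ^ (2 * d * t)))) × Bool) : ℝ) =
      (Q * m' * (T ^ 2) ^ (2 * Q ^ 2 + 1) + 1) * 2 := by
    rw [Fintype.card_prod, Fintype.card_option, Fintype.card_prod, Fintype.card_fun,
      Fintype.card_fin, Fintype.card_fin, Fintype.card_fin, Fintype.card_bool]
    rw [← hnT]
    push_cast
    ring
  obtain ⟨S0, hS0⟩ : ∃ S0 : ℕ, S0 = 2 ^ ((2 * Q - 11) * (d * t * m')) := ⟨_, rfl⟩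
  have hS0R : (2 : ℝ) ^ ((2 * Q - 11) * (d * t * m')) = S0 := by rw [hS0]; push_cast; rfl
  rw [hS0R] at hcon
  have hSS0 : S ≤ S0 := by
    have h1 : p * (S0 : ℝ) ≤ 1 * S0 := mul_le_mul_of_nonneg_right hp1 (by positivity)
    have h2 : (S : ℝ) ≤ S0 := by linarith
    exact_mod_cast h2
  refine final_arith Q d m' S0 _ hQ hd hm' T ((2 ^ t : ℕ) : ℝ) hTτ ?_ ?_ ?_ hJc ?_
  · exact_mod_cast hA
  · rw [hT, ← pow_mul]
    apply pow_le_pow_right₀ (by norm_num)
    calc (Q + 4 + 2 * d * EE Q + 4 * m') * 2 = 2 * (Q + 4 + 2 * d * EE Q + 4 * m') := by ring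
      _ ≤ d * t := hB
  · rw [hT, ← pow_mul, hS0]
    push_cast
    apply le_of_eq
    congr 1
    ring
  · have h1 := hlow.trans hcore
    unfold ctb at h1
    push_cast at h1
    have hnT' : (2 : ℝ) ^ (2 * d * t) = T ^ 2 := by
      rw [← hnT]; push_cast; rfl
    rw [hnT'] at h1
    set Y : ℕ → ℝ := fun S' => 2 ^ (Q * m') * ((T ^ 4) ^ (2 * m') * (2 ^ (2 * d * EE Q * m') *
      (((2 * d * EE Q * m' : ℕ) : ℝ) * 2 ^ (2 * m') * (2 * m')) ^ (2 * m') * (T ^ 2) ^ m' +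
      ((Fintype.card (Option (Fin (Q * m') ×
      (Fin (2 * Q ^ 2 + 1) → Fin (2 ^ (2 * d * t)))) × Bool) + S' + 1 : ℕ) : ℝ) *
      (T ^ 2) ^ (Q * m') * (d * ((S' * (Fintype.card (Option (Fin (Q * m') ×
      (Fin (2 * Q ^ 2 + 1) → Fin (2 ^ (2 * d * t)))) × Bool) + S' + 1) : ℕ) : ℝ) *
      (12 * (2 * d * EE Q * m' : ℕ) * (1 / ((2 ^ t : ℕ) : ℝ))) ^ (2 * d * EE Q * m' + 1)))) with hY
    have hYmono : Y S ≤ Y S0 := by
      rw [hY]
      have hSR : (S : ℝ) ≤ S0 := by exact_mod_cast hSS0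
      push_cast
      gcongr
    have hY0 : 0 ≤ Y S0 := by rw [hY]; positivity
    have h2 : (T ^ 2) ^ (Q * m') * (p / 8) ≤ S * Y S := by
      refine h1.trans (le_of_eq ?_)
      rw [hY]
      push_cast
      ring
    have h3 : (S : ℝ) * Y S ≤ (p * S0) * Y S0 := by
      apply mul_le_mul hcon hYmono _ (by positivity)
      rw [hY]; positivity
    have h4 : p * ((T ^ 2) ^ (Q * m') * (1 / 8)) ≤ p * (S0 * Y S0) := by
      calc p * ((T ^ 2) ^ (Q * m') * (1 / 8)) = (T ^ 2) ^ (Q * m') * (p / 8) := by ring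
        _ ≤ (p * S0) * Y S0 := h2.trans h3
        _ = p * (S0 * Y S0) := by ring
    have h5 := le_of_mul_le_mul_left h4 hp0
    refine h5.trans (le_of_eq ?_)
    rw [hY]
    push_cast
    ring

/-- The lower bound for CNF satisfiability, multiplicative gap version. -/
theorem cnf_gap (ε : ℝ) (hε : 0 < ε) : ∃ C : ℝ, 0 < C ∧ ∀ n d w M S : ℕ, 1 ≤ n → 1 ≤ d →
    C * (√(n : ℝ) + d * Real.log n) ≤ w → w ≤ n → n * 2 ^ w ≤ M →
    ∀ {Ω : Type} [Fintype Ω] (P : Ω → ℝ), (∀ ω, 0 ≤ P ω) → ∑ ω, P ω = 1 →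
    ∀ K : Ω → Circuit (Fin M × Fin n × Bool), (∀ ω, (K ω).depth ≤ d) → (∀ ω, (K ω).size ≤ S) →
    ∀ p : ℝ, 0 < p → p ≤ 1 →
    (∀ x : Fin M × Fin n × Bool → Bool, WidthLe x w →
      (∀ α β, Models x α → Models x β → α = β) → (∃ α, Models x α) →
      p ≤ ∑ ω, if (K ω).eval x = true then P ω else 0) →
    (∀ x : Fin M × Fin n × Bool → Bool, WidthLe x w → ¬ (∃ α, Models x α) →
      ∑ ω, (if (K ω).eval x = true then P ω else 0) ≤ p / 2) →
    p * (2 : ℝ) ^ ((1 - ε) * n) < S := by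
  classical
  obtain ⟨Q, hQ6, _, C, hC, hpar⟩ := params ε hε
  refine ⟨C, hC, ?_⟩
  intro n d w M S hn hd hw hwn hM Ω _ P hP0 hP1 K hK1 hK2 p hp0 hp1 hyes hno
  obtain ⟨t, m', ht, hm', hA, hB, hBw, hQn, hexp⟩ := hpar n d w hn hd hw hwn
  obtain ⟨s, hs, hsexp⟩ := scopes Q m' (by omega) (by omega)
  have hdt : 1 ≤ d * t := Nat.one_le_iff_ne_zero.2 (by positivity)
  have hℓ2 : 2 ≤ 2 * d * t := by
    have : 2 * d * t = 2 * (d * t) := by ring
    omega
  -- encoding of the variables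
  have hcard1 : Q * m' * (2 * d * t) ≤ n := by
    refine le_trans ?_ hQn
    exact Nat.mul_le_mul_left _ (by omega)
  obtain ⟨e⟩ : Nonempty ((Fin (Q * m') × Fin (2 * d * t)) ↪ Fin n) := by
    apply Function.Embedding.nonempty_of_card_le
    rw [Fintype.card_prod, Fintype.card_fin, Fintype.card_fin, Fintype.card_fin]
    exact hcard1
  obtain ⟨dec⟩ : Nonempty ((Fin (2 * d * t) → Bool) ≃ Fin (2 ^ (2 * d * t))) :=
    ⟨Fintype.equivFinOfCardEq (by simp)⟩
  have hn0 : 0 < n := hn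
  have hB1 : 2 ≤ (2 * Q ^ 2 + 1) * (2 * d * t) := by
    calc 2 ≤ 2 * d * t := hℓ2
      _ = 1 * (2 * d * t) := (one_mul _).symm
      _ ≤ _ := Nat.mul_le_mul_right _ (by omega)
  -- encoding of the clauses
  have hcard2 : Q * m' * (2 ^ (2 * d * t)) ^ (2 * Q ^ 2 + 1) + n ≤ M := by
    refine le_trans ?_ hM
    have h1 : (2 ^ (2 * d * t)) ^ (2 * Q ^ 2 + 1) ≤ 2 ^ w := by
      rw [← pow_mul]
      apply Nat.pow_le_pow_right (by norm_num)
      rw [mul_comm]; omega
    have h2 : 2 * (Q * m') ≤ n := by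
      refine le_trans ?_ hcard1
      rw [mul_comm]
      exact Nat.mul_le_mul_left _ hℓ2
    have h3 : 2 ≤ 2 ^ w := by
      calc 2 = 2 ^ 1 := (pow_one 2).symm
        _ ≤ 2 ^ w := Nat.pow_le_pow_right (by norm_num) (by omega)
    have h4 : 2 * (Q * m' * (2 ^ (2 * d * t)) ^ (2 * Q ^ 2 + 1)) ≤ n * 2 ^ w := by
      calc 2 * (Q * m' * (2 ^ (2 * d * t)) ^ (2 * Q ^ 2 + 1)) =
          (2 * (Q * m')) * (2 ^ (2 * d * t)) ^ (2 * Q ^ 2 + 1) := by ring
        _ ≤ n * 2 ^ w := Nat.mul_le_mul h2 h1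
    have h5 : 2 * n ≤ n * 2 ^ w := by
      rw [mul_comm]; exact Nat.mul_le_mul_left _ h3
    omega
  obtain ⟨π, hπ⟩ : ∃ π : Fin M → (Fin (Q * m') × (Fin (2 * Q ^ 2 + 1) →
      Fin (2 ^ (2 * d * t)))) ⊕ Fin n, Function.Surjective π := by
    have : Nonempty ((Fin (Q * m') × (Fin (2 * Q ^ 2 + 1) →
      Fin (2 ^ (2 * d * t)))) ⊕ Fin n) := ⟨Sum.inr ⟨0, hn0⟩⟩
    obtain ⟨g⟩ : Nonempty (((Fin (Q * m') × (Fin (2 * Q ^ 2 + 1) →
      Fin (2 ^ (2 * d * t)))) ⊕ Fin n) ↪ Fin M) := by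
      apply Function.Embedding.nonempty_of_card_le
      rw [Fintype.card_sum, Fintype.card_prod, Fintype.card_fun, Fintype.card_fin,
        Fintype.card_fin, Fintype.card_fin, Fintype.card_fin, Fintype.card_fin]
      exact hcard2
    exact ⟨Function.invFun g, Function.invFun_surjective g.injective⟩
  have hwid : ∀ X, WidthLe (cnfOf s e dec ⟨0, hn0⟩ π X) w := fun X =>
    cnfOf_width (by omega) (by omega) X
  have hlow := csp_gap Q d m' t hQ6 hd hm' hA hB s hs hsexp P hP0 hP1 hp0 hp1 K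
    (fun X => cnfOf s e dec ⟨0, hn0⟩ π X) (cnfOf_junta s e dec ⟨0, hn0⟩ π)
    hK1 (S := S) hK2 (by
      intro X hX hX'
      exact hyes _ (hwid X) (cnfOf_unique hπ X hX) ((cnfOf_sat hπ X).2 hX')) (by
      intro X hX
      exact hno _ (hwid X) (fun h => hX ((cnfOf_sat hπ X).1 h)))
  refine lt_of_le_of_lt ?_ hlow
  apply mul_le_mul_of_nonneg_left _ hp0.le
  rw [← Real.rpow_natCast]
  exact Real.rpow_le_rpow_of_exponent_le (by norm_num) hexp

end H592R3
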