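import Mathlib
import Pool.Agent.H592R3.Defs

/-!
CNF formulas given by the indicator vector of their set of clauses.
-/

namespace SmallDepth

/-- All clauses of at most `w` literals over the variables `0, …, n - 1`: the literal `(v, b)` is
true when the variable `v` has the value `b`. -/
abbrev Clause (n w : ℕ) : Type := {K : Finset (Fin n × Bool) // K.card ≤ w}

/-- A CNF formula whose clauses have at most `w` literals is given by the indicator vector `x` of
its set of clauses. The assignment `α` satisfies it. -/
def KModels {n w : ℕ} (x : Clause n w → Bool) (α : Fin n → Bool) : Prop :=
  ∀ K : Clause n w, x K = true → ∃ l ∈ K.1, α l.1 = l.2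

end SmallDepth
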