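import Mathlib
import Pool.Agent.H592R3.KcnfDefs
import Pool.Agent.H592R3.Cnf

/-!
The lower bound for the satisfiability of CNF formulas given by their set of clauses.
-/

namespace H592R3

open Finset DomAC0 H568R2 SmallDepth

section Red
variable {m n B ℓ w : ℕ}

/-- The clause of a constraint. -/
def cl (s : Fin m → Fin B → Fin m) (e : (Fin m × Fin ℓ) ↪ Fin n)
    (dec : (Fin ℓ → Bool) ≃ Fin (2 ^ ℓ)) (tag : Fin m → Fin n)
    (p : Fin m × (Fin B → Fin (2 ^ ℓ))) : Finset (Fin n × Bool) :=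
  insert (tag p.1, true) ((univ : Finset (Fin B × Fin ℓ)).image
    (fun q => (e (s p.1 q.1, q.2), !(dec.symm (p.2 q.1) q.2))))

lemma cl_card (s : Fin m → Fin B → Fin m) (e : (Fin m × Fin ℓ) ↪ Fin n)
    (dec : (Fin ℓ → Bool) ≃ Fin (2 ^ ℓ)) (tag : Fin m → Fin n)
    (p : Fin m × (Fin B → Fin (2 ^ ℓ))) : (cl s e dec tag p).card ≤ B * ℓ + 1 := by
  unfold cl
  refine (Finset.card_insert_le _ _).trans ?_
  apply Nat.add_le_add_right
  refine Finset.card_image_le.trans ?_
  rw [Finset.card_univ, Fintype.card_prod, Fintype.card_fin, Fintype.card_fin]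

/-- The tuple is the restriction of an assignment. -/
def Consis (s : Fin m → Fin B → Fin m) (p : Fin m × (Fin B → Fin (2 ^ ℓ))) : Prop :=
  ∃ a : Fin m → Fin (2 ^ ℓ), p.2 = fun k => a (s p.1 k)

lemma cl_inj {s : Fin m → Fin B → Fin m} {e : (Fin m × Fin ℓ) ↪ Fin n}
    {dec : (Fin ℓ → Bool) ≃ Fin (2 ^ ℓ)} {tag : Fin m → Fin n}
    (htag : Function.Injective tag) (htr : ∀ j, tag j ∉ Set.range e)
    {p p' : Fin m × (Fin B → Fin (2 ^ ℓ))} (hp : Consis s p) (hp' : Consis s p')
    (h : cl s e dec tag p = cl s e dec tag p') : p = p' := by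
  obtain ⟨j, τ⟩ := p
  obtain ⟨j', τ'⟩ := p'
  obtain ⟨a, ha⟩ := hp
  obtain ⟨a', ha'⟩ := hp'
  simp only at ha ha'
  have hj : j = j' := by
    have h1 : (tag j, true) ∈ cl s e dec tag (j', τ') := by
      rw [← h]; exact Finset.mem_insert_self _ _
    unfold cl at h1
    rcases Finset.mem_insert.1 h1 with h2 | h2
    · exact htag (Prod.mk.inj h2).1
    · obtain ⟨q, _, hq⟩ := Finset.mem_image.1 h2
      exact absurd ⟨_, (Prod.mk.inj hq).1⟩ (htr j)
  subst hj
  have hτ : τ = τ' := by
    funext k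
    apply dec.symm.injective
    funext i
    have h1 : (e (s j k, i), !(dec.symm (τ k) i)) ∈ cl s e dec tag (j, τ') := by
      rw [← h]
      exact Finset.mem_insert_of_mem (Finset.mem_image.2 ⟨(k, i), Finset.mem_univ _, rfl⟩)
    unfold cl at h1
    rcases Finset.mem_insert.1 h1 with h2 | h2
    · exact absurd ⟨_, (Prod.mk.inj h2).1⟩ (htr j)
    · obtain ⟨⟨k', i'⟩, _, hq⟩ := Finset.mem_image.1 h2
      obtain ⟨hq1, hq2⟩ := Prod.mk.inj hq
      have hq3 := e.injective hq1
      obtain ⟨hs, hi⟩ := Prod.mk.inj hq3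
      simp only at hs hi hq2
      subst hi
      have e1 : τ' k' = τ' k := by rw [ha']; simp only [hs]
      rw [e1] at hq2
      have e2 : dec.symm (τ' k) i' = dec.symm (τ k) i' := by
        have := congrArg (fun b => !b) hq2
        simpa using this
      exact e2.symm
  rw [hτ]

/-- The literals' clause of a single forced variable. -/
def unitCl (u : Fin n) : Finset (Fin n × Bool) := {(u, false)}

open Classical in
/-- The indicator vector of the clauses of a constraint satisfaction instance. -/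
noncomputable def kcnfOf (s : Fin m → Fin B → Fin m) (e : (Fin m × Fin ℓ) ↪ Fin n)
    (dec : (Fin ℓ → Bool) ≃ Fin (2 ^ ℓ)) (tag : Fin m → Fin n)
    (X : (Fin m × (Fin B → Fin (2 ^ ℓ))) → Bool) : Clause n w → Bool :=
  fun K => if h : ∃ p, Consis s p ∧ K.1 = cl s e dec tag p then !(X h.choose) else
    decide (∃ u, u ∉ Set.range e ∧ K.1 = unitCl u)

lemma kcnfOf_junta (s : Fin m → Fin B → Fin m) (e : (Fin m × Fin ℓ) ↪ Fin n)
    (dec : (Fin ℓ → Bool) ≃ Fin (2 ^ ℓ)) (tag : Fin m → Fin n) (K : Clause n w) :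
    Junta 1 (fun X => kcnfOf s e dec tag X K) := by
  unfold kcnfOf
  by_cases h : ∃ p, Consis s p ∧ K.1 = cl s e dec tag p
  · refine ⟨{h.choose}, by simp, fun X Y hXY => ?_⟩
    have := hXY h.choose (by simp)
    simp only [dif_pos h, this]
  · refine ⟨∅, by simp, fun X Y _ => ?_⟩
    simp only [dif_neg h]

variable {s : Fin m → Fin B → Fin m} {e : (Fin m × Fin ℓ) ↪ Fin n}
    {dec : (Fin ℓ → Bool) ≃ Fin (2 ^ ℓ)} {tag : Fin m → Fin n}

lemma kcnfOf_cl (htag : Function.Injective tag) (htr : ∀ j, tag j ∉ Set.range e)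
    (X : (Fin m × (Fin B → Fin (2 ^ ℓ))) → Bool) (K : Clause n w)
    (p : Fin m × (Fin B → Fin (2 ^ ℓ))) (hp : Consis s p) (hK : K.1 = cl s e dec tag p) :
    kcnfOf s e dec tag X K = !(X p) := by
  have h : ∃ p, Consis s p ∧ K.1 = cl s e dec tag p := ⟨p, hp, hK⟩
  unfold kcnfOf
  rw [dif_pos h]
  have h2 := h.choose_spec
  have h3 : h.choose = p := cl_inj htag htr h2.1 hp (h2.2.symm.trans hK)
  rw [h3]

lemma kcnfOf_unit (htr : ∀ j, tag j ∉ Set.range e)
    (X : (Fin m × (Fin B → Fin (2 ^ ℓ))) → Bool) (K : Clause n w) (u : Fin n)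
    (hu : u ∉ Set.range e) (hK : K.1 = unitCl u) : kcnfOf s e dec tag X K = true := by
  have h : ¬ ∃ p, Consis s p ∧ K.1 = cl s e dec tag p := by
    rintro ⟨p, _, hp⟩
    rw [hK] at hp
    have : (tag p.1, true) ∈ unitCl u := by
      rw [hp]; exact Finset.mem_insert_self _ _
    unfold unitCl at this
    rw [Finset.mem_singleton] at this
    exact absurd (Prod.mk.inj this).2 (by simp)
  unfold kcnfOf
  rw [dif_neg h]
  exact decide_eq_true (p := ∃ u, u ∉ Set.range e ∧ K.1 = unitCl u) ⟨u, hu, hK⟩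

lemma kcnfOf_models (hw : B * ℓ + 1 ≤ w) (htag : Function.Injective tag)
    (htr : ∀ j, tag j ∉ Set.range e)
    (X : (Fin m × (Fin B → Fin (2 ^ ℓ))) → Bool) (α : Fin n → Bool) :
    KModels (w := w) (kcnfOf s e dec tag X) α ↔ (∀ v, v ∉ Set.range e → α v = false) ∧
      ∀ j, X (j, fun k => dec (fun i => α (e (s j k, i)))) = true := by
  constructor
  · intro h
    have h1 : ∀ v, v ∉ Set.range e → α v = false := by
      intro v hv
      obtain ⟨l, hl, hα⟩ := h ⟨unitCl v, by simp [unitCl]; omega⟩ (kcnfOf_unit htr X _ v hv rfl)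
      simp only [unitCl, Finset.mem_singleton] at hl
      rw [hl] at hα
      exact hα
    refine ⟨h1, fun j => ?_⟩
    by_contra hX
    have hX' : X (j, fun k => dec (fun i => α (e (s j k, i)))) = false := by simpa using hX
    have hcon : Consis s (j, fun k => dec (fun i => α (e (s j k, i)))) :=
      ⟨fun v => dec (fun i => α (e (v, i))), rfl⟩
    obtain ⟨l, hl, hα⟩ := h ⟨cl s e dec tag (j, fun k => dec (fun i => α (e (s j k, i)))),
      (cl_card s e dec tag _).trans hw⟩ (by
        rw [kcnfOf_cl htag htr X _ _ hcon rfl, hX']; rfl)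
    simp only [cl] at hl
    rcases Finset.mem_insert.1 hl with h2 | h2
    · rw [h2] at hα
      have := h1 _ (htr j)
      rw [this] at hα
      cases hα
    · obtain ⟨⟨k, i⟩, _, hq⟩ := Finset.mem_image.1 h2
      rw [← hq] at hα
      simp only [Equiv.symm_apply_apply] at hα
      cases hb : α (e (s j k, i)) <;> rw [hb] at hα <;> cases hα
  · rintro ⟨h1, h2⟩ K hK
    by_cases h : ∃ p, Consis s p ∧ K.1 = cl s e dec tag p
    · obtain ⟨p, hp, hKp⟩ := h
      rw [kcnfOf_cl htag htr X K p hp hKp] at hK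
      obtain ⟨j, τ⟩ := p
      have hX : X (j, τ) = false := by simpa using hK
      have hne : ∃ k, τ k ≠ dec (fun i => α (e (s j k, i))) := by
        by_contra hcon
        push Not at hcon
        have : τ = fun k => dec (fun i => α (e (s j k, i))) := funext hcon
        rw [this, h2 j] at hX
        cases hX
      obtain ⟨k, hk⟩ := hne
      have hne2 : ∃ i, dec.symm (τ k) i ≠ α (e (s j k, i)) := by
        by_contra hcon
        push Not at hcon
        apply hk
        rw [← funext hcon, Equiv.apply_symm_apply]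
      obtain ⟨i, hi⟩ := hne2
      refine ⟨(e (s j k, i), !(dec.symm (τ k) i)), ?_, ?_⟩
      · rw [hKp]
        exact Finset.mem_insert_of_mem (Finset.mem_image.2 ⟨(k, i), Finset.mem_univ _, rfl⟩)
      · show α (e (s j k, i)) = !(dec.symm (τ k) i)
        revert hi
        cases dec.symm (τ k) i <;> cases α (e (s j k, i)) <;> simp
    · unfold kcnfOf at hK
      rw [dif_neg h] at hK
      obtain ⟨u, hu, hKu⟩ := of_decide_eq_true hK
      refine ⟨(u, false), ?_, h1 u hu⟩
      rw [hKu]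
      exact Finset.mem_singleton_self _

lemma kcnfOf_sat (hw : B * ℓ + 1 ≤ w) (htag : Function.Injective tag)
    (htr : ∀ j, tag j ∉ Set.range e) (X : (Fin m × (Fin B → Fin (2 ^ ℓ))) → Bool) :
    (∃ α, KModels (w := w) (kcnfOf s e dec tag X) α) ↔ Sat s X := by
  constructor
  · rintro ⟨α, hα⟩
    rw [kcnfOf_models hw htag htr] at hα
    exact ⟨fun v => dec (fun i => α (e (v, i))), hα.2⟩
  · rintro ⟨a, ha⟩
    refine ⟨Function.extend e (fun p => dec.symm (a p.1) p.2) (fun _ => false), ?_⟩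
    rw [kcnfOf_models hw htag htr]
    constructor
    · intro v hv
      rw [Function.extend_apply']
      rintro ⟨p, hp⟩
      exact hv ⟨p, hp⟩
    · intro j
      have : (fun k => dec (fun i => Function.extend e
          (fun p : Fin m × Fin ℓ => dec.symm (a p.1) p.2) (fun _ => false) (e (s j k, i)))) =
          fun k => a (s j k) := by
        funext k
        have h2 : (fun i => Function.extend e
          (fun p : Fin m × Fin ℓ => dec.symm (a p.1) p.2) (fun _ => false) (e (s j k, i))) =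
            dec.symm (a (s j k)) := by
          funext i
          rw [e.injective.extend_apply]
        rw [h2, Equiv.apply_symm_apply]
      rw [this]
      exact ha j

lemma kcnfOf_unique (hw : B * ℓ + 1 ≤ w) (htag : Function.Injective tag)
    (htr : ∀ j, tag j ∉ Set.range e) (X : (Fin m × (Fin B → Fin (2 ^ ℓ))) → Bool)
    (hX : AtMostOne s X) (α β : Fin n → Bool)
    (hα : KModels (w := w) (kcnfOf s e dec tag X) α)
    (hβ : KModels (w := w) (kcnfOf s e dec tag X) β) : α = β := by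
  rw [kcnfOf_models hw htag htr] at hα hβ
  have h1 := hX (fun v => dec (fun i => α (e (v, i)))) (fun v => dec (fun i => β (e (v, i))))
    hα.2 hβ.2
  funext v
  by_cases hv : v ∈ Set.range e
  · obtain ⟨⟨u, i⟩, rfl⟩ := hv
    have h2 := congrFun h1 u
    have h3 := dec.injective h2
    exact congrFun h3 i
  · rw [hα.1 v hv, hβ.1 v hv]

end Red

/-- The lower bound for the satisfiability of CNF formulas of width `w`. -/
theorem kcnf_lower (ε : ℝ) (hε : 0 < ε) : ∃ C : ℝ, 0 < C ∧ ∀ n d w S : ℕ, 1 ≤ n → 1 ≤ d →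
    C * (√(n : ℝ) + d * Real.log n) ≤ w → w ≤ n →
    ∀ R : RandCircuit (Clause n w), R.Bounded d S →
    (∀ x : Clause n w → Bool, (∀ α β, KModels x α → KModels x β → α = β) →
      R.Correct x (∃ α, KModels x α)) →
    (2 : ℝ) ^ ((1 - ε) * n) < S := by
  classical
  obtain ⟨Q, hQ6, _, C, hC, hpar⟩ := params ε hε
  refine ⟨C, hC, ?_⟩
  intro n d w S hn hd hw hwn R hR hcor
  obtain ⟨t, m', ht, hm', hA, hB, hBw, hQn, hexp⟩ := hpar n d w hn hd hw hwn
  obtain ⟨s, hs, hsexp⟩ := scopes Q m' (by omega) (by omega)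
  -- encoding of the variables
  obtain ⟨f⟩ : Nonempty ((Fin (Q * m') × Fin (2 * d * t + 1)) ↪ Fin n) := by
    apply Function.Embedding.nonempty_of_card_le
    rw [Fintype.card_prod, Fintype.card_fin, Fintype.card_fin, Fintype.card_fin]
    exact hQn
  obtain ⟨e, he⟩ : ∃ e : (Fin (Q * m') × Fin (2 * d * t)) ↪ Fin n,
      ∀ p, e p = f (p.1, Fin.castSucc p.2) := by
    refine ⟨⟨fun p => f (p.1, Fin.castSucc p.2), ?_⟩, fun p => rfl⟩
    intro p p' h
    have h1 := f.injective h
    obtain ⟨h2, h3⟩ := Prod.mk.inj h1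
    exact Prod.ext h2 (Fin.castSucc_injective _ h3)
  obtain ⟨tag, htag'⟩ : ∃ tag : Fin (Q * m') → Fin n, ∀ j, tag j = f (j, Fin.last _) :=
    ⟨_, fun j => rfl⟩
  have htag : Function.Injective tag := by
    intro j j' h
    rw [htag', htag'] at h
    exact (Prod.mk.inj (f.injective h)).1
  have htr : ∀ j, tag j ∉ Set.range e := by
    rintro j ⟨p, hp⟩
    rw [he, htag'] at hp
    have h1 := (Prod.mk.inj (f.injective hp)).2
    exact (Fin.castSucc_lt_last p.2).ne h1
  obtain ⟨dec⟩ : Nonempty ((Fin (2 * d * t) → Bool) ≃ Fin (2 ^ (2 * d * t))) :=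
    ⟨Fintype.equivFinOfCardEq (by simp)⟩
  let _ := R.fin
  have hlow := csp_lower Q d m' t hQ6 hd hm' hA hB s hs hsexp R.prob R.nonneg R.total R.circ
    (fun X => kcnfOf s e dec tag X) (kcnfOf_junta s e dec tag)
    (fun ω => (hR ω).1) (S := S) (fun ω => (hR ω).2) (by
      intro X hX
      exact correct_iff R _ _ _ (kcnfOf_sat hBw htag htr X) (hcor (kcnfOf s e dec tag X)
        (kcnfOf_unique hBw htag htr X hX)))
  have hSR : ((2 ^ ((2 * Q - 11) * (d * t * m')) : ℕ) : ℝ) < S := by exact_mod_cast hlow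
  refine lt_of_le_of_lt ?_ hSR
  push_cast
  rw [← Real.rpow_natCast]
  exact Real.rpow_le_rpow_of_exponent_le (by norm_num) hexp

end H592R3
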