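import Mathlib
import Pool.Agent.H592R3.MobCnf
import Pool.Agent.H592R3.Kcnf

/-!
The lower bound for the satisfiability of CNF formulas given by their set of clauses, for clauses
with `C d log n` literals.
-/

namespace H592R3

open Finset DomAC0 H568R2 SmallDepth

theorem kcnf_lower2 (ε : ℝ) (hε : 0 < ε) : ∃ C : ℝ, 0 < C ∧ ∀ n d w S : ℕ, 2 ≤ n → 1 ≤ d →
    C * (d * Real.log n) ≤ w → w ≤ n →
    ∀ R : RandCircuit (Clause n w), R.Bounded d S →
    (∀ x : Clause n w → Bool, (∀ α β, KModels x α → KModels x β → α = β) →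
      R.Correct x (∃ α, KModels x α)) →
    (2 : ℝ) ^ ((1 - ε) * n) < S := by
  classical
  obtain ⟨Q, hQ6, _, C, hC, hpar⟩ := params3 ε hε
  refine ⟨C, hC, ?_⟩
  intro n d w S hn hd hw hwn R hR hcor
  obtain ⟨t, m', k, ht, hm', hA, hB1', hB2, hgk, hBw, hQn, hexp⟩ := hpar n d 0 w hn hd hw hwn
    (by simp; positivity)
  obtain ⟨s, hs, hsexp, hssm⟩ := scopes2 Q m' hQ6 (by omega)
  -- encoding of the variables
  obtain ⟨f⟩ : Nonempty ((Fin (Q * m') × Fin (2 * d * t + 1)) ↪ Fin n) := by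
    apply Function.Embedding.nonempty_of_card_le
    rw [Fintype.card_prod, Fintype.card_fin, Fintype.card_fin, Fintype.card_fin]
    exact hQn
  obtain ⟨e, he⟩ : ∃ e : (Fin (Q * m') × Fin (2 * d * t)) ↪ Fin n,
      ∀ p, e p = f (p.1, Fin.castSucc p.2) := by
    refine ⟨⟨fun p => f (p.1, Fin.castSucc p.2), ?_⟩, fun p => rfl⟩
    intro p p' h
    have h1 := f.injective h
    obtain ⟨h2, h3⟩ := Prod.mk.inj h1
    exact Prod.ext h2 (Fin.castSucc_injective _ h3)
  obtain ⟨tag, htag'⟩ : ∃ tag : Fin (Q * m') → Fin n, ∀ j, tag j = f (j, Fin.last _) :=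
    ⟨_, fun j => rfl⟩
  have htag : Function.Injective tag := by
    intro j j' h
    rw [htag', htag'] at h
    exact (Prod.mk.inj (f.injective h)).1
  have htr : ∀ j, tag j ∉ Set.range e := by
    rintro j ⟨p, hp⟩
    rw [he, htag'] at hp
    have h1 := (Prod.mk.inj (f.injective hp)).2
    exact (Fin.castSucc_lt_last p.2).ne h1
  obtain ⟨dec⟩ : Nonempty ((Fin (2 * d * t) → Bool) ≃ Fin (2 ^ (2 * d * t))) :=
    ⟨Fintype.equivFinOfCardEq (by simp)⟩
  let _ := R.fin
  have hlow := Mb2.csp_rand Q d m' t k (d * (E1 Q * m' + k)) hQ6 hd hm' rfl hA hB1' hB2 hgk s hs hsexp hssm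
    R.prob R.nonneg R.total R.circ
    (fun X => kcnfOf s e dec tag X) (kcnfOf_junta s e dec tag)
    (fun ω => (hR ω).1) (S := S) (fun ω => (hR ω).2) (by
      intro X hX
      exact correct_iff R _ _ _ (kcnfOf_sat hBw htag htr X) (hcor (kcnfOf s e dec tag X)
        (kcnfOf_unique hBw htag htr X hX)))
  have hSR : ((2 ^ ((2 * Q - 12) * (d * t * m')) : ℕ) : ℝ) < S := by exact_mod_cast hlow
  refine lt_of_le_of_lt ?_ hSR
  push_cast
  rw [← Real.rpow_natCast]
  exact Real.rpow_le_rpow_of_exponent_le (by norm_num) hexp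

end H592R3
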