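import Mathlib
import Pool.Agent.H592R3.Defs

/-!
Orthogonal vectors.
-/

namespace SmallDepth

/-- The input bits of the orthogonal vectors problem: `N` vectors of dimension `D` on the left
(`Sum.inl (i, k)` is the `k`-th bit of the `i`-th left vector) and `N` vectors on the right. -/
abbrev OvBits (N D : ℕ) : Type := (Fin N × Fin D) ⊕ (Fin N × Fin D)

/-- The left vectors are pairwise distinct, and so are the right vectors. -/
def OvDistinct {N D : ℕ} (x : OvBits N D → Bool) : Prop :=
  (∀ i j : Fin N, (∀ k, x (Sum.inl (i, k)) = x (Sum.inl (j, k))) → i = j) ∧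
  (∀ i j : Fin N, (∀ k, x (Sum.inr (i, k)) = x (Sum.inr (j, k))) → i = j)

/-- The left vector `i` and the right vector `j` are orthogonal: they have no common `1`. -/
def Orth {N D : ℕ} (x : OvBits N D → Bool) (i j : Fin N) : Prop :=
  ∀ k, ¬ (x (Sum.inl (i, k)) = true ∧ x (Sum.inr (j, k)) = true)

/-- There is an orthogonal pair. -/
def OvYes {N D : ℕ} (x : OvBits N D → Bool) : Prop := ∃ i j, Orth x i j

/-- There is at most one orthogonal pair. -/
def OvUnique {N D : ℕ} (x : OvBits N D → Bool) : Prop :=
  ∀ i j i' j', Orth x i j → Orth x i' j' → i = i' ∧ j = j'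

end SmallDepth
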