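import Mathlib
import Pool.Agent.H592R3.OvDefs
import Pool.Agent.H592R3.Cnf

/-!
The lower bound for orthogonal vectors.
-/

namespace H592R3

open Finset DomAC0 H568R2 SmallDepth

section Red
variable {m h n B N D G : ℕ}

/-- The kinds of coordinates. -/
abbrev Coord (m n B G : ℕ) : Type :=
  (Fin m × (Fin B → Fin n)) ⊕ ((Fin G ⊕ Fin G) ⊕ Bool)

/-- the left partial assignment agrees with a tuple -/
def LCons (s : Fin m → Fin B → Fin m) (θ : Fin m ≃ Fin h ⊕ Fin h) (a : Fin h → Fin n)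
    (p : Fin m × (Fin B → Fin n)) : Prop := ∀ k u, θ (s p.1 k) = Sum.inl u → p.2 k = a u

/-- the right partial assignment agrees with a tuple -/
def RCons (s : Fin m → Fin B → Fin m) (θ : Fin m ≃ Fin h ⊕ Fin h) (a : Fin h → Fin n)
    (p : Fin m × (Fin B → Fin n)) : Prop := ∀ k u, θ (s p.1 k) = Sum.inr u → p.2 k = a u

/-- the bits of the left vectors -/
def LBit (s : Fin m → Fin B → Fin m) (θ : Fin m ≃ Fin h ⊕ Fin h)
    (g : (Fin h → Fin n) ↪ Fin N) (X : (Fin m × (Fin B → Fin n)) → Bool) (i : Fin N) :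
    Coord m n B G → Prop
  | Sum.inl p => X p = false ∧ ∃ a, g a = i ∧ LCons s θ a p
  | Sum.inr (Sum.inl (Sum.inl b)) => Nat.testBit i b = true
  | Sum.inr (Sum.inl (Sum.inr _)) => False
  | Sum.inr (Sum.inr false) => True
  | Sum.inr (Sum.inr true) => i ∉ Set.range g

/-- the bits of the right vectors -/
def RBit (s : Fin m → Fin B → Fin m) (θ : Fin m ≃ Fin h ⊕ Fin h)
    (g : (Fin h → Fin n) ↪ Fin N) (i : Fin N) : Coord m n B G → Prop
  | Sum.inl p => ∃ a, g a = i ∧ RCons s θ a p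
  | Sum.inr (Sum.inl (Sum.inl _)) => False
  | Sum.inr (Sum.inl (Sum.inr b)) => Nat.testBit i b = true
  | Sum.inr (Sum.inr false) => i ∉ Set.range g
  | Sum.inr (Sum.inr true) => True

/-- The orthogonal vectors instance of a constraint satisfaction instance. -/
noncomputable def ovOf (s : Fin m → Fin B → Fin m) (θ : Fin m ≃ Fin h ⊕ Fin h)
    (g : (Fin h → Fin n) ↪ Fin N) (π : Fin D → Coord m n B G)
    (X : (Fin m × (Fin B → Fin n)) → Bool) : OvBits N D → Bool :=
  open Classical in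
  Sum.elim (fun c => decide (LBit s θ g X c.1 (π c.2))) (fun c => decide (RBit s θ g c.1 (π c.2)))

variable {s : Fin m → Fin B → Fin m} {θ : Fin m ≃ Fin h ⊕ Fin h}
    {g : (Fin h → Fin n) ↪ Fin N} {π : Fin D → Coord m n B G}

lemma ovOf_left {X : (Fin m × (Fin B → Fin n)) → Bool} {i : Fin N} {k : Fin D} :
    ovOf s θ g π X (Sum.inl (i, k)) = true ↔ LBit s θ g X i (π k) := by
  unfold ovOf
  exact @decide_eq_true_iff _ (Classical.propDecidable _)

lemma ovOf_right {X : (Fin m × (Fin B → Fin n)) → Bool} {i : Fin N} {k : Fin D} :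
    ovOf s θ g π X (Sum.inr (i, k)) = true ↔ RBit s θ g i (π k) := by
  unfold ovOf
  exact @decide_eq_true_iff _ (Classical.propDecidable _)

lemma ovOf_junta (s : Fin m → Fin B → Fin m) (θ : Fin m ≃ Fin h ⊕ Fin h)
    (g : (Fin h → Fin n) ↪ Fin N) (π : Fin D → Coord m n B G) (c : OvBits N D) :
    Junta 1 (fun X => ovOf s θ g π X c) := by
  cases c with
  | inr c => exact ⟨∅, by simp, fun X Y _ => rfl⟩
  | inl c =>
    obtain ⟨i, k⟩ := c
    have key : ∀ X Y : (Fin m × (Fin B → Fin n)) → Bool,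
        (LBit s θ g X i (π k) ↔ LBit s θ g Y i (π k)) →
        ovOf s θ g π X (Sum.inl (i, k)) = ovOf s θ g π Y (Sum.inl (i, k)) := by
      intro X Y h
      rw [Bool.eq_iff_iff, ovOf_left, ovOf_left]
      exact h
    cases hk : π k with
    | inl p =>
      refine ⟨{p}, by simp, fun X Y hXY => key X Y ?_⟩
      have := hXY p (by simp)
      rw [hk]
      simp only [LBit, this]
    | inr u =>
      refine ⟨∅, by simp, fun X Y _ => key X Y ?_⟩
      rw [hk]
      rcases u with (b | b) | (_ | _) <;> exact Iff.rfl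

/-- the glued assignment -/
def glue (θ : Fin m ≃ Fin h ⊕ Fin h) (a b : Fin h → Fin n) : Fin m → Fin n :=
  fun v => Sum.elim a b (θ v)

lemma glue_inj (θ : Fin m ≃ Fin h ⊕ Fin h) {a b a' b' : Fin h → Fin n}
    (hg : glue θ a b = glue θ a' b') : a = a' ∧ b = b' := by
  constructor
  · funext u
    have := congrFun hg (θ.symm (Sum.inl u))
    simpa [glue] using this
  · funext u
    have := congrFun hg (θ.symm (Sum.inr u))
    simpa [glue] using this

lemma ovOf_orth (hπ : Function.Surjective π) (X : (Fin m × (Fin B → Fin n)) → Bool)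
    (i j : Fin N) : Orth (ovOf s θ g π X) i j ↔ ∃ a b, g a = i ∧ g b = j ∧
      ∀ c, X (c, fun k => glue θ a b (s c k)) = true := by
  constructor
  · intro ho
    have hi : i ∈ Set.range g := by
      by_contra hcon
      obtain ⟨k, hk⟩ := hπ (Sum.inr (Sum.inr true))
      apply ho k
      rw [ovOf_left, ovOf_right, hk]
      exact ⟨hcon, trivial⟩
    have hj : j ∈ Set.range g := by
      by_contra hcon
      obtain ⟨k, hk⟩ := hπ (Sum.inr (Sum.inr false))
      apply ho k
      rw [ovOf_left, ovOf_right, hk]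
      exact ⟨trivial, hcon⟩
    obtain ⟨a, rfl⟩ := hi
    obtain ⟨b, rfl⟩ := hj
    refine ⟨a, b, rfl, rfl, fun c => ?_⟩
    by_contra hX
    obtain ⟨k, hk⟩ := hπ (Sum.inl (c, fun k => glue θ a b (s c k)))
    apply ho k
    rw [ovOf_left, ovOf_right, hk]
    refine ⟨⟨by simpa using hX, a, rfl, ?_⟩, b, rfl, ?_⟩
    · intro k u hu
      show Sum.elim a b (θ (s c k)) = a u
      rw [hu]; rfl
    · intro k u hu
      show Sum.elim a b (θ (s c k)) = b u
      rw [hu]; rfl
  · rintro ⟨a, b, rfl, rfl, hX⟩ k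
    rw [ovOf_left, ovOf_right]
    rintro ⟨h1, h2⟩
    cases hk : π k with
    | inl p =>
      rw [hk] at h1 h2
      obtain ⟨hXp, a', ha', hL⟩ := h1
      obtain ⟨b', hb', hR⟩ := h2
      have ea := g.injective ha'
      have eb := g.injective hb'
      subst ea
      subst eb
      obtain ⟨c, τ⟩ := p
      have hτ : τ = fun k => glue θ a' b' (s c k) := by
        funext k
        show τ k = Sum.elim a' b' (θ (s c k))
        cases hθ : θ (s c k) with
        | inl u => exact hL k u hθ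
        | inr u => exact hR k u hθ
      rw [hτ, hX c] at hXp
      cases hXp
    | inr u =>
      rw [hk] at h1 h2
      rcases u with (q | q) | (_ | _)
      · exact h2
      · exact h1
      · exact h2 ⟨b, rfl⟩
      · exact h1 ⟨a, rfl⟩

lemma ovOf_sat (hπ : Function.Surjective π) (X : (Fin m × (Fin B → Fin n)) → Bool) :
    OvYes (ovOf s θ g π X) ↔ Sat s X := by
  constructor
  · rintro ⟨i, j, h⟩
    rw [ovOf_orth hπ] at h
    obtain ⟨a, b, _, _, hX⟩ := h
    exact ⟨glue θ a b, hX⟩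
  · rintro ⟨a, ha⟩
    refine ⟨g (fun u => a (θ.symm (Sum.inl u))), g (fun u => a (θ.symm (Sum.inr u))), ?_⟩
    rw [ovOf_orth hπ]
    refine ⟨_, _, rfl, rfl, fun c => ?_⟩
    have : (fun k => glue θ (fun u => a (θ.symm (Sum.inl u)))
        (fun u => a (θ.symm (Sum.inr u))) (s c k)) = fun k => a (s c k) := by
      funext k
      show Sum.elim _ _ (θ (s c k)) = _
      cases hθ : θ (s c k) with
      | inl u =>
        show a (θ.symm (Sum.inl u)) = _
        rw [← hθ, Equiv.symm_apply_apply]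
      | inr u =>
        show a (θ.symm (Sum.inr u)) = _
        rw [← hθ, Equiv.symm_apply_apply]
    rw [this]
    exact ha c

lemma ovOf_unique (hπ : Function.Surjective π) (X : (Fin m × (Fin B → Fin n)) → Bool)
    (hX : AtMostOne s X) : OvUnique (ovOf s θ g π X) := by
  intro i j i' j' h1 h2
  rw [ovOf_orth hπ] at h1 h2
  obtain ⟨a, b, rfl, rfl, hab⟩ := h1
  obtain ⟨a', b', rfl, rfl, hab'⟩ := h2
  obtain ⟨e1, e2⟩ := glue_inj θ (hX _ _ hab hab')
  rw [e1, e2]
  exact ⟨rfl, rfl⟩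

lemma ovOf_distinct (hπ : Function.Surjective π) (hG : N ≤ 2 ^ G)
    (X : (Fin m × (Fin B → Fin n)) → Bool) : OvDistinct (ovOf s θ g π X) := by
  have key : ∀ i j : Fin N, (∀ b : Fin G, (Nat.testBit i b = true ↔ Nat.testBit j b = true)) →
      i = j := by
    intro i j hb
    apply Fin.ext
    apply Nat.eq_of_testBit_eq
    intro b
    rcases lt_or_ge b G with h | h
    · exact Bool.eq_iff_iff.2 (hb ⟨b, h⟩)
    · have hle : 2 ^ G ≤ 2 ^ b := Nat.pow_le_pow_right (by norm_num) h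
      rw [Nat.testBit_lt_two_pow (lt_of_lt_of_le i.2 (hG.trans hle)),
        Nat.testBit_lt_two_pow (lt_of_lt_of_le j.2 (hG.trans hle))]
  constructor
  · intro i j hij
    apply key
    intro b
    obtain ⟨k, hk⟩ := hπ (Sum.inr (Sum.inl (Sum.inl b)))
    have := hij k
    rw [Bool.eq_iff_iff, ovOf_left, ovOf_left, hk] at this
    exact this
  · intro i j hij
    apply key
    intro b
    obtain ⟨k, hk⟩ := hπ (Sum.inr (Sum.inl (Sum.inr b)))
    have := hij k
    rw [Bool.eq_iff_iff, ovOf_right, ovOf_right, hk] at this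
    exact this

end Red

/-- The lower bound for orthogonal vectors. -/
theorem ov_lower (ε : ℝ) (hε : 0 < ε) : ∃ C : ℝ, 0 < C ∧ ∀ N D Δ S : ℕ, 2 ≤ N → 1 ≤ Δ →
    C * (√(Real.logb 2 N) + Δ * Real.log (Real.logb 2 N)) ≤ Real.logb 2 N →
    (2 : ℝ) ^ (C * (√(Real.logb 2 N) + Δ * Real.log (Real.logb 2 N))) ≤ D →
    ∀ R : RandCircuit (OvBits N D), R.Bounded Δ S →
    (∀ x : OvBits N D → Bool, OvDistinct x → OvUnique x → R.Correct x (OvYes x)) →
    (N : ℝ) ^ (2 - ε) < S := by
  classical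
  obtain ⟨Q, hQ6, ⟨q, hQq⟩, C', hC', hpar⟩ := params (ε / 4) (by positivity)
  obtain ⟨C, hC⟩ : ∃ C : ℝ, C = 4 * C' + 10 + 4 / ε := ⟨_, rfl⟩
  have h4ε : 0 < 4 / ε := by positivity
  refine ⟨C, by rw [hC]; positivity, ?_⟩
  intro N D Δ S hN hΔ h1 h2 R hR hcor
  obtain ⟨L, hL⟩ : ∃ L : ℝ, L = Real.logb 2 N := ⟨_, rfl⟩
  rw [← hL] at h1 h2
  have hNR : (2 : ℝ) ≤ N := by exact_mod_cast hN
  have hN0 : (0 : ℝ) < N := by linarith
  have hL1 : 1 ≤ L := by
    rw [hL, Real.le_logb_iff_rpow_le (by norm_num) hN0, Real.rpow_one]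
    exact hNR
  have hlogL : 0 ≤ Real.log L := Real.log_nonneg hL1
  have hΔR : (1 : ℝ) ≤ Δ := by exact_mod_cast hΔ
  obtain ⟨F, hF⟩ : ∃ F : ℝ, F = √L + Δ * Real.log L := ⟨_, rfl⟩
  rw [← hF] at h1 h2
  have hsL : √L * √L = L := Real.mul_self_sqrt (by linarith)
  have hsL1 : 1 ≤ √L := Real.one_le_sqrt.2 hL1
  have hFs : √L ≤ F := by
    rw [hF]; have : 0 ≤ (Δ : ℝ) * Real.log L := by positivity
    linarith
  have hFl : Real.log L ≤ F := by
    rw [hF]
    have : 1 * Real.log L ≤ (Δ : ℝ) * Real.log L := mul_le_mul_of_nonneg_right hΔR hlogL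
    linarith
  have hF1 : 1 ≤ F := hsL1.trans hFs
  have hCpos : 10 ≤ C := by rw [hC]; linarith
  have hCs : C ≤ √L := by
    have h3 : C * √L ≤ √L * √L := by
      rw [hsL]
      exact (mul_le_mul_of_nonneg_left hFs (by linarith)).trans h1
    exact le_of_mul_le_mul_right h3 (by linarith)
  have hLC : C * C ≤ L := by
    rw [← hsL]; exact mul_le_mul hCs hCs (by linarith) (by linarith)
  have hLC1 : C ≤ L := by
    have : C * 1 ≤ C * C := mul_le_mul_of_nonneg_left (by linarith) (by linarith)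
    linarith
  have hL100 : 100 ≤ L := by
    have : (10 : ℝ) * 10 ≤ C * C := mul_le_mul hCpos hCpos (by norm_num) (by linarith)
    linarith
  -- the number of variables
  obtain ⟨K, hK⟩ : ∃ K, K = Nat.log 2 N := ⟨_, rfl⟩
  have hK1 : 2 ^ K ≤ N := by rw [hK]; exact Nat.pow_log_le_self 2 (by omega)
  have hK2 : N < 2 ^ (K + 1) := by rw [hK]; exact Nat.lt_pow_succ_log_self (by norm_num) N
  have hKL : (K : ℝ) ≤ L := by
    rw [hL, Real.le_logb_iff_rpow_le (by norm_num) hN0, Real.rpow_natCast]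
    exact_mod_cast hK1
  have hLK : L < K + 1 := by
    rw [hL, Real.logb_lt_iff_lt_rpow (by norm_num) hN0]
    have : (N : ℝ) < 2 ^ (K + 1) := by exact_mod_cast hK2
    rwa [← Real.rpow_natCast, Nat.cast_add, Nat.cast_one] at this
  obtain ⟨n, hn⟩ : ∃ n, n = 2 * K := ⟨_, rfl⟩
  have hnR : (n : ℝ) = 2 * K := by rw [hn]; push_cast; ring
  have hn1R : (1 : ℝ) ≤ n := by rw [hnR]; linarith
  have hn1 : 1 ≤ n := by exact_mod_cast hn1R
  have hn2L : (n : ℝ) ≤ 2 * L := by rw [hnR]; linarith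
  -- the width
  obtain ⟨w, hw⟩ : ∃ w, w = ⌈C' * (√(n : ℝ) + Δ * Real.log n)⌉₊ := ⟨_, rfl⟩
  have hw1 : C' * (√(n : ℝ) + Δ * Real.log n) ≤ w := by rw [hw]; exact Nat.le_ceil _
  have hlogn : 0 ≤ Real.log n := Real.log_nonneg hn1R
  have hw2 : (w : ℝ) ≤ (2 * C' + 1) * F := by
    have e1 : (w : ℝ) < C' * (√(n : ℝ) + Δ * Real.log n) + 1 := by
      rw [hw]; exact Nat.ceil_lt_add_one (by positivity)
    have e2 : √(n : ℝ) ≤ 2 * √L := by
      rw [Real.sqrt_le_left (by positivity)]
      have : (2 * √L) ^ 2 = 4 * L := by rw [mul_pow, Real.sq_sqrt (by linarith)]; norm_num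
      rw [this]; linarith
    have e3 : Real.log n ≤ 2 * Real.log L := by
      have : Real.log n ≤ Real.log (L * L) := by
        apply Real.log_le_log (by linarith)
        have : 100 * L ≤ L * L := mul_le_mul_of_nonneg_right hL100 (by linarith)
        linarith
      rw [Real.log_mul (by linarith) (by linarith)] at this
      linarith
    have e4 : C' * (√(n : ℝ) + Δ * Real.log n) ≤ C' * (2 * F) := by
      apply mul_le_mul_of_nonneg_left _ hC'.le
      have : (Δ : ℝ) * Real.log n ≤ Δ * (2 * Real.log L) :=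
        mul_le_mul_of_nonneg_left e3 (by linarith)
      rw [hF]; linarith
    linarith
  have hCF : (4 * C' + 10) * F ≤ C * F := by
    apply mul_le_mul_of_nonneg_right _ (by linarith)
    rw [hC]; linarith
  have hC'F : 0 ≤ C' * F := by positivity
  have hwn : w ≤ n := by
    have : (w : ℝ) ≤ n := by
      rw [hnR]
      have e1 : 2 * ((2 * C' + 1) * F) ≤ L := by
        have : 2 * ((2 * C' + 1) * F) ≤ (4 * C' + 10) * F := by
          have : (0 : ℝ) ≤ F := by linarith
          linarith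
        linarith
      linarith
    exact_mod_cast this
  obtain ⟨t, m', ht, hm', hA, hB, hBw, hQn, hexp⟩ := hpar n Δ w hn1 hΔ hw1 hwn
  obtain ⟨s, hs, hsexp⟩ := scopes Q m' (by omega) (by omega)
  have hdt : 1 ≤ Δ * t := Nat.one_le_iff_ne_zero.2 (by positivity)
  have hℓ2 : 2 ≤ 2 * Δ * t := by
    have : 2 * Δ * t = 2 * (Δ * t) := by ring
    omega
  have hcard1 : Q * m' * (2 * Δ * t) ≤ n := by
    refine le_trans ?_ hQn
    exact Nat.mul_le_mul_left _ (by omega)
  -- splitting the variables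
  obtain ⟨θ⟩ : Nonempty (Fin (Q * m') ≃ Fin (q * m') ⊕ Fin (q * m')) := by
    refine ⟨Fintype.equivOfCardEq ?_⟩
    rw [Fintype.card_sum, Fintype.card_fin, Fintype.card_fin, hQq]
    ring
  obtain ⟨g⟩ : Nonempty ((Fin (q * m') → Fin (2 ^ (2 * Δ * t))) ↪ Fin N) := by
    apply Function.Embedding.nonempty_of_card_le
    rw [Fintype.card_fun, Fintype.card_fin, Fintype.card_fin, Fintype.card_fin]
    refine le_trans ?_ hK1
    rw [← pow_mul]
    apply Nat.pow_le_pow_right (by norm_num)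
    have : 2 * (2 * Δ * t * (q * m')) = Q * m' * (2 * Δ * t) := by rw [hQq]; ring
    omega
  -- the coordinates
  have hcard2 : Fintype.card (Coord (Q * m') (2 ^ (2 * Δ * t)) (2 * Q ^ 2 + 1) (K + 1)) ≤ D := by
    have c1 : Fintype.card (Coord (Q * m') (2 ^ (2 * Δ * t)) (2 * Q ^ 2 + 1) (K + 1)) =
        Q * m' * (2 ^ (2 * Δ * t)) ^ (2 * Q ^ 2 + 1) + (K + 1 + (K + 1) + 2) := by
      simp [Coord, Fintype.card_sum, Fintype.card_prod, Fintype.card_fun, Fintype.card_fin,
        Fintype.card_bool]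
    have c2 : (2 ^ (2 * Δ * t)) ^ (2 * Q ^ 2 + 1) ≤ 2 ^ w := by
      rw [← pow_mul]
      apply Nat.pow_le_pow_right (by norm_num)
      rw [mul_comm]; omega
    have c3 : Q * m' ≤ n := by
      refine le_trans ?_ hcard1
      exact Nat.le_mul_of_pos_right _ (by omega)
    have c4 : Q * m' * (2 ^ (2 * Δ * t)) ^ (2 * Q ^ 2 + 1) ≤ n * 2 ^ w := Nat.mul_le_mul c3 c2
    have c5 : 1 ≤ 2 ^ w := Nat.one_le_two_pow
    have c6 : 4 ≤ n := by
      have : (4 : ℝ) ≤ n := by rw [hnR]; linarith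
      exact_mod_cast this
    have c7 : n * 1 ≤ n * 2 ^ w := Nat.mul_le_mul_left _ c5
    have c8 : Fintype.card (Coord (Q * m') (2 ^ (2 * Δ * t)) (2 * Q ^ 2 + 1) (K + 1)) ≤
        3 * (n * 2 ^ w) := by
      rw [c1]; omega
    have c9 : ((3 * (n * 2 ^ w) : ℕ) : ℝ) ≤ D := by
      refine le_trans ?_ h2
      push_cast
      have g1 : (3 : ℝ) ≤ 2 ^ (2 * F) := by
        have : (2 : ℝ) ^ (2 : ℝ) ≤ 2 ^ (2 * F) :=
          Real.rpow_le_rpow_of_exponent_le (by norm_num) (by linarith)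
        have e : (2 : ℝ) ^ (2 : ℝ) = 4 := by norm_num
        linarith
      have g2 : (n : ℝ) ≤ 2 ^ (3 * F) := by
        have k1 : (2 : ℝ) * L ≤ 2 ^ (3 * F) := by
          rw [show 3 * F = F + 2 * F by ring, Real.rpow_add (by norm_num)]
          have k2 : (2 : ℝ) ≤ 2 ^ F := by
            calc (2 : ℝ) = 2 ^ (1 : ℝ) := (Real.rpow_one 2).symm
              _ ≤ 2 ^ F := Real.rpow_le_rpow_of_exponent_le (by norm_num) hF1
          have k3 : L ≤ 2 ^ (2 * F) := by
            have hlog2 : (1 : ℝ) / 2 ≤ Real.log 2 := by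
              have := Real.log_two_gt_d9
              linarith
            rw [← Real.log_le_log_iff (by linarith) (by positivity),
              Real.log_rpow (by norm_num)]
            have : (2 * F) * (1 / 2) ≤ (2 * F) * Real.log 2 :=
              mul_le_mul_of_nonneg_left hlog2 (by linarith)
            linarith
          exact mul_le_mul k2 k3 (by linarith) (by positivity)
        linarith
      have g3 : (2 : ℝ) ^ w ≤ 2 ^ ((2 * C' + 1) * F) := by
        rw [← Real.rpow_natCast]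
        exact Real.rpow_le_rpow_of_exponent_le (by norm_num) hw2
      calc (3 : ℝ) * (n * 2 ^ w) ≤ 2 ^ (2 * F) * (2 ^ (3 * F) * 2 ^ ((2 * C' + 1) * F)) := by
            gcongr
        _ = 2 ^ (2 * F + (3 * F + (2 * C' + 1) * F)) := by
            rw [Real.rpow_add (by norm_num), Real.rpow_add (by norm_num)]
        _ ≤ 2 ^ (C * F) := by
            apply Real.rpow_le_rpow_of_exponent_le (by norm_num)
            have : (0 : ℝ) ≤ F := by linarith
            linarith
    have c10 : 3 * (n * 2 ^ w) ≤ D := by exact_mod_cast c9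
    exact c8.trans c10
  obtain ⟨π, hπ⟩ : ∃ π : Fin D → Coord (Q * m') (2 ^ (2 * Δ * t)) (2 * Q ^ 2 + 1) (K + 1),
      Function.Surjective π := by
    have : Nonempty (Coord (Q * m') (2 ^ (2 * Δ * t)) (2 * Q ^ 2 + 1) (K + 1)) :=
      ⟨Sum.inr (Sum.inr true)⟩
    obtain ⟨g'⟩ : Nonempty (Coord (Q * m') (2 ^ (2 * Δ * t)) (2 * Q ^ 2 + 1) (K + 1) ↪ Fin D) := by
      apply Function.Embedding.nonempty_of_card_le
      rw [Fintype.card_fin]
      exact hcard2
    exact ⟨Function.invFun g', Function.invFun_surjective g'.injective⟩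
  let _ := R.fin
  have hlow := csp_lower Q Δ m' t hQ6 hΔ hm' hA hB s hs hsexp R.prob R.nonneg R.total R.circ
    (fun X => ovOf s θ g π X) (ovOf_junta s θ g π)
    (fun ω => (hR ω).1) (S := S) (fun ω => (hR ω).2) (by
      intro X hX
      exact correct_iff R _ _ _ (ovOf_sat hπ X) (hcor (ovOf s θ g π X)
        (ovOf_distinct hπ hK2.le X) (ovOf_unique hπ X hX)))
  have hSR : ((2 ^ ((2 * Q - 11) * (Δ * t * m')) : ℕ) : ℝ) < S := by exact_mod_cast hlow
  refine lt_of_le_of_lt ?_ hSR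
  push_cast
  have hN2 : (N : ℝ) = 2 ^ L := by
    rw [hL, Real.rpow_logb (by norm_num) (by norm_num) hN0]
  rw [hN2, ← Real.rpow_mul (by norm_num), ← Real.rpow_natCast]
  apply Real.rpow_le_rpow_of_exponent_le (by norm_num)
  refine le_trans ?_ hexp
  have hLε : 4 ≤ ε * L := by
    have : 4 / ε ≤ L := by linarith
    rw [div_le_iff₀ hε] at this
    linarith
  rcases le_total 0 (1 - ε / 4) with hpos | hneg
  · have e1 : (1 - ε / 4) * (2 * L - 2) ≤ (1 - ε / 4) * n := by
      apply mul_le_mul_of_nonneg_left _ hpos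
      rw [hnR]; linarith
    linarith
  · have e1 : (1 - ε / 4) * (2 * L) ≤ (1 - ε / 4) * n :=
      mul_le_mul_of_nonpos_left hn2L hneg
    have : 0 ≤ ε * L := by positivity
    linarith

end H592R3
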