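import Mathlib
import Pool.Agent.H592R3.MobCnf
import Pool.Agent.H592R3.Ov

/-!
The lower bound for orthogonal vectors of polylogarithmic dimension.
-/

namespace H592R3

open Finset DomAC0 H568R2 SmallDepth

theorem ov_lower2 (ε : ℝ) (hε : 0 < ε) : ∃ C : ℝ, 0 < C ∧ ∀ N D Δ S : ℕ, 4 ≤ N → 1 ≤ Δ →
    C * (Δ * Real.log (Real.logb 2 N)) ≤ Real.logb 2 N →
    (Real.logb 2 N) ^ (C * Δ) ≤ D →
    ∀ R : RandCircuit (OvBits N D), R.Bounded Δ S →
    (∀ x : OvBits N D → Bool, OvDistinct x → OvUnique x → R.Correct x (OvYes x)) →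
    (N : ℝ) ^ (2 - ε) < S := by
  classical
  obtain ⟨Q, hQ6, ⟨q, hQq⟩, C', hC', hpar⟩ := params3 (ε / 4) (by positivity)
  obtain ⟨C, hC⟩ : ∃ C : ℝ, C = 4 * C' + 200 + 8 / ε := ⟨_, rfl⟩
  have h4ε : 0 < 8 / ε := by positivity
  refine ⟨C, by rw [hC]; positivity, ?_⟩
  intro N D Δ S hN hΔ h1 h2 R hR hcor
  obtain ⟨L, hL⟩ : ∃ L : ℝ, L = Real.logb 2 N := ⟨_, rfl⟩
  rw [← hL] at h1 h2
  have hNR : (4 : ℝ) ≤ N := by exact_mod_cast hN
  have hN0 : (0 : ℝ) < N := by linarith
  have hL2 : 2 ≤ L := by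
    rw [hL, Real.le_logb_iff_rpow_le (by norm_num) hN0]
    norm_num
    exact hN
  have hL1 : 1 ≤ L := by linarith
  have hlogL : 0 ≤ Real.log L := Real.log_nonneg hL1
  have hΔR : (1 : ℝ) ≤ Δ := by exact_mod_cast hΔ
  obtain ⟨F, hF⟩ : ∃ F : ℝ, F = Δ * Real.log L := ⟨_, rfl⟩
  rw [← hF] at h1
  have hFl : Real.log L ≤ F := by
    rw [hF]
    have : 1 * Real.log L ≤ (Δ : ℝ) * Real.log L := mul_le_mul_of_nonneg_right hΔR hlogL
    linarith
  have hlog2' : (1 : ℝ) / 2 ≤ Real.log 2 := by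
    have := Real.log_two_gt_d9
    linarith
  have hFh : 1 / 2 ≤ F := by
    have := Real.log_le_log (by norm_num) hL2
    linarith
  have hCpos : 200 ≤ C := by rw [hC]; linarith
  have hLC2 : C / 2 ≤ L := by
    have : C * (1 / 2) ≤ C * F := mul_le_mul_of_nonneg_left hFh (by linarith)
    linarith
  have hL100 : 100 ≤ L := by linarith
  have hF1 : 1 ≤ F := by
    have h3 : Real.log 100 ≤ Real.log L := Real.log_le_log (by norm_num) hL100
    have h4 : Real.log 4 ≤ Real.log 100 := Real.log_le_log (by norm_num) (by norm_num)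
    have h5 : Real.log 4 = 2 * Real.log 2 := by
      rw [show (4 : ℝ) = 2 ^ 2 by norm_num, Real.log_pow]; norm_num
    linarith
  have h2 : (2 : ℝ) ^ (C * F) ≤ D := by
    refine le_trans ?_ h2
    rw [Real.rpow_def_of_pos (by norm_num), Real.rpow_def_of_pos (by linarith)]
    apply Real.exp_le_exp.2
    have h3 : Real.log 2 ≤ 1 := by
      have := Real.log_two_lt_d9
      linarith
    have h4 : 0 ≤ C * F := by
      have : 0 ≤ F := by linarith
      have : 0 ≤ C := by linarith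
      positivity
    calc Real.log 2 * (C * F) ≤ 1 * (C * F) := mul_le_mul_of_nonneg_right h3 h4
      _ = Real.log L * (C * Δ) := by rw [hF]; ring
  -- the number of variables
  obtain ⟨K, hK⟩ : ∃ K, K = Nat.log 2 N := ⟨_, rfl⟩
  have hK1 : 2 ^ K ≤ N := by rw [hK]; exact Nat.pow_log_le_self 2 (by omega)
  have hK2 : N < 2 ^ (K + 1) := by rw [hK]; exact Nat.lt_pow_succ_log_self (by norm_num) N
  have hKL : (K : ℝ) ≤ L := by
    rw [hL, Real.le_logb_iff_rpow_le (by norm_num) hN0, Real.rpow_natCast]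
    exact_mod_cast hK1
  have hLK : L < K + 1 := by
    rw [hL, Real.logb_lt_iff_lt_rpow (by norm_num) hN0]
    have : (N : ℝ) < 2 ^ (K + 1) := by exact_mod_cast hK2
    rwa [← Real.rpow_natCast, Nat.cast_add, Nat.cast_one] at this
  obtain ⟨n, hn⟩ : ∃ n, n = 2 * K := ⟨_, rfl⟩
  have hnR : (n : ℝ) = 2 * K := by rw [hn]; push_cast; ring
  have hn1R : (1 : ℝ) ≤ n := by rw [hnR]; linarith
  have hn1 : 1 ≤ n := by exact_mod_cast hn1R
  have hn2L : (n : ℝ) ≤ 2 * L := by rw [hnR]; linarith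
  -- the width
  obtain ⟨w, hw⟩ : ∃ w, w = ⌈C' * (Δ * Real.log n)⌉₊ := ⟨_, rfl⟩
  have hw1 : C' * (Δ * Real.log n) ≤ w := by rw [hw]; exact Nat.le_ceil _
  have hlogn : 0 ≤ Real.log n := Real.log_nonneg hn1R
  have hw2 : (w : ℝ) ≤ (2 * C' + 1) * F := by
    have e1 : (w : ℝ) < C' * (Δ * Real.log n) + 1 := by
      rw [hw]; exact Nat.ceil_lt_add_one (by positivity)
    have e3 : Real.log n ≤ 2 * Real.log L := by
      have : Real.log n ≤ Real.log (L * L) := by
        apply Real.log_le_log (by linarith)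
        have : 100 * L ≤ L * L := mul_le_mul_of_nonneg_right hL100 (by linarith)
        linarith
      rw [Real.log_mul (by linarith) (by linarith)] at this
      linarith
    have e4 : C' * (Δ * Real.log n) ≤ C' * (2 * F) := by
      apply mul_le_mul_of_nonneg_left _ hC'.le
      have : (Δ : ℝ) * Real.log n ≤ Δ * (2 * Real.log L) :=
        mul_le_mul_of_nonneg_left e3 (by linarith)
      rw [hF]; linarith
    linarith
  have hCF : (4 * C' + 10) * F ≤ C * F := by
    apply mul_le_mul_of_nonneg_right _ (by linarith)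
    rw [hC]; linarith
  have hC'F : 0 ≤ C' * F := by positivity
  have hwn : w ≤ n := by
    have : (w : ℝ) ≤ n := by
      rw [hnR]
      have e1 : 2 * ((2 * C' + 1) * F) ≤ L := by
        have : 2 * ((2 * C' + 1) * F) ≤ (4 * C' + 10) * F := by
          have : (0 : ℝ) ≤ F := by linarith
          linarith
        linarith
      linarith
    exact_mod_cast this
  have hn2' : 2 ≤ n := by
    have : (2 : ℝ) ≤ n := by rw [hnR]; linarith
    exact_mod_cast this
  obtain ⟨t, m', k, ht, hm', hA, hB1', hB2, hgk, hBw, hQn, hexp⟩ := hpar n Δ 0 w hn2' hΔ hw1 hwn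
    (by simp; positivity)
  obtain ⟨s, hs, hsexp, hssm⟩ := scopes2 Q m' hQ6 (by omega)
  have hdt : 1 ≤ Δ * t := Nat.one_le_iff_ne_zero.2 (by positivity)
  have hℓ2 : 2 ≤ 2 * Δ * t := by
    have : 2 * Δ * t = 2 * (Δ * t) := by ring
    omega
  have hcard1 : Q * m' * (2 * Δ * t) ≤ n := by
    refine le_trans ?_ hQn
    exact Nat.mul_le_mul_left _ (by omega)
  -- splitting the variables
  obtain ⟨θ⟩ : Nonempty (Fin (Q * m') ≃ Fin (q * m') ⊕ Fin (q * m')) := by
    refine ⟨Fintype.equivOfCardEq ?_⟩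
    rw [Fintype.card_sum, Fintype.card_fin, Fintype.card_fin, hQq]
    ring
  obtain ⟨g⟩ : Nonempty ((Fin (q * m') → Fin (2 ^ (2 * Δ * t))) ↪ Fin N) := by
    apply Function.Embedding.nonempty_of_card_le
    rw [Fintype.card_fun, Fintype.card_fin, Fintype.card_fin, Fintype.card_fin]
    refine le_trans ?_ hK1
    rw [← pow_mul]
    apply Nat.pow_le_pow_right (by norm_num)
    have : 2 * (2 * Δ * t * (q * m')) = Q * m' * (2 * Δ * t) := by rw [hQq]; ring
    omega
  -- the coordinates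
  have hcard2 : Fintype.card (Coord (Q * m') (2 ^ (2 * Δ * t)) (2 * Q ^ 2 + 14 + 1) (K + 1)) ≤ D := by
    have c1 : Fintype.card (Coord (Q * m') (2 ^ (2 * Δ * t)) (2 * Q ^ 2 + 14 + 1) (K + 1)) =
        Q * m' * (2 ^ (2 * Δ * t)) ^ (2 * Q ^ 2 + 14 + 1) + (K + 1 + (K + 1) + 2) := by
      simp [Coord, Fintype.card_sum, Fintype.card_prod, Fintype.card_fun, Fintype.card_fin,
        Fintype.card_bool]
    have c2 : (2 ^ (2 * Δ * t)) ^ (2 * Q ^ 2 + 14 + 1) ≤ 2 ^ w := by
      rw [← pow_mul]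
      apply Nat.pow_le_pow_right (by norm_num)
      rw [mul_comm]; omega
    have c3 : Q * m' ≤ n := by
      refine le_trans ?_ hcard1
      exact Nat.le_mul_of_pos_right _ (by omega)
    have c4 : Q * m' * (2 ^ (2 * Δ * t)) ^ (2 * Q ^ 2 + 14 + 1) ≤ n * 2 ^ w := Nat.mul_le_mul c3 c2
    have c5 : 1 ≤ 2 ^ w := Nat.one_le_two_pow
    have c6 : 4 ≤ n := by
      have : (4 : ℝ) ≤ n := by rw [hnR]; linarith
      exact_mod_cast this
    have c7 : n * 1 ≤ n * 2 ^ w := Nat.mul_le_mul_left _ c5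
    have c8 : Fintype.card (Coord (Q * m') (2 ^ (2 * Δ * t)) (2 * Q ^ 2 + 14 + 1) (K + 1)) ≤
        3 * (n * 2 ^ w) := by
      rw [c1]; omega
    have c9 : ((3 * (n * 2 ^ w) : ℕ) : ℝ) ≤ D := by
      refine le_trans ?_ h2
      push_cast
      have g1 : (3 : ℝ) ≤ 2 ^ (2 * F) := by
        have : (2 : ℝ) ^ (2 : ℝ) ≤ 2 ^ (2 * F) :=
          Real.rpow_le_rpow_of_exponent_le (by norm_num) (by linarith)
        have e : (2 : ℝ) ^ (2 : ℝ) = 4 := by norm_num
        linarith
      have g2 : (n : ℝ) ≤ 2 ^ (3 * F) := by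
        have k1 : (2 : ℝ) * L ≤ 2 ^ (3 * F) := by
          rw [show 3 * F = F + 2 * F by ring, Real.rpow_add (by norm_num)]
          have k2 : (2 : ℝ) ≤ 2 ^ F := by
            calc (2 : ℝ) = 2 ^ (1 : ℝ) := (Real.rpow_one 2).symm
              _ ≤ 2 ^ F := Real.rpow_le_rpow_of_exponent_le (by norm_num) hF1
          have k3 : L ≤ 2 ^ (2 * F) := by
            have hlog2 : (1 : ℝ) / 2 ≤ Real.log 2 := by
              have := Real.log_two_gt_d9
              linarith
            rw [← Real.log_le_log_iff (by linarith) (by positivity),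
              Real.log_rpow (by norm_num)]
            have : (2 * F) * (1 / 2) ≤ (2 * F) * Real.log 2 :=
              mul_le_mul_of_nonneg_left hlog2 (by linarith)
            linarith
          exact mul_le_mul k2 k3 (by linarith) (by positivity)
        linarith
      have g3 : (2 : ℝ) ^ w ≤ 2 ^ ((2 * C' + 1) * F) := by
        rw [← Real.rpow_natCast]
        exact Real.rpow_le_rpow_of_exponent_le (by norm_num) hw2
      calc (3 : ℝ) * (n * 2 ^ w) ≤ 2 ^ (2 * F) * (2 ^ (3 * F) * 2 ^ ((2 * C' + 1) * F)) := by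
            gcongr
        _ = 2 ^ (2 * F + (3 * F + (2 * C' + 1) * F)) := by
            rw [Real.rpow_add (by norm_num), Real.rpow_add (by norm_num)]
        _ ≤ 2 ^ (C * F) := by
            apply Real.rpow_le_rpow_of_exponent_le (by norm_num)
            have : (0 : ℝ) ≤ F := by linarith
            linarith
    have c10 : 3 * (n * 2 ^ w) ≤ D := by exact_mod_cast c9
    exact c8.trans c10
  obtain ⟨π, hπ⟩ : ∃ π : Fin D → Coord (Q * m') (2 ^ (2 * Δ * t)) (2 * Q ^ 2 + 14 + 1) (K + 1),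
      Function.Surjective π := by
    have : Nonempty (Coord (Q * m') (2 ^ (2 * Δ * t)) (2 * Q ^ 2 + 14 + 1) (K + 1)) :=
      ⟨Sum.inr (Sum.inr true)⟩
    obtain ⟨g'⟩ : Nonempty (Coord (Q * m') (2 ^ (2 * Δ * t)) (2 * Q ^ 2 + 14 + 1) (K + 1) ↪ Fin D) := by
      apply Function.Embedding.nonempty_of_card_le
      rw [Fintype.card_fin]
      exact hcard2
    exact ⟨Function.invFun g', Function.invFun_surjective g'.injective⟩
  let _ := R.fin
  have hlow := Mb2.csp_rand Q Δ m' t k (Δ * (E1 Q * m' + k)) hQ6 hΔ hm' rfl hA hB1' hB2 hgk s hs hsexp hssm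
    R.prob R.nonneg R.total R.circ
    (fun X => ovOf s θ g π X) (ovOf_junta s θ g π)
    (fun ω => (hR ω).1) (S := S) (fun ω => (hR ω).2) (by
      intro X hX
      exact correct_iff R _ _ _ (ovOf_sat hπ X) (hcor (ovOf s θ g π X)
        (ovOf_distinct hπ hK2.le X) (ovOf_unique hπ X hX)))
  have hSR : ((2 ^ ((2 * Q - 12) * (Δ * t * m')) : ℕ) : ℝ) < S := by exact_mod_cast hlow
  refine lt_of_le_of_lt ?_ hSR
  push_cast
  have hN2 : (N : ℝ) = 2 ^ L := by
    rw [hL, Real.rpow_logb (by norm_num) (by norm_num) hN0]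
  rw [hN2, ← Real.rpow_mul (by norm_num), ← Real.rpow_natCast]
  apply Real.rpow_le_rpow_of_exponent_le (by norm_num)
  refine le_trans ?_ hexp
  have hLε : 4 ≤ ε * L := by
    have h8 : 8 / ε ≤ 2 * L := by linarith
    rw [div_le_iff₀ hε] at h8
    linarith
  rcases le_total 0 (1 - ε / 4) with hpos | hneg
  · have e1 : (1 - ε / 4) * (2 * L - 2) ≤ (1 - ε / 4) * n := by
      apply mul_le_mul_of_nonneg_left _ hpos
      rw [hnR]; linarith
    linarith
  · have e1 : (1 - ε / 4) * (2 * L) ≤ (1 - ε / 4) * n :=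
      mul_le_mul_of_nonpos_left hn2L hneg
    have : 0 ≤ ε * L := by positivity
    linarith

end H592R3
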